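import Pool.Agent.Lib.MP_26a019_lc.Nest.InsFS

set_option autoImplicit false

/-!
# The vertices of positive slack: the five cases, the elimination structures, the smaller instances
-/

open Finset Classical

namespace Pool.Agent.Nest

variable {V : Type} [Fintype V]

set_option linter.unusedSectionVars false

/-! ### sums of natural numbers -/

theorem nsum_one {A : Finset V} {n : V → ℕ} (h : ∑ u ∈ A, n u = 1) :
    ∃ w ∈ A, ∀ u ∈ A, n u = if u = w then 1 else 0 := by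
  have hex : ∃ w ∈ A, n w ≠ 0 := by
    by_contra hcon
    push Not at hcon
    rw [sum_eq_zero hcon] at h
    exact absurd h (by norm_num)
  obtain ⟨w, hw, hne⟩ := hex
  refine ⟨w, hw, fun u hu => ?_⟩
  have h1 := add_sum_erase A n hw
  by_cases huw : u = w
  · subst huw
    rw [if_pos rfl]
    omega
  · rw [if_neg huw]
    have h2 : ∑ x ∈ A.erase w, n x = 0 := by omega
    exact (sum_eq_zero_iff.1 h2) u (mem_erase.2 ⟨huw, hu⟩)

theorem nsum_two {A : Finset V} {n : V → ℕ} (h : ∑ u ∈ A, n u = 2) :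
    ∃ w₁ ∈ A, ∃ w₂ ∈ A, ∀ u ∈ A, n u = (if u = w₁ then 1 else 0) + (if u = w₂ then 1 else 0) := by
  have hex : ∃ w ∈ A, n w ≠ 0 := by
    by_contra hcon
    push Not at hcon
    rw [sum_eq_zero hcon] at h
    exact absurd h (by norm_num)
  obtain ⟨w, hw, hne⟩ := hex
  have h1 : ∑ u ∈ A, (n u - if u = w then 1 else 0) = 1 := by
    have e1 := add_sum_erase A n hw
    have e2 := add_sum_erase A (fun u => n u - if u = w then 1 else 0) hw
    have e3 : ∑ u ∈ A.erase w, (n u - if u = w then 1 else 0) = ∑ u ∈ A.erase w, n u :=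
      sum_congr rfl fun u hu => by rw [if_neg (mem_erase.1 hu).1, Nat.sub_zero]
    rw [← e2, e3, if_pos rfl]
    omega
  obtain ⟨w₂, hw₂, h2⟩ := nsum_one h1
  refine ⟨w, hw, w₂, hw₂, fun u hu => ?_⟩
  have h3 := h2 u hu
  by_cases huw : u = w
  · subst huw
    rw [if_pos rfl] at h3 ⊢
    omega
  · rw [if_neg huw] at h3 ⊢
    omega

/-! ### the case list -/

/-- A vertex of positive slack has no edges, one or two inequality edges, one equality edge, or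
one edge of each kind. -/
theorem case_list (I : Ins V) (hI : I.Ok) {v : V} (hv : v ∈ I.A) (hs : 0 < I.s v) :
    ((∀ u ∈ I.A, I.a v u = 0) ∧ ∀ u ∈ I.A, I.b v u = 0) ∨
    (∃ w ∈ I.A.erase v, (∀ u ∈ I.A, I.a v u = if u = w then 1 else 0) ∧
      ∀ u ∈ I.A, I.b v u = 0) ∨
    (∃ w₁ ∈ I.A.erase v, ∃ w₂ ∈ I.A.erase v,
      (∀ u ∈ I.A, I.a v u = (if u = w₁ then 1 else 0) + (if u = w₂ then 1 else 0)) ∧
      ∀ u ∈ I.A, I.b v u = 0) ∨
    (∃ w ∈ I.A.erase v, (∀ u ∈ I.A, I.a v u = 0) ∧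
      ∀ u ∈ I.A, I.b v u = if u = w then 1 else 0) ∨
    (∃ w₁ ∈ I.A.erase v, ∃ w₂ ∈ I.A.erase v,
      (∀ u ∈ I.A, I.a v u = if u = w₂ then 1 else 0) ∧
      ∀ u ∈ I.A, I.b v u = if u = w₁ then 1 else 0) := by
  obtain ⟨α, hα⟩ : ∃ α : ℕ, α = ∑ w ∈ I.A, I.a v w := ⟨_, rfl⟩
  obtain ⟨β, hβ⟩ : ∃ β : ℕ, β = ∑ w ∈ I.A, I.b v w := ⟨_, rfl⟩
  have h1 : 2 * α + 3 * β < 6 := by
    have h2 : I.s v = 3 - (α : ℝ) - 3 / 2 * (β : ℝ) := by
      unfold Ins.s
      rw [hα, hβ]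
      push_cast
      ring
    rw [h2] at hs
    have h3 : 2 * (α : ℝ) + 3 * (β : ℝ) < 6 := by linarith
    exact_mod_cast h3
  have ha : ∀ w ∈ I.A, I.a v w ≠ 0 → w ∈ I.A.erase v := by
    intro w hw hne
    refine mem_erase.2 ⟨?_, hw⟩
    rintro rfl
    exact hne (hI.aloop _)
  have hb : β ≤ 1 → ∀ w ∈ I.A, I.b v w ≠ 0 → w ∈ I.A.erase v := by
    intro hβ1 w hw hne
    refine mem_erase.2 ⟨?_, hw⟩
    rintro rfl
    have h2 := add_sum_erase I.A (fun u => I.b w u) hw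
    have h3 := hI.bloop w
    rw [← hβ] at h2
    obtain ⟨k, hk⟩ := h3
    omega
  have hβ1 : β ≤ 1 := by omega
  rcases Nat.lt_or_ge β 1 with hβ0 | hβ0
  · -- no equality edges
    have hb0 : ∀ u ∈ I.A, I.b v u = 0 := by
      have : ∑ w ∈ I.A, I.b v w = 0 := by omega
      exact fun u hu => (sum_eq_zero_iff.1 this) u hu
    have hα2 : α = 0 ∨ α = 1 ∨ α = 2 := by omega
    rcases hα2 with h | h | h
    · left
      have : ∑ w ∈ I.A, I.a v w = 0 := by omega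
      exact ⟨fun u hu => (sum_eq_zero_iff.1 this) u hu, hb0⟩
    · right; left
      obtain ⟨w, hw, h2⟩ := nsum_one (hα.symm.trans h)
      exact ⟨w, ha w hw (by rw [h2 w hw]; simp), h2, hb0⟩
    · right; right; left
      obtain ⟨w₁, hw₁, w₂, hw₂, h2⟩ := nsum_two (hα.symm.trans h)
      exact ⟨w₁, ha w₁ hw₁ (by rw [h2 w₁ hw₁]; simp), w₂, ha w₂ hw₂ (by rw [h2 w₂ hw₂]; simp),
        h2, hb0⟩
  · have hβe : β = 1 := by omega
    obtain ⟨w₁, hw₁, h2⟩ := nsum_one (hβ.symm.trans hβe)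
    have hα1 : α = 0 ∨ α = 1 := by omega
    rcases hα1 with h | h
    · right; right; right; left
      have : ∑ w ∈ I.A, I.a v w = 0 := by omega
      exact ⟨w₁, hb hβ1 w₁ hw₁ (by rw [h2 w₁ hw₁]; simp),
        fun u hu => (sum_eq_zero_iff.1 this) u hu, h2⟩
    · right; right; right; right
      obtain ⟨w₂, hw₂, h3⟩ := nsum_one (hα.symm.trans h)
      exact ⟨w₁, hb hβ1 w₁ hw₁ (by rw [h2 w₁ hw₁]; simp),
        w₂, ha w₂ hw₂ (by rw [h3 w₂ hw₂]; simp), h3, h2⟩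

/-! ### the smaller instances -/

theorem Ins.Ok.del {I : Ins V} (hI : I.Ok) (v : V) : (I.del v).Ok :=
  ⟨hI.asym, hI.bsym, hI.aloop, hI.bloop⟩

theorem Ins.Ok.delB {I : Ins V} (hI : I.Ok) (v w₁ w₂ : V) : (I.delB v w₁ w₂).Ok := by
  refine ⟨hI.asym, fun u w => ?_, hI.aloop, fun u => ?_⟩
  · show I.b u w + link w₁ w₂ u w = I.b w u + link w₁ w₂ w u
    rw [hI.bsym, link_symm]
  · exact (hI.bloop u).add (link_loop w₁ w₂ u)

theorem Ins.Ok.delA {I : Ins V} (hI : I.Ok) (v : V) {w₁ w₂ : V} (hw : w₁ ≠ w₂) :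
    (I.delA v w₁ w₂).Ok := by
  refine ⟨fun u w => ?_, hI.bsym, fun u => ?_, hI.bloop⟩
  · show I.a u w + link w₁ w₂ u w = I.a w u + link w₁ w₂ w u
    rw [hI.asym, link_symm]
  · show I.a u u + link w₁ w₂ u u = 0
    rw [hI.aloop]
    unfold link
    have h1 : ¬ (u = w₁ ∧ u = w₂) := by rintro ⟨rfl, h⟩; exact hw h
    have h2 : ¬ (u = w₂ ∧ u = w₁) := by rintro ⟨rfl, h⟩; exact hw h.symm
    rw [if_neg h1, if_neg h2]

/-! ### the elimination structures -/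

theorem el_00 {I : Ins V} (hI : I.Ok) {v : V} (ha : ∀ u ∈ I.A, I.a v u = 0)
    (hb : ∀ u ∈ I.A, I.b v u = 0) {z : ZMod 3} {f : V → ZMod 3} (hvB : v ∈ bz I.A z f) :
    El I.m I.m v (bz I.A z f) := by
  refine El.zero hI.gm hvB (fun u hu => ?_) rfl
  unfold Ins.m
  rw [ha u (bz_sub hu), hb u (bz_sub hu)]

theorem el_10 {I : Ins V} (hI : I.Ok) {v w : V} (hw : w ∈ I.A.erase v)
    (ha : ∀ u ∈ I.A, I.a v u = if u = w then 1 else 0)
    (hb : ∀ u ∈ I.A, I.b v u = 0) {z : ZMod 3} {f : V → ZMod 3} (hvB : v ∈ bz I.A z f) :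
    El I.m I.m v (bz I.A z f) := by
  refine El.one (w := w) hI.gm hvB (mem_erase.1 hw).1.symm (fun u hu => ?_) rfl
  unfold Ins.m
  rw [ha u (bz_sub hu), hb u (bz_sub hu), add_zero]

theorem el_01 {I : Ins V} (hI : I.Ok) {v w : V} (hw : w ∈ I.A.erase v)
    (ha : ∀ u ∈ I.A, I.a v u = 0)
    (hb : ∀ u ∈ I.A, I.b v u = if u = w then 1 else 0) {z : ZMod 3} {f : V → ZMod 3}
    (hvB : v ∈ bz I.A z f) : El I.m I.m v (bz I.A z f) := by
  refine El.one (w := w) hI.gm hvB (mem_erase.1 hw).1.symm (fun u hu => ?_) rfl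
  unfold Ins.m
  rw [ha u (bz_sub hu), hb u (bz_sub hu), zero_add]

theorem delB_m (I : Ins V) (v w₁ w₂ : V) :
    ∀ u w, (I.delB v w₁ w₂).m u w = I.m u w + link w₁ w₂ u w := by
  intro u w
  show I.a u w + (I.b u w + link w₁ w₂ u w) = I.a u w + I.b u w + link w₁ w₂ u w
  ring

theorem delA_m (I : Ins V) (v w₁ w₂ : V) :
    ∀ u w, (I.delA v w₁ w₂).m u w = I.m u w + link w₁ w₂ u w := by
  intro u w
  show I.a u w + link w₁ w₂ u w + I.b u w = I.a u w + I.b u w + link w₁ w₂ u w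
  ring

theorem el_20 {I : Ins V} (hI : I.Ok) {v w₁ w₂ : V} (hw₁ : w₁ ∈ I.A.erase v)
    (hw₂ : w₂ ∈ I.A.erase v)
    (ha : ∀ u ∈ I.A, I.a v u = (if u = w₁ then 1 else 0) + (if u = w₂ then 1 else 0))
    (hb : ∀ u ∈ I.A, I.b v u = 0) {z : ZMod 3} {f : V → ZMod 3} (hvB : v ∈ bz I.A z f) :
    El I.m (I.delB v w₁ w₂).m v (bz I.A z f) := by
  refine El.two hI.gm (delB_m I v w₁ w₂) hvB (mem_erase.1 hw₁).1.symm (mem_erase.1 hw₂).1.symm
    (fun u hu => ?_)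
  unfold Ins.m
  rw [ha u (bz_sub hu), hb u (bz_sub hu), add_zero]

theorem el_11 {I : Ins V} (hI : I.Ok) {v w₁ w₂ : V} (hw₁ : w₁ ∈ I.A.erase v)
    (hw₂ : w₂ ∈ I.A.erase v) (ha : ∀ u ∈ I.A, I.a v u = if u = w₂ then 1 else 0)
    (hb : ∀ u ∈ I.A, I.b v u = if u = w₁ then 1 else 0) {z : ZMod 3} {f : V → ZMod 3}
    (hvB : v ∈ bz I.A z f) : El I.m (I.delA v w₁ w₂).m v (bz I.A z f) := by
  refine El.two hI.gm (delA_m I v w₁ w₂) hvB (mem_erase.1 hw₁).1.symm (mem_erase.1 hw₂).1.symm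
    (fun u hu => ?_)
  unfold Ins.m
  rw [ha u (bz_sub hu), hb u (bz_sub hu)]
  ring

/-! ### no states -/

theorem FaceR_of_empty {I : Ins V} (h : I.Om = ∅) (m' : V → V → ℕ) (v : V) (ρ s : V → ℝ) :
    FaceR I m' v ρ s := by
  intro g η _ _
  refine ⟨fun _ _ => 0, ?_, ?_, ?_, ?_⟩ <;> simp [h]

/-- an equality edge and an inequality edge between the same vertices: no states -/
theorem Om_empty_of_both {I : Ins V} {v w : V} (hv : v ∈ I.A) (hw : w ∈ I.A)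
    (ha : I.a v w ≠ 0) (hb : I.b v w ≠ 0) : I.Om = ∅ := by
  rw [eq_empty_iff_forall_notMem]
  intro f hf
  have := (mem_om.1 hf).2 v hv w hw
  exact this.1 ha (this.2 hb)

end Pool.Agent.Nest
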