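import Mathlib

/-!
Pair inequality for the elimination of a vertex of degree two (nested generator).
-/

namespace Pool.Agent.Lib.MP_26a019_lc.Nest

theorem pair_ineq_both {l1 l2 l' p1 p2 : ℝ} (h0 : 0 < l') (h1 : l' ≤ l1) (h2 : l' ≤ l2)
    (h : l1 * l2 ≤ l' * (l1 + l2)) :
    ((l1 - l') * p1 + (l2 - l') * p2) ^ 2 ≤ l1 ^ 2 * p1 ^ 2 + l2 ^ 2 * p2 ^ 2 := by
  have hl1 : 0 < l1 := lt_of_lt_of_le h0 h1
  have hl2 : 0 < l2 := lt_of_lt_of_le h0 h2
  set a : ℝ := (l1 - l') / l1 with ha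
  set b : ℝ := (l2 - l') / l2 with hb
  have ha0 : 0 ≤ a := div_nonneg (by linarith) hl1.le
  have hb0 : 0 ≤ b := div_nonneg (by linarith) hl2.le
  have hab : a + b ≤ 1 := by
    rw [ha, hb, div_add_div _ _ hl1.ne' hl2.ne', div_le_one (by positivity)]
    nlinarith
  have e1 : (l1 - l') * p1 = a * (l1 * p1) := by
    rw [ha]; field_simp
  have e2 : (l2 - l') * p2 = b * (l2 * p2) := by
    rw [hb]; field_simp
  have hq : a ^ 2 + b ^ 2 ≤ 1 := by nlinarith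
  rw [e1, e2]
  have h3 : (a * (l1 * p1) + b * (l2 * p2)) ^ 2
      ≤ (a ^ 2 + b ^ 2) * ((l1 * p1) ^ 2 + (l2 * p2) ^ 2) := by
    nlinarith [sq_nonneg (a * (l2 * p2) - b * (l1 * p1))]
  have h4 : 0 ≤ (l1 * p1) ^ 2 + (l2 * p2) ^ 2 := by positivity
  nlinarith [mul_le_mul_of_nonneg_right hq h4]

theorem pair_ineq_eq {l1 l2 l' p1 p2 : ℝ} (h0 : 0 < l') (h1 : l' ≤ l1) (h2 : l' ≤ l2)
    (h : l1 * l2 = l' * (l1 + l2)) :
    l' ^ 2 * (p1 + p2) ^ 2 + ((l1 - l') * p1 + (l2 - l') * p2) ^ 2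
      ≤ l1 ^ 2 * p1 ^ 2 + l2 ^ 2 * p2 ^ 2 := by
  have hl1 : 0 < l1 := lt_of_lt_of_le h0 h1
  have hl2 : 0 < l2 := lt_of_lt_of_le h0 h2
  have hs : 0 < l1 + l2 := by linarith
  have hl' : l' = l1 * l2 / (l1 + l2) := by
    rw [eq_div_iff hs.ne']; linarith
  have key : l1 ^ 2 * p1 ^ 2 + l2 ^ 2 * p2 ^ 2
      - (l' ^ 2 * (p1 + p2) ^ 2 + ((l1 - l') * p1 + (l2 - l') * p2) ^ 2)
      = 2 * l1 * l2 * (l1 * p1 - l2 * p2) ^ 2 / (l1 + l2) ^ 2 := by
    rw [hl']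
    field_simp
    ring
  have : 0 ≤ 2 * l1 * l2 * (l1 * p1 - l2 * p2) ^ 2 / (l1 + l2) ^ 2 := by positivity
  linarith

/-- The pair inequality: `G1`, `G2` (0 or 1) say that the minimisers of the two characters are
outside of the restricted family, `L` says that the minimiser of the restricted character
contains the two contracted vertices. -/
theorem pair_ineq {l1 l2 l' p1 p2 : ℝ} (G1 G2 L : Prop) [Decidable G1] [Decidable G2]
    [Decidable L] (h0 : 0 ≤ l') (h1 : l' ≤ l1) (h2 : l' ≤ l2)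
    (g1 : ¬ G1 → l1 = l') (g2 : ¬ G2 → l2 = l')
    (gb : G1 → G2 → 0 < l' ∧ l1 * l2 ≤ l' * (l1 + l2))
    (gl : L → G1 ∧ G2 ∧ l1 * l2 = l' * (l1 + l2)) :
    (if L then l' ^ 2 * (p1 + p2) ^ 2 else 0) + ((l1 - l') * p1 + (l2 - l') * p2) ^ 2
      ≤ (if G1 then l1 ^ 2 * p1 ^ 2 else 0) + (if G2 then l2 ^ 2 * p2 ^ 2 else 0) := by
  by_cases hL : L
  · obtain ⟨a, b, c⟩ := gl hL
    obtain ⟨hp, -⟩ := gb a b
    simp only [hL, a, b, if_true]
    exact pair_ineq_eq hp h1 h2 c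
  · by_cases a : G1 <;> by_cases b : G2
    · obtain ⟨hp, hc⟩ := gb a b
      simp only [hL, a, b, if_true, if_false, zero_add]
      exact pair_ineq_both hp h1 h2 hc
    · have := g2 b
      simp only [hL, a, b, if_true, if_false, zero_add, add_zero, this, sub_self, zero_mul]
      have e : (l1 - l') ^ 2 ≤ l1 ^ 2 := by nlinarith
      nlinarith [sq_nonneg p1, mul_le_mul_of_nonneg_right e (sq_nonneg p1)]
    · have := g1 a
      simp only [hL, a, b, if_true, if_false, zero_add, add_zero, this, sub_self, zero_mul]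
      have e : (l2 - l') ^ 2 ≤ l2 ^ 2 := by nlinarith
      nlinarith [sq_nonneg p2, mul_le_mul_of_nonneg_right e (sq_nonneg p2)]
    · have := g1 a
      have := g2 b
      simp only [hL, a, b, if_false, zero_add, add_zero]
      have : l1 - l' = 0 := by linarith
      have : l2 - l' = 0 := by linarith
      simp [*]

end Pool.Agent.Lib.MP_26a019_lc.Nest
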