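import Pool.Agent.Lib.MP_26a019_lc.Nest.Fam
import Pool.Agent.Lib.MP_26a019_lc.Nest.Pair

/-!
# The chart inequality for the elimination of a vertex of degree two
-/

namespace Pool.Agent.Lib.MP_26a019_lc.Nest

open Finset

set_option linter.unusedSectionVars false

variable {V : Type*} [DecidableEq V]

/-- The moves of the family with sign `-1` in the mode `S`. -/
def oddF (A : Finset (Finset V)) (S : Finset V) : Finset (Finset V) :=
  A.filter (fun U => Odd (S ∩ U).card)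

theorem mem_oddF {A : Finset (Finset V)} {S U : Finset V} :
    U ∈ oddF A S ↔ U ∈ A ∧ sg S U = -1 := by
  unfold oddF sg
  rw [Finset.mem_filter]
  constructor
  · rintro ⟨h1, h2⟩
    exact ⟨h1, h2.neg_one_pow⟩
  · rintro ⟨h1, h2⟩
    refine ⟨h1, ?_⟩
    by_contra h3
    rw [Nat.not_odd_iff_even] at h3
    rw [h3.neg_one_pow] at h2
    norm_num at h2

theorem oddF_congr {A : Finset (Finset V)} {S S' : Finset V}
    (h : ∀ U ∈ A, sg S U = sg S' U) : oddF A S = oddF A S' := by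
  ext U
  rw [mem_oddF, mem_oddF]
  constructor
  · rintro ⟨h1, h2⟩
    exact ⟨h1, by rw [← h U h1]; exact h2⟩
  · rintro ⟨h1, h2⟩
    exact ⟨h1, by rw [h U h1]; exact h2⟩

theorem ne_empty_of_oddF {A : Finset (Finset V)} {S U : Finset V} (h : U ∈ oddF A S) :
    U ≠ ∅ := by
  rintro rfl
  have := (mem_oddF.mp h).2
  rw [sg_empty_right] at this
  norm_num at this

/-- The rate of the mode `S`: `2` divided by the least resistance of a move with sign `-1`. -/
noncomputable def lam (R : Finset V → ℝ) (A : Finset (Finset V)) (S : Finset V) : ℝ :=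
  if h : (oddF A S).Nonempty then 2 / (oddF A S).inf' h R else 0

theorem lam_eq_of_min {R : Finset V → ℝ} {A : Finset (Finset V)} {S U : Finset V}
    (hU : U ∈ oddF A S) (hmin : ∀ U' ∈ oddF A S, R U ≤ R U') : lam R A S = 2 / R U := by
  unfold lam
  rw [dif_pos ⟨U, hU⟩]
  congr 1
  exact le_antisymm (Finset.inf'_le R hU) (Finset.le_inf' _ _ hmin)

theorem lam_of_empty {R : Finset V → ℝ} {A : Finset (Finset V)} {S : Finset V}
    (h : ¬ (oddF A S).Nonempty) : lam R A S = 0 := dif_neg h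

theorem exists_minF (R : Finset V → ℝ) {A : Finset (Finset V)} {S : Finset V}
    (h : (oddF A S).Nonempty) : ∃ U ∈ oddF A S, ∀ U' ∈ oddF A S, R U ≤ R U' :=
  Finset.exists_min_image _ _ h

theorem lam_congr (R : Finset V → ℝ) {A : Finset (Finset V)} {S S' : Finset V}
    (h : ∀ U ∈ A, sg S U = sg S' U) : lam R A S = lam R A S' := by
  unfold lam
  simp only [oddF_congr h]

section Restrict

variable {R : Finset V → ℝ} {A A' : Finset (Finset V)} {D : Finset V}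

theorem oddF_restrict (hA' : ∀ U, U ∈ A' ↔ U ∈ A ∧ sg D U = 1) (S : Finset V) :
    oddF A' (symmDiff S D) = oddF A' S := by
  refine oddF_congr fun U hU => ?_
  rw [sg_symmDiff_left, ((hA' U).mp hU).2, mul_one]

theorem lam_restrict (hA' : ∀ U, U ∈ A' ↔ U ∈ A ∧ sg D U = 1) (S : Finset V) :
    lam R A' (symmDiff S D) = lam R A' S := by
  unfold lam
  simp only [oddF_restrict hA' S]

theorem lam_nonneg (hR : ∀ U ∈ A, U ≠ ∅ → 0 < R U) (S : Finset V) : 0 ≤ lam R A S := by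
  by_cases h : (oddF A S).Nonempty
  · obtain ⟨U, hU, hmin⟩ := exists_minF R h
    rw [lam_eq_of_min hU hmin]
    have := hR U (mem_oddF.mp hU).1 (ne_empty_of_oddF hU)
    positivity
  · rw [lam_of_empty h]

theorem lam_le_of_subset (hR : ∀ U ∈ A, U ≠ ∅ → 0 < R U)
    (hA' : ∀ U, U ∈ A' ↔ U ∈ A ∧ sg D U = 1) (S : Finset V) : lam R A' S ≤ lam R A S := by
  by_cases h : (oddF A' S).Nonempty
  · obtain ⟨U', hU', hmin'⟩ := exists_minF R h
    have hU'A : U' ∈ oddF A S :=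
      mem_oddF.mpr ⟨((hA' U').mp (mem_oddF.mp hU').1).1, (mem_oddF.mp hU').2⟩
    obtain ⟨U, hU, hmin⟩ := exists_minF R ⟨U', hU'A⟩
    rw [lam_eq_of_min hU hmin, lam_eq_of_min hU' hmin']
    have hp := hR U (mem_oddF.mp hU).1 (ne_empty_of_oddF hU)
    exact div_le_div_of_nonneg_left (by norm_num) hp (hmin U' hU'A)
  · rw [lam_of_empty h]
    exact lam_nonneg hR S

/-- (a) If a minimiser lies in the restricted family then the rates agree. -/
theorem lam_eq_of_mem (hA' : ∀ U, U ∈ A' ↔ U ∈ A ∧ sg D U = 1) {S U : Finset V}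
    (hU : U ∈ oddF A S) (hmin : ∀ U' ∈ oddF A S, R U ≤ R U') (h : sg D U = 1) :
    lam R A S = lam R A' S := by
  rw [lam_eq_of_min hU hmin]
  refine (lam_eq_of_min ?_ ?_).symm
  · exact mem_oddF.mpr ⟨(hA' U).mpr ⟨(mem_oddF.mp hU).1, h⟩, (mem_oddF.mp hU).2⟩
  · intro U' hU'
    exact hmin U' (mem_oddF.mpr ⟨((hA' U').mp (mem_oddF.mp hU').1).1, (mem_oddF.mp hU').2⟩)

theorem nonempty_of_lam_ne (hA' : ∀ U, U ∈ A' ↔ U ∈ A ∧ sg D U = 1) {S : Finset V}
    (h : lam R A S ≠ lam R A' S) : (oddF A S).Nonempty := by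
  by_contra h1
  apply h
  rw [lam_of_empty h1, lam_of_empty]
  rintro ⟨U, hU⟩
  exact h1 ⟨U, mem_oddF.mpr ⟨((hA' U).mp (mem_oddF.mp hU).1).1, (mem_oddF.mp hU).2⟩⟩

theorem sg_of_lam_ne (hA' : ∀ U, U ∈ A' ↔ U ∈ A ∧ sg D U = 1) {S U : Finset V}
    (h : lam R A S ≠ lam R A' S) (hU : U ∈ oddF A S) (hmin : ∀ U' ∈ oddF A S, R U ≤ R U') :
    sg D U = -1 := by
  rcases sg_eq_or D U with h1 | h1
  · exact absurd (lam_eq_of_mem hA' hU hmin h1) h
  · exact h1

/-- (b) Both minimisers outside: the restricted minimum is at most the sum. -/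
theorem lam_both (hsymm : ∀ U ∈ A, ∀ U' ∈ A, symmDiff U U' ∈ A)
    (hR : ∀ U ∈ A, U ≠ ∅ → 0 < R U)
    (hRs : ∀ U ∈ A, ∀ U' ∈ A, R (symmDiff U U') ≤ R U + R U')
    (hA' : ∀ U, U ∈ A' ↔ U ∈ A ∧ sg D U = 1) {S : Finset V}
    (h1 : lam R A S ≠ lam R A' S) (h2 : lam R A (symmDiff S D) ≠ lam R A' S) :
    0 < lam R A' S ∧
      lam R A S * lam R A (symmDiff S D)
        ≤ lam R A' S * (lam R A S + lam R A (symmDiff S D)) := by
  have h2' : lam R A (symmDiff S D) ≠ lam R A' (symmDiff S D) := by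
    rw [lam_restrict hA']; exact h2
  obtain ⟨U1, hU1, hm1⟩ := exists_minF R (nonempty_of_lam_ne hA' h1)
  obtain ⟨U2, hU2, hm2⟩ := exists_minF R (nonempty_of_lam_ne hA' h2')
  have s1 := sg_of_lam_ne hA' h1 hU1 hm1
  have s2 := sg_of_lam_ne hA' h2' hU2 hm2
  have a1 := (mem_oddF.mp hU1).1
  have a2 := (mem_oddF.mp hU2).1
  have t2 : sg S U2 = 1 := by
    have := (mem_oddF.mp hU2).2
    rw [sg_symmDiff_left, s2] at this
    linarith
  have hU12 : symmDiff U1 U2 ∈ oddF A' S := by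
    refine mem_oddF.mpr ⟨(hA' _).mpr ⟨hsymm U1 a1 U2 a2, ?_⟩, ?_⟩
    · rw [sg_symmDiff_right, s1, s2]; norm_num
    · rw [sg_symmDiff_right, (mem_oddF.mp hU1).2, t2]; norm_num
  obtain ⟨U', hU', hm'⟩ := exists_minF R ⟨_, hU12⟩
  have p1 := hR U1 a1 (ne_empty_of_oddF hU1)
  have p2 := hR U2 a2 (ne_empty_of_oddF hU2)
  have p' := hR U' ((hA' U').mp (mem_oddF.mp hU').1).1 (ne_empty_of_oddF hU')
  have hle : R U' ≤ R U1 + R U2 := (hm' _ hU12).trans (hRs U1 a1 U2 a2)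
  rw [lam_eq_of_min hU1 hm1, lam_eq_of_min hU2 hm2, lam_eq_of_min hU' hm']
  refine ⟨by positivity, ?_⟩
  have e1 : 2 / R U1 * (2 / R U2) = 4 / (R U1 * R U2) := by
    field_simp; norm_num
  have e2 : 2 / R U' * (2 / R U1 + 2 / R U2)
      = 4 / (R U1 * R U2) * ((R U1 + R U2) / R U') := by
    field_simp; ring
  rw [e1, e2]
  have : 1 ≤ (R U1 + R U2) / R U' := by rwa [le_div_iff₀ p', one_mul]
  have h4 : 0 < 4 / (R U1 * R U2) := by positivity
  nlinarith

/-- (c) If the restricted minimiser can be cut into two moves outside of the restricted family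
then both minimisers are outside and the restricted minimum is the sum. -/
theorem lam_cut (hsymm : ∀ U ∈ A, ∀ U' ∈ A, symmDiff U U' ∈ A)
    (hR : ∀ U ∈ A, U ≠ ∅ → 0 < R U)
    (hRs : ∀ U ∈ A, ∀ U' ∈ A, R (symmDiff U U') ≤ R U + R U')
    (hA' : ∀ U, U ∈ A' ↔ U ∈ A ∧ sg D U = 1) {S U' U1 U2 : Finset V}
    (hU' : U' ∈ oddF A' S) (hm' : ∀ U ∈ oddF A' S, R U' ≤ R U)
    (a1 : U1 ∈ A) (a2 : U2 ∈ A) (hd : symmDiff U1 U2 = U') (s1 : sg D U1 = -1)
    (hle : R U1 + R U2 ≤ R U') :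
    lam R A S ≠ lam R A' S ∧ lam R A (symmDiff S D) ≠ lam R A' S ∧
      lam R A S * lam R A (symmDiff S D)
        = lam R A' S * (lam R A S + lam R A (symmDiff S D)) := by
  have hU'D : sg D U' = 1 := ((hA' U').mp (mem_oddF.mp hU').1).2
  have s2 : sg D U2 = -1 := by
    rw [← hd, sg_symmDiff_right, s1] at hU'D
    linarith
  have hS : sg S U1 * sg S U2 = -1 := by
    rw [← sg_symmDiff_right, hd]; exact (mem_oddF.mp hU').2
  -- minima over the two odd families are bounded by the two pieces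
  have key : ∃ V1 V2 : Finset V, V1 ∈ oddF A S ∧ V2 ∈ oddF A (symmDiff S D) ∧
      R V1 + R V2 ≤ R U' := by
    rcases sg_eq_or S U1 with e | e
    · refine ⟨U2, U1, mem_oddF.mpr ⟨a2, ?_⟩, mem_oddF.mpr ⟨a1, ?_⟩, by linarith⟩
      · rw [e, one_mul] at hS; exact hS
      · rw [sg_symmDiff_left, e, s1]; norm_num
    · refine ⟨U1, U2, mem_oddF.mpr ⟨a1, e⟩, mem_oddF.mpr ⟨a2, ?_⟩, hle⟩
      rw [e] at hS
      rw [sg_symmDiff_left, s2]
      linarith
  obtain ⟨V1, V2, hV1, hV2, hV⟩ := key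
  obtain ⟨W1, hW1, hmW1⟩ := exists_minF R ⟨V1, hV1⟩
  obtain ⟨W2, hW2, hmW2⟩ := exists_minF R ⟨V2, hV2⟩
  have p1 := hR W1 (mem_oddF.mp hW1).1 (ne_empty_of_oddF hW1)
  have p2 := hR W2 (mem_oddF.mp hW2).1 (ne_empty_of_oddF hW2)
  have p' := hR U' ((hA' U').mp (mem_oddF.mp hU').1).1 (ne_empty_of_oddF hU')
  have hsum : R W1 + R W2 ≤ R U' := by
    have := hmW1 V1 hV1
    have := hmW2 V2 hV2
    linarith
  have e1 : lam R A S = 2 / R W1 := lam_eq_of_min hW1 hmW1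
  have e2 : lam R A (symmDiff S D) = 2 / R W2 := lam_eq_of_min hW2 hmW2
  have e' : lam R A' S = 2 / R U' := lam_eq_of_min hU' hm'
  have n1 : lam R A S ≠ lam R A' S := by
    rw [e1, e']
    intro h
    have : R U' = R W1 := by
      field_simp at h
      linarith
    linarith
  have n2 : lam R A (symmDiff S D) ≠ lam R A' S := by
    rw [e2, e']
    intro h
    have : R U' = R W2 := by
      field_simp at h
      linarith
    linarith
  refine ⟨n1, n2, le_antisymm (lam_both hsymm hR hRs hA' n1 n2).2 ?_⟩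
  rw [e1, e2, e']
  have f1 : 2 / R W1 * (2 / R W2) = 4 / (R W1 * R W2) := by
    field_simp; norm_num
  have f2 : 2 / R U' * (2 / R W1 + 2 / R W2)
      = 4 / (R W1 * R W2) * ((R W1 + R W2) / R U') := by
    field_simp; ring
  rw [f1, f2]
  have : (R W1 + R W2) / R U' ≤ 1 := by rwa [div_le_one p']
  have h4 : 0 < 4 / (R W1 * R W2) := by positivity
  nlinarith

/-- The pair inequality for a mode. -/
theorem pair_fam (hsymm : ∀ U ∈ A, ∀ U' ∈ A, symmDiff U U' ∈ A)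
    (hR : ∀ U ∈ A, U ≠ ∅ → 0 < R U)
    (hRs : ∀ U ∈ A, ∀ U' ∈ A, R (symmDiff U U') ≤ R U + R U')
    (hA' : ∀ U, U ∈ A' ↔ U ∈ A ∧ sg D U = 1) (S : Finset V) (L : Prop) [Decidable L]
    (hL : L → ∃ U' U1 U2 : Finset V, U' ∈ oddF A' S ∧ (∀ U ∈ oddF A' S, R U' ≤ R U) ∧
      U1 ∈ A ∧ U2 ∈ A ∧ symmDiff U1 U2 = U' ∧ sg D U1 = -1 ∧ R U1 + R U2 ≤ R U')
    (p1 p2 : ℝ) [Decidable (lam R A S ≠ lam R A' S)]
    [Decidable (lam R A (symmDiff S D) ≠ lam R A' S)] :
    (if L then (lam R A' S * (p1 + p2)) ^ 2 else 0)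
      + ((lam R A S - lam R A' S) * p1 + (lam R A (symmDiff S D) - lam R A' S) * p2) ^ 2
      ≤ (if lam R A S ≠ lam R A' S then (lam R A S * p1) ^ 2 else 0)
        + (if lam R A (symmDiff S D) ≠ lam R A' S then
            (lam R A (symmDiff S D) * p2) ^ 2 else 0) := by
  have hA0 : ∀ U ∈ A', U ≠ ∅ → 0 < R U := fun U hU => hR U ((hA' U).mp hU).1
  have h := pair_ineq (l1 := lam R A S) (l2 := lam R A (symmDiff S D)) (l' := lam R A' S)
    (p1 := p1) (p2 := p2) (lam R A S ≠ lam R A' S) (lam R A (symmDiff S D) ≠ lam R A' S) L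
    (lam_nonneg hA0 S) (lam_le_of_subset hR hA' S)
    (by rw [← lam_restrict hA' S]; exact lam_le_of_subset hR hA' _)
    (fun h => not_not.mp h) (fun h => not_not.mp h)
    (fun h1 h2 => lam_both hsymm hR hRs hA' h1 h2)
    (fun hl => by
      obtain ⟨U', U1, U2, b1, b2, b3, b4, b5, b6, b7⟩ := hL hl
      exact lam_cut hsymm hR hRs hA' b1 b2 b3 b4 b5 b6 b7)
  simpa only [mul_pow] using h

end Restrict

end Pool.Agent.Lib.MP_26a019_lc.Nest
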