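import Pool.Agent.Lib.MP_26a019_lc.Nest.Defs

set_option autoImplicit false

/-!
Sums over the states of an instance, fibred over the states after deletion of a vertex.
-/

open Finset Classical

namespace Pool.Agent.Nest

variable {V : Type} [Fintype V]

/-- the colours available at `v` given the colouring `h` of the other vertices -/
noncomputable def av (I : Ins V) (v : V) (h : V → ZMod 3) : Finset (ZMod 3) :=
  univ.filter (fun c => ∀ u ∈ I.A.erase v, (I.a v u ≠ 0 → c ≠ h u) ∧ (I.b v u ≠ 0 → c = h u))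

theorem mem_om {I : Ins V} {f : V → ZMod 3} : f ∈ I.Om ↔ (∀ u, u ∉ I.A → f u = 0) ∧
    ∀ u ∈ I.A, ∀ w ∈ I.A, (I.a u w ≠ 0 → f u ≠ f w) ∧ (I.b u w ≠ 0 → f u = f w) := by
  simp [Ins.Om]

theorem mem_av {I : Ins V} {v : V} {h : V → ZMod 3} {c : ZMod 3} : c ∈ av I v h ↔
    ∀ u ∈ I.A.erase v, (I.a v u ≠ 0 → c ≠ h u) ∧ (I.b v u ≠ 0 → c = h u) := by
  simp [av]

theorem rs_of_ne {v u : V} (f : V → ZMod 3) (hu : u ≠ v) : rs v f u = f u := by
  simp [rs, hu]

theorem rs_self (v : V) (f : V → ZMod 3) : rs v f v = 0 := by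
  simp [rs]

theorem update_rs (v : V) (f : V → ZMod 3) : Function.update (rs v f) v (f v) = f := by
  funext u
  by_cases hu : u = v
  · subst hu
    simp
  · simp [rs, hu]

theorem rs_update (v : V) (f : V → ZMod 3) (c : ZMod 3) : rs v (Function.update f v c) = rs v f := by
  funext u
  by_cases hu : u = v
  · subst hu
    simp [rs]
  · simp [rs, hu]

theorem rs_of_dead {v : V} {f : V → ZMod 3} (hf : f v = 0) : rs v f = f := by
  funext u
  by_cases hu : u = v
  · subst hu
    simp [rs, hf]
  · simp [rs, hu]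

theorem mem_om_iff (I : Ins V) (hI : I.Ok) (v : V) (hv : v ∈ I.A) (h : V → ZMod 3) (c : ZMod 3)
    (h0 : h v = 0) :
    Function.update h v c ∈ I.Om ↔ h ∈ (I.del v).Om ∧ c ∈ av I v h := by
  rw [mem_om, mem_om, mem_av]
  simp only [Ins.del]
  constructor
  · rintro ⟨h1, h2⟩
    refine ⟨⟨?_, ?_⟩, ?_⟩
    · intro u hu
      by_cases huv : u = v
      · rw [huv, h0]
      · have := h1 u (fun hA => hu (mem_erase.2 ⟨huv, hA⟩))
        simpa [Function.update_of_ne huv] using this
    · intro u hu w hw
      have hu' := mem_erase.1 hu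
      have hw' := mem_erase.1 hw
      have := h2 u hu'.2 w hw'.2
      simpa [Function.update_of_ne hu'.1, Function.update_of_ne hw'.1] using this
    · intro u hu
      have hu' := mem_erase.1 hu
      have := h2 v hv u hu'.2
      simpa [Function.update_of_ne hu'.1] using this
  · rintro ⟨⟨h1, h2⟩, h3⟩
    refine ⟨?_, ?_⟩
    · intro u hu
      have huv : u ≠ v := fun e => hu (e ▸ hv)
      rw [Function.update_of_ne huv]
      exact h1 u (fun hA => hu (mem_erase.1 hA).2)
    · intro u hu w hw
      by_cases huv : u = v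
      · by_cases hwv : w = v
        · subst huv
          subst hwv
          refine ⟨fun ha => absurd (hI.aloop _) ha, fun _ => rfl⟩
        · subst huv
          have := h3 w (mem_erase.2 ⟨hwv, hw⟩)
          simpa [Function.update_of_ne hwv] using this
      · by_cases hwv : w = v
        · subst hwv
          have := h3 u (mem_erase.2 ⟨huv, hu⟩)
          rw [hI.asym u w, hI.bsym u w]
          simp only [Function.update_of_ne huv, Function.update_self]
          exact ⟨fun ha => (this.1 ha).symm, fun hb => (this.2 hb).symm⟩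
        · have := h2 u (mem_erase.2 ⟨huv, hu⟩) w (mem_erase.2 ⟨hwv, hw⟩)
          simpa [Function.update_of_ne huv, Function.update_of_ne hwv] using this

theorem sum_fib (I : Ins V) (hI : I.Ok) (v : V) (hv : v ∈ I.A) (F : (V → ZMod 3) → ℝ) :
    ∑ f ∈ I.Om, F f = ∑ h ∈ (I.del v).Om, ∑ c ∈ av I v h, F (Function.update h v c) := by
  have hdead : ∀ h ∈ (I.del v).Om, h v = 0 := by
    intro h hh
    rw [mem_om] at hh
    exact hh.1 v (by simp [Ins.del])
  rw [sum_sigma']
  refine sum_bij' (fun f _ => (⟨rs v f, f v⟩ : (_ : V → ZMod 3) × ZMod 3))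
    (fun x _ => Function.update x.1 v x.2) ?_ ?_ ?_ ?_ ?_
  · intro f hf
    have h1 : Function.update (rs v f) v (f v) ∈ I.Om := by
      rw [update_rs]
      exact hf
    have h2 := (mem_om_iff I hI v hv (rs v f) (f v) (rs_self v f)).1 h1
    exact mem_sigma.2 h2
  · rintro ⟨h, c⟩ hx
    have hx' := mem_sigma.1 hx
    exact (mem_om_iff I hI v hv h c (hdead h hx'.1)).2 hx'
  · intro f hf
    exact update_rs v f
  · rintro ⟨h, c⟩ hx
    have hx' := mem_sigma.1 hx
    simp only [rs_update, Function.update_self]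
    rw [rs_of_dead (hdead h hx'.1)]
  · intro f hf
    simp only
    rw [update_rs]

end Pool.Agent.Nest
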