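import Mathlib

/-!
Flippable families of a multigraph (helper53, MP_26a019_lc, nested generator).

`m : V → V → ℕ` is a symmetric multiplicity matrix (a loop `m x x > 0` freezes `x`), `U` is the
set of the vertices whose colour differs from the missing colour.  `fam m U` is the family of the
closed subsets of `U` which span a forest.  Here is how `fam` changes under the elimination of a
vertex of degree at most two, and under the addition of an edge.
-/

namespace Pool.Agent.Lib.MP_26a019_lc.Nest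

open Finset

set_option linter.unusedSectionVars false

variable {V : Type*} [DecidableEq V]

/-- Twice the number of edges inside `W`. -/
def ee (m : V → V → ℕ) (W : Finset V) : ℕ := ∑ x ∈ W, ∑ y ∈ W, m x y

/-- `T ⊆ U` is a union of connected components of `U`. -/
def Closed (m : V → V → ℕ) (U T : Finset V) : Prop :=
  T ⊆ U ∧ ∀ x ∈ T, ∀ y ∈ U, 0 < m x y → y ∈ T

/-- `T` spans a forest. -/
def Forest (m : V → V → ℕ) (T : Finset V) : Prop :=
  ∀ W ⊆ T, W.Nonempty → ee m W + 2 ≤ 2 * W.card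

open Classical in
/-- The flippable sets: closed sets which span a forest. -/
noncomputable def fam (m : V → V → ℕ) (U : Finset V) : Finset (Finset V) :=
  U.powerset.filter (fun T => Closed m U T ∧ Forest m T)

theorem mem_fam {m : V → V → ℕ} {U T : Finset V} :
    T ∈ fam m U ↔ Closed m U T ∧ Forest m T := by
  unfold fam
  simp only [mem_filter, mem_powerset]
  exact ⟨fun h => h.2, fun h => ⟨h.1.1, h⟩⟩

theorem Closed.sub {m : V → V → ℕ} {U T : Finset V} (h : Closed m U T) : T ⊆ U := h.1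

theorem fam_sub {m : V → V → ℕ} {U T : Finset V} (h : T ∈ fam m U) : T ⊆ U :=
  (mem_fam.1 h).1.1

theorem Forest.mono {m : V → V → ℕ} {S T : Finset V} (h : Forest m T) (hS : S ⊆ T) :
    Forest m S := fun W hW hn => h W (hW.trans hS) hn

theorem ee_empty (m : V → V → ℕ) : ee m ∅ = 0 := by simp [ee]

theorem ee_insert {m : V → V → ℕ} (hm : ∀ x y, m x y = m y x) {v : V} {W : Finset V}
    (hv : v ∉ W) : ee m (insert v W) = ee m W + 2 * (∑ y ∈ W, m v y) + m v v := by
  unfold ee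
  rw [sum_insert hv, sum_insert hv]
  have : ∑ x ∈ W, ∑ y ∈ insert v W, m x y = ∑ x ∈ W, (m x v + ∑ y ∈ W, m x y) :=
    sum_congr rfl fun x _ => sum_insert hv
  rw [this, sum_add_distrib]
  have h2 : ∑ x ∈ W, m x v = ∑ y ∈ W, m v y := sum_congr rfl fun x _ => hm x v
  rw [h2]; ring

theorem ee_erase {m : V → V → ℕ} (hm : ∀ x y, m x y = m y x) {v : V} {W : Finset V}
    (hv : v ∈ W) :
    ee m W = ee m (W.erase v) + 2 * (∑ y ∈ W.erase v, m v y) + m v v := by
  conv_lhs => rw [← insert_erase hv]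
  exact ee_insert hm (notMem_erase v W)

theorem ee_union {m : V → V → ℕ} {A B : Finset V} (hd : Disjoint A B)
    (h1 : ∀ x ∈ A, ∀ y ∈ B, m x y = 0) (h2 : ∀ x ∈ B, ∀ y ∈ A, m x y = 0) :
    ee m (A ∪ B) = ee m A + ee m B := by
  unfold ee
  rw [sum_union hd]
  congr 1
  · refine sum_congr rfl fun x hx => ?_
    rw [sum_union hd, sum_eq_zero (s := B) (fun y hy => h1 x hx y hy), add_zero]
  · refine sum_congr rfl fun x hx => ?_
    rw [sum_union hd, sum_eq_zero (s := A) (fun y hy => h2 x hx y hy), zero_add]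

theorem ee_mono {m m' : V → V → ℕ} {W : Finset V} (h : ∀ x ∈ W, ∀ y ∈ W, m x y ≤ m' x y) :
    ee m W ≤ ee m' W :=
  sum_le_sum fun x hx => sum_le_sum fun y hy => h x hx y hy

theorem ee_congr {m m' : V → V → ℕ} {W : Finset V} (h : ∀ x ∈ W, ∀ y ∈ W, m x y = m' x y) :
    ee m W = ee m' W :=
  sum_congr rfl fun x hx => sum_congr rfl fun y hy => h x hx y hy

/-! ### closure properties -/

theorem empty_mem_fam (m : V → V → ℕ) (U : Finset V) : ∅ ∈ fam m U := by
  rw [mem_fam]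
  refine ⟨⟨empty_subset _, by simp⟩, fun W hW hn => ?_⟩
  rw [subset_empty] at hW
  simp [hW] at hn

theorem closed_zero {m : V → V → ℕ} {U T : Finset V} (h : Closed m U T) {x y : V}
    (hx : x ∈ T) (hy : y ∈ U) (hyT : y ∉ T) : m x y = 0 := by
  by_contra h0
  exact hyT (h.2 x hx y hy (Nat.pos_of_ne_zero h0))

theorem Closed.union {m : V → V → ℕ} {U S T : Finset V} (hS : Closed m U S)
    (hT : Closed m U T) : Closed m U (S ∪ T) := by
  refine ⟨union_subset hS.1 hT.1, fun x hx y hy hxy => ?_⟩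
  rcases mem_union.1 hx with h | h
  · exact mem_union_left _ (hS.2 x h y hy hxy)
  · exact mem_union_right _ (hT.2 x h y hy hxy)

theorem Closed.inter {m : V → V → ℕ} {U S T : Finset V} (hS : Closed m U S)
    (hT : Closed m U T) : Closed m U (S ∩ T) := by
  refine ⟨inter_subset_left.trans hS.1, fun x hx y hy hxy => ?_⟩
  rw [mem_inter] at hx ⊢
  exact ⟨hS.2 x hx.1 y hy hxy, hT.2 x hx.2 y hy hxy⟩

theorem Closed.sdiff {m : V → V → ℕ} (hm : ∀ x y, m x y = m y x) {U S T : Finset V}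
    (hS : Closed m U S) (hT : Closed m U T) : Closed m U (S \ T) := by
  refine ⟨sdiff_subset.trans hS.1, fun x hx y hy hxy => ?_⟩
  rw [mem_sdiff] at hx ⊢
  exact ⟨hS.2 x hx.1 y hy hxy, fun hyT => hx.2 (hT.2 y hyT x (hS.1 hx.1) (by rwa [hm]))⟩

theorem Forest.union {m : V → V → ℕ} (hm : ∀ x y, m x y = m y x) {U S T : Finset V}
    (cS : Closed m U S) (hS : Forest m S) (hTU : T ⊆ U) (hT : Forest m T) :
    Forest m (S ∪ T) := by
  intro W hW hn
  have e : W = (W ∩ S) ∪ (W \ S) := by rw [union_comm, sdiff_union_inter]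
  have hd : Disjoint (W ∩ S) (W \ S) := by
    rw [disjoint_left]; intro x hx hx'
    exact (mem_sdiff.1 hx').2 (mem_inter.1 hx).2
  have hWT : W \ S ⊆ T := by
    intro x hx
    rw [mem_sdiff] at hx
    rcases mem_union.1 (hW hx.1) with h | h
    · exact absurd h hx.2
    · exact h
  have h1 : ∀ x ∈ W ∩ S, ∀ y ∈ W \ S, m x y = 0 := fun x hx y hy =>
    closed_zero cS (mem_inter.1 hx).2 (hTU (hWT hy)) (mem_sdiff.1 hy).2
  have h2 : ∀ x ∈ W \ S, ∀ y ∈ W ∩ S, m x y = 0 := fun x hx y hy => by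
    rw [hm]; exact h1 y hy x hx
  have ee1 : ee m W = ee m (W ∩ S) + ee m (W \ S) := by
    conv_lhs => rw [e]
    exact ee_union hd h1 h2
  have ec : W.card = (W ∩ S).card + (W \ S).card := by
    conv_lhs => rw [e]
    exact card_union_of_disjoint hd
  rcases (W ∩ S).eq_empty_or_nonempty with h | h
  · have hW' : W \ S = W := by
      rw [h, empty_union] at e; exact e.symm
    rw [hW'] at hWT
    exact hT W hWT hn
  · have hA := hS (W ∩ S) inter_subset_right h
    rcases (W \ S).eq_empty_or_nonempty with h' | h'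
    · rw [ee1, ec, h', ee_empty]; simpa using hA
    · have hB := hT (W \ S) hWT h'
      omega

theorem union_mem_fam {m : V → V → ℕ} (hm : ∀ x y, m x y = m y x) {U S T : Finset V}
    (hS : S ∈ fam m U) (hT : T ∈ fam m U) : S ∪ T ∈ fam m U := by
  rw [mem_fam] at *
  exact ⟨hS.1.union hT.1, Forest.union hm hS.1 hS.2 hT.1.1 hT.2⟩

theorem inter_mem_fam {m : V → V → ℕ} {U S T : Finset V}
    (hS : S ∈ fam m U) (hT : T ∈ fam m U) : S ∩ T ∈ fam m U := by
  rw [mem_fam] at *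
  exact ⟨hS.1.inter hT.1, hS.2.mono inter_subset_left⟩

theorem sdiff_mem_fam {m : V → V → ℕ} (hm : ∀ x y, m x y = m y x) {U S T : Finset V}
    (hS : S ∈ fam m U) (hT : T ∈ fam m U) : S \ T ∈ fam m U := by
  rw [mem_fam] at *
  exact ⟨hS.1.sdiff hm hT.1, hS.2.mono sdiff_subset⟩

theorem symmDiff_mem_fam {m : V → V → ℕ} (hm : ∀ x y, m x y = m y x) {U S T : Finset V}
    (hS : S ∈ fam m U) (hT : T ∈ fam m U) : symmDiff S T ∈ fam m U :=
  union_mem_fam hm (sdiff_mem_fam hm hS hT) (sdiff_mem_fam hm hT hS)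

/-- A closed subset of a member is a member. -/
theorem mem_fam_of_sub {m : V → V → ℕ} {U S T : Finset V} (hT : T ∈ fam m U)
    (hS : S ⊆ T) (hc : ∀ x ∈ S, ∀ y ∈ T, 0 < m x y → y ∈ S) : S ∈ fam m U := by
  rw [mem_fam] at *
  refine ⟨⟨hS.trans hT.1.1, fun x hx y hy hxy => ?_⟩, hT.2.mono hS⟩
  exact hc x hx y (hT.1.2 x (hS hx) y hy hxy) hxy

/-- `fam` only depends on `m` inside of `U`. -/
theorem fam_congr {m m' : V → V → ℕ} {U : Finset V} (h : ∀ x ∈ U, ∀ y ∈ U, m x y = m' x y) :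
    fam m U = fam m' U := by
  have key : ∀ {m m' : V → V → ℕ}, (∀ x ∈ U, ∀ y ∈ U, m x y = m' x y) →
      ∀ T, T ∈ fam m U → T ∈ fam m' U := by
    intro m m' h T hT
    rw [mem_fam] at *
    obtain ⟨⟨h1, h2⟩, h3⟩ := hT
    refine ⟨⟨h1, fun x hx y hy hxy => h2 x hx y hy ?_⟩, fun W hW hn => ?_⟩
    · rw [h x (h1 hx) y hy]; exact hxy
    · rw [← ee_congr (m := m) (fun x hx y hy => h x (h1 (hW hx)) y (h1 (hW hy)))]
      exact h3 W hW hn
  ext T
  exact ⟨key h T, key (fun x hx y hy => (h x hx y hy).symm) T⟩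

/-! ### a connected piece has at least `n - 1` edges -/

theorem ee_insert_ge {m : V → V → ℕ} (hm : ∀ x y, m x y = m y x) {x y : V} {C : Finset V}
    (hx : x ∈ C) (hy : y ∉ C) (hxy : 0 < m x y) : ee m C + 2 ≤ ee m (insert y C) := by
  rw [ee_insert hm hy]
  have : m y x ≤ ∑ z ∈ C, m y z := single_le_sum (fun z _ => Nat.zero_le _) hx
  rw [hm] at hxy
  omega

theorem ee_ge_of_conn {m : V → V → ℕ} (hm : ∀ x y, m x y = m y x) {w : V} {K : Finset V}
    (hw : w ∈ K)
    (hK : ∀ C ⊆ K, w ∈ C → (∀ x ∈ C, ∀ y ∈ K, 0 < m x y → y ∈ C) → C = K) :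
    2 * K.card ≤ ee m K + 2 := by
  have key : ∀ n, n + 1 ≤ K.card →
      ∃ C ⊆ K, w ∈ C ∧ C.card = n + 1 ∧ 2 * C.card ≤ ee m C + 2 := by
    intro n
    induction n with
    | zero =>
      intro _
      refine ⟨{w}, by simpa using hw, by simp, by simp, by simp⟩
    | succ n ih =>
      intro hn
      obtain ⟨C, hC, hwC, hcard, he⟩ := ih (by omega)
      have hne : C ≠ K := by
        intro h; rw [h] at hcard; omega
      have : ¬ (∀ x ∈ C, ∀ y ∈ K, 0 < m x y → y ∈ C) := fun h => hne (hK C hC hwC h)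
      push Not at this
      obtain ⟨x, hx, y, hy, hxy, hyC⟩ := this
      refine ⟨insert y C, insert_subset hy hC, mem_insert_of_mem hwC, ?_, ?_⟩
      · rw [card_insert_of_notMem hyC, hcard]
      · have := ee_insert_ge hm hx hyC hxy
        rw [card_insert_of_notMem hyC]; omega
  have hpos : 0 < K.card := card_pos.2 ⟨w, hw⟩
  obtain ⟨C, hC, -, hcard, he⟩ := key (K.card - 1) (by omega)
  have : C = K := eq_of_subset_of_card_le hC (by omega)
  rwa [this] at he

/-- The component of `w`: a member of `fam m U` containing `w`, contained in every member which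
contains `w`; it spans a tree. -/
theorem exists_comp {m : V → V → ℕ} (hm : ∀ x y, m x y = m y x) {U T : Finset V} {w : V}
    (hT : T ∈ fam m U) (hw : w ∈ T) :
    ∃ K ∈ fam m U, w ∈ K ∧ (∀ T' ∈ fam m U, w ∈ T' → K ⊆ T') ∧ 2 * K.card ≤ ee m K + 2 := by
  classical
  obtain ⟨K, hK, hmin⟩ := exists_min_image ((fam m U).filter (fun S => w ∈ S)) Finset.card
    ⟨T, by rw [mem_filter]; exact ⟨hT, hw⟩⟩
  rw [mem_filter] at hK
  have hsub : ∀ T' ∈ fam m U, w ∈ T' → K ⊆ T' := by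
    intro T' hT' hwT'
    have h1 : K ∩ T' ∈ fam m U := inter_mem_fam hK.1 hT'
    have h2 := hmin (K ∩ T') (by rw [mem_filter]; exact ⟨h1, mem_inter.2 ⟨hK.2, hwT'⟩⟩)
    have h3 : K ∩ T' = K := eq_of_subset_of_card_le inter_subset_left h2
    rw [← h3]; exact inter_subset_right
  refine ⟨K, hK.1, hK.2, hsub, ee_ge_of_conn hm hK.2 ?_⟩
  intro C hC hwC hcl
  have : C ∈ fam m U := mem_fam_of_sub hK.1 hC hcl
  exact (hC.antisymm (hsub C this hwC))

/-! ### adding an edge -/

/-- `m` with one more edge `w1 w2` (a loop if `w1 = w2`). -/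
def addE (m : V → V → ℕ) (w1 w2 : V) : V → V → ℕ := fun x y =>
  m x y + (if x = w1 ∧ y = w2 then 1 else 0) + (if x = w2 ∧ y = w1 then 1 else 0)

theorem addE_symm {m : V → V → ℕ} (hm : ∀ x y, m x y = m y x) (w1 w2 : V) :
    ∀ x y, addE m w1 w2 x y = addE m w1 w2 y x := by
  intro x y
  unfold addE
  rw [hm x y]
  have h1 : (x = w1 ∧ y = w2) ↔ (y = w2 ∧ x = w1) := and_comm
  have h2 : (x = w2 ∧ y = w1) ↔ (y = w1 ∧ x = w2) := and_comm
  simp only [h1, h2]
  ring

theorem le_addE (m : V → V → ℕ) (w1 w2 x y : V) : m x y ≤ addE m w1 w2 x y := by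
  unfold addE; omega

theorem ee_addE {m : V → V → ℕ} {w1 w2 : V} {W : Finset V} (h1 : w1 ∈ W) (h2 : w2 ∈ W) :
    ee (addE m w1 w2) W = ee m W + 2 := by
  unfold ee addE
  simp only [sum_add_distrib]
  have e1 : ∑ x ∈ W, ∑ y ∈ W, (if x = w1 ∧ y = w2 then 1 else 0) = 1 := by
    rw [sum_eq_single w1, sum_eq_single w2]
    · simp
    · intro b _ hb; simp [hb]
    · intro h; exact absurd h2 h
    · intro b _ hb; simp [hb]
    · intro h; exact absurd h1 h
  have e2 : ∑ x ∈ W, ∑ y ∈ W, (if x = w2 ∧ y = w1 then 1 else 0) = 1 := by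
    rw [sum_eq_single w2, sum_eq_single w1]
    · simp
    · intro b _ hb; simp [hb]
    · intro h; exact absurd h1 h
    · intro b _ hb; simp [hb]
    · intro h; exact absurd h2 h
  rw [e1, e2]

theorem ee_addE_of_not {m : V → V → ℕ} {w1 w2 : V} {W : Finset V} (h : ¬ (w1 ∈ W ∧ w2 ∈ W)) :
    ee (addE m w1 w2) W = ee m W := by
  refine ee_congr fun x hx y hy => ?_
  unfold addE
  have h1 : ¬ (x = w1 ∧ y = w2) := by
    rintro ⟨rfl, rfl⟩; exact h ⟨hx, hy⟩
  have h2 : ¬ (x = w2 ∧ y = w1) := by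
    rintro ⟨rfl, rfl⟩; exact h ⟨hy, hx⟩
  simp [h1, h2]

/-- Adding an edge which is not inside of `U` changes nothing. -/
theorem fam_addE_of_not {m : V → V → ℕ} {w1 w2 : V} {U : Finset V}
    (h : ¬ (w1 ∈ U ∧ w2 ∈ U)) : fam (addE m w1 w2) U = fam m U := by
  refine fam_congr fun x hx y hy => ?_
  unfold addE
  have h1 : ¬ (x = w1 ∧ y = w2) := by
    rintro ⟨rfl, rfl⟩; exact h ⟨hx, hy⟩
  have h2 : ¬ (x = w2 ∧ y = w1) := by
    rintro ⟨rfl, rfl⟩; exact h ⟨hy, hx⟩
  simp [h1, h2]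

theorem mem_fam_of_mem_addE {m : V → V → ℕ} {w1 w2 : V} {U T : Finset V}
    (h1 : w1 ∈ U) (h2 : w2 ∈ U) (hT : T ∈ fam (addE m w1 w2) U) :
    T ∈ fam m U ∧ (w1 ∈ T ↔ w2 ∈ T) := by
  rw [mem_fam] at *
  obtain ⟨⟨a, b⟩, c⟩ := hT
  refine ⟨⟨⟨a, fun x hx y hy hxy => b x hx y hy (lt_of_lt_of_le hxy (le_addE m w1 w2 x y))⟩,
    fun W hW hn => ?_⟩, fun h => b w1 h w2 h2 ?_, fun h => b w2 h w1 h1 ?_⟩
  · have := c W hW hn
    have h' : ee m W ≤ ee (addE m w1 w2) W := ee_mono fun x _ y _ => le_addE m w1 w2 x y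
    omega
  · unfold addE; simp
  · unfold addE; simp

/-- First case: some flippable set separates `w1` and `w2`. -/
theorem fam_addE_of_sep {m : V → V → ℕ} (hm : ∀ x y, m x y = m y x) {w1 w2 : V}
    {U A : Finset V} (h1 : w1 ∈ U) (h2 : w2 ∈ U) (hA : A ∈ fam m U)
    (hsep : ¬ (w1 ∈ A ↔ w2 ∈ A)) {T : Finset V} :
    T ∈ fam (addE m w1 w2) U ↔ T ∈ fam m U ∧ (w1 ∈ T ↔ w2 ∈ T) := by
  refine ⟨mem_fam_of_mem_addE h1 h2, ?_⟩
  rintro ⟨hT, hw⟩
  have hcA := (mem_fam.1 hA).1
  rw [mem_fam] at hT ⊢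
  obtain ⟨⟨a, b⟩, c⟩ := hT
  refine ⟨⟨a, fun x hx y hy hxy => ?_⟩, fun W hW hn => ?_⟩
  · by_cases e1 : x = w1 ∧ y = w2
    · rw [e1.2]; rw [e1.1] at hx; exact hw.1 hx
    by_cases e2 : x = w2 ∧ y = w1
    · rw [e2.2]; rw [e2.1] at hx; exact hw.2 hx
    refine b x hx y hy ?_
    unfold addE at hxy
    simpa [e1, e2] using hxy
  · by_cases hin : w1 ∈ W ∧ w2 ∈ W
    · rw [ee_addE hin.1 hin.2]
      have e : W = (W ∩ A) ∪ (W \ A) := by rw [union_comm, sdiff_union_inter]
      have hd : Disjoint (W ∩ A) (W \ A) := by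
        rw [disjoint_left]; intro x hx hx'
        exact (mem_sdiff.1 hx').2 (mem_inter.1 hx).2
      have z1 : ∀ x ∈ W ∩ A, ∀ y ∈ W \ A, m x y = 0 := fun x hx y hy =>
        closed_zero hcA (mem_inter.1 hx).2 (a (hW (mem_sdiff.1 hy).1)) (mem_sdiff.1 hy).2
      have z2 : ∀ x ∈ W \ A, ∀ y ∈ W ∩ A, m x y = 0 := fun x hx y hy => by
        rw [hm]; exact z1 y hy x hx
      have ee1 : ee m W = ee m (W ∩ A) + ee m (W \ A) := by
        conv_lhs => rw [e]
        exact ee_union hd z1 z2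
      have ec : W.card = (W ∩ A).card + (W \ A).card := by
        conv_lhs => rw [e]
        exact card_union_of_disjoint hd
      have n1 : (W ∩ A).Nonempty := by
        by_cases h : w1 ∈ A
        · exact ⟨w1, mem_inter.2 ⟨hin.1, h⟩⟩
        · refine ⟨w2, mem_inter.2 ⟨hin.2, ?_⟩⟩
          by_contra h'
          exact hsep ⟨fun h'' => absurd h'' h, fun h'' => absurd h'' h'⟩
      have n2 : (W \ A).Nonempty := by
        by_cases h : w1 ∈ A
        · refine ⟨w2, mem_sdiff.2 ⟨hin.2, ?_⟩⟩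
          intro h'
          exact hsep ⟨fun _ => h', fun _ => h⟩
        · exact ⟨w1, mem_sdiff.2 ⟨hin.1, h⟩⟩
      have f1 := c (W ∩ A) (inter_subset_left.trans hW) n1
      have f2 := c (W \ A) (sdiff_subset.trans hW) n2
      omega
    · rw [ee_addE_of_not hin]
      exact c W hW hn

/-- Second case: no flippable set separates `w1` and `w2` (also `w1 = w2`). -/
theorem fam_addE_of_not_sep {m : V → V → ℕ} (hm : ∀ x y, m x y = m y x) {w1 w2 : V}
    {U : Finset V} (h1 : w1 ∈ U) (h2 : w2 ∈ U)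
    (hsep : ∀ A ∈ fam m U, (w1 ∈ A ↔ w2 ∈ A)) {T : Finset V} :
    T ∈ fam (addE m w1 w2) U ↔ T ∈ fam m U ∧ w1 ∉ T := by
  constructor
  · intro hT
    obtain ⟨hT', hw⟩ := mem_fam_of_mem_addE h1 h2 hT
    refine ⟨hT', fun hw1 => ?_⟩
    obtain ⟨K, hK, hwK, hsub, he⟩ := exists_comp hm hT' hw1
    have hKT : K ⊆ T := hsub T hT' hw1
    have hw2K : w2 ∈ K := (hsep K hK).1 hwK
    have := (mem_fam.1 hT).2 K hKT ⟨w1, hwK⟩
    rw [ee_addE hwK hw2K] at this
    omega
  · rintro ⟨hT, hw⟩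
    have hw2 : w2 ∉ T := fun h => hw ((hsep T hT).2 h)
    rw [mem_fam] at hT ⊢
    obtain ⟨⟨a, b⟩, c⟩ := hT
    refine ⟨⟨a, fun x hx y hy hxy => b x hx y hy ?_⟩, fun W hW hn => ?_⟩
    · have e1 : ¬ (x = w1 ∧ y = w2) := fun h => hw (h.1 ▸ hx)
      have e2 : ¬ (x = w2 ∧ y = w1) := fun h => hw2 (h.1 ▸ hx)
      unfold addE at hxy
      simpa [e1, e2] using hxy
    · rw [ee_addE_of_not (fun h => hw (hW h.1))]
      exact c W hW hn

/-! ### eliminating a vertex -/

/-- `v` has no neighbour in `U`. -/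
theorem fam_erase_zero {m : V → V → ℕ} (hm : ∀ x y, m x y = m y x) {U : Finset V} {v : V}
    (hv : ∀ y ∈ U, m v y = 0) (hvU : v ∈ U) {T : Finset V} :
    T ∈ fam m U ↔ T ⊆ U ∧ T.erase v ∈ fam m (U.erase v) := by
  rw [mem_fam, mem_fam]
  constructor
  · rintro ⟨⟨a, b⟩, c⟩
    refine ⟨a, ⟨erase_subset_erase v a, fun x hx y hy hxy => ?_⟩, c.mono (erase_subset v T)⟩
    exact mem_erase.2 ⟨(mem_erase.1 hy).1,
      b x (mem_erase.1 hx).2 y (mem_erase.1 hy).2 hxy⟩
  · rintro ⟨a, ⟨-, b⟩, c⟩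
    refine ⟨⟨a, fun x hx y hy hxy => ?_⟩, fun W hW hn => ?_⟩
    · have hxv : x ≠ v := by
        rintro rfl; rw [hv y hy] at hxy; exact absurd hxy (lt_irrefl 0)
      have hyv : y ≠ v := by
        rintro rfl; rw [hm, hv x (a hx)] at hxy; exact absurd hxy (lt_irrefl 0)
      exact (mem_erase.1 (b x (mem_erase.2 ⟨hxv, hx⟩) y (mem_erase.2 ⟨hyv, hy⟩) hxy)).2
    · by_cases hvW : v ∈ W
      · rw [ee_erase hm hvW, hv v hvU,
          sum_eq_zero (fun y hy => hv y (a (hW (mem_erase.1 hy).2)))]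
        have ec := card_erase_add_one hvW
        rcases (W.erase v).eq_empty_or_nonempty with h | h
        · rw [h, ee_empty]; rw [h] at ec; simp at ec; omega
        · have := c (W.erase v) (erase_subset_erase v hW) h
          omega
      · exact c W (subset_erase.2 ⟨hW, hvW⟩) hn

/-- `v` has exactly one neighbour in `U`, by a simple edge. -/
theorem fam_erase_one {m : V → V → ℕ} (hm : ∀ x y, m x y = m y x) {U : Finset V} {v w : V}
    (hv : ∀ y ∈ U, m v y = if y = w then 1 else 0) (hvU : v ∈ U) (hwU : w ∈ U) (hvw : v ≠ w)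
    {T : Finset V} :
    T ∈ fam m U ↔ T ⊆ U ∧ T.erase v ∈ fam m (U.erase v) ∧ (v ∈ T ↔ w ∈ T) := by
  have mvw : m v w = 1 := by rw [hv w hwU]; simp
  have mvv : m v v = 0 := by rw [hv v hvU]; simp [hvw]
  rw [mem_fam, mem_fam]
  constructor
  · rintro ⟨⟨a, b⟩, c⟩
    refine ⟨a, ⟨⟨erase_subset_erase v a, fun x hx y hy hxy => ?_⟩, c.mono (erase_subset v T)⟩,
      fun h => b v h w hwU (by omega), fun h => b w h v hvU (by rw [hm]; omega)⟩
    exact mem_erase.2 ⟨(mem_erase.1 hy).1,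
      b x (mem_erase.1 hx).2 y (mem_erase.1 hy).2 hxy⟩
  · rintro ⟨a, ⟨⟨-, b⟩, c⟩, d⟩
    refine ⟨⟨a, fun x hx y hy hxy => ?_⟩, fun W hW hn => ?_⟩
    · by_cases hxv : x = v
      · subst hxv
        rw [hv y hy] at hxy
        by_cases hyw : y = w
        · rw [hyw]; exact d.1 hx
        · simp [hyw] at hxy
      by_cases hyv : y = v
      · subst hyv
        rw [hm, hv x (a hx)] at hxy
        by_cases hxw : x = w
        · exact d.2 (hxw ▸ hx)
        · simp [hxw] at hxy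
      exact (mem_erase.1 (b x (mem_erase.2 ⟨hxv, hx⟩) y (mem_erase.2 ⟨hyv, hy⟩) hxy)).2
    · by_cases hvW : v ∈ W
      · have hs : ∑ y ∈ W.erase v, m v y ≤ 1 := by
          have : ∑ y ∈ W.erase v, m v y = ∑ y ∈ W.erase v, (if y = w then 1 else 0) :=
            sum_congr rfl fun y hy => hv y (a (hW (mem_erase.1 hy).2))
          rw [this, sum_ite_eq']
          split_ifs <;> omega
        have ec := card_erase_add_one hvW
        rw [ee_erase hm hvW, mvv]
        rcases (W.erase v).eq_empty_or_nonempty with h | h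
        · rw [h, ee_empty]; rw [h] at ec; simp at ec; simp; omega
        · have := c (W.erase v) (erase_subset_erase v hW) h
          omega
      · exact c W (subset_erase.2 ⟨hW, hvW⟩) hn

/-- `v` has exactly two edges into `U`, to `w1` and `w2` (`w1 = w2` is allowed). -/
theorem fam_erase_two {m : V → V → ℕ} (hm : ∀ x y, m x y = m y x) {U : Finset V}
    {v w1 w2 : V}
    (hv : ∀ y ∈ U, m v y = (if y = w1 then 1 else 0) + (if y = w2 then 1 else 0))
    (hvU : v ∈ U) (h1U : w1 ∈ U) (h2U : w2 ∈ U) (hv1 : v ≠ w1) (hv2 : v ≠ w2)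
    {T : Finset V} :
    T ∈ fam m U ↔ T ⊆ U ∧ T.erase v ∈ fam (addE m w1 w2) (U.erase v) ∧ (v ∈ T ↔ w1 ∈ T) := by
  have mv1 : 0 < m v w1 := by rw [hv w1 h1U]; simp
  have mv2 : 0 < m v w2 := by rw [hv w2 h2U]; simp
  have mvv : m v v = 0 := by rw [hv v hvU]; simp [hv1, hv2]
  have h1E : w1 ∈ U.erase v := mem_erase.2 ⟨hv1.symm, h1U⟩
  have h2E : w2 ∈ U.erase v := mem_erase.2 ⟨hv2.symm, h2U⟩
  have hs : ∀ W ⊆ U, ∑ y ∈ W.erase v, m v y
      = (if w1 ∈ W then 1 else 0) + (if w2 ∈ W then 1 else 0) := by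
    intro W hW
    have : ∑ y ∈ W.erase v, m v y
        = ∑ y ∈ W.erase v, ((if y = w1 then 1 else 0) + (if y = w2 then 1 else 0)) :=
      sum_congr rfl fun y hy => hv y (hW (mem_erase.1 hy).2)
    rw [this, sum_add_distrib, sum_ite_eq', sum_ite_eq']
    simp only [mem_erase, ne_eq, hv1.symm, hv2.symm, not_false_eq_true, true_and]
  rw [mem_fam]
  constructor
  · rintro ⟨⟨a, b⟩, c⟩
    have d1 : v ∈ T ↔ w1 ∈ T := ⟨fun h => b v h w1 h1U mv1, fun h => b w1 h v hvU (by rwa [hm])⟩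
    have d2 : v ∈ T ↔ w2 ∈ T := ⟨fun h => b v h w2 h2U mv2, fun h => b w2 h v hvU (by rwa [hm])⟩
    refine ⟨a, ?_, d1⟩
    rw [mem_fam]
    refine ⟨⟨erase_subset_erase v a, fun x hx y hy hxy => ?_⟩, fun W hW hn => ?_⟩
    · have hx' := mem_erase.1 hx
      have hy' := mem_erase.1 hy
      refine mem_erase.2 ⟨hy'.1, ?_⟩
      by_cases e1 : x = w1 ∧ y = w2
      · rw [e1.2]; exact d2.1 (d1.2 (e1.1 ▸ hx'.2))
      by_cases e2 : x = w2 ∧ y = w1
      · rw [e2.2]; exact d1.1 (d2.2 (e2.1 ▸ hx'.2))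
      refine b x hx'.2 y hy'.2 ?_
      unfold addE at hxy
      simpa [e1, e2] using hxy
    · have hWT : W ⊆ T := hW.trans (erase_subset v T)
      have hvW : v ∉ W := fun h => (mem_erase.1 (hW h)).1 rfl
      by_cases hin : w1 ∈ W ∧ w2 ∈ W
      · rw [ee_addE hin.1 hin.2]
        have hvT : v ∈ T := d1.2 (hWT hin.1)
        have hi : insert v W ⊆ T := insert_subset hvT hWT
        have f := c (insert v W) hi (insert_nonempty v W)
        rw [ee_insert hm hvW, card_insert_of_notMem hvW, mvv] at f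
        have := hs (insert v W) (hi.trans a)
        rw [erase_insert hvW] at this
        simp only [mem_insert, hin.1, hin.2, or_true, if_true] at this
        omega
      · rw [ee_addE_of_not hin]
        exact c W hWT hn
  · rintro ⟨a, hT, d⟩
    obtain ⟨-, dw⟩ := mem_fam_of_mem_addE h1E h2E hT
    have d2 : v ∈ T ↔ w2 ∈ T := by
      rw [d]
      simpa [mem_erase, hv1.symm, hv2.symm] using dw
    rw [mem_fam] at hT
    obtain ⟨⟨-, b⟩, c⟩ := hT
    refine ⟨⟨a, fun x hx y hy hxy => ?_⟩, fun W hW hn => ?_⟩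
    · by_cases hxv : x = v
      · subst hxv
        rw [hv y hy] at hxy
        by_cases hy1 : y = w1
        · rw [hy1]; exact d.1 hx
        by_cases hy2 : y = w2
        · rw [hy2]; exact d2.1 hx
        simp [hy1, hy2] at hxy
      by_cases hyv : y = v
      · subst hyv
        rw [hm, hv x (a hx)] at hxy
        by_cases hx1 : x = w1
        · exact d.2 (hx1 ▸ hx)
        by_cases hx2 : x = w2
        · exact d2.2 (hx2 ▸ hx)
        simp [hx1, hx2] at hxy
      exact (mem_erase.1 (b x (mem_erase.2 ⟨hxv, hx⟩) y (mem_erase.2 ⟨hyv, hy⟩)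
        (lt_of_lt_of_le hxy (le_addE m w1 w2 x y)))).2
    · by_cases hvW : v ∈ W
      · have ec := card_erase_add_one hvW
        rw [ee_erase hm hvW, mvv, hs W (hW.trans a)]
        rcases (W.erase v).eq_empty_or_nonempty with h | h
        · have n1 : w1 ∉ W := fun h' => by
            have : w1 ∈ W.erase v := mem_erase.2 ⟨hv1.symm, h'⟩
            rw [h] at this; exact absurd this (notMem_empty _)
          have n2 : w2 ∉ W := fun h' => by
            have : w2 ∈ W.erase v := mem_erase.2 ⟨hv2.symm, h'⟩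
            rw [h] at this; exact absurd this (notMem_empty _)
          rw [h, ee_empty]; rw [h] at ec; simp at ec; simp [n1, n2]; omega
        · have := c (W.erase v) (erase_subset_erase v hW) h
          by_cases hin : w1 ∈ W ∧ w2 ∈ W
          · have hin' : w1 ∈ W.erase v ∧ w2 ∈ W.erase v :=
              ⟨mem_erase.2 ⟨hv1.symm, hin.1⟩, mem_erase.2 ⟨hv2.symm, hin.2⟩⟩
            rw [ee_addE hin'.1 hin'.2] at this
            simp only [hin.1, hin.2, if_true]
            omega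
          · have hle : ee m (W.erase v) ≤ ee (addE m w1 w2) (W.erase v) :=
              ee_mono fun x _ y _ => le_addE m w1 w2 x y
            have : (if w1 ∈ W then 1 else 0) + (if w2 ∈ W then 1 else 0) ≤ 1 := by
              by_cases g1 : w1 ∈ W
              · have g2 : w2 ∉ W := fun g2 => hin ⟨g1, g2⟩
                simp [g1, g2]
              · by_cases g2 : w2 ∈ W <;> simp [g1, g2]
            omega
      · have hW' : W ⊆ T.erase v := subset_erase.2 ⟨hW, hvW⟩
        have := c W hW' hn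
        have hle : ee m W ≤ ee (addE m w1 w2) W :=
          ee_mono fun x _ y _ => le_addE m w1 w2 x y
        omega

end Pool.Agent.Lib.MP_26a019_lc.Nest
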