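import Pool.Agent.Lib.MP_26a019_lc.Nest.Defs
import Pool.Agent.Lib.MP_26a019_lc.Nest.Forest

set_option autoImplicit false

/-!
# Facts about the movable families `kf m B`
-/

open Finset Classical

namespace Pool.Agent.Nest

open Pool.Agent.Lib.MP_26a019_lc.Nest (ee ee_insert ee_empty Closed Forest fam mem_fam)

variable {V : Type} [Fintype V]

set_option linter.unusedSectionVars false

/-- symmetric multiplicities with even loops -/
structure Gm (m : V → V → ℕ) : Prop where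
  symm : ∀ u w, m u w = m w u
  loop : ∀ u, Even (m u u)

theorem Ins.Ok.gm {I : Ins V} (h : I.Ok) : Gm I.m := by
  refine ⟨fun u w => ?_, fun u => ?_⟩
  · unfold Ins.m; rw [h.asym u w, h.bsym u w]
  · unfold Ins.m; rw [h.aloop u, zero_add]; exact h.bloop u

theorem mem_kf {m : V → V → ℕ} {B T : Finset V} :
    T ∈ kf m B ↔ T ⊆ B ∧ (∀ u ∈ T, ∀ w ∈ B, w ∉ T → m u w = 0) ∧ Fr m T := by
  unfold kf
  rw [mem_filter, mem_powerset]

theorem kf_sub {m : V → V → ℕ} {B T : Finset V} (h : T ∈ kf m B) : T ⊆ B := (mem_kf.1 h).1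

theorem kf_zero {m : V → V → ℕ} {B T : Finset V} (h : T ∈ kf m B) {u w : V} (hu : u ∈ T)
    (hw : w ∈ B) (hwT : w ∉ T) : m u w = 0 := (mem_kf.1 h).2.1 u hu w hw hwT

theorem kf_adj {m : V → V → ℕ} {B T : Finset V} (h : T ∈ kf m B) {u w : V} (hu : u ∈ T)
    (hw : w ∈ B) (hm : m u w ≠ 0) : w ∈ T := by
  by_contra h'; exact hm (kf_zero h hu hw h')

theorem kf_fr {m : V → V → ℕ} {B T : Finset V} (h : T ∈ kf m B) : Fr m T := (mem_kf.1 h).2.2

theorem Fr.mono {m : V → V → ℕ} {S T : Finset V} (h : Fr m T) (hS : S ⊆ T) : Fr m S :=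
  fun U hU hn => h U (hU.trans hS) hn

theorem Gm.even {m : V → V → ℕ} (hm : Gm m) (U : Finset V) :
    Even (∑ u ∈ U, ∑ w ∈ U, m u w) := by
  change Even (ee m U)
  induction U using Finset.induction_on with
  | empty => rw [ee_empty]; exact Even.zero
  | insert v W hv ih =>
    rw [ee_insert hm.symm hv]
    exact (ih.add (even_two_mul _)).add (hm.loop v)

theorem Gm.fr_iff {m : V → V → ℕ} (hm : Gm m) {T : Finset V} : Fr m T ↔ Forest m T := by
  constructor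
  · intro h U hU hn
    have h1 := h U hU hn
    have h2 := hm.even U
    change ee m U + 2 ≤ _
    change ee m U < _ at h1
    change Even (ee m U) at h2
    obtain ⟨k, hk⟩ := h2
    omega
  · intro h U hU hn
    have h1 := h U hU hn
    change ee m U < _
    omega

theorem Gm.kf_eq {m : V → V → ℕ} (hm : Gm m) (B : Finset V) : kf m B = fam m B := by
  ext T
  rw [mem_kf, mem_fam, hm.fr_iff]
  unfold Closed
  constructor
  · rintro ⟨a, b, c⟩
    refine ⟨⟨a, fun x hx y hy hxy => ?_⟩, c⟩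
    by_contra h'
    rw [b x hx y hy h'] at hxy
    exact absurd hxy (lt_irrefl 0)
  · rintro ⟨⟨a, b⟩, c⟩
    refine ⟨a, fun x hx y hy hyT => ?_, c⟩
    by_contra h'
    exact hyT (b x hx y hy (Nat.pos_of_ne_zero h'))

theorem empty_mem_kf (m : V → V → ℕ) (B : Finset V) : ∅ ∈ kf m B := by
  rw [mem_kf]
  refine ⟨empty_subset _, by simp, fun U hU hn => ?_⟩
  rw [subset_empty] at hU
  simp [hU] at hn

theorem inter_mem_kf {m : V → V → ℕ} {B S T : Finset V} (hS : S ∈ kf m B) (hT : T ∈ kf m B) :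
    S ∩ T ∈ kf m B := by
  rw [mem_kf]
  refine ⟨inter_subset_left.trans (kf_sub hS), fun u hu w hw hwn => ?_,
    (kf_fr hS).mono inter_subset_left⟩
  rw [mem_inter] at hu
  by_contra h
  exact hwn (mem_inter.2 ⟨kf_adj hS hu.1 hw h, kf_adj hT hu.2 hw h⟩)

theorem union_mem_kf {m : V → V → ℕ} (hm : Gm m) {B S T : Finset V} (hS : S ∈ kf m B)
    (hT : T ∈ kf m B) : S ∪ T ∈ kf m B := by
  rw [hm.kf_eq] at *
  exact Pool.Agent.Lib.MP_26a019_lc.Nest.union_mem_fam hm.symm hS hT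

theorem sdiff_mem_kf {m : V → V → ℕ} (hm : Gm m) {B S T : Finset V} (hS : S ∈ kf m B)
    (hT : T ∈ kf m B) : S \ T ∈ kf m B := by
  rw [hm.kf_eq] at *
  exact Pool.Agent.Lib.MP_26a019_lc.Nest.sdiff_mem_fam hm.symm hS hT

theorem symmDiff_mem_kf {m : V → V → ℕ} (hm : Gm m) {B S T : Finset V} (hS : S ∈ kf m B)
    (hT : T ∈ kf m B) : symmDiff S T ∈ kf m B := by
  rw [hm.kf_eq] at *
  exact Pool.Agent.Lib.MP_26a019_lc.Nest.symmDiff_mem_fam hm.symm hS hT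

/-- `kf m B` only depends on `m` inside of `B`. -/
theorem kf_congr {m m' : V → V → ℕ} {B : Finset V} (h : ∀ u ∈ B, ∀ w ∈ B, m u w = m' u w) :
    kf m B = kf m' B := by
  have key : ∀ {m m' : V → V → ℕ}, (∀ x ∈ B, ∀ y ∈ B, m x y = m' x y) →
      ∀ T, T ∈ kf m B → T ∈ kf m' B := by
    intro m m' h T hT
    rw [mem_kf] at *
    obtain ⟨h1, h2, h3⟩ := hT
    refine ⟨h1, fun x hx y hy hyT => ?_, fun W hW hn => ?_⟩
    · rw [← h x (h1 hx) y hy]; exact h2 x hx y hy hyT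
    · have e : ∑ u ∈ W, ∑ w ∈ W, m' u w = ∑ u ∈ W, ∑ w ∈ W, m u w :=
        sum_congr rfl fun x hx => sum_congr rfl fun y hy =>
          (h x (h1 (hW hx)) y (h1 (hW hy))).symm
      rw [e]
      exact h3 W hW hn
  ext T
  exact ⟨key h T, key (fun x hx y hy => (h x hx y hy).symm) T⟩

/-- a set of a movable family never contains a frozen vertex -/
theorem kf_loop {m : V → V → ℕ} {B T : Finset V} (h : T ∈ kf m B) {u : V} (hu : u ∈ T) :
    m u u < 2 := by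
  have := kf_fr h {u} (by simpa using hu) (by simp)
  simpa using this

/-- a closed subset of a movable set is movable -/
theorem mem_kf_of_sub {m : V → V → ℕ} {B S T : Finset V} (hT : T ∈ kf m B) (hS : S ⊆ T)
    (hc : ∀ u ∈ S, ∀ w ∈ T, w ∉ S → m u w = 0) : S ∈ kf m B := by
  rw [mem_kf]
  refine ⟨hS.trans (kf_sub hT), fun u hu w hw hwS => ?_, (kf_fr hT).mono hS⟩
  by_cases hwT : w ∈ T
  · exact hc u hu w hwT hwS
  · exact kf_zero hT (hS hu) hw hwT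

/-- the number of edges of a movable set is less than the number of its vertices -/
theorem Gm.ee_le {m : V → V → ℕ} (hm : Gm m) {B T : Finset V} (h : T ∈ kf m B)
    (hn : T.Nonempty) : (∑ u ∈ T, ∑ w ∈ T, m u w) + 2 ≤ 2 * T.card :=
  hm.fr_iff.1 (kf_fr h) T Subset.rfl hn

/-! ### adding an edge -/

theorem link_symm (w₁ w₂ u w : V) : link w₁ w₂ u w = link w₁ w₂ w u := by
  unfold link
  have h1 : (u = w₁ ∧ w = w₂) ↔ (w = w₂ ∧ u = w₁) := and_comm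
  have h2 : (u = w₂ ∧ w = w₁) ↔ (w = w₁ ∧ u = w₂) := and_comm
  simp only [h1, h2]
  ring

theorem link_loop (w₁ w₂ u : V) : Even (link w₁ w₂ u u) := by
  unfold link
  by_cases h1 : u = w₁
  · by_cases h2 : u = w₂
    · subst h1; subst h2; simp
    · simp [h2]
  · simp [h1]

theorem Gm.link {m m' : V → V → ℕ} (hm : Gm m) {w₁ w₂ : V}
    (h : ∀ u w, m' u w = m u w + link w₁ w₂ u w) : Gm m' := by
  refine ⟨fun u w => ?_, fun u => ?_⟩
  · rw [h, h, hm.symm, link_symm]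
  · rw [h]; exact (hm.loop u).add (link_loop w₁ w₂ u)

theorem addE_eq {m m' : V → V → ℕ} {w₁ w₂ : V}
    (h : ∀ u w, m' u w = m u w + link w₁ w₂ u w) :
    m' = Pool.Agent.Lib.MP_26a019_lc.Nest.addE m w₁ w₂ := by
  funext u w
  rw [h]
  unfold link Pool.Agent.Lib.MP_26a019_lc.Nest.addE
  ring

/-- Adding an edge which is not inside of `B` changes nothing. -/
theorem kf_link_out {m m' : V → V → ℕ} {w₁ w₂ : V} {B : Finset V}
    (h : ∀ u w, m' u w = m u w + link w₁ w₂ u w) (hB : ¬ (w₁ ∈ B ∧ w₂ ∈ B)) :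
    kf m' B = kf m B := by
  refine kf_congr fun x hx y hy => ?_
  rw [h]
  unfold link
  have h1 : ¬ (x = w₁ ∧ y = w₂) := by
    rintro ⟨rfl, rfl⟩; exact hB ⟨hx, hy⟩
  have h2 : ¬ (x = w₂ ∧ y = w₁) := by
    rintro ⟨rfl, rfl⟩; exact hB ⟨hy, hx⟩
  simp [h1, h2]

theorem kf_link_sub {m m' : V → V → ℕ} (hm : Gm m) {w₁ w₂ : V} {B : Finset V}
    (h : ∀ u w, m' u w = m u w + link w₁ w₂ u w) (h1 : w₁ ∈ B) (h2 : w₂ ∈ B) {T : Finset V}
    (hT : T ∈ kf m' B) : T ∈ kf m B ∧ (w₁ ∈ T ↔ w₂ ∈ T) := by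
  rw [(hm.link h).kf_eq, addE_eq h] at hT
  rw [hm.kf_eq]
  exact Pool.Agent.Lib.MP_26a019_lc.Nest.mem_fam_of_mem_addE h1 h2 hT

/-- First case: some movable set separates `w₁` and `w₂`. -/
theorem kf_link_sep {m m' : V → V → ℕ} (hm : Gm m) {w₁ w₂ : V} {B A : Finset V}
    (h : ∀ u w, m' u w = m u w + link w₁ w₂ u w) (h1 : w₁ ∈ B) (h2 : w₂ ∈ B)
    (hA : A ∈ kf m B) (hsep : ¬ (w₁ ∈ A ↔ w₂ ∈ A)) :
    kf m' B = (kf m B).filter (fun T => w₁ ∈ T ↔ w₂ ∈ T) := by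
  ext T
  rw [mem_filter]
  rw [hm.kf_eq] at hA
  rw [(hm.link h).kf_eq, addE_eq h, hm.kf_eq]
  exact Pool.Agent.Lib.MP_26a019_lc.Nest.fam_addE_of_sep hm.symm h1 h2 hA hsep

/-- Second case: no movable set separates `w₁` and `w₂` (also `w₁ = w₂`). -/
theorem kf_link_nsep {m m' : V → V → ℕ} (hm : Gm m) {w₁ w₂ : V} {B : Finset V}
    (h : ∀ u w, m' u w = m u w + link w₁ w₂ u w) (h1 : w₁ ∈ B) (h2 : w₂ ∈ B)
    (hsep : ∀ A ∈ kf m B, (w₁ ∈ A ↔ w₂ ∈ A)) :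
    kf m' B = (kf m B).filter (fun T => w₁ ∉ T) := by
  ext T
  rw [mem_filter]
  rw [hm.kf_eq] at hsep
  rw [(hm.link h).kf_eq, addE_eq h, hm.kf_eq]
  exact Pool.Agent.Lib.MP_26a019_lc.Nest.fam_addE_of_not_sep hm.symm h1 h2 hsep

/-! ### deleting a vertex -/

/-- `v` isolated in `B` -/
theorem mem_kf_iso {m : V → V → ℕ} (hm : Gm m) {B : Finset V} {v : V} (hvB : v ∈ B)
    (hv : ∀ u ∈ B, m v u = 0) {T : Finset V} :
    T ∈ kf m B ↔ T ⊆ B ∧ T.erase v ∈ kf m (B.erase v) := by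
  rw [hm.kf_eq, hm.kf_eq]
  exact Pool.Agent.Lib.MP_26a019_lc.Nest.fam_erase_zero hm.symm hv hvB

/-- `v` hangs at `w` by one edge and has no other neighbour in `B` -/
theorem mem_kf_one {m : V → V → ℕ} (hm : Gm m) {B : Finset V} {v w : V} (hvB : v ∈ B)
    (hwB : w ∈ B) (hvw : v ≠ w) (hv : ∀ u ∈ B, m v u = if u = w then 1 else 0)
    {T : Finset V} :
    T ∈ kf m B ↔ T ⊆ B ∧ T.erase v ∈ kf m (B.erase v) ∧ (v ∈ T ↔ w ∈ T) := by
  rw [hm.kf_eq, hm.kf_eq]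
  exact Pool.Agent.Lib.MP_26a019_lc.Nest.fam_erase_one hm.symm hv hvB hwB hvw

/-- `v` has exactly two edges into `B`, to `w₁` and `w₂` (`w₁ = w₂` is allowed) -/
theorem mem_kf_two {m m' : V → V → ℕ} (hm : Gm m) {B : Finset V} {v w₁ w₂ : V}
    (h : ∀ u w, m' u w = m u w + link w₁ w₂ u w)
    (hvB : v ∈ B) (h1 : w₁ ∈ B) (h2 : w₂ ∈ B) (hv1 : v ≠ w₁) (hv2 : v ≠ w₂)
    (hv : ∀ u ∈ B, m v u = (if u = w₁ then 1 else 0) + (if u = w₂ then 1 else 0))
    {T : Finset V} :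
    T ∈ kf m B ↔ T ⊆ B ∧ T.erase v ∈ kf m' (B.erase v) ∧ (v ∈ T ↔ w₁ ∈ T) := by
  rw [hm.kf_eq, (hm.link h).kf_eq, addE_eq h]
  exact Pool.Agent.Lib.MP_26a019_lc.Nest.fam_erase_two hm.symm hv hvB h1 h2 hv1 hv2

end Pool.Agent.Nest
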