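import Pool.Agent.Lib.MP_26a019_lc.Nest.Fib80b
import Pool.Agent.Lib.MP_26a019_lc.Nest.Fib80
import Pool.Agent.Lib.MP_26a019_lc.Nest.Kf

set_option autoImplicit false
set_option linter.unusedSectionVars false

/-!
# Facts common to all face cases
-/

open Finset Classical

namespace Pool.Agent.Nest

variable {V : Type} [Fintype V]

namespace FG

/-- (G1) the flip of the single vertex `v` -/
theorem sv_mem_kf {m : V → V → ℕ} {B : Finset V} {v : V} :
    ({v} : Finset V) ∈ kf m B ↔ v ∈ B ∧ (∀ w ∈ B, w ≠ v → m v w = 0) ∧ m v v < 2 := by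
  rw [mem_kf]
  constructor
  · rintro ⟨h1, h2, h3⟩
    refine ⟨h1 (mem_singleton_self v), fun w hw hwv => ?_, ?_⟩
    · exact h2 v (mem_singleton_self v) w hw (by rwa [mem_singleton])
    · have := h3 {v} Subset.rfl (singleton_nonempty v)
      simpa using this
  · rintro ⟨h1, h2, h3⟩
    refine ⟨singleton_subset_iff.2 h1, fun u hu w hw hwv => ?_, fun U hU hn => ?_⟩
    · rw [mem_singleton] at hu hwv
      subst hu
      exact h2 w hw hwv
    · have : U = {v} := by
        rcases subset_singleton_iff.1 hU with h | h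
        · rw [h] at hn; exact absurd hn (by simp)
        · exact h
      subst this
      simpa using h3

theorem zc1 {x y z : ZMod 3} (h1 : x ≠ y) (h2 : z ≠ x) (h3 : z ≠ y) : z = -x - y := by
  revert x y z; decide

theorem zc2 {x y : ZMod 3} (h : x ≠ y) : x ≠ -x - y ∧ y ≠ -x - y ∧ y = -(-x - y) - x := by
  revert x y; decide

theorem zc3 {x y z : ZMod 3} (h : x ≠ y) : -z - x ≠ -z - y := by
  revert x y z; decide

theorem zc4 {x z : ZMod 3} (h : x ≠ z) : -z - x ≠ z := by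
  revert x z; decide

/-- the colour of `v` does not matter after forgetting it -/
theorem rs_fz_self (v : V) (z : ZMod 3) (f : V → ZMod 3) : rs v (fz z {v} f) = rs v f := by
  funext u
  by_cases huv : u = v
  · subst huv
    simp [rs]
  · simp [rs, fz, huv]

/-- flips of movable sets preserve the states -/
theorem fz_mem_om {I : Ins V} (hI : I.Ok) {z : ZMod 3} {f : V → ZMod 3} (hf : f ∈ I.Om)
    {T : Finset V} (hT : T ∈ kf I.m (bz I.A z f)) : fz z T f ∈ I.Om := by
  rw [mem_om] at hf ⊢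
  obtain ⟨h1, h2⟩ := hf
  have hTB : ∀ u ∈ T, u ∈ I.A ∧ f u ≠ z := fun u hu => mem_bz.1 (kf_sub hT hu)
  have key : ∀ u ∈ T, ∀ w ∈ I.A, w ∉ T → (I.a u w ≠ 0 → -z - f u ≠ f w) ∧
      (I.b u w ≠ 0 → -z - f u = f w) := by
    intro u hu w hw hwT
    by_cases hwz : f w = z
    · rw [hwz]
      refine ⟨fun _ => zc4 (hTB u hu).2, fun hb => ?_⟩
      have := ((h2 u (hTB u hu).1 w hw).2 hb)
      exact absurd (this.trans hwz) (hTB u hu).2
    · have h0 := kf_zero hT hu (mem_bz.2 ⟨hw, hwz⟩) hwT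
      unfold Ins.m at h0
      have ha : I.a u w = 0 := by omega
      have hb : I.b u w = 0 := by omega
      exact ⟨fun h => absurd ha h, fun h => absurd hb h⟩
  constructor
  · intro u hu
    have : u ∉ T := fun h => hu (hTB u h).1
    simp only [fz, this, if_false]
    exact h1 u hu
  · intro u hu w hw
    by_cases hu' : u ∈ T
    · by_cases hw' : w ∈ T
      · simp only [fz, hu', hw', if_true]
        refine ⟨fun ha => zc3 ((h2 u hu w hw).1 ha), fun hb => ?_⟩
        rw [(h2 u hu w hw).2 hb]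
      · simp only [fz, hu', hw', if_true, if_false]
        exact key u hu' w hw hw'
    · by_cases hw' : w ∈ T
      · simp only [fz, hu', hw', if_true, if_false]
        have := key w hw' u hu hu'
        rw [hI.asym u w, hI.bsym u w]
        exact ⟨fun ha => (this.1 ha).symm, fun hb => (this.2 hb).symm⟩
      · simp only [fz, hu', hw', if_false]
        exact h2 u hu w hw

/-- (G2) two states with the same rest differ by the flip of `v` -/
theorem om_fib_flip {I : Ins V} (hI : I.Ok) {v : V} (hv : v ∈ I.A) (hvv : I.m v v < 2)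
    {f f' : V → ZMod 3} (hf : f ∈ I.Om) (hf' : f' ∈ I.Om) (hr : rs v f = rs v f')
    (hne : f ≠ f') : ∃ z, {v} ∈ kf I.m (bz I.A z f) ∧ f' = fz z {v} f := by
  rw [mem_om] at hf hf'
  have hu : ∀ u, u ≠ v → f u = f' u := by
    intro u hu
    have := congrFun hr u
    rwa [rs_of_ne f hu, rs_of_ne f' hu] at this
  have hc : f v ≠ f' v := by
    intro h
    apply hne
    funext u
    by_cases huv : u = v
    · rw [huv, h]
    · exact hu u huv
  refine ⟨- f v - f' v, ?_, ?_⟩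
  · rw [sv_mem_kf]
    refine ⟨mem_bz.2 ⟨hv, (zc2 hc).1⟩, fun w hw hwv => ?_, hvv⟩
    obtain ⟨hwA, hwz⟩ := mem_bz.1 hw
    by_contra hm
    have : I.a v w ≠ 0 ∨ I.b v w ≠ 0 := by
      unfold Ins.m at hm
      omega
    rcases this with ha | hb
    · have e1 := (hf.2 v hv w hwA).1 ha
      have e2 := (hf'.2 v hv w hwA).1 ha
      rw [← hu w hwv] at e2
      exact hwz (zc1 hc e1.symm e2.symm)
    · have e1 := (hf.2 v hv w hwA).2 hb
      have e2 := (hf'.2 v hv w hwA).2 hb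
      rw [← hu w hwv] at e2
      exact hc (e1.trans e2.symm)
  · funext u
    by_cases huv : u = v
    · subst huv
      simp only [fz, mem_singleton, if_true]
      exact (zc2 hc).2.2
    · simp only [fz, mem_singleton, huv, if_false]
      exact (hu u huv).symm

/-- (G3) invariant functions do not see the colour of `v` -/
theorem fact {I : Ins V} (hI : I.Ok) {v : V} (hv : v ∈ I.A) (hvv : I.m v v < 2)
    (h : (V → ZMod 3) → ℝ)
    (hinv : ∀ z, ∀ f ∈ I.Om, {v} ∈ kf I.m (bz I.A z f) → h (fz z {v} f) = h f) :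
    ∃ u : (V → ZMod 3) → ℝ, ∀ f ∈ I.Om, h f = u (rs v f) := by
  refine ⟨fun k => if hk : ∃ f ∈ I.Om, rs v f = k then h hk.choose else 0, fun f hf => ?_⟩
  have hk : ∃ f' ∈ I.Om, rs v f' = rs v f := ⟨f, hf, rfl⟩
  simp only [dif_pos hk]
  obtain ⟨h1, h2⟩ := hk.choose_spec
  by_cases hne : f = hk.choose
  · rw [← hne]
  · obtain ⟨z, hz1, hz2⟩ := om_fib_flip hI hv hvv hf h1 h2.symm hne
    rw [hz2]
    exact (hinv z f hf hz1).symm

/-- (G4) functions orthogonal to the invariant functions have vanishing fibre sums -/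
theorem fib_zero {I : Ins V} (hI : I.Ok) {v : V} (hv : v ∈ I.A) (e : (V → ZMod 3) → ℝ)
    (he : ∀ w : (V → ZMod 3) → ℝ,
      (∀ z, ∀ f ∈ I.Om, {v} ∈ kf I.m (bz I.A z f) → w (fz z {v} f) = w f) →
      ∑ f ∈ I.Om, e f * w f = 0) {k : V → ZMod 3} (hk : k ∈ (I.del v).Om) :
    ∑ c ∈ av I v k, e (Function.update k v c) = 0 := by
  have h1 := he (fun f => if rs v f = k then 1 else 0) (fun z f _ _ => by
    simp only [rs_fz_self])
  rw [sum_fib I hI v hv] at h1
  have hdead : ∀ k ∈ (I.del v).Om, rs v k = k := by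
    intro k hk
    rw [mem_om] at hk
    exact rs_of_dead (hk.1 v (by simp [Ins.del]))
  rw [sum_eq_single_of_mem k hk] at h1
  · rw [← h1]
    refine sum_congr rfl fun c _ => ?_
    rw [rs_update, hdead k hk, if_pos rfl, mul_one]
  · intro k' hk' hne
    refine sum_eq_zero fun c _ => ?_
    rw [rs_update, hdead k' hk', if_neg hne, mul_zero]

/-- (G5) the operator only sees the values on the states -/
theorem op_congr {I : Ins V} (hI : I.Ok) (z : ZMod 3) (μ : Finset V → Finset V → ℝ)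
    {g g' : (V → ZMod 3) → ℝ} (h : ∀ f ∈ I.Om, g f = g' f) {f : V → ZMod 3}
    (hf : f ∈ I.Om) : op I.m I.A z μ g f = op I.m I.A z μ g' f := by
  unfold op cv
  congr 1
  refine sum_congr rfl fun S _ => ?_
  congr 1
  refine sum_congr rfl fun T hT => ?_
  congr 1
  exact h _ (fz_mem_om hI hf hT)

/-! ### (G6) slacks -/

theorem s_del (I : Ins V) {v : V} (hv : v ∈ I.A) (u : V) :
    (I.del v).s u = I.s u + (I.a u v : ℝ) + 3 / 2 * (I.b u v : ℝ) := by
  unfold Ins.s Ins.del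
  simp only
  rw [← add_sum_erase I.A (fun w => (I.a u w : ℝ)) hv,
    ← add_sum_erase I.A (fun w => (I.b u w : ℝ)) hv]
  ring

theorem sum_link (A : Finset V) {w₁ w₂ : V} (h1 : w₁ ∈ A) (h2 : w₂ ∈ A) (u : V) :
    ∑ w ∈ A, (link w₁ w₂ u w : ℝ) = (if u = w₁ then 1 else 0) + (if u = w₂ then 1 else 0) := by
  unfold link
  push_cast
  rw [sum_add_distrib]
  congr 1
  · by_cases h : u = w₁
    · simp [h, h2]
    · simp [h]
  · by_cases h : u = w₂
    · simp [h, h1]
    · simp [h]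

theorem s_delB (I : Ins V) {v w₁ w₂ : V} (h1 : w₁ ∈ I.A.erase v)
    (h2 : w₂ ∈ I.A.erase v) (u : V) :
    (I.delB v w₁ w₂).s u = (I.del v).s u
      - 3 / 2 * ((if u = w₁ then 1 else 0) + (if u = w₂ then 1 else 0)) := by
  have e : ∑ w ∈ I.A.erase v, ((I.b u w + link w₁ w₂ u w : ℕ) : ℝ)
      = ∑ w ∈ I.A.erase v, (I.b u w : ℝ)
        + ((if u = w₁ then 1 else 0) + (if u = w₂ then 1 else 0)) := by
    rw [← sum_link (I.A.erase v) h1 h2 u, ← sum_add_distrib]
    refine sum_congr rfl fun w _ => ?_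
    push_cast
    ring
  unfold Ins.s Ins.delB Ins.del
  simp only
  rw [e]
  ring

theorem s_delA (I : Ins V) {v w₁ w₂ : V} (h1 : w₁ ∈ I.A.erase v)
    (h2 : w₂ ∈ I.A.erase v) (u : V) :
    (I.delA v w₁ w₂).s u = (I.del v).s u
      - ((if u = w₁ then 1 else 0) + (if u = w₂ then 1 else 0)) := by
  have e : ∑ w ∈ I.A.erase v, ((I.a u w + link w₁ w₂ u w : ℕ) : ℝ)
      = ∑ w ∈ I.A.erase v, (I.a u w : ℝ)
        + ((if u = w₁ then 1 else 0) + (if u = w₂ then 1 else 0)) := by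
    rw [← sum_link (I.A.erase v) h1 h2 u, ← sum_add_distrib]
    refine sum_congr rfl fun w _ => ?_
    push_cast
    ring
  unfold Ins.s Ins.delA Ins.del
  simp only
  rw [e]
  ring

/-! ### the instances after deletion -/

theorem m_delB (I : Ins V) (v w₁ w₂ u w : V) :
    (I.delB v w₁ w₂).m u w = I.m u w + link w₁ w₂ u w := by
  unfold Ins.m Ins.delB
  simp only
  omega

theorem m_delA (I : Ins V) (v w₁ w₂ u w : V) :
    (I.delA v w₁ w₂).m u w = I.m u w + link w₁ w₂ u w := by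
  unfold Ins.m Ins.delA
  simp only
  omega

theorem m_del (I : Ins V) (v : V) : (I.del v).m = I.m := rfl

theorem ok_del {I : Ins V} (hI : I.Ok) (v : V) : (I.del v).Ok :=
  ⟨hI.asym, hI.bsym, hI.aloop, hI.bloop⟩

theorem ok_delB {I : Ins V} (hI : I.Ok) (v w₁ w₂ : V) : (I.delB v w₁ w₂).Ok := by
  refine ⟨hI.asym, fun u w => ?_, hI.aloop, fun u => ?_⟩
  · simp only [Ins.delB]
    rw [hI.bsym u w, link_symm]
  · simp only [Ins.delB]
    exact (hI.bloop u).add (link_loop w₁ w₂ u)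

theorem ok_delA {I : Ins V} (hI : I.Ok) {v w₁ w₂ : V} (hne : w₁ ≠ w₂) :
    (I.delA v w₁ w₂).Ok := by
  refine ⟨fun u w => ?_, hI.bsym, fun u => ?_, hI.bloop⟩
  · simp only [Ins.delA]
    rw [hI.asym u w, link_symm]
  · simp only [Ins.delA]
    rw [hI.aloop u]
    unfold link
    have h1 : ¬ (u = w₁ ∧ u = w₂) := fun h => hne (h.1.symm.trans h.2)
    have h2 : ¬ (u = w₂ ∧ u = w₁) := fun h => hne (h.2.symm.trans h.1)
    simp [h1, h2]

theorem link_ne_zero {w₁ w₂ u w : V} :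
    link w₁ w₂ u w ≠ 0 ↔ (u = w₁ ∧ w = w₂) ∨ (u = w₂ ∧ w = w₁) := by
  unfold link
  by_cases h1 : u = w₁ ∧ w = w₂
  · simp [h1]
  · by_cases h2 : u = w₂ ∧ w = w₁
    · simp [h2]
    · simp [h1, h2]

/-- the states after deletion and identification -/
theorem om_delB (I : Ins V) {v w₁ w₂ : V} (h1 : w₁ ∈ I.A.erase v)
    (h2 : w₂ ∈ I.A.erase v) :
    (I.delB v w₁ w₂).Om = (I.del v).Om.filter (fun k => k w₁ = k w₂) := by
  ext k
  rw [mem_filter, mem_om, mem_om]
  simp only [Ins.delB, Ins.del]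
  constructor
  · rintro ⟨a1, a2⟩
    refine ⟨⟨a1, fun u hu w hw => ⟨(a2 u hu w hw).1, fun hb => (a2 u hu w hw).2 ?_⟩⟩, ?_⟩
    · omega
    · refine (a2 w₁ h1 w₂ h2).2 ?_
      have : link w₁ w₂ w₁ w₂ ≠ 0 := link_ne_zero.2 (Or.inl ⟨rfl, rfl⟩)
      omega
  · rintro ⟨⟨a1, a2⟩, a3⟩
    refine ⟨a1, fun u hu w hw => ⟨(a2 u hu w hw).1, fun hb => ?_⟩⟩
    by_cases hb' : I.b u w = 0
    · have hl : link w₁ w₂ u w ≠ 0 := by omega
      rcases link_ne_zero.1 hl with ⟨e1, e2⟩ | ⟨e1, e2⟩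
      · rw [e1, e2]; exact a3
      · rw [e1, e2]; exact a3.symm
    · exact (a2 u hu w hw).2 hb'

/-- the states after deletion and separation -/
theorem om_delA (I : Ins V) {v w₁ w₂ : V} (h1 : w₁ ∈ I.A.erase v)
    (h2 : w₂ ∈ I.A.erase v) :
    (I.delA v w₁ w₂).Om = (I.del v).Om.filter (fun k => k w₁ ≠ k w₂) := by
  ext k
  rw [mem_filter, mem_om, mem_om]
  simp only [Ins.delA, Ins.del]
  constructor
  · rintro ⟨a1, a2⟩
    refine ⟨⟨a1, fun u hu w hw => ⟨fun ha => (a2 u hu w hw).1 ?_, (a2 u hu w hw).2⟩⟩, ?_⟩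
    · omega
    · refine (a2 w₁ h1 w₂ h2).1 ?_
      have : link w₁ w₂ w₁ w₂ ≠ 0 := link_ne_zero.2 (Or.inl ⟨rfl, rfl⟩)
      omega
  · rintro ⟨⟨a1, a2⟩, a3⟩
    refine ⟨a1, fun u hu w hw => ⟨fun ha => ?_, (a2 u hu w hw).2⟩⟩
    by_cases ha' : I.a u w = 0
    · have hl : link w₁ w₂ u w ≠ 0 := by omega
      rcases link_ne_zero.1 hl with ⟨e1, e2⟩ | ⟨e1, e2⟩
      · rw [e1, e2]; exact a3
      · rw [e1, e2]; exact fun h => a3 h.symm
    · exact (a2 u hu w hw).1 ha'

end FG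

end Pool.Agent.Nest
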