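import Pool.Agent.Lib.MP_26a019_lc.Nest.Chart

/-!
# The summed chart inequality for the elimination of a vertex of degree two
-/

namespace Pool.Agent.Lib.MP_26a019_lc.Nest

open Finset

set_option linter.unusedSectionVars false

variable {V : Type*} [DecidableEq V] {Ω : Type*}

/-- Some move contains exactly one of `w1`, `w2`. -/
def Cut (w1 w2 : V) (A : Finset (Finset V)) : Prop := ∃ B ∈ A, ¬ (w1 ∈ B ↔ w2 ∈ B)

open Classical in
/-- The moves that survive the identification of `w1` and `w2`. -/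
noncomputable def rfam (w1 w2 : V) (A : Finset (Finset V)) : Finset (Finset V) :=
  if Cut w1 w2 A then A.filter (fun U => (w1 ∈ U ↔ w2 ∈ U)) else A.filter (fun U => w1 ∉ U)

open Classical in
/-- The mode whose sign cuts out `rfam`. -/
noncomputable def rD (w1 w2 : V) (A : Finset (Finset V)) : Finset V :=
  if Cut w1 w2 A then symmDiff {w1} {w2} else {w1}

theorem sg_singleton (w : V) (U : Finset V) : sg {w} U = if w ∈ U then -1 else 1 := by
  rw [sg_eq_prod, Finset.prod_singleton]

theorem mem_rfam {w1 w2 : V} {A : Finset (Finset V)} (U : Finset V) :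
    U ∈ rfam w1 w2 A ↔ U ∈ A ∧ sg (rD w1 w2 A) U = 1 := by
  unfold rfam rD
  split_ifs with h
  · rw [Finset.mem_filter, sg_symmDiff_left, sg_singleton, sg_singleton]
    by_cases h1 : w1 ∈ U <;> by_cases h2 : w2 ∈ U <;> simp [h1, h2] <;> norm_num
  · rw [Finset.mem_filter, sg_singleton]
    by_cases h1 : w1 ∈ U <;> simp [h1] <;> norm_num

theorem Fam.sum_sg_zero {Om : Finset Ω} {fam : Ω → Finset (Finset V)}
    {fl : Finset V → Ω → Ω} (H : Fam Om fam fl) {f : Ω} (hf : f ∈ Om) {D B : Finset V}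
    (hB : B ∈ fam f) (hD : sg D B = -1) : ∑ U ∈ fam f, sg D U = 0 := by
  classical
  have h := H.orth hf D ∅
  rw [if_neg] at h
  · simpa only [sg_empty_left, mul_one] using h
  · intro h2
    have := h2 B hB
    rw [sg_empty_left, hD] at this
    norm_num at this

section Index2

variable {A A' : Finset (Finset V)} {D : Finset V}

theorem sum_restrict (hA' : ∀ U, U ∈ A' ↔ U ∈ A ∧ sg D U = 1) (F : Finset V → ℝ) :
    ∑ U ∈ A', F U = (1 / 2) * ∑ U ∈ A, (F U + sg D U * F U) := by
  classical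
  have e : A' = A.filter (fun U => sg D U = 1) := by
    ext U
    rw [Finset.mem_filter]
    exact hA' U
  rw [e, Finset.sum_filter, Finset.mul_sum]
  refine Finset.sum_congr rfl fun U _ => ?_
  rcases sg_eq_or D U with h | h
  · rw [if_pos h, h]; ring
  · rw [if_neg (by rw [h]; norm_num), h]; ring

theorem card_restrict (hA' : ∀ U, U ∈ A' ↔ U ∈ A ∧ sg D U = 1)
    (h0 : ∑ U ∈ A, sg D U = 0) : (A.card : ℝ) = 2 * A'.card := by
  have h := sum_restrict hA' (fun _ => (1 : ℝ))
  simp only [mul_one] at h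
  rw [Finset.sum_add_distrib, h0, Finset.sum_const, Finset.sum_const, nsmul_eq_mul,
    nsmul_eq_mul] at h
  linarith

theorem sum_symmDiff_mode [Fintype V] (D : Finset V) (F : Finset V → ℝ) :
    ∑ S : Finset V, F (symmDiff S D) = ∑ S : Finset V, F S := by
  refine Finset.sum_nbij' (fun S => symmDiff S D) (fun S => symmDiff S D) ?_ ?_ ?_ ?_ ?_
  · intro S _; exact Finset.mem_univ _
  · intro S _; exact Finset.mem_univ _
  · intro S _; exact symmDiff_symmDiff_cancel_right D S
  · intro S _; exact symmDiff_symmDiff_cancel_right D S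
  · intro S _; rfl

theorem csum_restrict [Fintype V] (hA' : ∀ U, U ∈ A' ↔ U ∈ A ∧ sg D U = 1)
    (h0 : ∑ U ∈ A, sg D U = 0) (F : Finset V → ℝ) :
    csum A' (fun S => F S + F (symmDiff S D)) = csum A F := by
  unfold csum
  rw [Finset.sum_add_distrib, sum_symmDiff_mode D F, card_restrict hA' h0]
  ring

end Index2

variable {Om Eq : Finset Ω} {fam fam' : Ω → Finset (Finset V)} {fl : Finset V → Ω → Ω}

/-- Transform of the restricted family (index two). -/
theorem tr_restrict (H : Fam Om fam fl) {f : Ω} (hf : f ∈ Om) {D : Finset V}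
    (hA' : ∀ U, U ∈ fam' f ↔ U ∈ fam f ∧ sg D U = 1)
    (h0 : ∑ U ∈ fam f, sg D U = 0) (g : Ω → ℝ) (S : Finset V) :
    tr fam' fl g f S = tr fam fl g f S + tr fam fl g f (symmDiff S D) := by
  have hc := H.card_pos hf
  have hcard := card_restrict hA' h0
  unfold tr
  rw [sum_restrict hA', ← add_div, ← Finset.sum_add_distrib, hcard]
  have e : ∑ U ∈ fam f, (sg S U * g (fl U f) + sg D U * (sg S U * g (fl U f)))
      = ∑ U ∈ fam f, (sg S U * g (fl U f) + sg (symmDiff S D) U * g (fl U f)) := by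
    refine Finset.sum_congr rfl fun U _ => ?_
    rw [sg_symmDiff_left]
    ring
  rw [e]
  have : (0 : ℝ) < (fam' f).card := by
    rw [hcard] at hc
    linarith
  field_simp

/-- The operator with the rates `lam`. -/
noncomputable def opL [Fintype V] (R : Finset V → ℝ) (fam : Ω → Finset (Finset V))
    (fl : Finset V → Ω → Ω) (g : Ω → ℝ) (f : Ω) : ℝ :=
  opX fam fl (fun f S => lam R (fam f) S) g f

theorem Fam.wt_lam (H : Fam Om fam fl) (R : Finset V → ℝ) :
    Wt Om fam fl (fun f S => lam R (fam f) S) where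
  inv := by
    intro f hf U hU S
    simp only [H.fam_fl f hf U hU]
  char := by
    intro f _ S S' h
    exact lam_congr R h

theorem tr_sub (fam : Ω → Finset (Finset V)) (fl : Finset V → Ω → Ω) (g h : Ω → ℝ) (f : Ω)
    (S : Finset V) :
    tr fam fl (fun f => g f - h f) f S = tr fam fl g f S - tr fam fl h f S := by
  unfold tr
  rw [← sub_div, ← Finset.sum_sub_distrib]
  congr 1
  refine Finset.sum_congr rfl fun U _ => ?_
  ring

open Classical in
/-- The intrinsic gain density. -/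
noncomputable def gainD [Fintype V] (R : Finset V → ℝ) (w1 w2 : V)
    (fam : Ω → Finset (Finset V)) (fl : Finset V → Ω → Ω) (g : Ω → ℝ) (f : Ω) : ℝ :=
  csum (fam f) (fun S => if lam R (fam f) S ≠ lam R (rfam w1 w2 (fam f)) S then
    (lam R (fam f) S * tr fam fl g f S) ^ 2 else 0)

/-- The gain density is constant on charts. -/
theorem gainD_fl [Fintype V] (H : Fam Om fam fl) (R : Finset V → ℝ) (w1 w2 : V) (g : Ω → ℝ)
    {f : Ω} (hf : f ∈ Om) {U : Finset V} (hU : U ∈ fam f) :
    gainD R w1 w2 fam fl g (fl U f) = gainD R w1 w2 fam fl g f := by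
  unfold gainD
  rw [H.fam_fl f hf U hU]
  congr 1
  funext S
  rw [H.tr_fl hf g hU]
  have : (lam R (fam f) S * (sg S U * tr fam fl g f S)) ^ 2
      = (lam R (fam f) S * tr fam fl g f S) ^ 2 := by
    have h := sg_mul_self S U
    calc (lam R (fam f) S * (sg S U * tr fam fl g f S)) ^ 2
        = (sg S U * sg S U) * (lam R (fam f) S * tr fam fl g f S) ^ 2 := by ring
      _ = _ := by rw [h, one_mul]
  rw [this]

theorem gainD_nonneg [Fintype V] (R : Finset V → ℝ) (w1 w2 : V) (g : Ω → ℝ) (f : Ω) :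
    0 ≤ gainD R w1 w2 fam fl g f := by
  unfold gainD
  refine csum_nonneg _ fun S => ?_
  split_ifs
  · positivity
  · exact le_refl _

open Classical in
/-- Sum of the gain density over the equal states. -/
theorem sum_gainD_le [Fintype V] (H : Fam Om fam fl) (hsub : Eq ⊆ Om) (R : Finset V → ℝ)
    (w1 w2 : V)
    (hEq : ∀ f ∈ Om, ∀ U ∈ fam f, (fl U f ∈ Eq ↔ (f ∈ Eq ↔ (w1 ∈ U ↔ w2 ∈ U))))
    (g : Ω → ℝ) :
    ∑ f ∈ Eq, gainD R w1 w2 fam fl g f
      ≤ ∑ f ∈ Om, (if Cut w1 w2 (fam f) then (1 : ℝ) / 2 else 1)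
          * gainD R w1 w2 fam fl g f := by
  have e1 : ∑ f ∈ Eq, gainD R w1 w2 fam fl g f
      = ∑ f ∈ Om, (if f ∈ Eq then gainD R w1 w2 fam fl g f else 0) := by
    rw [← Finset.sum_filter]
    congr 1
    ext f
    rw [Finset.mem_filter]
    exact ⟨fun h => ⟨hsub h, h⟩, fun h => h.2⟩
  rw [e1, ← H.sum_avg]
  refine Finset.sum_le_sum fun f hf => ?_
  have hc := H.card_pos hf
  have e2 : ∑ U ∈ fam f, (if fl U f ∈ Eq then gainD R w1 w2 fam fl g (fl U f) else 0)
      = (∑ U ∈ fam f, (if fl U f ∈ Eq then (1 : ℝ) else 0)) * gainD R w1 w2 fam fl g f := by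
    rw [Finset.sum_mul]
    refine Finset.sum_congr rfl fun U hU => ?_
    rw [gainD_fl H R w1 w2 g hf hU]
    split_ifs <;> simp
  rw [e2, mul_div_right_comm]
  refine mul_le_mul_of_nonneg_right ?_ (gainD_nonneg R w1 w2 g f)
  rw [div_le_iff₀ hc]
  by_cases hcut : Cut w1 w2 (fam f)
  · rw [if_pos hcut]
    obtain ⟨B, hB, hBw⟩ := hcut
    have hD : ∀ U : Finset V, sg (symmDiff {w1} {w2}) U
        = if (w1 ∈ U ↔ w2 ∈ U) then 1 else -1 := by
      intro U
      rw [sg_symmDiff_left, sg_singleton, sg_singleton]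
      by_cases h1 : w1 ∈ U <;> by_cases h2 : w2 ∈ U <;> simp [h1, h2]
    have h0 := H.sum_sg_zero hf (D := symmDiff {w1} {w2}) hB (by rw [hD, if_neg hBw])
    have e3 : ∀ U ∈ fam f, (if fl U f ∈ Eq then (1 : ℝ) else 0)
        = 1 / 2 + (if f ∈ Eq then (1 : ℝ) / 2 else -(1 / 2)) * sg (symmDiff {w1} {w2}) U := by
      intro U hU
      have := hEq f hf U hU
      rw [hD]
      by_cases a : f ∈ Eq <;> by_cases b : (w1 ∈ U ↔ w2 ∈ U) <;>
        simp only [this, a, b, if_true, if_false, iff_true, iff_false,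
          not_true_eq_false] <;> norm_num
    rw [Finset.sum_congr rfl e3, Finset.sum_add_distrib, ← Finset.mul_sum, h0,
      Finset.sum_const, nsmul_eq_mul]
    linarith
  · rw [if_neg hcut, one_mul]
    calc ∑ U ∈ fam f, (if fl U f ∈ Eq then (1 : ℝ) else 0) ≤ ∑ U ∈ fam f, (1 : ℝ) := by
          refine Finset.sum_le_sum fun U _ => ?_
          split_ifs <;> norm_num
      _ = (fam f).card := by rw [Finset.sum_const, nsmul_eq_mul, mul_one]

/-- Number of the two vertices that lie in `U` (with multiplicity). -/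
noncomputable def cnt (w1 w2 : V) (U : Finset V) : ℝ :=
  (if w1 ∈ U then 1 else 0) + (if w2 ∈ U then 1 else 0)

theorem cnt_nonneg (w1 w2 : V) (U : Finset V) : 0 ≤ cnt w1 w2 U := by
  unfold cnt
  split_ifs <;> norm_num

open Classical in
/-- The gain of a selection of minimisers bounds the intrinsic gain. -/
theorem gain_le_sel [Fintype V] (R : Finset V → ℝ) (w1 w2 : V) (g : Ω → ℝ) (f : Ω)
    (sel : Finset V → Finset V)
    (hsel : ∀ S, (oddF (fam f) S).Nonempty →
      sel S ∈ oddF (fam f) S ∧ ∀ U ∈ oddF (fam f) S, R (sel S) ≤ R U) :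
    (if Cut w1 w2 (fam f) then (1 : ℝ) / 2 else 1) * gainD R w1 w2 fam fl g f
      ≤ (1 / 2) * csum (fam f) (fun S => cnt w1 w2 (sel S)
          * (lam R (fam f) S * tr fam fl g f S) ^ 2) := by
  unfold gainD
  rw [← csum_const_mul, ← csum_const_mul]
  refine csum_le_csum _ fun S => ?_
  set q : ℝ := (lam R (fam f) S * tr fam fl g f S) ^ 2 with hq
  have hq0 : 0 ≤ q := by positivity
  by_cases hne : lam R (fam f) S ≠ lam R (rfam w1 w2 (fam f)) S
  · rw [if_pos hne]
    have hA' : ∀ U, U ∈ rfam w1 w2 (fam f) ↔ U ∈ fam f ∧ sg (rD w1 w2 (fam f)) U = 1 :=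
      fun U => mem_rfam U
    obtain ⟨h1, h2⟩ := hsel S (nonempty_of_lam_ne hA' hne)
    have h3 := sg_of_lam_ne hA' hne h1 h2
    have hmem := (mem_oddF.mp h1).1
    by_cases hcut : Cut w1 w2 (fam f)
    · rw [if_pos hcut]
      have h4 : ¬ (w1 ∈ sel S ↔ w2 ∈ sel S) := by
        intro h5
        have : sel S ∈ rfam w1 w2 (fam f) := by
          unfold rfam
          rw [if_pos hcut, Finset.mem_filter]
          exact ⟨hmem, h5⟩
        have := ((hA' _).mp this).2
        rw [h3] at this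
        norm_num at this
      have h5 : cnt w1 w2 (sel S) = 1 := by
        unfold cnt
        by_cases a : w1 ∈ sel S <;> by_cases b : w2 ∈ sel S <;> simp [a, b] at h4 ⊢
      rw [h5]
      linarith
    · rw [if_neg hcut]
      have h4 : w1 ∈ sel S := by
        by_contra h5
        have : sel S ∈ rfam w1 w2 (fam f) := by
          unfold rfam
          rw [if_neg hcut, Finset.mem_filter]
          exact ⟨hmem, h5⟩
        have := ((hA' _).mp this).2
        rw [h3] at this
        norm_num at this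
      have h5 : w2 ∈ sel S := by
        by_contra h6
        exact hcut ⟨sel S, hmem, fun h7 => h6 (h7.mp h4)⟩
      have h6 : cnt w1 w2 (sel S) = 2 := by
        unfold cnt
        rw [if_pos h4, if_pos h5]
        norm_num
      rw [h6]
      linarith
  · rw [if_neg hne]
    have := cnt_nonneg w1 w2 (sel S)
    have h7 : 0 ≤ cnt w1 w2 (sel S) * q := mul_nonneg this hq0
    linarith

open Classical in
/-- The loss and the change of the generator are paid by the intrinsic gain. -/
theorem loss_le_gainD [Fintype V] (H : Fam Om fam fl) (H' : Fam Eq fam' fl)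
    (hsub : Eq ⊆ Om) (w1 w2 : V) (hF : ∀ f ∈ Eq, fam' f = rfam w1 w2 (fam f))
    (hinter : ∀ f ∈ Eq, ∀ U ∈ fam f, ∀ U' ∈ fam f, U ∩ U' ∈ fam f)
    (hsdiff : ∀ f ∈ Eq, ∀ U ∈ fam f, ∀ U' ∈ fam f, U \ U' ∈ fam f)
    (ρ : V → ℝ) (hρ : ∀ f ∈ Eq, ∀ U ∈ fam f, ∀ x ∈ U, 0 < ρ x)
    (sel' : Ω → Finset V → Finset V)
    (hsel' : ∀ f ∈ Eq, ∀ S, (oddF (fam' f) S).Nonempty → sel' f S ∈ oddF (fam' f) S ∧
      ∀ U ∈ oddF (fam' f) S, ∑ x ∈ sel' f S, ρ x ≤ ∑ x ∈ U, ρ x)
    (g : Ω → ℝ) :
    ∑ f ∈ Eq, (csum (fam' f) (fun S => if w1 ∈ sel' f S then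
        (lam (fun U => ∑ x ∈ U, ρ x) (fam' f) S * tr fam' fl g f S) ^ 2 else 0)
      + (opL (fun U => ∑ x ∈ U, ρ x) fam fl g f
          - opL (fun U => ∑ x ∈ U, ρ x) fam' fl g f) ^ 2)
      ≤ ∑ f ∈ Eq, gainD (fun U => ∑ x ∈ U, ρ x) w1 w2 fam fl g f := by
  set R : Finset V → ℝ := fun U => ∑ x ∈ U, ρ x with hRdef
  have hw := H.wt_lam R
  have hw' := H'.wt_lam R
  rw [Finset.sum_add_distrib]
  have e1 : ∑ f ∈ Eq, (opL R fam fl g f - opL R fam' fl g f) ^ 2
      = ∑ f ∈ Eq, csum (fam' f) (fun S => (tr fam' fl (opL R fam fl g) f S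
          - lam R (fam' f) S * tr fam' fl g f S) ^ 2) := by
    have h := H'.parseval (fun f => opL R fam fl g f - opL R fam' fl g f)
      (fun f => opL R fam fl g f - opL R fam' fl g f)
    calc ∑ f ∈ Eq, (opL R fam fl g f - opL R fam' fl g f) ^ 2
        = ∑ f ∈ Eq, (opL R fam fl g f - opL R fam' fl g f)
            * (opL R fam fl g f - opL R fam' fl g f) :=
          Finset.sum_congr rfl fun f _ => by ring
      _ = _ := h.symm
      _ = _ := by
          refine Finset.sum_congr rfl fun f hf => ?_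
          congr 1
          funext S
          rw [tr_sub]
          have : tr fam' fl (opL R fam' fl g) f S = lam R (fam' f) S * tr fam' fl g f S :=
            H'.tr_opX hw' g hf S
          rw [this]
          ring
  rw [e1, ← Finset.sum_add_distrib]
  refine Finset.sum_le_sum fun f hf => ?_
  have hfO := hsub hf
  rw [← csum_add]
  have hA' : ∀ U, U ∈ fam' f ↔ U ∈ fam f ∧ sg (rD w1 w2 (fam f)) U = 1 := by
    intro U
    rw [hF f hf]
    exact mem_rfam U
  have htrX : ∀ S, tr fam fl (opL R fam fl g) f S = lam R (fam f) S * tr fam fl g f S :=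
    fun S => H.tr_opX hw g hfO S
  have hRpos : ∀ U ∈ fam f, U ≠ ∅ → 0 < R U := by
    intro U hU hne
    exact Finset.sum_pos (hρ f hf U hU) (Finset.nonempty_iff_ne_empty.mpr hne)
  have hRs : ∀ U ∈ fam f, ∀ U' ∈ fam f, R (symmDiff U U') ≤ R U + R U' := by
    intro U hU U' hU'
    have h1 : R (symmDiff U U') = R (U \ U') + R (U' \ U) := by
      simp only [hRdef]
      rw [symmDiff_def, Finset.sup_eq_union, Finset.sum_union]
      exact disjoint_sdiff_sdiff
    have h2 : R (U \ U') ≤ R U :=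
      Finset.sum_le_sum_of_subset_of_nonneg Finset.sdiff_subset
        (fun x hx _ => (hρ f hf U hU x hx).le)
    have h3 : R (U' \ U) ≤ R U' :=
      Finset.sum_le_sum_of_subset_of_nonneg Finset.sdiff_subset
        (fun x hx _ => (hρ f hf U' hU' x hx).le)
    linarith
  by_cases hidx : ∃ B ∈ fam f, sg (rD w1 w2 (fam f)) B = -1
  · -- index two
    obtain ⟨B, hB, hBD⟩ := hidx
    have h0 := H.sum_sg_zero hfO hB hBD
    unfold gainD
    rw [← csum_restrict hA' h0]
    refine csum_le_csum _ fun S => ?_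
    have t1 : tr fam' fl (opL R fam fl g) f S
        = lam R (fam f) S * tr fam fl g f S
          + lam R (fam f) (symmDiff S (rD w1 w2 (fam f)))
            * tr fam fl g f (symmDiff S (rD w1 w2 (fam f))) := by
      rw [tr_restrict H hfO hA' h0, htrX, htrX]
    have t2 := tr_restrict H hfO hA' h0 g S
    have hL : w1 ∈ sel' f S ∧ (oddF (fam' f) S).Nonempty →
        ∃ U' U1 U2 : Finset V, U' ∈ oddF (fam' f) S ∧
          (∀ U ∈ oddF (fam' f) S, R U' ≤ R U) ∧
          U1 ∈ fam f ∧ U2 ∈ fam f ∧ symmDiff U1 U2 = U' ∧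
          sg (rD w1 w2 (fam f)) U1 = -1 ∧ R U1 + R U2 ≤ R U' := by
      rintro ⟨hw1, hne⟩
      obtain ⟨b1, b2⟩ := hsel' f hf S hne
      have hmem' := (mem_oddF.mp b1).1
      have hmem : sel' f S ∈ fam f := ((hA' _).mp hmem').1
      have hmemr : sel' f S ∈ rfam w1 w2 (fam f) := by
        rw [← hF f hf]; exact hmem'
      have hcut : Cut w1 w2 (fam f) := by
        by_contra hcut
        unfold rfam at hmemr
        rw [if_neg hcut, Finset.mem_filter] at hmemr
        exact hmemr.2 hw1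
      have hiff : (w1 ∈ sel' f S ↔ w2 ∈ sel' f S) := by
        unfold rfam at hmemr
        rw [if_pos hcut, Finset.mem_filter] at hmemr
        exact hmemr.2
      obtain ⟨C, hC, hCw⟩ := id hcut
      refine ⟨sel' f S, sel' f S ∩ C, sel' f S \ C, b1, b2, hinter f hf _ hmem C hC,
        hsdiff f hf _ hmem C hC, ?_, ?_, ?_⟩
      · ext x
        simp only [Finset.mem_symmDiff, Finset.mem_inter, Finset.mem_sdiff]
        tauto
      · rcases sg_eq_or (rD w1 w2 (fam f)) (sel' f S ∩ C) with h | h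
        · exfalso
          have : sel' f S ∩ C ∈ rfam w1 w2 (fam f) :=
            (mem_rfam _).mpr ⟨hinter f hf _ hmem C hC, h⟩
          unfold rfam at this
          rw [if_pos hcut, Finset.mem_filter] at this
          apply hCw
          have h2 := this.2
          simp only [Finset.mem_inter] at h2
          have hw2 := hiff.mp hw1
          constructor
          · intro h3; exact (h2.mp ⟨hw1, h3⟩).2
          · intro h3; exact (h2.mpr ⟨hw2, h3⟩).2
        · exact h
      · have : R (sel' f S ∩ C) + R (sel' f S \ C) = R (sel' f S) := by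
          simp only [hRdef]
          rw [← Finset.sum_union (Finset.disjoint_left.mpr fun x hx hx2 =>
            (Finset.mem_sdiff.mp hx2).2 (Finset.mem_inter.mp hx).2)]
          congr 1
          ext x
          simp only [Finset.mem_union, Finset.mem_inter, Finset.mem_sdiff]
          tauto
        exact this.le
    have hp := pair_fam (H.symm_mem f hfO) hRpos hRs hA' S
      (w1 ∈ sel' f S ∧ (oddF (fam' f) S).Nonempty) hL
      (tr fam fl g f S) (tr fam fl g f (symmDiff S (rD w1 w2 (fam f))))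
    have l1 : lam R (rfam w1 w2 (fam f)) S = lam R (fam' f) S := by rw [hF f hf]
    have l2 : lam R (rfam w1 w2 (fam f)) (symmDiff S (rD w1 w2 (fam f)))
        = lam R (fam' f) S := by
      rw [← hF f hf]
      exact lam_restrict hA' S
    rw [l1, l2]
    refine le_trans (le_of_eq ?_) hp
    congr 1
    · by_cases hw1 : w1 ∈ sel' f S
      · by_cases hne : (oddF (fam' f) S).Nonempty
        · rw [if_pos hw1, if_pos ⟨hw1, hne⟩, t2]
        · rw [if_pos hw1, if_neg (fun h => hne h.2), lam_of_empty hne]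
          ring
      · rw [if_neg hw1, if_neg (fun h => hw1 h.1)]
    · rw [t1, t2]
      ring
  · -- index one
    have hall : ∀ U ∈ fam f, sg (rD w1 w2 (fam f)) U = 1 := by
      intro U hU
      rcases sg_eq_or (rD w1 w2 (fam f)) U with h | h
      · exact h
      · exact absurd ⟨U, hU, h⟩ hidx
    have hfam : fam' f = fam f := by
      ext U
      rw [hA' U]
      exact ⟨fun h => h.1, fun h => ⟨h, hall U h⟩⟩
    have hw1 : ∀ S, (oddF (fam' f) S).Nonempty → w1 ∉ sel' f S := by
      intro S hne hw1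
      obtain ⟨b1, -⟩ := hsel' f hf S hne
      have hmem' := (mem_oddF.mp b1).1
      have hcut : ¬ Cut w1 w2 (fam f) := by
        rintro ⟨C, hC, hCw⟩
        have hCr : C ∈ rfam w1 w2 (fam f) := (mem_rfam _).mpr ⟨hC, hall C hC⟩
        unfold rfam at hCr
        rw [if_pos ⟨C, hC, hCw⟩, Finset.mem_filter] at hCr
        exact hCw hCr.2
      rw [hF f hf] at hmem'
      unfold rfam at hmem'
      rw [if_neg hcut, Finset.mem_filter] at hmem'
      exact hmem'.2 hw1
    have htr : ∀ (h : Ω → ℝ) (S : Finset V), tr fam' fl h f S = tr fam fl h f S := by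
      intro h S
      unfold tr
      rw [hfam]
    have : csum (fam' f) (fun S => (if w1 ∈ sel' f S then
        (lam R (fam' f) S * tr fam' fl g f S) ^ 2 else 0)
        + (tr fam' fl (opL R fam fl g) f S - lam R (fam' f) S * tr fam' fl g f S) ^ 2)
        = 0 := by
      have e0 : ∀ S, (if w1 ∈ sel' f S then
          (lam R (fam' f) S * tr fam' fl g f S) ^ 2 else 0)
          + (tr fam' fl (opL R fam fl g) f S - lam R (fam' f) S * tr fam' fl g f S) ^ 2
          = 0 := by
        intro S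
        simp only [htr, htrX]
        rw [hfam]
        by_cases h1 : w1 ∈ sel' f S
        · have hne : ¬ (oddF (fam f) S).Nonempty := by
            rw [← hfam]
            exact fun hne => hw1 S hne h1
          rw [if_pos h1, lam_of_empty hne]
          ring
        · rw [if_neg h1]
          ring
      unfold csum
      rw [Finset.sum_eq_zero (fun S _ => e0 S)]
      ring
    rw [this]
    exact gainD_nonneg R w1 w2 g f

open Classical in
/-- **The summed chart inequality.** -/
theorem chart_sum [Fintype V] (H : Fam Om fam fl) (H' : Fam Eq fam' fl)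
    (hsub : Eq ⊆ Om) (w1 w2 : V)
    (hEq : ∀ f ∈ Om, ∀ U ∈ fam f, (fl U f ∈ Eq ↔ (f ∈ Eq ↔ (w1 ∈ U ↔ w2 ∈ U))))
    (hF : ∀ f ∈ Eq, fam' f = rfam w1 w2 (fam f))
    (hinter : ∀ f ∈ Eq, ∀ U ∈ fam f, ∀ U' ∈ fam f, U ∩ U' ∈ fam f)
    (hsdiff : ∀ f ∈ Eq, ∀ U ∈ fam f, ∀ U' ∈ fam f, U \ U' ∈ fam f)
    (ρ : V → ℝ) (hρ : ∀ f ∈ Eq, ∀ U ∈ fam f, ∀ x ∈ U, 0 < ρ x)
    (sel sel' : Ω → Finset V → Finset V)
    (hsel : ∀ f ∈ Om, ∀ S, (oddF (fam f) S).Nonempty → sel f S ∈ oddF (fam f) S ∧
      ∀ U ∈ oddF (fam f) S, ∑ x ∈ sel f S, ρ x ≤ ∑ x ∈ U, ρ x)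
    (hsel' : ∀ f ∈ Eq, ∀ S, (oddF (fam' f) S).Nonempty → sel' f S ∈ oddF (fam' f) S ∧
      ∀ U ∈ oddF (fam' f) S, ∑ x ∈ sel' f S, ρ x ≤ ∑ x ∈ U, ρ x)
    (g : Ω → ℝ) :
    ∑ f ∈ Eq, (csum (fam' f) (fun S => if w1 ∈ sel' f S then
        (lam (fun U => ∑ x ∈ U, ρ x) (fam' f) S * tr fam' fl g f S) ^ 2 else 0)
      + (opL (fun U => ∑ x ∈ U, ρ x) fam fl g f
          - opL (fun U => ∑ x ∈ U, ρ x) fam' fl g f) ^ 2)
      ≤ (1 / 2) * ∑ f ∈ Om, csum (fam f) (fun S => cnt w1 w2 (sel f S)
          * (lam (fun U => ∑ x ∈ U, ρ x) (fam f) S * tr fam fl g f S) ^ 2) := by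
  refine (loss_le_gainD H H' hsub w1 w2 hF hinter hsdiff ρ hρ sel' hsel' g).trans ?_
  refine (sum_gainD_le H hsub _ w1 w2 hEq g).trans ?_
  rw [Finset.mul_sum]
  exact Finset.sum_le_sum fun f hf => gain_le_sel _ w1 w2 g f (sel f) (hsel f hf)

end Pool.Agent.Lib.MP_26a019_lc.Nest
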