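import Pool.Agent.Lib.MP_26a019_lc.Nest.Defs
import Pool.Agent.Lib.MP_26a019_lc.Nest.ChartSum

/-!
# Flip systems: calculus of the operators `FS.op` and the chart inequality

Bridge between the definitions of `Nest/Defs.lean` and the Fourier analysis of `Nest/Fam.lean`.
-/

set_option autoImplicit false
set_option linter.unusedSectionVars false

open Finset Classical

namespace Pool.Agent.Nest

open Pool.Agent.Lib.MP_26a019_lc.Nest (sg Fam Wt tr csum opX)

variable {V : Type} [Fintype V] {X : Type}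

/-! ### Signs -/

theorem chi_eq_sg (S T : Finset V) : chi S T = sg S T := rfl

theorem chi_comm (S T : Finset V) : chi S T = chi T S :=
  Pool.Agent.Lib.MP_26a019_lc.Nest.sg_comm S T

theorem chi_empty_right (S : Finset V) : chi S ∅ = 1 :=
  Pool.Agent.Lib.MP_26a019_lc.Nest.sg_empty_right S

theorem chi_empty_left (S : Finset V) : chi ∅ S = 1 :=
  Pool.Agent.Lib.MP_26a019_lc.Nest.sg_empty_left S

theorem chi_symmDiff_right (S T T' : Finset V) : chi S (symmDiff T T') = chi S T * chi S T' :=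
  Pool.Agent.Lib.MP_26a019_lc.Nest.sg_symmDiff_right S T T'

theorem chi_symmDiff_left (S S' T : Finset V) : chi (symmDiff S S') T = chi S T * chi S' T :=
  Pool.Agent.Lib.MP_26a019_lc.Nest.sg_symmDiff_left S S' T

theorem chi_eq_or (S T : Finset V) : chi S T = 1 ∨ chi S T = -1 :=
  Pool.Agent.Lib.MP_26a019_lc.Nest.sg_eq_or S T

theorem chi_mul_self (S T : Finset V) : chi S T * chi S T = 1 :=
  Pool.Agent.Lib.MP_26a019_lc.Nest.sg_mul_self S T

theorem chi_singleton (w : V) (T : Finset V) : chi {w} T = if w ∈ T then -1 else 1 :=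
  Pool.Agent.Lib.MP_26a019_lc.Nest.sg_singleton w T

theorem chi_eq_neg_one_iff (S T : Finset V) : chi S T = -1 ↔ Odd (S ∩ T).card := by
  have h := Pool.Agent.Lib.MP_26a019_lc.Nest.mem_oddF (A := {T}) (S := S) (U := T)
  unfold Pool.Agent.Lib.MP_26a019_lc.Nest.oddF at h
  rw [Finset.mem_filter] at h
  constructor
  · intro h1
    exact (h.mpr ⟨Finset.mem_singleton_self T, h1⟩).2
  · intro h1
    exact (h.mp ⟨Finset.mem_singleton_self T, h1⟩).2

theorem sum_chi (T : Finset V) :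
    ∑ S : Finset V, chi S T = if T = ∅ then (2 : ℝ) ^ Fintype.card V else 0 := by
  have h := Pool.Agent.Lib.MP_26a019_lc.Nest.sum_sg T
  simp only [← chi_eq_sg] at h
  exact h

/-! ### Flip systems -/

theorem FS.toFam (F : FS V X) : Fam F.Om F.K F.fl where
  empty_mem := F.emp
  symm_mem := F.sd
  fl_mem := F.fl_mem
  fam_fl := F.K_fl
  fl_fl := F.fl_fl
  fl_empty := F.fl_emp

theorem Mul.toWt {F : FS V X} {μ : X → Finset V → ℝ} (h : Mul F μ) : Wt F.Om F.K F.fl μ where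
  inv := h.1
  char := h.2

theorem FS.card_pos (F : FS V X) {f : X} (hf : f ∈ F.Om) : (0 : ℝ) < (F.K f).card :=
  F.toFam.card_pos hf

theorem FS.op_eq_opX (F : FS V X) (μ : X → Finset V → ℝ) (g : X → ℝ) {f : X}
    (hf : f ∈ F.Om) : F.op μ g f = opX F.K F.fl μ g f := by
  have hc := F.card_pos hf
  unfold FS.op cv opX csum tr
  have e : ∑ S : Finset V, μ f S * ((∑ U ∈ F.K f, sg S U * g (F.fl U f)) / ((F.K f).card : ℝ))
      = (∑ S : Finset V, μ f S * ∑ T ∈ F.K f, chi S T * g (F.fl T f)) / ((F.K f).card : ℝ) := by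
    rw [Finset.sum_div]
    refine Finset.sum_congr rfl fun S _ => ?_
    rw [mul_div_assoc]
    rfl
  rw [e]
  field_simp

/-- The multiplier `1` is the identity. -/
theorem FS.op_one (F : FS V X) (g : X → ℝ) {f : X} (hf : f ∈ F.Om) :
    F.op (fun _ _ => 1) g f = g f := by
  rw [F.op_eq_opX _ g hf]
  unfold opX
  simp only [one_mul]
  exact F.toFam.inversion hf g

theorem opX_congr_op (F : FS V X) (ν : X → Finset V → ℝ) (g : X → ℝ) {f : X}
    (hf : f ∈ F.Om) :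
    tr F.K F.fl (F.op ν g) f = tr F.K F.fl (opX F.K F.fl ν g) f := by
  funext S
  unfold tr
  congr 1
  refine Finset.sum_congr rfl fun U hU => ?_
  rw [F.op_eq_opX ν g (F.fl_mem f hf U hU)]

/-- Composition of multipliers. -/
theorem FS.op_op (F : FS V X) {μ ν : X → Finset V → ℝ} (hν : Mul F ν)
    (g : X → ℝ) {f : X} (hf : f ∈ F.Om) :
    F.op μ (F.op ν g) f = F.op (fun f S => μ f S * ν f S) g f := by
  rw [F.op_eq_opX μ _ hf, F.op_eq_opX _ g hf]
  unfold opX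
  rw [opX_congr_op F ν g hf]
  congr 1
  funext S
  rw [F.toFam.tr_opX hν.toWt g hf S, mul_assoc]

/-- Orbit sum: averaging over the flips does not change the sum over the states. -/
theorem FS.sum_avg (F : FS V X) (Φ : X → ℝ) :
    ∑ f ∈ F.Om, (∑ T ∈ F.K f, Φ (F.fl T f)) / ((F.K f).card : ℝ) = ∑ f ∈ F.Om, Φ f :=
  F.toFam.sum_avg Φ

/-- The inner product with an operator in terms of the transforms. -/
theorem FS.inner_op (F : FS V X) {μ : X → Finset V → ℝ} (hμ : Mul F μ) (g h : X → ℝ) :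
    ∑ f ∈ F.Om, g f * F.op μ h f
      = ∑ f ∈ F.Om, csum (F.K f)
          (fun S => μ f S * (tr F.K F.fl g f S * tr F.K F.fl h f S)) := by
  have h1 : ∑ f ∈ F.Om, g f * F.op μ h f = ∑ f ∈ F.Om, opX F.K F.fl μ h f * g f :=
    Finset.sum_congr rfl fun f hf => by rw [F.op_eq_opX μ h hf, mul_comm]
  rw [h1, F.toFam.inner_opX hμ.toWt h g]
  refine Finset.sum_congr rfl fun f _ => ?_
  congr 1
  funext S
  ring

/-- Symmetry. -/
theorem FS.op_symm (F : FS V X) {μ : X → Finset V → ℝ} (hμ : Mul F μ) (g h : X → ℝ) :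
    ∑ f ∈ F.Om, g f * F.op μ h f = ∑ f ∈ F.Om, h f * F.op μ g f := by
  rw [F.inner_op hμ, F.inner_op hμ]
  refine Finset.sum_congr rfl fun f _ => ?_
  congr 1
  funext S
  ring

/-- Nonnegative multipliers give nonnegative forms. -/
theorem FS.op_nonneg (F : FS V X) {μ : X → Finset V → ℝ} (hμ : Mul F μ)
    (h0 : ∀ f ∈ F.Om, ∀ S, 0 ≤ μ f S) (g : X → ℝ) : 0 ≤ ∑ f ∈ F.Om, g f * F.op μ g f := by
  rw [F.inner_op hμ]
  refine Finset.sum_nonneg fun f hf =>
    Pool.Agent.Lib.MP_26a019_lc.Nest.csum_nonneg _ fun S => ?_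
  exact mul_nonneg (h0 f hf S) (mul_self_nonneg _)

/-- Monotonicity in the multiplier. -/
theorem FS.op_mono (F : FS V X) {μ ν : X → Finset V → ℝ} (hμ : Mul F μ) (hν : Mul F ν)
    (h : ∀ f ∈ F.Om, ∀ S, μ f S ≤ ν f S) (g : X → ℝ) :
    ∑ f ∈ F.Om, g f * F.op μ g f ≤ ∑ f ∈ F.Om, g f * F.op ν g f := by
  rw [F.inner_op hμ, F.inner_op hν]
  refine Finset.sum_le_sum fun f hf =>
    Pool.Agent.Lib.MP_26a019_lc.Nest.csum_le_csum _ fun S => ?_
  exact mul_le_mul_of_nonneg_right (h f hf S) (mul_self_nonneg _)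

/-- The norm of an operator. -/
theorem FS.op_sq (F : FS V X) {μ : X → Finset V → ℝ} (hμ : Mul F μ) (g : X → ℝ) :
    ∑ f ∈ F.Om, (F.op μ g f) ^ 2 = ∑ f ∈ F.Om, g f * F.op (fun f S => μ f S ^ 2) g f := by
  have hμ2 : Mul F (fun f S => μ f S ^ 2) :=
    ⟨fun f hf T hT S => by simp only [hμ.1 f hf T hT S],
      fun f hf S S' h => by simp only [hμ.2 f hf S S' h]⟩
  rw [F.inner_op hμ2]
  have h1 : ∑ f ∈ F.Om, (F.op μ g f) ^ 2
      = ∑ f ∈ F.Om, opX F.K F.fl μ g f * opX F.K F.fl μ g f :=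
    Finset.sum_congr rfl fun f hf => by rw [F.op_eq_opX μ g hf, pow_two]
  rw [h1, F.toFam.inner_opX_opX hμ.toWt hμ.toWt g g]
  refine Finset.sum_congr rfl fun f _ => ?_
  congr 1
  funext S
  ring

/-- Symmetry, second form. -/
theorem FS.op_symm' (F : FS V X) {μ : X → Finset V → ℝ} (hμ : Mul F μ) (φ ψ : X → ℝ) :
    ∑ f ∈ F.Om, φ f * F.op μ ψ f = ∑ f ∈ F.Om, F.op μ φ f * ψ f := by
  rw [F.op_symm hμ φ ψ]
  exact Finset.sum_congr rfl fun f _ => mul_comm _ _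

/-- The quadratic form of an operator. -/
theorem FS.quad (F : FS V X) {μ : X → Finset V → ℝ} (hμ : Mul F μ) (g : X → ℝ) :
    ∑ f ∈ F.Om, g f * F.op μ g f
      = ∑ f ∈ F.Om, (∑ S : Finset V, μ f S * (∑ T ∈ F.K f, chi S T * g (F.fl T f)) ^ 2)
          / (2 ^ Fintype.card V * ((F.K f).card : ℝ)) := by
  rw [F.inner_op hμ]
  refine Finset.sum_congr rfl fun f hf => ?_
  have hc := F.card_pos hf
  unfold csum tr
  have e : ∑ S : Finset V, μ f S * ((∑ U ∈ F.K f, sg S U * g (F.fl U f)) / ((F.K f).card : ℝ)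
        * ((∑ U ∈ F.K f, sg S U * g (F.fl U f)) / ((F.K f).card : ℝ)))
      = (∑ S : Finset V, μ f S * (∑ T ∈ F.K f, chi S T * g (F.fl T f)) ^ 2)
        / (((F.K f).card : ℝ) * ((F.K f).card : ℝ)) := by
    rw [Finset.sum_div]
    refine Finset.sum_congr rfl fun S _ => ?_
    simp only [chi_eq_sg]
    field_simp
  rw [e]
  have : (2 : ℝ) ^ Fintype.card V ≠ 0 := by positivity
  field_simp

/-- The operator after a flip. -/
theorem FS.op_fl (F : FS V X) {μ : X → Finset V → ℝ}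
    (hμ : ∀ f ∈ F.Om, ∀ T ∈ F.K f, ∀ S, μ (F.fl T f) S = μ f S) (g : X → ℝ) {f : X}
    (hf : f ∈ F.Om) {T₀ : Finset V} (hT₀ : T₀ ∈ F.K f) :
    F.op μ g (F.fl T₀ f) = F.op (fun f S => chi S T₀ * μ f S) g f := by
  rw [F.op_eq_opX μ g (F.fl_mem f hf T₀ hT₀), F.op_eq_opX _ g hf]
  unfold opX
  rw [F.K_fl f hf T₀ hT₀]
  congr 1
  funext S
  rw [F.toFam.tr_fl hf g hT₀ S, hμ f hf T₀ hT₀ S]
  simp only [chi_eq_sg]
  ring

/-- A family with the group properties, as a flip system with one state. -/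
noncomputable def FS.single (K : Finset (Finset V)) (h0 : ∅ ∈ K)
    (hs : ∀ T ∈ K, ∀ T' ∈ K, symmDiff T T' ∈ K) : FS V Unit where
  Om := {()}
  K := fun _ => K
  fl := fun _ _ => ()
  emp := fun _ _ => h0
  sd := fun _ _ => hs
  fl_mem := fun _ _ _ _ => Finset.mem_singleton_self _
  K_fl := fun _ _ _ _ => rfl
  fl_fl := fun _ _ _ _ _ _ => rfl
  fl_emp := fun _ _ => rfl

/-- Orthogonality of the modes on a group of flips. -/
theorem orthK {K : Finset (Finset V)} (h0 : ∅ ∈ K)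
    (hs : ∀ T ∈ K, ∀ T' ∈ K, symmDiff T T' ∈ K) (S S' : Finset V) :
    ∑ T ∈ K, chi S T * chi S' T
      = if (∀ T ∈ K, chi S T = chi S' T) then (K.card : ℝ) else 0 := by
  have h := (FS.single K h0 hs).toFam.orth (f := ()) (Finset.mem_singleton_self _) S S'
  exact h

/-- Counting the modes with given signs on a group of flips. -/
theorem countK {K : Finset (Finset V)} (h0 : ∅ ∈ K)
    (hs : ∀ T ∈ K, ∀ T' ∈ K, symmDiff T T' ∈ K) (S₀ : Finset V) :
    ((univ.filter (fun S : Finset V => ∀ T ∈ K, chi S T = chi S₀ T)).card : ℝ) * K.card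
      = 2 ^ Fintype.card V := by
  have h := (FS.single K h0 hs).toFam.card_modes (f := ()) (Finset.mem_singleton_self _)
    S₀ 1 (fun _ => 1) (fun _ _ => rfl)
  have h1 : ∀ S' : Finset V, (1 : ℝ) * ∑ U ∈ K, sg S₀ U * sg S' U
      = if (∀ T ∈ K, chi S' T = chi S₀ T) then (K.card : ℝ) else 0 := by
    intro S'
    rw [one_mul]
    have := orthK h0 hs S' S₀
    rw [← this]
    refine Finset.sum_congr rfl fun U _ => ?_
    rw [mul_comm]
    rfl
  have h2 : ∑ S' : Finset V, (1 : ℝ) * ∑ U ∈ K, sg S₀ U * sg S' U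
      = (2 : ℝ) ^ Fintype.card V * 1 := h
  rw [Finset.sum_congr rfl (fun S' _ => h1 S'), ← Finset.sum_filter, Finset.sum_const,
    nsmul_eq_mul] at h2
  linarith

theorem FS.op_add (F : FS V X) (μ : X → Finset V → ℝ) (g h : X → ℝ) (f : X) :
    F.op μ (fun f => g f + h f) f = F.op μ g f + F.op μ h f := by
  unfold FS.op cv
  rw [← add_div, ← Finset.sum_add_distrib]
  congr 1
  refine Finset.sum_congr rfl fun S _ => ?_
  rw [← mul_add, ← Finset.sum_add_distrib]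
  congr 1
  refine Finset.sum_congr rfl fun T _ => ?_
  ring

theorem FS.op_smul (F : FS V X) (μ : X → Finset V → ℝ) (c : ℝ) (g : X → ℝ) (f : X) :
    F.op μ (fun f => c * g f) f = c * F.op μ g f := by
  unfold FS.op cv
  rw [mul_div_assoc', Finset.mul_sum]
  congr 1
  refine Finset.sum_congr rfl fun S _ => ?_
  have : ∑ T ∈ F.K f, chi S T * (c * g (F.fl T f)) = c * ∑ T ∈ F.K f, chi S T * g (F.fl T f) := by
    rw [Finset.mul_sum]
    refine Finset.sum_congr rfl fun T _ => ?_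
    ring
  rw [this]
  ring

/-- A zero form of a nonnegative multiplier: the transforms vanish where the multiplier does
not. -/
theorem FS.tr_eq_zero (F : FS V X) {μ : X → Finset V → ℝ} (hμ : Mul F μ)
    (h0 : ∀ f ∈ F.Om, ∀ S, 0 ≤ μ f S) (g : X → ℝ)
    (hg : ∑ f ∈ F.Om, g f * F.op μ g f = 0) {f : X} (hf : f ∈ F.Om) (S : Finset V)
    (hS : μ f S ≠ 0) : tr F.K F.fl g f S = 0 := by
  rw [F.inner_op hμ] at hg
  have hnn : ∀ f ∈ F.Om, 0 ≤ csum (F.K f)
      (fun S => μ f S * (tr F.K F.fl g f S * tr F.K F.fl g f S)) := fun f hf =>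
    Pool.Agent.Lib.MP_26a019_lc.Nest.csum_nonneg _ fun S =>
      mul_nonneg (h0 f hf S) (mul_self_nonneg _)
  have h1 := (Finset.sum_eq_zero_iff_of_nonneg hnn).mp hg f hf
  unfold csum at h1
  have hc := F.card_pos hf
  have h2 : ∑ S : Finset V, μ f S * (tr F.K F.fl g f S * tr F.K F.fl g f S) = 0 := by
    have hp : (2 : ℝ) ^ Fintype.card V ≠ 0 := by positivity
    rw [div_eq_zero_iff] at h1
    rcases h1 with h1 | h1
    · rcases mul_eq_zero.mp h1 with h1 | h1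
      · exact absurd h1 hc.ne'
      · exact h1
    · exact absurd h1 hp
  have h3 := (Finset.sum_eq_zero_iff_of_nonneg
    (fun S _ => mul_nonneg (h0 f hf S) (mul_self_nonneg _))).mp h2 S (Finset.mem_univ S)
  rcases mul_eq_zero.mp h3 with h4 | h4
  · exact absurd h4 hS
  · exact mul_self_eq_zero.mp h4

/-! ### Argmin choices for families -/

/-- The argmin choice of `km`, as a function of the family. -/
noncomputable def kmF (ρ : V → ℝ) (A : Finset (Finset V)) (S : Finset V) : Finset V :=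
  if h : (A.filter (fun T => Odd (S ∩ T).card)).Nonempty then
    (exists_min_image (A.filter (fun T => Odd (S ∩ T).card)) (fun T => ∑ u ∈ T, ρ u) h).choose
  else ∅

noncomputable def lamF (ρ : V → ℝ) (A : Finset (Finset V)) (S : Finset V) : ℝ :=
  2 / ∑ u ∈ kmF ρ A S, ρ u

theorem km_eq_kmF (m : V → V → ℕ) (ρ : V → ℝ) (B S : Finset V) :
    km m ρ B S = kmF ρ (kf m B) S := rfl

theorem lam_eq_lamF (m : V → V → ℕ) (ρ : V → ℝ) (B S : Finset V) :
    lam m ρ B S = lamF ρ (kf m B) S := rfl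

theorem filt_eq (A : Finset (Finset V)) (S : Finset V) :
    A.filter (fun T => Odd (S ∩ T).card) = Pool.Agent.Lib.MP_26a019_lc.Nest.oddF A S := by
  unfold Pool.Agent.Lib.MP_26a019_lc.Nest.oddF
  ext T
  simp only [Finset.mem_filter]

theorem kmF_spec (ρ : V → ℝ) {A : Finset (Finset V)} {S : Finset V}
    (h : (Pool.Agent.Lib.MP_26a019_lc.Nest.oddF A S).Nonempty) :
    kmF ρ A S ∈ Pool.Agent.Lib.MP_26a019_lc.Nest.oddF A S ∧
      ∀ U ∈ Pool.Agent.Lib.MP_26a019_lc.Nest.oddF A S,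
        ∑ x ∈ kmF ρ A S, ρ x ≤ ∑ x ∈ U, ρ x := by
  have h' : (A.filter (fun T => Odd (S ∩ T).card)).Nonempty := by
    rw [filt_eq]; exact h
  unfold kmF
  rw [dif_pos h']
  have h2 := (exists_min_image (A.filter (fun T => Odd (S ∩ T).card))
    (fun T => ∑ u ∈ T, ρ u) h').choose_spec
  constructor
  · rw [← filt_eq]; exact h2.1
  · intro U hU
    rw [← filt_eq] at hU
    exact h2.2 U hU

theorem lamF_eq (ρ : V → ℝ) (A : Finset (Finset V)) (S : Finset V) :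
    lamF ρ A S = Pool.Agent.Lib.MP_26a019_lc.Nest.lam (fun U => ∑ x ∈ U, ρ x) A S := by
  unfold lamF
  by_cases h : (Pool.Agent.Lib.MP_26a019_lc.Nest.oddF A S).Nonempty
  · obtain ⟨h1, h2⟩ := kmF_spec ρ h
    rw [Pool.Agent.Lib.MP_26a019_lc.Nest.lam_eq_of_min h1 h2]
  · have h' : ¬ (A.filter (fun T => Odd (S ∩ T).card)).Nonempty := by
      intro h3
      rw [filt_eq] at h3
      exact h h3
    rw [Pool.Agent.Lib.MP_26a019_lc.Nest.lam_of_empty h]
    unfold kmF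
    rw [dif_neg h']
    simp

theorem kmF_congr (ρ : V → ℝ) {A : Finset (Finset V)} {S S' : Finset V}
    (h : ∀ U ∈ A, chi S U = chi S' U) : kmF ρ A S = kmF ρ A S' := by
  have e : A.filter (fun T => Odd (S ∩ T).card) = A.filter (fun T => Odd (S' ∩ T).card) := by
    ext T
    rw [Finset.mem_filter, Finset.mem_filter]
    constructor
    · rintro ⟨h1, h2⟩
      refine ⟨h1, ?_⟩
      rw [← chi_eq_neg_one_iff] at h2 ⊢
      rw [← h T h1]
      exact h2
    · rintro ⟨h1, h2⟩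
      refine ⟨h1, ?_⟩
      rw [← chi_eq_neg_one_iff] at h2 ⊢
      rw [h T h1]
      exact h2
  unfold kmF
  simp only [e]

/-- Every function of the argmin choice of the group is a multiplier. -/
theorem FS.mul_kmF (F : FS V X) (ρ : V → ℝ) (c : Finset V → ℝ) :
    Mul F (fun f S => c (kmF ρ (F.K f) S)) := by
  refine ⟨fun f hf T hT S => ?_, fun f _ S S' h => ?_⟩
  · simp only [F.K_fl f hf T hT]
  · simp only [kmF_congr ρ h]

/-- **The chart inequality for flip systems.**  `F` is the flip system on the states where `w₁`,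
`w₂` lie in the bichromatic set, `F'` the one on the equal states after the identification of
`w₁` and `w₂`. -/
theorem chartA (F F' : FS V X) (hOm : F'.Om ⊆ F.Om) (hfl : F'.fl = F.fl) (w₁ w₂ : V)
    (hE : ∀ f ∈ F.Om, ∀ T ∈ F.K f,
      (F.fl T f ∈ F'.Om ↔ (f ∈ F'.Om ↔ (w₁ ∈ T ↔ w₂ ∈ T))))
    (hcut : ∀ f ∈ F'.Om, (∃ T ∈ F.K f, ¬ (w₁ ∈ T ↔ w₂ ∈ T)) →
      F'.K f = (F.K f).filter (fun T => (w₁ ∈ T ↔ w₂ ∈ T)))
    (hncut : ∀ f ∈ F'.Om, (¬ ∃ T ∈ F.K f, ¬ (w₁ ∈ T ↔ w₂ ∈ T)) →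
      F'.K f = (F.K f).filter (fun T => w₁ ∉ T))
    (hinter : ∀ f ∈ F'.Om, ∀ T ∈ F.K f, ∀ T' ∈ F.K f, T ∩ T' ∈ F.K f)
    (hsdiff : ∀ f ∈ F'.Om, ∀ T ∈ F.K f, ∀ T' ∈ F.K f, T \ T' ∈ F.K f)
    (ρ : V → ℝ) (hρ : ∀ f ∈ F'.Om, ∀ T ∈ F.K f, ∀ x ∈ T, 0 < ρ x) (g : X → ℝ) :
    ∑ f ∈ F'.Om, (g f * F'.op (fun f S => (if w₁ ∈ kmF ρ (F'.K f) S then 1 else 0)
        * lamF ρ (F'.K f) S ^ 2) g f
      + (F.op (fun f => lamF ρ (F.K f)) g f - F'.op (fun f => lamF ρ (F'.K f)) g f) ^ 2)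
      ≤ (1 / 2) * ∑ f ∈ F.Om, g f * F.op (fun f S =>
          ((if w₁ ∈ kmF ρ (F.K f) S then 1 else 0) + (if w₂ ∈ kmF ρ (F.K f) S then 1 else 0))
            * lamF ρ (F.K f) S ^ 2) g f := by
  have hFam : Fam F'.Om F'.K F.fl := by
    have := F'.toFam
    rwa [hfl] at this
  have hrf : ∀ f ∈ F'.Om,
      F'.K f = Pool.Agent.Lib.MP_26a019_lc.Nest.rfam w₁ w₂ (F.K f) := by
    intro f hf
    unfold Pool.Agent.Lib.MP_26a019_lc.Nest.rfam Pool.Agent.Lib.MP_26a019_lc.Nest.Cut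
    by_cases hc : ∃ T ∈ F.K f, ¬ (w₁ ∈ T ↔ w₂ ∈ T)
    · rw [if_pos hc, hcut f hf hc]
    · rw [if_neg hc, hncut f hf hc]
  have key := Pool.Agent.Lib.MP_26a019_lc.Nest.chart_sum F.toFam hFam hOm w₁ w₂ hE hrf
    hinter hsdiff ρ hρ (fun f S => kmF ρ (F.K f) S) (fun f S => kmF ρ (F'.K f) S)
    (fun f _ S h => kmF_spec ρ h) (fun f _ S h => kmF_spec ρ h) g
  have hR : ∀ A : Finset (Finset V), ∀ S : Finset V,
      Pool.Agent.Lib.MP_26a019_lc.Nest.lam (fun U => ∑ x ∈ U, ρ x) A S = lamF ρ A S :=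
    fun A S => (lamF_eq ρ A S).symm
  have m1 : Mul F' (fun f S => (if w₁ ∈ kmF ρ (F'.K f) S then 1 else 0)
      * lamF ρ (F'.K f) S ^ 2) :=
    F'.mul_kmF ρ (fun T => (if w₁ ∈ T then 1 else 0) * (2 / ∑ u ∈ T, ρ u) ^ 2)
  have m2 : Mul F (fun f S => ((if w₁ ∈ kmF ρ (F.K f) S then 1 else 0)
      + (if w₂ ∈ kmF ρ (F.K f) S then 1 else 0)) * lamF ρ (F.K f) S ^ 2) :=
    F.mul_kmF ρ (fun T => ((if w₁ ∈ T then 1 else 0) + (if w₂ ∈ T then 1 else 0))
      * (2 / ∑ u ∈ T, ρ u) ^ 2)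
  rw [Finset.sum_add_distrib, F'.inner_op m1, F.inner_op m2]
  rw [Finset.sum_add_distrib] at key
  have a1 : ∑ f ∈ F'.Om, csum (F'.K f) (fun S => ((if w₁ ∈ kmF ρ (F'.K f) S then 1 else 0)
        * lamF ρ (F'.K f) S ^ 2) * (tr F'.K F'.fl g f S * tr F'.K F'.fl g f S))
      = ∑ f ∈ F'.Om, csum (F'.K f) (fun S => if w₁ ∈ kmF ρ (F'.K f) S then
        (Pool.Agent.Lib.MP_26a019_lc.Nest.lam (fun U => ∑ x ∈ U, ρ x) (F'.K f) S
          * tr F'.K F.fl g f S) ^ 2 else 0) := by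
    refine Finset.sum_congr rfl fun f _ => ?_
    congr 1
    funext S
    rw [hR, hfl]
    split_ifs <;> ring
  have a2 : ∑ f ∈ F'.Om, (F.op (fun f => lamF ρ (F.K f)) g f
        - F'.op (fun f => lamF ρ (F'.K f)) g f) ^ 2
      = ∑ f ∈ F'.Om,
        (Pool.Agent.Lib.MP_26a019_lc.Nest.opL (fun U => ∑ x ∈ U, ρ x) F.K F.fl g f
          - Pool.Agent.Lib.MP_26a019_lc.Nest.opL (fun U => ∑ x ∈ U, ρ x) F'.K F.fl g f)
            ^ 2 := by
    refine Finset.sum_congr rfl fun f hf => ?_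
    have e1 : F.op (fun f => lamF ρ (F.K f)) g f
        = Pool.Agent.Lib.MP_26a019_lc.Nest.opL (fun U => ∑ x ∈ U, ρ x) F.K F.fl g f := by
      rw [F.op_eq_opX _ g (hOm hf)]
      unfold Pool.Agent.Lib.MP_26a019_lc.Nest.opL opX
      congr 1
      funext S
      simp only [hR]
    have e2 : F'.op (fun f => lamF ρ (F'.K f)) g f
        = Pool.Agent.Lib.MP_26a019_lc.Nest.opL (fun U => ∑ x ∈ U, ρ x) F'.K F.fl g f := by
      rw [F'.op_eq_opX _ g hf]
      unfold Pool.Agent.Lib.MP_26a019_lc.Nest.opL opX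
      congr 1
      funext S
      simp only [hR, hfl]
    rw [e1, e2]
  have a3 : ∑ f ∈ F.Om, csum (F.K f) (fun S => (((if w₁ ∈ kmF ρ (F.K f) S then 1 else 0)
        + (if w₂ ∈ kmF ρ (F.K f) S then 1 else 0)) * lamF ρ (F.K f) S ^ 2)
          * (tr F.K F.fl g f S * tr F.K F.fl g f S))
      = ∑ f ∈ F.Om, csum (F.K f) (fun S =>
        Pool.Agent.Lib.MP_26a019_lc.Nest.cnt w₁ w₂ (kmF ρ (F.K f) S)
          * (Pool.Agent.Lib.MP_26a019_lc.Nest.lam (fun U => ∑ x ∈ U, ρ x) (F.K f) S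
            * tr F.K F.fl g f S) ^ 2) := by
    refine Finset.sum_congr rfl fun f _ => ?_
    congr 1
    funext S
    rw [hR]
    unfold Pool.Agent.Lib.MP_26a019_lc.Nest.cnt
    ring
  rw [a1, a2, a3]
  exact key

end Pool.Agent.Nest
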