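import Pool.Agent.Lib.MP_26a019_lc.Nest.Defs

set_option autoImplicit false
set_option linter.unusedSectionVars false

open Finset Classical

namespace Pool.Agent.Nest

variable {V : Type} [Fintype V]

theorem mem_bz {A : Finset V} {z : ZMod 3} {f : V → ZMod 3} {u : V} :
    u ∈ bz A z f ↔ u ∈ A ∧ f u ≠ z := by
  simp [bz]

theorem bz_rs_eq {A : Finset V} {z : ZMod 3} {f : V → ZMod 3} {v : V} (h : f v = z) :
    bz (A.erase v) z (rs v f) = bz A z f := by
  ext u
  simp only [mem_bz, mem_erase]
  by_cases huv : u = v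
  · subst huv
    simp [h]
  · simp [rs, huv]

theorem bz_rs_ne {A : Finset V} {z : ZMod 3} {f : V → ZMod 3} {v : V} (hv : v ∈ A) (h : f v ≠ z) :
    bz A z f = insert v (bz (A.erase v) z (rs v f)) := by
  ext u
  simp only [mem_insert, mem_bz, mem_erase]
  by_cases huv : u = v
  · subst huv
    simp [h, hv]
  · simp [rs, huv]

theorem not_mem_bz_rs {A : Finset V} {z : ZMod 3} {f : V → ZMod 3} {v : V} :
    v ∉ bz (A.erase v) z (rs v f) := by
  simp [mem_bz]

theorem rs_fz_of_not_mem {z : ZMod 3} {T : Finset V} {f : V → ZMod 3} {v : V} (hv : v ∉ T) :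
    rs v (fz z T f) = fz z T (rs v f) := by
  funext u
  by_cases huv : u = v
  · subst huv
    simp [rs, fz, hv]
  · simp [rs, fz, huv]

theorem rs_fz_insert {z : ZMod 3} {T : Finset V} {f : V → ZMod 3} {v : V} (hv : v ∉ T) :
    rs v (fz z (insert v T) f) = fz z T (rs v f) := by
  funext u
  by_cases huv : u = v
  · subst huv
    simp [rs, fz, hv]
  · simp [rs, fz, huv]

theorem rs_fz_ext {z : ZMod 3} {T : Finset V} {f : V → ZMod 3} {v w : V} (hv : v ∉ T) :
    rs v (fz z (ext v w T) f) = fz z T (rs v f) := by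
  unfold ext
  split_ifs
  · exact rs_fz_insert hv
  · exact rs_fz_of_not_mem hv

/-- the operator at a state where `v` has the excluded colour is the one after deletion -/
theorem op_rs_eq (m : V → V → ℕ) (A : Finset V) (z : ZMod 3) (μ : Finset V → Finset V → ℝ)
    (g g' : (V → ZMod 3) → ℝ) (v : V) (hg : ∀ f, g f = g' (rs v f)) (f : V → ZMod 3)
    (h : f v = z) : op m A z μ g f = op m (A.erase v) z μ g' (rs v f) := by
  unfold op
  rw [bz_rs_eq h]
  unfold cv
  congr 1
  refine sum_congr rfl (fun S _ => ?_)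
  congr 1
  refine sum_congr rfl (fun T hT => ?_)
  congr 1
  show g (fz z T f) = g' (fz z T (rs v f))
  rw [hg]
  have hTB : T ⊆ bz A z f := by
    have := (mem_filter.1 hT).1
    exact mem_powerset.1 this
  have hvT : v ∉ T := fun hvT => (mem_bz.1 (hTB hvT)).2 h
  rw [rs_fz_of_not_mem hvT]

end Pool.Agent.Nest
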