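import Mathlib

set_option autoImplicit false

/-!
# Commuting flips and their Walsh projections

`Cube Ω ι`: at every state `f : Ω` there is a finite set `fr f` of labels which can be flipped;
`fl f A` is the state in which all labels of `A ⊆ fr f` have been flipped. `pr S g` is the part of
`g` which changes its sign under the flips in `S` and is invariant under the others.
-/

open Finset

namespace Pool.Agent.KempeNest

/-- A system of commuting flips. -/
structure Cube (Ω ι : Type) [DecidableEq ι] where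
  fr : Ω → Finset ι
  fl : Ω → Finset ι → Ω
  fr_fl : ∀ f A, A ⊆ fr f → fr (fl f A) = fr f
  fl_empty : ∀ f, fl f ∅ = f
  fl_fl : ∀ f A B, A ⊆ fr f → B ⊆ fr f → fl (fl f A) B = fl f (symmDiff A B)

variable {Ω ι : Type} [DecidableEq ι]

/-- `Om` is closed under the flips. -/
def Cube.Closed (K : Cube Ω ι) (Om : Finset Ω) : Prop :=
  ∀ f ∈ Om, ∀ A, A ⊆ K.fr f → K.fl f A ∈ Om

/-- Walsh projection on the mode `S`. -/
noncomputable def Cube.pr (K : Cube Ω ι) (S : Finset ι) (g : Ω → ℝ) (f : Ω) : ℝ :=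
  if S ⊆ K.fr f then
    (∑ A ∈ (K.fr f).powerset, (-1 : ℝ) ^ (A ∩ S).card * g (K.fl f A)) / 2 ^ (K.fr f).card
  else 0

/-! ## signs -/

theorem sgn_eq_prod (A S : Finset ι) :
    (-1 : ℝ) ^ (A ∩ S).card = ∏ i ∈ A, (if i ∈ S then (-1 : ℝ) else 1) := by
  rw [prod_ite, prod_const_one, mul_one, prod_const, filter_mem_eq_inter]

theorem sgn_comm (A S : Finset ι) : (-1 : ℝ) ^ (A ∩ S).card = (-1 : ℝ) ^ (S ∩ A).card := by
  rw [inter_comm]

theorem sgn_sq (A S : Finset ι) : ((-1 : ℝ) ^ (A ∩ S).card) * ((-1 : ℝ) ^ (A ∩ S).card) = 1 := by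
  rw [← mul_pow]; norm_num

theorem sgn_symmDiff (A B S : Finset ι) :
    (-1 : ℝ) ^ (symmDiff A B ∩ S).card = (-1 : ℝ) ^ (A ∩ S).card * (-1 : ℝ) ^ (B ∩ S).card := by
  have h1 : (symmDiff A B ∩ S).card + 2 * (A ∩ B ∩ S).card = (A ∩ S).card + (B ∩ S).card := by
    have e1 : symmDiff A B ∩ S = ((A ∩ S) \ (B ∩ S)) ∪ ((B ∩ S) \ (A ∩ S)) := by
      ext x
      simp only [mem_inter, mem_symmDiff, mem_union, mem_sdiff]
      tauto
    have e2 : Disjoint ((A ∩ S) \ (B ∩ S)) ((B ∩ S) \ (A ∩ S)) := by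
      rw [Finset.disjoint_left]
      intro x hx hx'
      simp only [mem_sdiff] at hx hx'
      exact hx'.2 hx.1
    have e3 : A ∩ B ∩ S = (A ∩ S) ∩ (B ∩ S) := by
      ext x
      simp only [mem_inter]
      tauto
    have e4 := card_sdiff_add_card_inter (A ∩ S) (B ∩ S)
    have e5 := card_sdiff_add_card_inter (B ∩ S) (A ∩ S)
    rw [inter_comm (B ∩ S) (A ∩ S)] at e5
    rw [e1, card_union_of_disjoint e2, e3]
    omega
  have h2 : (-1 : ℝ) ^ (symmDiff A B ∩ S).card * (-1 : ℝ) ^ (2 * (A ∩ B ∩ S).card) =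
      (-1 : ℝ) ^ (A ∩ S).card * (-1 : ℝ) ^ (B ∩ S).card := by
    rw [← pow_add, ← pow_add, h1]
  rw [pow_mul] at h2
  simpa using h2

theorem sum_sgn (F A : Finset ι) (hA : A ⊆ F) :
    ∑ S ∈ F.powerset, (-1 : ℝ) ^ (A ∩ S).card = if A = ∅ then 2 ^ F.card else 0 := by
  have h1 : ∀ S ∈ F.powerset, (-1 : ℝ) ^ (A ∩ S).card =
      ∏ i ∈ S, (if i ∈ A then (-1 : ℝ) else 1) := by
    intro S _
    rw [sgn_comm, sgn_eq_prod]
  rw [sum_congr rfl h1, ← prod_add_one]
  by_cases hE : A = ∅
  · subst hE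
    simp only [notMem_empty, if_false, if_true]
    rw [prod_const]
    norm_num
  · rw [if_neg hE]
    obtain ⟨i, hi⟩ := nonempty_iff_ne_empty.mpr hE
    apply prod_eq_zero (hA hi)
    simp [hi]

theorem sum_sgn' (F A : Finset ι) (hA : A ⊆ F) :
    ∑ S ∈ F.powerset, (-1 : ℝ) ^ (S ∩ A).card = if A = ∅ then 2 ^ F.card else 0 := by
  rw [← sum_sgn F A hA]
  exact sum_congr rfl (fun S _ => sgn_comm _ _)

/-! ## basic properties of the projections -/

theorem Cube.pr_of_not_subset (K : Cube Ω ι) {S : Finset ι} {g : Ω → ℝ} {f : Ω}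
    (h : ¬ S ⊆ K.fr f) : K.pr S g f = 0 := by
  unfold Cube.pr; rw [if_neg h]

theorem Cube.pr_congr (K : Cube Ω ι) (S : Finset ι) (g g' : Ω → ℝ) (f : Ω)
    (h : ∀ A, A ⊆ K.fr f → g (K.fl f A) = g' (K.fl f A)) : K.pr S g f = K.pr S g' f := by
  unfold Cube.pr
  by_cases hS : S ⊆ K.fr f
  · rw [if_pos hS, if_pos hS]
    congr 1
    apply sum_congr rfl
    intro A hA
    rw [h A (mem_powerset.mp hA)]
  · rw [if_neg hS, if_neg hS]

theorem Cube.pr_add (K : Cube Ω ι) (S : Finset ι) (g g' : Ω → ℝ) (f : Ω) :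
    K.pr S (fun x => g x + g' x) f = K.pr S g f + K.pr S g' f := by
  unfold Cube.pr
  by_cases hS : S ⊆ K.fr f
  · rw [if_pos hS, if_pos hS, if_pos hS, ← add_div, ← sum_add_distrib]
    congr 1
    apply sum_congr rfl
    intro A _
    ring
  · rw [if_neg hS, if_neg hS, if_neg hS]; ring

theorem Cube.pr_smul (K : Cube Ω ι) (S : Finset ι) (c : ℝ) (g : Ω → ℝ) (f : Ω) :
    K.pr S (fun x => c * g x) f = c * K.pr S g f := by
  unfold Cube.pr
  by_cases hS : S ⊆ K.fr f
  · rw [if_pos hS, if_pos hS, ← mul_div_assoc, mul_sum]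
    congr 1
    apply sum_congr rfl
    intro A _
    ring
  · rw [if_neg hS, if_neg hS]; ring

theorem Cube.pr_sum (K : Cube Ω ι) (S : Finset ι) {κ : Type} (T : Finset κ) (g : κ → Ω → ℝ)
    (f : Ω) : K.pr S (fun x => ∑ j ∈ T, g j x) f = ∑ j ∈ T, K.pr S (g j) f := by
  classical
  induction T using Finset.induction_on with
  | empty =>
      simp only [sum_empty]
      have := K.pr_smul S 0 (fun _ => 0) f
      simpa using this
  | insert a T ha ih =>
      simp only [sum_insert ha]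
      rw [K.pr_add S (g a) (fun x => ∑ j ∈ T, g j x) f, ih]

theorem symmDiff_subset' {F A B : Finset ι} (hA : A ⊆ F) (hB : B ⊆ F) : symmDiff A B ⊆ F := by
  intro x hx
  rw [mem_symmDiff] at hx
  rcases hx with h | h
  · exact hA h.1
  · exact hB h.1

/-- sign rule -/
theorem Cube.pr_fl (K : Cube Ω ι) (S : Finset ι) (g : Ω → ℝ) (f : Ω) (A : Finset ι)
    (hA : A ⊆ K.fr f) : K.pr S g (K.fl f A) = (-1) ^ (A ∩ S).card * K.pr S g f := by
  unfold Cube.pr
  rw [K.fr_fl f A hA]
  by_cases hS : S ⊆ K.fr f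
  · rw [if_pos hS, if_pos hS, ← mul_div_assoc, mul_sum]
    congr 1
    refine sum_nbij' (fun B => symmDiff A B) (fun B => symmDiff A B) ?_ ?_ ?_ ?_ ?_
    · intro B hB
      exact mem_powerset.mpr (symmDiff_subset' hA (mem_powerset.mp hB))
    · intro B hB
      exact mem_powerset.mpr (symmDiff_subset' hA (mem_powerset.mp hB))
    · intro B _
      simp [symmDiff_symmDiff_cancel_left]
    · intro B _
      simp [symmDiff_symmDiff_cancel_left]
    · intro B hB
      rw [K.fl_fl f A B hA (mem_powerset.mp hB)]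
      rw [sgn_symmDiff]
      have := sgn_sq A S
      calc (-1 : ℝ) ^ (B ∩ S).card * g (K.fl f (symmDiff A B))
          = ((-1 : ℝ) ^ (A ∩ S).card * (-1 : ℝ) ^ (A ∩ S).card) * (-1 : ℝ) ^ (B ∩ S).card *
            g (K.fl f (symmDiff A B)) := by rw [this, one_mul]
        _ = _ := by ring
  · rw [if_neg hS, if_neg hS, mul_zero]

/-- idempotent and orthogonal -/
theorem Cube.pr_pr (K : Cube Ω ι) (S S' : Finset ι) (g : Ω → ℝ) (f : Ω) :
    K.pr S (K.pr S' g) f = if S = S' then K.pr S g f else 0 := by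
  by_cases hS : S ⊆ K.fr f
  · by_cases hS' : S' ⊆ K.fr f
    · have h1 : K.pr S (K.pr S' g) f =
          (∑ A ∈ (K.fr f).powerset, (-1 : ℝ) ^ (A ∩ symmDiff S S').card) * K.pr S' g f /
            2 ^ (K.fr f).card := by
        conv_lhs => unfold Cube.pr
        rw [if_pos hS]
        congr 1
        rw [sum_mul]
        apply sum_congr rfl
        intro A hA
        have := K.pr_fl S' g f A (mem_powerset.mp hA)
        unfold Cube.pr at this ⊢
        rw [this]
        rw [sgn_comm A (symmDiff S S'), sgn_symmDiff, sgn_comm S A, sgn_comm S' A]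
        ring
      rw [h1, sum_sgn' _ _ (symmDiff_subset' hS hS')]
      by_cases hSS : S = S'
      · subst hSS
        rw [if_pos rfl, if_pos (by simp)]
        have : (2 : ℝ) ^ (K.fr f).card ≠ 0 := by positivity
        field_simp
      · rw [if_neg hSS, if_neg (by
          intro h
          exact hSS (symmDiff_eq_bot.mp h))]
        simp
    · have h1 : K.pr S (K.pr S' g) f = 0 := by
        have h2 : ∀ A, A ⊆ K.fr f → K.pr S' g (K.fl f A) = 0 := by
          intro A hA
          rw [K.pr_fl S' g f A hA, K.pr_of_not_subset hS', mul_zero]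
        conv_lhs => unfold Cube.pr
        rw [if_pos hS]
        rw [sum_eq_zero, zero_div]
        intro A hA
        have := h2 A (mem_powerset.mp hA)
        unfold Cube.pr at this
        rw [this, mul_zero]
      rw [h1]
      by_cases hSS : S = S'
      · exact absurd (hSS ▸ hS) hS'
      · rw [if_neg hSS]
  · rw [K.pr_of_not_subset hS]
    by_cases hSS : S = S'
    · rw [if_pos hSS, K.pr_of_not_subset hS]
    · rw [if_neg hSS]

section
variable [Fintype ι]

/-- completeness -/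
theorem Cube.sum_pr (K : Cube Ω ι) (g : Ω → ℝ) (f : Ω) : ∑ S : Finset ι, K.pr S g f = g f := by
  have h1 : ∑ S : Finset ι, K.pr S g f = ∑ S ∈ (K.fr f).powerset, K.pr S g f := by
    symm
    apply sum_subset (subset_univ _)
    intro S _ hS
    apply K.pr_of_not_subset
    rwa [mem_powerset] at hS
  rw [h1]
  have h2 : ∀ S ∈ (K.fr f).powerset, K.pr S g f =
      ∑ A ∈ (K.fr f).powerset, (-1 : ℝ) ^ (A ∩ S).card * g (K.fl f A) / 2 ^ (K.fr f).card := by
    intro S hS
    unfold Cube.pr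
    rw [if_pos (mem_powerset.mp hS), sum_div]
  rw [sum_congr rfl h2, sum_comm]
  have h3 : ∀ A ∈ (K.fr f).powerset,
      ∑ S ∈ (K.fr f).powerset, (-1 : ℝ) ^ (A ∩ S).card * g (K.fl f A) / 2 ^ (K.fr f).card =
      if A = ∅ then g (K.fl f A) else 0 := by
    intro A hA
    rw [← sum_div, ← sum_mul, sum_sgn _ _ (mem_powerset.mp hA)]
    by_cases hE : A = ∅
    · rw [if_pos hE, if_pos hE]
      have : (2 : ℝ) ^ (K.fr f).card ≠ 0 := by positivity
      field_simp
    · rw [if_neg hE, if_neg hE]; simp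
  rw [sum_congr rfl h3, sum_ite_eq']
  rw [if_pos (mem_powerset.mpr (empty_subset _)), K.fl_empty]

/-- self-adjointness -/
theorem Cube.pr_adj (K : Cube Ω ι) (Om : Finset Ω) (hOm : K.Closed Om) (S : Finset ι)
    (φ ψ : Ω → ℝ) : ∑ f ∈ Om, φ f * K.pr S ψ f = ∑ f ∈ Om, K.pr S φ f * ψ f := by
  have e1 : ∀ f ∈ Om, φ f * K.pr S ψ f = ∑ A ∈ (K.fr f).powerset,
      (if S ⊆ K.fr f then (-1 : ℝ) ^ (A ∩ S).card * (φ f * ψ (K.fl f A)) / 2 ^ (K.fr f).card
        else 0) := by
    intro f _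
    unfold Cube.pr
    by_cases hS : S ⊆ K.fr f
    · rw [if_pos hS, ← mul_div_assoc, mul_sum, sum_div]
      apply sum_congr rfl
      intro A _
      rw [if_pos hS]; ring
    · rw [if_neg hS, mul_zero]
      symm
      apply sum_eq_zero
      intro A _
      rw [if_neg hS]
  have e2 : ∀ f ∈ Om, K.pr S φ f * ψ f = ∑ A ∈ (K.fr f).powerset,
      (if S ⊆ K.fr f then (-1 : ℝ) ^ (A ∩ S).card * (φ (K.fl f A) * ψ f) / 2 ^ (K.fr f).card
        else 0) := by
    intro f _
    unfold Cube.pr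
    by_cases hS : S ⊆ K.fr f
    · rw [if_pos hS, div_mul_eq_mul_div, sum_mul, sum_div]
      apply sum_congr rfl
      intro A _
      rw [if_pos hS]; ring
    · rw [if_neg hS, zero_mul]
      symm
      apply sum_eq_zero
      intro A _
      rw [if_neg hS]
  rw [sum_congr rfl e1, sum_congr rfl e2, sum_sigma', sum_sigma']
  refine sum_nbij' (fun p => ⟨K.fl p.1 p.2, p.2⟩) (fun p => ⟨K.fl p.1 p.2, p.2⟩) ?_ ?_ ?_ ?_ ?_
  · rintro ⟨f, A⟩ h
    rw [mem_sigma, mem_powerset] at h ⊢
    simp only at h ⊢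
    exact ⟨hOm f h.1 A h.2, by rw [K.fr_fl f A h.2]; exact h.2⟩
  · rintro ⟨f, A⟩ h
    rw [mem_sigma, mem_powerset] at h ⊢
    simp only at h ⊢
    exact ⟨hOm f h.1 A h.2, by rw [K.fr_fl f A h.2]; exact h.2⟩
  · rintro ⟨f, A⟩ h
    rw [mem_sigma, mem_powerset] at h
    simp only at h ⊢
    rw [K.fl_fl f A A h.2 h.2, symmDiff_self]
    have := K.fl_empty f
    rw [show (⊥ : Finset ι) = ∅ from rfl, this]
  · rintro ⟨f, A⟩ h
    rw [mem_sigma, mem_powerset] at h
    simp only at h ⊢
    rw [K.fl_fl f A A h.2 h.2, symmDiff_self]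
    have := K.fl_empty f
    rw [show (⊥ : Finset ι) = ∅ from rfl, this]
  · rintro ⟨f, A⟩ h
    rw [mem_sigma, mem_powerset] at h
    simp only at h ⊢
    rw [K.fr_fl f A h.2, K.fl_fl f A A h.2 h.2, symmDiff_self]
    have := K.fl_empty f
    rw [show (⊥ : Finset ι) = ∅ from rfl, this]

/-- Parseval for one mode -/
theorem Cube.pr_pair (K : Cube Ω ι) (Om : Finset Ω) (hOm : K.Closed Om) (S : Finset ι)
    (φ ψ : Ω → ℝ) : ∑ f ∈ Om, φ f * K.pr S ψ f = ∑ f ∈ Om, K.pr S φ f * K.pr S ψ f := by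
  have h : ∀ f, K.pr S ψ f = K.pr S (K.pr S ψ) f := by
    intro f
    rw [K.pr_pr, if_pos rfl]
  calc ∑ f ∈ Om, φ f * K.pr S ψ f = ∑ f ∈ Om, φ f * K.pr S (K.pr S ψ) f :=
        sum_congr rfl (fun f _ => by rw [← h f])
    _ = ∑ f ∈ Om, K.pr S φ f * K.pr S ψ f := K.pr_adj Om hOm S φ (K.pr S ψ)

/-- Parseval -/
theorem Cube.parseval (K : Cube Ω ι) (Om : Finset Ω) (hOm : K.Closed Om)
    (φ ψ : Ω → ℝ) : ∑ f ∈ Om, φ f * ψ f = ∑ f ∈ Om, ∑ S : Finset ι, K.pr S φ f * K.pr S ψ f := by
  calc ∑ f ∈ Om, φ f * ψ f = ∑ f ∈ Om, ∑ S : Finset ι, φ f * K.pr S ψ f := by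
        apply sum_congr rfl
        intro f _
        rw [← mul_sum, K.sum_pr]
    _ = ∑ S : Finset ι, ∑ f ∈ Om, φ f * K.pr S ψ f := sum_comm
    _ = ∑ S : Finset ι, ∑ f ∈ Om, K.pr S φ f * K.pr S ψ f :=
        sum_congr rfl (fun S _ => K.pr_pair Om hOm S φ ψ)
    _ = _ := sum_comm

end

/-! ## invariance under one flip -/

/-- If `g` does not see the flip `i` then the modes containing `i` vanish. -/
theorem Cube.pr_eq_zero_of_inv (K : Cube Ω ι) (S : Finset ι) (g : Ω → ℝ) (f : Ω) (i : ι)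
    (hi : i ∈ S) (h : i ∈ K.fr f → ∀ A, A ⊆ K.fr f →
      g (K.fl f (symmDiff {i} A)) = g (K.fl f A)) : K.pr S g f = 0 := by
  by_cases hS : S ⊆ K.fr f
  · have hif : i ∈ K.fr f := hS hi
    have h1 : K.pr S g f = - K.pr S g f := by
      conv_lhs => unfold Cube.pr
      conv_rhs => unfold Cube.pr
      rw [if_pos hS, ← neg_div, ← sum_neg_distrib]
      congr 1
      refine sum_nbij' (fun B => symmDiff {i} B) (fun B => symmDiff {i} B) ?_ ?_ ?_ ?_ ?_
      · intro B hB
        exact mem_powerset.mpr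
          (symmDiff_subset' (singleton_subset_iff.mpr hif) (mem_powerset.mp hB))
      · intro B hB
        exact mem_powerset.mpr
          (symmDiff_subset' (singleton_subset_iff.mpr hif) (mem_powerset.mp hB))
      · intro B _
        simp [symmDiff_symmDiff_cancel_left]
      · intro B _
        simp [symmDiff_symmDiff_cancel_left]
      · intro B hB
        rw [h hif B (mem_powerset.mp hB), sgn_symmDiff]
        have : (({i} : Finset ι) ∩ S).card = 1 := by
          rw [singleton_inter_of_mem hi, card_singleton]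
        rw [this]
        ring
    linarith
  · exact K.pr_of_not_subset hS

section
variable [Fintype ι]

/-- If all modes containing `i` vanish at `f` then `g` is invariant under the flip of `i`. -/
theorem Cube.inv_of_pr_eq_zero (K : Cube Ω ι) (g : Ω → ℝ) (f : Ω) (i : ι) (hi : i ∈ K.fr f)
    (h : ∀ S, i ∈ S → K.pr S g f = 0) : g (K.fl f {i}) = g f := by
  rw [← K.sum_pr g (K.fl f {i}), ← K.sum_pr g f]
  apply sum_congr rfl
  intro S _
  rw [K.pr_fl S g f {i} (singleton_subset_iff.mpr hi)]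
  by_cases hS : i ∈ S
  · rw [h S hS, mul_zero]
  · rw [singleton_inter_of_notMem hS]; simp

/-- The part of `g` in the modes containing `i`. -/
theorem Cube.sum_pr_mem (K : Cube Ω ι) (g : Ω → ℝ) (f : Ω) (i : ι) (hi : i ∈ K.fr f) :
    ∑ S : Finset ι, (if i ∈ S then K.pr S g f else 0) = (g f - g (K.fl f {i})) / 2 := by
  have h1 : g f - g (K.fl f {i}) = ∑ S : Finset ι, (K.pr S g f - K.pr S g (K.fl f {i})) := by
    rw [sum_sub_distrib, K.sum_pr, K.sum_pr]
  rw [h1, sum_div]
  apply sum_congr rfl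
  intro S _
  rw [K.pr_fl S g f {i} (singleton_subset_iff.mpr hi)]
  by_cases hS : i ∈ S
  · rw [if_pos hS, singleton_inter_of_mem hS]; simp
  · rw [if_neg hS, singleton_inter_of_notMem hS]; simp

/-- Parseval for the modes containing `i`, on the states at which `i` can be flipped. -/
theorem Cube.parseval_mem (K : Cube Ω ι) (Om : Finset Ω) (hOm : K.Closed Om)
    (g : Ω → ℝ) (i : ι) :
    ∑ f ∈ Om, ∑ S : Finset ι, (if i ∈ S then (K.pr S g f) ^ 2 else 0) =
      ∑ f ∈ Om.filter (fun f => i ∈ K.fr f), (g f - g (K.fl f {i})) ^ 2 / 4 := by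
  classical
  -- the odd part
  set u : Ω → ℝ := fun f => if i ∈ K.fr f then (g f - g (K.fl f {i})) / 2 else 0 with hu
  have hu2 : ∀ f, u f = ∑ S : Finset ι, (if i ∈ S then K.pr S g f else 0) := by
    intro f
    by_cases hf : i ∈ K.fr f
    · rw [K.sum_pr_mem g f i hf, hu]; simp [hf]
    · rw [hu]
      simp only [hf, if_false]
      symm
      apply sum_eq_zero
      intro S _
      by_cases hS : i ∈ S
      · rw [if_pos hS]
        apply K.pr_of_not_subset
        intro h
        exact hf (h hS)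
      · rw [if_neg hS]
  have hpu : ∀ S f, K.pr S u f = if i ∈ S then K.pr S g f else 0 := by
    intro S f
    have e1 : K.pr S u f = ∑ S' : Finset ι, (if i ∈ S' then K.pr S (K.pr S' g) f else 0) := by
      have : u = fun f => ∑ S' : Finset ι, (if i ∈ S' then K.pr S' g f else 0) := funext hu2
      rw [this, K.pr_sum S univ (fun S' f => if i ∈ S' then K.pr S' g f else 0) f]
      apply sum_congr rfl
      intro S' _
      by_cases h : i ∈ S'
      · simp only [h, if_true]
      · simp only [h, if_false]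
        have := K.pr_smul S 0 (fun _ => 0) f
        simpa using this
    rw [e1]
    simp only [K.pr_pr]
    rw [sum_eq_single S]
    · simp
    · intro S' _ hne
      have hne' : ¬ (S = S') := fun h => hne h.symm
      simp [hne']
    · intro h; exact absurd (mem_univ _) h
  have hpar := K.parseval Om hOm u u
  have e2 : ∀ f ∈ Om, ∑ S : Finset ι, K.pr S u f * K.pr S u f =
      ∑ S : Finset ι, (if i ∈ S then (K.pr S g f) ^ 2 else 0) := by
    intro f _
    apply sum_congr rfl
    intro S _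
    rw [hpu]
    by_cases h : i ∈ S
    · simp only [h, if_true]; ring
    · simp only [h, if_false]; ring
  rw [← sum_congr rfl e2, ← hpar, sum_filter]
  apply sum_congr rfl
  intro f _
  rw [hu]
  by_cases h : i ∈ K.fr f
  · simp only [h, if_true]; ring
  · simp only [h, if_false]; ring

end

end Pool.Agent.KempeNest
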