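import Mathlib

set_option autoImplicit false

/-!
# The ray argument, weighted form

`P z j` (`z : Z`, `j : J`) are linear maps of functions with weights `ν z f > 0`; the eigenvalues may
depend on the state `f` (they are constant along the flips of type `z`, which is only used in the
form `adj`). With `ν = 1` this is `Ray.lean`. For families of flippable sets closed under symmetric
difference: `J = Finset V`, `ν z f = |fam z f| / 2 ^ |V|`, `P z S g f = tr g f S`.
-/

open Finset

namespace Pool.Agent.KempeNest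

variable {Ω J Z : Type} [Fintype J] [Fintype Z]

/-- Weighted complete families. `Inv z m`: the multiplier `m` is invariant under the flips `z`. -/
structure ModesW (Om : Finset Ω) (ν : Z → Ω → ℝ) (Inv : Z → (Ω → ℝ) → Prop)
    (P : Z → J → (Ω → ℝ) →ₗ[ℝ] (Ω → ℝ)) : Prop where
  pos : ∀ z, ∀ f ∈ Om, 0 < ν z f
  invν : ∀ z, Inv z (ν z)
  adj : ∀ z j (m : Ω → ℝ), Inv z m → ∀ φ ψ : Ω → ℝ,
    ∑ f ∈ Om, m f * (φ f * P z j ψ f) = ∑ f ∈ Om, m f * (P z j φ f * P z j ψ f)
  complete : ∀ z (ψ : Ω → ℝ), ∀ f ∈ Om, ∑ j, ν z f * P z j ψ f = ψ f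

theorem ModesW.parseval {Om : Finset Ω} {ν : Z → Ω → ℝ} {Inv : Z → (Ω → ℝ) → Prop}
    {P : Z → J → (Ω → ℝ) →ₗ[ℝ] (Ω → ℝ)} (hP : ModesW Om ν Inv P) (z : Z) (φ ψ : Ω → ℝ) :
    ∑ f ∈ Om, φ f * ψ f = ∑ j, ∑ f ∈ Om, ν z f * (P z j φ f * P z j ψ f) := by
  calc ∑ f ∈ Om, φ f * ψ f = ∑ f ∈ Om, ∑ j, ν z f * (φ f * P z j ψ f) := by
        apply sum_congr rfl
        intro f hf
        calc φ f * ψ f = φ f * ∑ j, ν z f * P z j ψ f := by rw [hP.complete z ψ f hf]
          _ = _ := by rw [mul_sum]; exact sum_congr rfl (fun j _ => by ring)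
    _ = ∑ j, ∑ f ∈ Om, ν z f * (φ f * P z j ψ f) := sum_comm
    _ = _ := sum_congr rfl (fun j _ => hP.adj z j (ν z) (hP.invν z) φ ψ)

/-- the maps only look at the values on `Om` -/
theorem ModesW.local {Om : Finset Ω} {ν : Z → Ω → ℝ} {Inv : Z → (Ω → ℝ) → Prop}
    {P : Z → J → (Ω → ℝ) →ₗ[ℝ] (Ω → ℝ)} (hP : ModesW Om ν Inv P)
    (z : Z) (j : J) (φ ψ : Ω → ℝ) (h : ∀ f ∈ Om, φ f = ψ f) : ∀ f ∈ Om, P z j φ f = P z j ψ f := by
  classical
  intro f0 hf0
  have key : ∀ χ : Ω → ℝ, ν z f0 * P z j χ f0 =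
      ∑ f ∈ Om, ν z f * (χ f * P z j (Pi.single f0 1) f) := by
    intro χ
    have h1 := hP.adj z j (ν z) (hP.invν z) (Pi.single f0 1) χ
    have h2 := hP.adj z j (ν z) (hP.invν z) χ (Pi.single f0 1)
    have h3 : ∑ f ∈ Om, ν z f * ((Pi.single f0 (1 : ℝ) : Ω → ℝ) f * P z j χ f) =
        ν z f0 * P z j χ f0 := by
      rw [sum_eq_single f0]
      · simp
      · intro b _ hb
        simp [hb]
      · intro h; exact absurd hf0 h
    rw [h2, ← h3, h1]
    exact sum_congr rfl (fun f _ => by ring)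
  have e : ν z f0 * P z j φ f0 = ν z f0 * P z j ψ f0 := by
    rw [key φ, key ψ]
    exact sum_congr rfl (fun f hf => by rw [h f hf])
  exact mul_left_cancel₀ (hP.pos z f0 hf0).ne' e

open Classical in
/-- the operator with eigenvalues `1 / c` on the live modes -/
noncomputable def XW (ν : Z → Ω → ℝ) (P : Z → J → (Ω → ℝ) →ₗ[ℝ] (Ω → ℝ))
    (live : Z → J → Ω → Prop) (c : Z → J → Ω → ℝ) (h : Ω → ℝ) (f : Ω) : ℝ :=
  ∑ z, ∑ j, if live z j f then ν z f * (P z j h f / c z j f) else 0

open Classical in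
theorem ModesW.X_pair {Om : Finset Ω} {ν : Z → Ω → ℝ} {Inv : Z → (Ω → ℝ) → Prop}
    {P : Z → J → (Ω → ℝ) →ₗ[ℝ] (Ω → ℝ)} (hP : ModesW Om ν Inv P)
    (live : Z → J → Ω → Prop) (c : Z → J → Ω → ℝ)
    (hinv : ∀ z j, Inv z (fun f => if live z j f then ν z f / c z j f else 0))
    (u h : Ω → ℝ) : ∑ f ∈ Om, u f * XW ν P live c h f =
      ∑ z, ∑ j, ∑ f ∈ Om, if live z j f then ν z f * (P z j u f * (P z j h f / c z j f)) else 0 := by
  unfold XW
  simp only [mul_sum]
  rw [sum_comm]
  apply sum_congr rfl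
  intro z _
  rw [sum_comm]
  apply sum_congr rfl
  intro j _
  have := hP.adj z j _ (hinv z j) u h
  calc ∑ f ∈ Om, u f * (if live z j f then ν z f * (P z j h f / c z j f) else 0) =
      ∑ f ∈ Om, (if live z j f then ν z f / c z j f else 0) * (u f * P z j h f) := by
        apply sum_congr rfl
        intro f _
        by_cases hl : live z j f
        · simp only [hl, if_true]; ring
        · simp only [hl, if_false]; ring
    _ = ∑ f ∈ Om, (if live z j f then ν z f / c z j f else 0) * (P z j u f * P z j h f) := this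
    _ = _ := by
        apply sum_congr rfl
        intro f _
        by_cases hl : live z j f
        · simp only [hl, if_true]; ring
        · simp only [hl, if_false]; ring

/-- Solving the resolvent equation on a space of functions. -/
theorem exists_resolventW [Fintype Ω] {Om : Finset Ω} {ν : Z → Ω → ℝ}
    {Inv : Z → (Ω → ℝ) → Prop} {P : Z → J → (Ω → ℝ) →ₗ[ℝ] (Ω → ℝ)} (hP : ModesW Om ν Inv P)
    (live : Z → J → Ω → Prop) (cs : Z → J → Ω → ℝ) (τ : ℝ) (hτ : 0 < τ)
    (hcs : ∀ z j, ∀ f ∈ Om, live z j f → 0 ≤ cs z j f)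
    (hinv : ∀ z j, Inv z (fun f => open Classical in if live z j f then ν z f / cs z j f else 0))
    (g : Ω → ℝ) :
    ∃ h : Ω → ℝ, (∀ z j, ∀ f ∈ Om, live z j f → cs z j f = 0 → P z j h f = 0) ∧
      ∀ u : Ω → ℝ, (∀ z j, ∀ f ∈ Om, live z j f → cs z j f = 0 → P z j u f = 0) →
        ∑ f ∈ Om, h f * u f + τ * ∑ f ∈ Om, XW ν P live cs h f * u f = ∑ f ∈ Om, g f * u f := by
  classical
  let W : Submodule ℝ (Ω → ℝ) :=
    { carrier := {u | (∀ f, f ∉ Om → u f = 0) ∧
        ∀ z j, ∀ f ∈ Om, live z j f → cs z j f = 0 → P z j u f = 0}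
      add_mem' := by
        rintro u v ⟨hu1, hu2⟩ ⟨hv1, hv2⟩
        refine ⟨fun f hf => by simp [hu1 f hf, hv1 f hf], fun z j f hf hl hc => ?_⟩
        rw [map_add]
        simp [hu2 z j f hf hl hc, hv2 z j f hf hl hc]
      zero_mem' := by
        refine ⟨fun f _ => rfl, fun z j f _ _ _ => ?_⟩
        rw [map_zero]; rfl
      smul_mem' := by
        rintro c u ⟨hu1, hu2⟩
        refine ⟨fun f hf => by simp [hu1 f hf], fun z j f hf hl hc => ?_⟩
        rw [map_smul]
        simp [hu2 z j f hf hl hc] }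
  let X : (Ω → ℝ) → Ω → ℝ := fun h f => XW ν P live cs h f
  have hXadd : ∀ h h' f, X (h + h') f = X h f + X h' f := by
    intro h h' f
    simp only [X, XW, map_add, Pi.add_apply]
    rw [← sum_add_distrib]
    apply sum_congr rfl
    intro z _
    rw [← sum_add_distrib]
    apply sum_congr rfl
    intro j _
    by_cases hl : live z j f
    · simp only [hl, if_true]; ring
    · simp only [hl, if_false]; ring
  have hXsmul : ∀ (c : ℝ) h f, X (c • h) f = c * X h f := by
    intro c h f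
    simp only [X, XW, map_smul, Pi.smul_apply, smul_eq_mul]
    rw [mul_sum]
    apply sum_congr rfl
    intro z _
    rw [mul_sum]
    apply sum_congr rfl
    intro j _
    by_cases hl : live z j f
    · simp only [hl, if_true]; ring
    · simp only [hl, if_false]; ring
  let T : W →ₗ[ℝ] Module.Dual ℝ W :=
    LinearMap.mk₂ ℝ (fun (h u : W) => ∑ f ∈ Om, h.1 f * u.1 f + τ * ∑ f ∈ Om, X h.1 f * u.1 f)
      (by
        intro h h' u
        simp only [Submodule.coe_add, Pi.add_apply, hXadd]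
        rw [mul_sum, mul_sum, mul_sum, ← sum_add_distrib, ← sum_add_distrib, ← sum_add_distrib,
          ← sum_add_distrib]
        apply sum_congr rfl; intro f _; ring)
      (by
        intro c h u
        simp only [Submodule.coe_smul, Pi.smul_apply, smul_eq_mul, hXsmul]
        rw [mul_sum, mul_sum, ← sum_add_distrib, ← sum_add_distrib, mul_sum]
        apply sum_congr rfl; intro f _; ring)
      (by
        intro h u u'
        simp only [Submodule.coe_add, Pi.add_apply]
        rw [mul_sum, mul_sum, mul_sum, ← sum_add_distrib, ← sum_add_distrib, ← sum_add_distrib,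
          ← sum_add_distrib]
        apply sum_congr rfl; intro f _; ring)
      (by
        intro c h u
        simp only [Submodule.coe_smul, Pi.smul_apply, smul_eq_mul]
        rw [mul_sum, mul_sum, ← sum_add_distrib, ← sum_add_distrib, mul_sum]
        apply sum_congr rfl; intro f _; ring)
  have hT : ∀ h u : W, T h u =
      ∑ f ∈ Om, h.1 f * u.1 f + τ * ∑ f ∈ Om, X h.1 f * u.1 f := fun h u => rfl
  have hXpos : ∀ h : Ω → ℝ, 0 ≤ ∑ f ∈ Om, X h f * h f := by
    intro h
    have e := hP.X_pair live cs hinv h h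
    have e' : ∑ f ∈ Om, X h f * h f = ∑ f ∈ Om, h f * XW ν P live cs h f :=
      sum_congr rfl (fun f _ => mul_comm _ _)
    rw [e', e]
    apply sum_nonneg
    intro z _
    apply sum_nonneg
    intro j _
    apply sum_nonneg
    intro f hf
    by_cases hl : live z j f
    · simp only [hl, if_true]
      apply mul_nonneg (hP.pos z f hf).le
      have : P z j h f * (P z j h f / cs z j f) = (P z j h f * P z j h f) / cs z j f := by ring
      rw [this]
      exact div_nonneg (mul_self_nonneg _) (hcs z j f hf hl)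
    · simp only [hl, if_false]; exact le_refl _
  have hinj : Function.Injective T := by
    rw [injective_iff_map_eq_zero]
    intro h hh
    have h1 : T h h = 0 := by rw [hh]; rfl
    rw [hT] at h1
    have h2 := hXpos h.1
    have h3 : 0 ≤ ∑ f ∈ Om, h.1 f * h.1 f := sum_nonneg (fun f _ => mul_self_nonneg _)
    have h4 : ∑ f ∈ Om, h.1 f * h.1 f = 0 := by
      have : 0 ≤ τ * ∑ f ∈ Om, X h.1 f * h.1 f := mul_nonneg hτ.le h2
      linarith
    rw [sum_eq_zero_iff_of_nonneg (fun f _ => mul_self_nonneg _)] at h4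
    apply Subtype.ext
    funext f
    by_cases hf : f ∈ Om
    · have := h4 f hf
      simpa using this
    · exact h.2.1 f hf
  have hfin : Module.finrank ℝ W = Module.finrank ℝ (Module.Dual ℝ W) :=
    (Subspace.dual_finrank_eq).symm
  have hsurj : Function.Surjective T :=
    (LinearMap.injective_iff_surjective_of_finrank_eq_finrank hfin).mp hinj
  let ℓ : Module.Dual ℝ W :=
    { toFun := fun u => ∑ f ∈ Om, g f * u.1 f
      map_add' := by
        intro u v
        simp only [Submodule.coe_add, Pi.add_apply, mul_add]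
        rw [sum_add_distrib]
      map_smul' := by
        intro c u
        simp only [Submodule.coe_smul, Pi.smul_apply, smul_eq_mul, RingHom.id_apply]
        rw [mul_sum]
        apply sum_congr rfl; intro f _; ring }
  obtain ⟨h, hh⟩ := hsurj ℓ
  refine ⟨h.1, h.2.2, ?_⟩
  intro u hu
  let u' : Ω → ℝ := fun f => if f ∈ Om then u f else 0
  have hu'Om : ∀ f ∈ Om, u' f = u f := by
    intro f hf; simp [u', hf]
  have hu'W : u' ∈ W := by
    refine ⟨fun f hf => by simp [u', hf], fun z j f hf hl hc => ?_⟩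
    rw [hP.local z j u' u hu'Om f hf]
    exact hu z j f hf hl hc
  have h5 : T h ⟨u', hu'W⟩ = ℓ ⟨u', hu'W⟩ := by rw [hh]
  rw [hT] at h5
  have h6 : ∀ F : Ω → ℝ, ∑ f ∈ Om, F f * u' f = ∑ f ∈ Om, F f * u f := by
    intro F
    exact sum_congr rfl (fun f hf => by rw [hu'Om f hf])
  have h7 : ℓ ⟨u', hu'W⟩ = ∑ f ∈ Om, g f * u' f := rfl
  rw [h7] at h5
  simp only [h6] at h5
  exact h5

open Classical in
/-- The ray argument. `c` is the cost at the point `ρ`, `cs` the cost at the point `ρ - τ s`,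
`a` and `as` are the slopes. If the inequality holds at `ρ - τ s` then it holds at `ρ`. -/
theorem rayW [Fintype Ω] {Om : Finset Ω} {ν : Z → Ω → ℝ}
    {Inv : Z → (Ω → ℝ) → Prop} {P : Z → J → (Ω → ℝ) →ₗ[ℝ] (Ω → ℝ)} (hP : ModesW Om ν Inv P)
    (live : Z → J → Ω → Prop) (c cs a as : Z → J → Ω → ℝ) (τ : ℝ) (hτ : 0 < τ)
    (hinvc : ∀ z j, Inv z (fun f => if live z j f then ν z f / c z j f else 0))
    (hinvcs : ∀ z j, Inv z (fun f => if live z j f then ν z f / cs z j f else 0))
    (hc : ∀ z j, ∀ f ∈ Om, live z j f → 0 < c z j f)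
    (hcs : ∀ z j, ∀ f ∈ Om, live z j f → 0 ≤ cs z j f)
    (h1 : ∀ z j, ∀ f ∈ Om, live z j f → cs z j f ≤ c z j f - τ * a z j f)
    (h2 : ∀ z j, ∀ f ∈ Om, live z j f → c z j f ≤ cs z j f + τ * as z j f)
    (face : ∀ h η : Ω → ℝ,
      (∀ z j, ∀ f ∈ Om, live z j f → cs z j f = 0 → P z j h f = 0) →
      (∀ u : Ω → ℝ, (∀ z j, ∀ f ∈ Om, live z j f → cs z j f = 0 → P z j u f = 0) →
        ∑ f ∈ Om, η f * u f = 0) →
      ∃ θ : Z → Ω → ℝ,
        (∀ z j, ∀ f ∈ Om, ¬ (live z j f ∧ cs z j f = 0) → P z j (θ z) f = 0) ∧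
        (∀ f ∈ Om, ∑ z, θ z f = η f) ∧
        ∑ z, ∑ j, ∑ f ∈ Om, (if live z j f then
            as z j f * (ν z f * (P z j h f / cs z j f + P z j (θ z) f) ^ 2) else 0) ≤
          ∑ f ∈ Om, (XW ν P live cs h f + η f) ^ 2)
    (g : Ω → ℝ) :
    ∑ z, ∑ j, ∑ f ∈ Om, (if live z j f then
        a z j f * (ν z f * (P z j g f / c z j f) ^ 2) else 0) ≤
      ∑ f ∈ Om, (XW ν P live c g f) ^ 2 := by
  obtain ⟨h, hU, hres⟩ := exists_resolventW hP live cs τ hτ hcs hinvcs g
  set X : Ω → ℝ := fun f => XW ν P live cs h f with hX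
  set ψ' : Ω → ℝ := fun f => (g f - h f) / τ with hψ'
  set η : Ω → ℝ := fun f => ψ' f - X f with hη
  have hηU : ∀ u : Ω → ℝ, (∀ z j, ∀ f ∈ Om, live z j f → cs z j f = 0 → P z j u f = 0) →
        ∑ f ∈ Om, η f * u f = 0 := by
    intro u hu
    have h3 := hres u hu
    have e1 : ∑ f ∈ Om, η f * u f = (∑ f ∈ Om, g f * u f - ∑ f ∈ Om, h f * u f) / τ -
        ∑ f ∈ Om, X f * u f := by
      rw [← sum_sub_distrib, sum_div, ← sum_sub_distrib]
      apply sum_congr rfl
      intro f _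
      simp only [hη, hψ']
      ring
    rw [e1]
    have : ∑ f ∈ Om, g f * u f - ∑ f ∈ Om, h f * u f = τ * ∑ f ∈ Om, X f * u f := by
      rw [← h3]; ring
    rw [this, mul_div_cancel_left₀ _ hτ.ne']
    ring
  obtain ⟨θ, hθ1, hθ2, hθ3⟩ := face h η hU hηU
  have hsumX : ∀ f ∈ Om, XW ν P live cs h f + η f = ψ' f := by
    intro f _
    simp only [hη, hX]; ring
  have hθ3' : ∑ z, ∑ j, ∑ f ∈ Om, (if live z j f then
      as z j f * (ν z f * (P z j h f / cs z j f + P z j (θ z) f) ^ 2) else 0) ≤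
      ∑ f ∈ Om, (ψ' f) ^ 2 := by
    refine le_trans hθ3 (le_of_eq ?_)
    apply sum_congr rfl
    intro f hf
    rw [hsumX f hf]
  set ψ : Ω → ℝ := fun f => XW ν P live c g f with hψ
  have pair1 : ∀ u : Ω → ℝ, ∑ f ∈ Om, u f * ψ f =
      ∑ z, ∑ j, ∑ f ∈ Om, if live z j f then
        ν z f * (P z j u f * (P z j g f / c z j f)) else 0 := fun u =>
    hP.X_pair live c hinvc u g
  have pair2 : ∀ u : Ω → ℝ, ∑ f ∈ Om, u f * ψ' f =
      ∑ z, ∑ j, ∑ f ∈ Om, if live z j f then
        ν z f * (P z j u f * (P z j h f / cs z j f + P z j (θ z) f)) else 0 := by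
    intro u
    have e1 : ∑ f ∈ Om, u f * ψ' f = ∑ f ∈ Om, u f * X f + ∑ z, ∑ f ∈ Om, u f * θ z f := by
      rw [sum_comm, ← sum_add_distrib]
      apply sum_congr rfl
      intro f hf
      rw [← mul_sum, hθ2 f hf]
      simp only [hη]; ring
    have e2 : ∑ f ∈ Om, u f * X f = ∑ z, ∑ j, ∑ f ∈ Om, if live z j f then
        ν z f * (P z j u f * (P z j h f / cs z j f)) else 0 :=
      hP.X_pair live cs hinvcs u h
    have e3 : ∀ z, ∑ f ∈ Om, u f * θ z f =
        ∑ j, ∑ f ∈ Om, if live z j f then ν z f * (P z j u f * P z j (θ z) f) else 0 := by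
      intro z
      rw [hP.parseval z u (θ z)]
      apply sum_congr rfl
      intro j _
      apply sum_congr rfl
      intro f hf
      by_cases hl : live z j f
      · simp only [hl, if_true]
      · simp only [hl, if_false]
        rw [hθ1 z j f hf (fun hh => hl hh.1), mul_zero, mul_zero]
    rw [e1, e2, sum_congr rfl (fun z _ => e3 z), ← sum_add_distrib]
    apply sum_congr rfl
    intro z _
    rw [← sum_add_distrib]
    apply sum_congr rfl
    intro j _
    rw [← sum_add_distrib]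
    apply sum_congr rfl
    intro f _
    by_cases hl : live z j f
    · simp only [hl, if_true]; ring
    · simp only [hl, if_false, add_zero]
  have term : ∀ z j, ∀ f ∈ Om, live z j f →
      τ * a z j f * (P z j g f / c z j f) ^ 2 -
        τ * as z j f * (P z j h f / cs z j f + P z j (θ z) f) ^ 2 ≤
      2 * ((P z j g f - P z j h f) * (P z j g f / c z j f) -
        (P z j g f - P z j h f) * (P z j h f / cs z j f + P z j (θ z) f)) := by
    intro z j f hf hl
    have hcp := hc z j f hf hl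
    set p := P z j g f / c z j f with hp
    set b := P z j h f / cs z j f + P z j (θ z) f with hb
    have hA : P z j g f = c z j f * p := by
      rw [hp]; field_simp
    have hH : P z j h f = cs z j f * b := by
      by_cases h0 : cs z j f = 0
      · rw [hU z j f hf hl h0, h0, zero_mul]
      · have : P z j (θ z) f = 0 := hθ1 z j f hf (fun hh => h0 hh.2)
        rw [hb, this, add_zero]
        field_simp
    rw [hA, hH]
    have i1 : τ * a z j f * p ^ 2 ≤ (c z j f - cs z j f) * p ^ 2 :=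
      mul_le_mul_of_nonneg_right (by linarith [h1 z j f hf hl]) (sq_nonneg p)
    have i2 : (c z j f - cs z j f) * b ^ 2 ≤ τ * as z j f * b ^ 2 :=
      mul_le_mul_of_nonneg_right (by linarith [h2 z j f hf hl]) (sq_nonneg b)
    have i3 : 0 ≤ c z j f * (b - p) ^ 2 := mul_nonneg hcp.le (sq_nonneg _)
    have i4 : 0 ≤ cs z j f * (b - p) ^ 2 := mul_nonneg (hcs z j f hf hl) (sq_nonneg _)
    nlinarith
  have total : τ * ∑ z, ∑ j, ∑ f ∈ Om, (if live z j f then
        a z j f * (ν z f * (P z j g f / c z j f) ^ 2) else 0) -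
      τ * ∑ z, ∑ j, ∑ f ∈ Om, (if live z j f then
        as z j f * (ν z f * (P z j h f / cs z j f + P z j (θ z) f) ^ 2) else 0) ≤
      2 * ((∑ f ∈ Om, g f * ψ f - ∑ f ∈ Om, h f * ψ f) -
        (∑ f ∈ Om, g f * ψ' f - ∑ f ∈ Om, h f * ψ' f)) := by
    rw [pair1 g, pair1 h, pair2 g, pair2 h]
    simp only [mul_sum, ← sum_sub_distrib]
    apply sum_le_sum
    intro z _
    apply sum_le_sum
    intro j _
    apply sum_le_sum
    intro f hf
    by_cases hl : live z j f
    · simp only [hl, if_true]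
      have := mul_le_mul_of_nonneg_left (term z j f hf hl) (hP.pos z f hf).le
      nlinarith
    · simp only [hl, if_false]
      simp
  have hgh : ∀ F : Ω → ℝ, ∑ f ∈ Om, g f * F f - ∑ f ∈ Om, h f * F f =
      τ * ∑ f ∈ Om, ψ' f * F f := by
    intro F
    rw [← sum_sub_distrib, mul_sum]
    apply sum_congr rfl
    intro f _
    simp only [hψ']
    field_simp
  rw [hgh ψ, hgh ψ'] at total
  have fin1 : ∑ f ∈ Om, (ψ' f - ψ f) ^ 2 = ∑ f ∈ Om, (ψ' f) ^ 2 - 2 * ∑ f ∈ Om, ψ' f * ψ f +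
      ∑ f ∈ Om, (ψ f) ^ 2 := by
    rw [mul_sum, ← sum_sub_distrib, ← sum_add_distrib]
    exact sum_congr rfl (fun f _ => by ring)
  have fin2 : 0 ≤ ∑ f ∈ Om, (ψ' f - ψ f) ^ 2 := sum_nonneg (fun f _ => sq_nonneg _)
  have fin3 : ∑ f ∈ Om, ψ' f * ψ' f = ∑ f ∈ Om, (ψ' f) ^ 2 :=
    sum_congr rfl (fun f _ => by ring)
  rw [fin3] at total
  set D := ∑ z, ∑ j, ∑ f ∈ Om, (if live z j f then
        a z j f * (ν z f * (P z j g f / c z j f) ^ 2) else 0)
  set Ds := ∑ z, ∑ j, ∑ f ∈ Om, (if live z j f then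
        as z j f * (ν z f * (P z j h f / cs z j f + P z j (θ z) f) ^ 2) else 0)
  have t2 : τ * (D - Ds) ≤ τ * (2 * (∑ f ∈ Om, ψ' f * ψ f - ∑ f ∈ Om, (ψ' f) ^ 2)) := by
    nlinarith [total]
  have t3 : D - Ds ≤ 2 * (∑ f ∈ Om, ψ' f * ψ f - ∑ f ∈ Om, (ψ' f) ^ 2) :=
    le_of_mul_le_mul_left t2 hτ
  have : D ≤ ∑ f ∈ Om, (ψ f) ^ 2 := by linarith [hθ3', fin1, fin2]
  exact this

end Pool.Agent.KempeNest
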