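import Pool.Agent.Lib.MP_26a019_lc.Nest.Defs
import Pool.Agent.Lib.MP_26a019_lc.Nest.RayW
import Pool.Agent.Lib.MP_26a019_lc.Nest.Cube

set_option autoImplicit false

/-!
# The ray argument for flip systems
-/

open Finset Classical

namespace Pool.Agent.Nest

open Pool.Agent.KempeNest

variable {V : Type} [Fintype V]

namespace RayF

theorem chi_comm (S T : Finset V) : chi S T = chi T S := by
  unfold chi; rw [inter_comm]

theorem chi_sq (S T : Finset V) : chi S T * chi S T = 1 := by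
  unfold chi; rw [← mul_pow]; norm_num

theorem chi_empty (S : Finset V) : chi S ∅ = 1 := by
  unfold chi; simp

theorem chi_symmDiff (S T T' : Finset V) : chi S (symmDiff T T') = chi S T * chi S T' := by
  rw [chi_comm, chi_comm S T, chi_comm S T']
  exact sgn_symmDiff T T' S

theorem chi_odd {S T : Finset V} (h : Odd (S ∩ T).card) : chi S T = -1 := by
  unfold chi; exact h.neg_one_pow

theorem chi_even {S T : Finset V} (h : ¬ Odd (S ∩ T).card) : chi S T = 1 := by
  unfold chi; exact (Nat.not_odd_iff_even.mp h).neg_one_pow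

theorem sum_chi (T : Finset V) :
    ∑ S : Finset V, chi S T = if T = ∅ then 2 ^ Fintype.card V else 0 := by
  have h := sum_sgn' (univ : Finset V) T (subset_univ _)
  rw [powerset_univ] at h
  rw [card_univ] at h
  exact h

variable {X : Type}

/-- the normalised transform -/
noncomputable def tr (F : FS V X) (S : Finset V) (g : X → ℝ) (f : X) : ℝ :=
  (∑ T ∈ F.K f, chi S T * g (F.fl T f)) / ((F.K f).card : ℝ)

/-- the transform as a linear map -/
noncomputable def trL (F : FS V X) (S : Finset V) : (X → ℝ) →ₗ[ℝ] (X → ℝ) where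
  toFun g := tr F S g
  map_add' g g' := by
    funext f
    simp only [tr, Pi.add_apply, mul_add, sum_add_distrib, add_div]
  map_smul' c g := by
    funext f
    simp only [tr, Pi.smul_apply, smul_eq_mul, RingHom.id_apply]
    rw [← mul_div_assoc, mul_sum]
    congr 1
    exact sum_congr rfl (fun T _ => by ring)

theorem trL_apply (F : FS V X) (S : Finset V) (g : X → ℝ) (f : X) : trL F S g f = tr F S g f := rfl

/-- the weight -/
noncomputable def nu (F : FS V X) (f : X) : ℝ := ((F.K f).card : ℝ) / 2 ^ Fintype.card V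

theorem K_card_pos (F : FS V X) {f : X} (hf : f ∈ F.Om) : (0 : ℝ) < ((F.K f).card : ℝ) := by
  exact_mod_cast card_pos.mpr ⟨∅, F.emp f hf⟩

theorem nu_pos (F : FS V X) {f : X} (hf : f ∈ F.Om) : 0 < nu F f :=
  div_pos (K_card_pos F hf) (by positivity)

theorem tr_fl (F : FS V X) (S : Finset V) (g : X → ℝ) {f : X} (hf : f ∈ F.Om) {T : Finset V}
    (hT : T ∈ F.K f) : tr F S g (F.fl T f) = chi S T * tr F S g f := by
  unfold tr
  rw [F.K_fl f hf T hT, ← mul_div_assoc, mul_sum]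
  congr 1
  refine sum_nbij' (fun U => symmDiff T U) (fun U => symmDiff T U) ?_ ?_ ?_ ?_ ?_
  · intro U hU; exact F.sd f hf T hT U hU
  · intro U hU; exact F.sd f hf T hT U hU
  · intro U _; simp [symmDiff_symmDiff_cancel_left]
  · intro U _; simp [symmDiff_symmDiff_cancel_left]
  · intro U hU
    rw [F.fl_fl f hf T hT U hU, chi_symmDiff]
    have := chi_sq S T
    calc chi S U * g (F.fl (symmDiff T U) f)
        = (chi S T * chi S T) * chi S U * g (F.fl (symmDiff T U) f) := by rw [this, one_mul]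
      _ = _ := by ring

/-- averaging over orbits -/
theorem sum_orbit (F : FS V X) (G : X → ℝ) :
    ∑ f ∈ F.Om, G f = ∑ f ∈ F.Om, (∑ T ∈ F.K f, G (F.fl T f)) / ((F.K f).card : ℝ) := by
  have e1 : ∑ f ∈ F.Om, G f = ∑ f ∈ F.Om, ∑ T ∈ F.K f, G f / ((F.K f).card : ℝ) := by
    apply sum_congr rfl
    intro f hf
    rw [sum_const, nsmul_eq_mul]
    have := (K_card_pos F hf).ne'
    field_simp
  rw [e1]
  have e2 : ∑ f ∈ F.Om, (∑ T ∈ F.K f, G (F.fl T f)) / ((F.K f).card : ℝ) =
      ∑ f ∈ F.Om, ∑ T ∈ F.K f, G (F.fl T f) / ((F.K f).card : ℝ) :=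
    sum_congr rfl (fun f _ => by rw [sum_div])
  rw [e2, sum_sigma', sum_sigma']
  refine sum_nbij' (fun p => ⟨F.fl p.2 p.1, p.2⟩) (fun p => ⟨F.fl p.2 p.1, p.2⟩) ?_ ?_ ?_ ?_ ?_
  · rintro ⟨f, T⟩ h
    rw [mem_sigma] at h ⊢
    exact ⟨F.fl_mem f h.1 T h.2, by
      change T ∈ F.K (F.fl T f)
      rw [F.K_fl f h.1 T h.2]; exact h.2⟩
  · rintro ⟨f, T⟩ h
    rw [mem_sigma] at h ⊢
    exact ⟨F.fl_mem f h.1 T h.2, by
      change T ∈ F.K (F.fl T f)
      rw [F.K_fl f h.1 T h.2]; exact h.2⟩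
  · rintro ⟨f, T⟩ h
    rw [mem_sigma] at h
    simp only at h ⊢
    rw [F.fl_fl f h.1 T h.2 T h.2, symmDiff_self, show (⊥ : Finset V) = ∅ from rfl,
      F.fl_emp f h.1]
  · rintro ⟨f, T⟩ h
    rw [mem_sigma] at h
    simp only at h ⊢
    rw [F.fl_fl f h.1 T h.2 T h.2, symmDiff_self, show (⊥ : Finset V) = ∅ from rfl,
      F.fl_emp f h.1]
  · rintro ⟨f, T⟩ h
    rw [mem_sigma] at h
    simp only at h ⊢
    rw [F.fl_fl f h.1 T h.2 T h.2, symmDiff_self, show (⊥ : Finset V) = ∅ from rfl,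
      F.fl_emp f h.1, F.K_fl f h.1 T h.2]

/-- invariant multipliers -/
def Inv (F : FS V X) (m : X → ℝ) : Prop := ∀ f ∈ F.Om, ∀ T ∈ F.K f, m (F.fl T f) = m f

theorem tr_adj (F : FS V X) (S : Finset V) (m : X → ℝ) (hm : Inv F m) (φ ψ : X → ℝ) :
    ∑ f ∈ F.Om, m f * (φ f * tr F S ψ f) = ∑ f ∈ F.Om, m f * (tr F S φ f * tr F S ψ f) := by
  rw [sum_orbit F (fun f => m f * (φ f * tr F S ψ f))]
  apply sum_congr rfl
  intro f hf
  have e : ∑ T ∈ F.K f, m (F.fl T f) * (φ (F.fl T f) * tr F S ψ (F.fl T f)) =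
      m f * tr F S ψ f * ∑ T ∈ F.K f, chi S T * φ (F.fl T f) := by
    rw [mul_sum]
    apply sum_congr rfl
    intro T hT
    rw [hm f hf T hT, tr_fl F S ψ hf hT]
    ring
  rw [e]
  conv_rhs => rw [show tr F S φ f = (∑ T ∈ F.K f, chi S T * φ (F.fl T f)) /
    ((F.K f).card : ℝ) from rfl]
  ring

theorem tr_complete (F : FS V X) (ψ : X → ℝ) {f : X} (hf : f ∈ F.Om) :
    ∑ S : Finset V, nu F f * tr F S ψ f = ψ f := by
  have hc := (K_card_pos F hf).ne'
  have e1 : ∀ S : Finset V, nu F f * tr F S ψ f =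
      ∑ T ∈ F.K f, chi S T * (ψ (F.fl T f) / 2 ^ Fintype.card V) := by
    intro S
    unfold nu tr
    rw [div_mul_div_comm, mul_comm (2 ^ Fintype.card V : ℝ) _, mul_div_mul_left _ _ hc, sum_div]
    exact sum_congr rfl (fun T _ => by ring)
  rw [sum_congr rfl (fun S _ => e1 S), sum_comm]
  have e2 : ∀ T ∈ F.K f, ∑ S : Finset V, chi S T * (ψ (F.fl T f) / 2 ^ Fintype.card V) =
      if T = ∅ then ψ (F.fl T f) else 0 := by
    intro T _
    rw [← sum_mul, sum_chi]
    by_cases hT : T = ∅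
    · rw [if_pos hT, if_pos hT]
      have : (2 : ℝ) ^ Fintype.card V ≠ 0 := by positivity
      field_simp
    · rw [if_neg hT, if_neg hT, zero_mul]
  rw [sum_congr rfl e2, sum_ite_eq', if_pos (F.emp f hf), F.fl_emp f hf]

/-- the operator in terms of the transform -/
theorem op_eq (F : FS V X) (μ : X → Finset V → ℝ) (g : X → ℝ) {f : X} (hf : f ∈ F.Om) :
    F.op μ g f = ∑ S : Finset V, nu F f * (μ f S * tr F S g f) := by
  have hc := (K_card_pos F hf).ne'
  unfold FS.op cv
  rw [sum_div]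
  apply sum_congr rfl
  intro S _
  unfold nu tr
  have h2 : (2 : ℝ) ^ Fintype.card V ≠ 0 := by positivity
  field_simp

/-- the form in terms of the transform -/
theorem sum_op (F : FS V X) (μ : X → Finset V → ℝ)
    (hμ : ∀ f ∈ F.Om, ∀ T ∈ F.K f, ∀ S, μ (F.fl T f) S = μ f S) (g : X → ℝ) :
    ∑ f ∈ F.Om, g f * F.op μ g f =
      ∑ S : Finset V, ∑ f ∈ F.Om, nu F f * (μ f S * (tr F S g f) ^ 2) := by
  have e1 : ∑ f ∈ F.Om, g f * F.op μ g f =
      ∑ S : Finset V, ∑ f ∈ F.Om, (nu F f * μ f S) * (g f * tr F S g f) := by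
    rw [sum_comm]
    apply sum_congr rfl
    intro f hf
    rw [op_eq F μ g hf, mul_sum]
    exact sum_congr rfl (fun S _ => by ring)
  rw [e1]
  apply sum_congr rfl
  intro S _
  rw [tr_adj F S (fun f => nu F f * μ f S) (by
    intro f hf T hT
    simp only
    rw [hμ f hf T hT S]
    unfold nu
    rw [F.K_fl f hf T hT]) g g]
  exact sum_congr rfl (fun f _ => by ring)

/-- invariance under a flip in terms of the transform -/
theorem inv_of_tr (F : FS V X) (h : X → ℝ) {f : X} (hf : f ∈ F.Om) {U : Finset V}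
    (hU : U ∈ F.K f) (h0 : ∀ S, Odd (S ∩ U).card → tr F S h f = 0) : h (F.fl U f) = h f := by
  rw [← tr_complete F h (F.fl_mem f hf U hU), ← tr_complete F h hf]
  apply sum_congr rfl
  intro S _
  have : nu F (F.fl U f) = nu F f := by unfold nu; rw [F.K_fl f hf U hU]
  rw [this, tr_fl F S h hf hU]
  by_cases ho : Odd (S ∩ U).card
  · rw [h0 S ho]; ring
  · rw [chi_even ho, one_mul]

theorem tr_of_inv (F : FS V X) (h : X → ℝ) {f : X} (hf : f ∈ F.Om) {U : Finset V}
    (hU : U ∈ F.K f) (hinv : ∀ T ∈ F.K f, h (F.fl U (F.fl T f)) = h (F.fl T f))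
    (S : Finset V) (hS : Odd (S ∩ U).card) : tr F S h f = 0 := by
  have e : ∑ T ∈ F.K f, chi S T * h (F.fl T f) = - ∑ T ∈ F.K f, chi S T * h (F.fl T f) := by
    rw [← sum_neg_distrib]
    refine sum_nbij' (fun T => symmDiff U T) (fun T => symmDiff U T) ?_ ?_ ?_ ?_ ?_
    · intro T hT; exact F.sd f hf U hU T hT
    · intro T hT; exact F.sd f hf U hU T hT
    · intro T _; simp [symmDiff_symmDiff_cancel_left]
    · intro T _; simp [symmDiff_symmDiff_cancel_left]
    · intro T hT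
      rw [chi_symmDiff, chi_odd hS]
      have h1 := hinv T hT
      rw [F.fl_fl f hf T hT U hU, symmDiff_comm] at h1
      rw [h1]; ring
  unfold tr
  have : ∑ T ∈ F.K f, chi S T * h (F.fl T f) = 0 := by linarith
  rw [this, zero_div]

/-- If `θ` is odd under the flip `U` then its transform lives on the modes which see `U`. -/
theorem tr_of_odd (F : FS V X) (h : X → ℝ) {f : X} (hf : f ∈ F.Om) {U : Finset V}
    (hU : U ∈ F.K f) (hodd : ∀ T ∈ F.K f, h (F.fl U (F.fl T f)) = - h (F.fl T f))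
    (S : Finset V) (hS : ¬ Odd (S ∩ U).card) : tr F S h f = 0 := by
  have e : ∑ T ∈ F.K f, chi S T * h (F.fl T f) = - ∑ T ∈ F.K f, chi S T * h (F.fl T f) := by
    rw [← sum_neg_distrib]
    refine sum_nbij' (fun T => symmDiff U T) (fun T => symmDiff U T) ?_ ?_ ?_ ?_ ?_
    · intro T hT; exact F.sd f hf U hU T hT
    · intro T hT; exact F.sd f hf U hU T hT
    · intro T _; simp [symmDiff_symmDiff_cancel_left]
    · intro T _; simp [symmDiff_symmDiff_cancel_left]
    · intro T hT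
      rw [chi_symmDiff, chi_even hS]
      have h1 := hodd T hT
      rw [F.fl_fl f hf T hT U hU, symmDiff_comm] at h1
      rw [h1]; ring
  unfold tr
  have : ∑ T ∈ F.K f, chi S T * h (F.fl T f) = 0 := by linarith
  rw [this, zero_div]

variable {Z : Type} [Fintype Z]

/-- live modes -/
def Lv (F : Z → FS V X) (z : Z) (S : Finset V) (f : X) : Prop :=
  ∃ T ∈ (F z).K f, Odd (S ∩ T).card

theorem modesW (F : Z → FS V X) (Om : Finset X) (hOm : ∀ z, (F z).Om = Om) :
    ModesW Om (fun z => nu (F z)) (fun z => Inv (F z)) (fun z S => trL (F z) S) where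
  pos z f hf := nu_pos (F z) (by rw [hOm z]; exact hf)
  invν z := by
    intro f hf T hT
    unfold nu
    rw [(F z).K_fl f hf T hT]
  adj z S m hm φ ψ := by
    have := tr_adj (F z) S m hm φ ψ
    rw [hOm z] at this
    exact this
  complete z ψ f hf := tr_complete (F z) ψ (by rw [hOm z]; exact hf)

end RayF

open RayF in
/-- **The ray argument for a family of flip systems.** `κ` and `κs` are choices of minimisers of the
resistances `ρ` and `ρs`, `ρ = ρs + τ s`, `ρs v = 0`. -/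
theorem ray_v {X Z : Type} [Fintype X] [Fintype Z] (F : Z → FS V X) (Om : Finset X)
    (hOm : ∀ z, (F z).Om = Om) (ρ ρs s : V → ℝ) (τ : ℝ) (hτ : 0 < τ)
    (hρ : ∀ u, ρ u = ρs u + τ * s u) (v : V) (hv : ρs v = 0)
    (hpos : ∀ z, ∀ f ∈ Om, ∀ T ∈ (F z).K f, T ≠ ∅ → 0 < ∑ u ∈ T, ρ u)
    (hposs : ∀ z, ∀ f ∈ Om, ∀ T ∈ (F z).K f, T ≠ ∅ → T ≠ {v} → 0 < ∑ u ∈ T, ρs u)
    (κ κs : Z → X → Finset V → Finset V)
    (hκ : ∀ z, ∀ f ∈ Om, ∀ S, (∃ T ∈ (F z).K f, Odd (S ∩ T).card) →
      κ z f S ∈ (F z).K f ∧ Odd (S ∩ κ z f S).card ∧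
        ∀ T ∈ (F z).K f, Odd (S ∩ T).card → ∑ u ∈ κ z f S, ρ u ≤ ∑ u ∈ T, ρ u)
    (hκ0 : ∀ z, ∀ f ∈ Om, ∀ S, (¬ ∃ T ∈ (F z).K f, Odd (S ∩ T).card) → κ z f S = ∅)
    (hκf : ∀ z, ∀ f ∈ Om, ∀ T ∈ (F z).K f, ∀ S, κ z ((F z).fl T f) S = κ z f S)
    (hκs : ∀ z, ∀ f ∈ Om, ∀ S, (∃ T ∈ (F z).K f, Odd (S ∩ T).card) →
      κs z f S ∈ (F z).K f ∧ Odd (S ∩ κs z f S).card ∧
        ∀ T ∈ (F z).K f, Odd (S ∩ T).card → ∑ u ∈ κs z f S, ρs u ≤ ∑ u ∈ T, ρs u)
    (hκs0 : ∀ z, ∀ f ∈ Om, ∀ S, (¬ ∃ T ∈ (F z).K f, Odd (S ∩ T).card) → κs z f S = ∅)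
    (hκsf : ∀ z, ∀ f ∈ Om, ∀ T ∈ (F z).K f, ∀ S, κs z ((F z).fl T f) S = κs z f S)
    (face : ∀ h η : X → ℝ,
      (∀ z, ∀ f ∈ Om, {v} ∈ (F z).K f → h ((F z).fl {v} f) = h f) →
      (∀ w : X → ℝ, (∀ z, ∀ f ∈ Om, {v} ∈ (F z).K f → w ((F z).fl {v} f) = w f) →
        ∑ f ∈ Om, η f * w f = 0) →
      ∃ θ : Z → X → ℝ, (∀ z, ∀ f ∈ Om, {v} ∉ (F z).K f → θ z f = 0) ∧
        (∀ z, ∀ f ∈ Om, {v} ∈ (F z).K f → θ z ((F z).fl {v} f) = - θ z f) ∧
        (∀ f ∈ Om, ∑ z, θ z f = η f) ∧
        1 / 2 * ∑ f ∈ Om, ∑ z, (h f * (F z).op (fun f S =>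
            (∑ u ∈ κs z f S, s u) * (2 / ∑ u ∈ κs z f S, ρs u) ^ 2) h f + s v * θ z f ^ 2) ≤
          ∑ f ∈ Om, (∑ z, (F z).op (fun f S => 2 / ∑ u ∈ κs z f S, ρs u) h f + η f) ^ 2)
    (g : X → ℝ) :
    1 / 2 * ∑ f ∈ Om, ∑ z, g f * (F z).op (fun f S =>
        (∑ u ∈ κ z f S, s u) * (2 / ∑ u ∈ κ z f S, ρ u) ^ 2) g f ≤
      ∑ f ∈ Om, (∑ z, (F z).op (fun f S => 2 / ∑ u ∈ κ z f S, ρ u) g f) ^ 2 := by
  -- live modes
  obtain ⟨live, hlive⟩ : ∃ live : Z → Finset V → X → Prop, live = Lv F := ⟨_, rfl⟩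
  have hlv : ∀ z S f, live z S f ↔ ∃ T ∈ (F z).K f, Odd (S ∩ T).card := by
    intro z S f; rw [hlive]; rfl
  let c : Z → Finset V → X → ℝ := fun z S f => (∑ u ∈ κ z f S, ρ u) / 2
  let cs : Z → Finset V → X → ℝ := fun z S f => (∑ u ∈ κs z f S, ρs u) / 2
  let a : Z → Finset V → X → ℝ := fun z S f => (∑ u ∈ κ z f S, s u) / 2
  let as : Z → Finset V → X → ℝ := fun z S f => (∑ u ∈ κs z f S, s u) / 2
  have hOm' : ∀ z, ∀ f ∈ Om, f ∈ (F z).Om := fun z f hf => by rw [hOm z]; exact hf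
  have hlive_fl : ∀ z, ∀ f ∈ Om, ∀ T ∈ (F z).K f, ∀ S, live z S ((F z).fl T f) ↔ live z S f := by
    intro z f hf T hT S
    rw [hlv, hlv, (F z).K_fl f (hOm' z f hf) T hT]
  have hsumρ : ∀ T : Finset V, ∑ u ∈ T, ρ u = ∑ u ∈ T, ρs u + τ * ∑ u ∈ T, s u := by
    intro T
    rw [mul_sum, ← sum_add_distrib]
    exact sum_congr rfl (fun u _ => hρ u)
  have hne : ∀ {S T : Finset V}, Odd (S ∩ T).card → T ≠ ∅ := by
    intro S T h hT
    subst hT
    simp at h
  have hnn : ∀ z, ∀ f ∈ Om, ∀ T ∈ (F z).K f, 0 ≤ ∑ u ∈ T, ρs u := by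
    intro z f hf T hT
    by_cases h1 : T = ∅
    · subst h1; simp
    · by_cases h2 : T = {v}
      · subst h2; simp [hv]
      · exact (hposs z f hf T hT h1 h2).le
  -- zero cost modes
  have hzero : ∀ z, ∀ f ∈ Om, ∀ S, live z S f → (cs z S f = 0 ↔ ({v} ∈ (F z).K f ∧ v ∈ S)) := by
    intro z f hf S hl
    obtain ⟨k1, k2, k3⟩ := hκs z f hf S ((hlv z S f).mp hl)
    constructor
    · intro h0
      have h0' : ∑ u ∈ κs z f S, ρs u = 0 := by
        have : (∑ u ∈ κs z f S, ρs u) / 2 = 0 := h0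
        linarith
      have hk : κs z f S = {v} := by
        by_contra hk
        have := hposs z f hf _ k1 (hne k2) hk
        linarith
      rw [hk] at k1 k2
      refine ⟨k1, ?_⟩
      by_contra hvS
      rw [inter_singleton_of_notMem hvS] at k2
      simp at k2
    · rintro ⟨h1, h2⟩
      have ho : Odd (S ∩ {v}).card := by
        rw [inter_singleton_of_mem h2]; simp
      have := k3 {v} h1 ho
      rw [sum_singleton, hv] at this
      have h3 := hnn z f hf _ k1
      have : ∑ u ∈ κs z f S, ρs u = 0 := le_antisymm this h3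
      simp only [cs]
      rw [this]; simp
  have hκsv : ∀ z, ∀ f ∈ Om, ∀ S, live z S f → cs z S f = 0 → κs z f S = {v} := by
    intro z f hf S hl h0
    obtain ⟨k1, k2, k3⟩ := hκs z f hf S ((hlv z S f).mp hl)
    by_contra hk
    have := hposs z f hf _ k1 (hne k2) hk
    have h0' : (∑ u ∈ κs z f S, ρs u) / 2 = 0 := h0
    linarith
  -- invariance under the flip `{v}` and zero cost modes
  have hU1 : ∀ h : X → ℝ, (∀ z S, ∀ f ∈ Om, live z S f → cs z S f = 0 → tr (F z) S h f = 0) →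
      ∀ z, ∀ f ∈ Om, {v} ∈ (F z).K f → h ((F z).fl {v} f) = h f := by
    intro h hh z f hf hvK
    apply inv_of_tr (F z) h (hOm' z f hf) hvK
    intro S hS
    have hl : live z S f := (hlv z S f).mpr ⟨{v}, hvK, hS⟩
    apply hh z S f hf hl
    rw [hzero z f hf S hl]
    refine ⟨hvK, ?_⟩
    by_contra hvS
    rw [inter_singleton_of_notMem hvS] at hS
    simp at hS
  have hU2 : ∀ h : X → ℝ, (∀ z, ∀ f ∈ Om, {v} ∈ (F z).K f → h ((F z).fl {v} f) = h f) →
      ∀ z S, ∀ f ∈ Om, live z S f → cs z S f = 0 → tr (F z) S h f = 0 := by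
    intro h hh z S f hf hl h0
    obtain ⟨hvK, hvS⟩ := (hzero z f hf S hl).mp h0
    apply tr_of_inv (F z) h (hOm' z f hf) hvK
    · intro T hT
      apply hh z _ (by
        have := (F z).fl_mem f (hOm' z f hf) T hT
        rw [hOm z] at this; exact this)
      rw [(F z).K_fl f (hOm' z f hf) T hT]
      exact hvK
    · rw [inter_singleton_of_mem hvS]; simp
  -- the operators
  have hXc : ∀ (κ' : Z → X → Finset V → Finset V) (ρ' : V → ℝ)
      (_ : ∀ z, ∀ f ∈ Om, ∀ S, ¬ live z S f → κ' z f S = ∅) (h : X → ℝ), ∀ f ∈ Om,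
      XW (fun z => nu (F z)) (fun z S => trL (F z) S) live
        (fun z S f => (∑ u ∈ κ' z f S, ρ' u) / 2) h f =
      ∑ z, (F z).op (fun f S => 2 / ∑ u ∈ κ' z f S, ρ' u) h f := by
    intro κ' ρ' hκ' h f hf
    unfold XW
    apply sum_congr rfl
    intro z _
    rw [op_eq (F z) _ h (hOm' z f hf)]
    apply sum_congr rfl
    intro S _
    by_cases hl : live z S f
    · simp only [hl, if_true, trL_apply]
      congr 1
      rw [div_div_eq_mul_div]
      ring
    · simp only [hl, if_false]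
      rw [hκ' z f hf S hl]
      simp
  have hsum_form : ∀ (κ' : Z → X → Finset V → Finset V) (ρ' : V → ℝ)
      (_ : ∀ z, ∀ f ∈ Om, ∀ S, ¬ live z S f → κ' z f S = ∅)
      (_ : ∀ z, ∀ f ∈ Om, ∀ T ∈ (F z).K f, ∀ S, κ' z ((F z).fl T f) S = κ' z f S)
      (h : X → ℝ),
      ∑ z, ∑ S : Finset V, ∑ f ∈ Om, (if live z S f then (∑ u ∈ κ' z f S, s u) / 2 *
        (nu (F z) f * (tr (F z) S h f / ((∑ u ∈ κ' z f S, ρ' u) / 2)) ^ 2) else 0) =
      1 / 2 * ∑ f ∈ Om, ∑ z, h f * (F z).op (fun f S =>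
        (∑ u ∈ κ' z f S, s u) * (2 / ∑ u ∈ κ' z f S, ρ' u) ^ 2) h f := by
    intro κ' ρ' hκ' hκf' h
    rw [sum_comm (s := Om), mul_sum]
    apply sum_congr rfl
    intro z _
    have hs := sum_op (F z) (fun f S =>
        (∑ u ∈ κ' z f S, s u) * (2 / ∑ u ∈ κ' z f S, ρ' u) ^ 2) (by
      intro f hf T hT S
      rw [hκf' z f (by rw [← hOm z]; exact hf) T hT S]) h
    rw [hOm z] at hs
    rw [hs, mul_sum]
    apply sum_congr rfl
    intro S _
    rw [mul_sum]
    apply sum_congr rfl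
    intro f hf
    by_cases hl : live z S f
    · simp only [hl, if_true]
      rw [div_div_eq_mul_div]
      ring
    · simp only [hl, if_false]
      rw [hκ' z f hf S hl]
      simp
  have hlκ : ∀ z, ∀ f ∈ Om, ∀ S, ¬ live z S f → κ z f S = ∅ :=
    fun z f hf S hl => hκ0 z f hf S (fun h => hl ((hlv z S f).mpr h))
  have hlκs : ∀ z, ∀ f ∈ Om, ∀ S, ¬ live z S f → κs z f S = ∅ :=
    fun z f hf S hl => hκs0 z f hf S (fun h => hl ((hlv z S f).mpr h))
  have main := rayW (modesW F Om hOm) live c cs a as τ hτ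
    (by
      intro z S f hf T hT
      have hf' : f ∈ Om := by rw [← hOm z]; exact hf
      simp only [c]
      rw [hκf z f hf' T hT S]
      have : nu (F z) ((F z).fl T f) = nu (F z) f := by unfold nu; rw [(F z).K_fl f hf T hT]
      rw [this]
      by_cases hl : live z S f
      · rw [if_pos hl, if_pos ((hlive_fl z f hf' T hT S).mpr hl)]
      · rw [if_neg hl, if_neg (fun h => hl ((hlive_fl z f hf' T hT S).mp h))])
    (by
      intro z S f hf T hT
      have hf' : f ∈ Om := by rw [← hOm z]; exact hf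
      simp only [cs]
      rw [hκsf z f hf' T hT S]
      have : nu (F z) ((F z).fl T f) = nu (F z) f := by unfold nu; rw [(F z).K_fl f hf T hT]
      rw [this]
      by_cases hl : live z S f
      · rw [if_pos hl, if_pos ((hlive_fl z f hf' T hT S).mpr hl)]
      · rw [if_neg hl, if_neg (fun h => hl ((hlive_fl z f hf' T hT S).mp h))])
    (by
      intro z S f hf hl
      obtain ⟨k1, k2, _⟩ := hκ z f hf S ((hlv z S f).mp hl)
      have := hpos z f hf _ k1 (hne k2)
      simp only [c]; linarith)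
    (by
      intro z S f hf hl
      obtain ⟨k1, _, _⟩ := hκs z f hf S ((hlv z S f).mp hl)
      have := hnn z f hf _ k1
      simp only [cs]; linarith)
    (by
      intro z S f hf hl
      obtain ⟨k1, k2, _⟩ := hκ z f hf S ((hlv z S f).mp hl)
      obtain ⟨_, _, l3⟩ := hκs z f hf S ((hlv z S f).mp hl)
      have h1 := l3 _ k1 k2
      have h2 := hsumρ (κ z f S)
      simp only [c, cs, a]; linarith)
    (by
      intro z S f hf hl
      obtain ⟨_, _, k3⟩ := hκ z f hf S ((hlv z S f).mp hl)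
      obtain ⟨l1, l2, _⟩ := hκs z f hf S ((hlv z S f).mp hl)
      have h1 := k3 _ l1 l2
      have h2 := hsumρ (κs z f S)
      simp only [c, cs, as]; linarith)
    (by
      intro h η hh hη
      have hh' := hU1 h (fun z S f hf hl h0 => hh z S f hf hl h0)
      obtain ⟨θ, t1, t2, t3, t4⟩ := face h η hh' (by
        intro w hw
        exact hη w (fun z S f hf hl h0 => hU2 w hw z S f hf hl h0))
      have htr : ∀ z S, ∀ f ∈ Om, ¬ (live z S f ∧ cs z S f = 0) → tr (F z) S (θ z) f = 0 := by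
        intro z S f hf hn
        by_cases hvK : {v} ∈ (F z).K f
        · apply tr_of_odd (F z) (θ z) (hOm' z f hf) hvK
          · intro T hT
            apply t2 z _ (by
              have := (F z).fl_mem f (hOm' z f hf) T hT
              rw [hOm z] at this; exact this)
            rw [(F z).K_fl f (hOm' z f hf) T hT]
            exact hvK
          · intro ho
            have hl : live z S f := (hlv z S f).mpr ⟨{v}, hvK, ho⟩
            apply hn
            refine ⟨hl, ?_⟩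
            rw [hzero z f hf S hl]
            refine ⟨hvK, ?_⟩
            by_contra hvS
            rw [inter_singleton_of_notMem hvS] at ho
            simp at ho
        · unfold tr
          rw [sum_eq_zero, zero_div]
          intro T hT
          have hf2 : (F z).fl T f ∈ Om := by
            have := (F z).fl_mem f (hOm' z f hf) T hT
            rw [hOm z] at this; exact this
          rw [t1 z _ hf2 (by rw [(F z).K_fl f (hOm' z f hf) T hT]; exact hvK), mul_zero]
      refine ⟨θ, htr, t3, ?_⟩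
      have e1 : ∑ f ∈ Om, (XW (fun z => nu (F z)) (fun z S => trL (F z) S) live cs h f + η f) ^ 2 =
          ∑ f ∈ Om, (∑ z, (F z).op (fun f S => 2 / ∑ u ∈ κs z f S, ρs u) h f + η f) ^ 2 := by
        apply sum_congr rfl
        intro f hf
        have := hXc κs ρs hlκs h f hf
        simp only [cs]
        rw [this]
      rw [e1]
      refine le_trans (le_of_eq ?_) t4
      -- split into the two kinds of modes
      have e2 : ∑ z, ∑ S : Finset V, ∑ f ∈ Om, (if live z S f then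
          as z S f * (nu (F z) f * (trL (F z) S h f / cs z S f + trL (F z) S (θ z) f) ^ 2) else 0) =
          ∑ z, ∑ S : Finset V, ∑ f ∈ Om, (if live z S f then (∑ u ∈ κs z f S, s u) / 2 *
            (nu (F z) f * (tr (F z) S h f / ((∑ u ∈ κs z f S, ρs u) / 2)) ^ 2) else 0) +
          ∑ z, ∑ S : Finset V, ∑ f ∈ Om, s v / 2 * (nu (F z) f * (tr (F z) S (θ z) f *
            tr (F z) S (θ z) f)) := by
        rw [← sum_add_distrib]
        apply sum_congr rfl
        intro z _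
        rw [← sum_add_distrib]
        apply sum_congr rfl
        intro S _
        rw [← sum_add_distrib]
        apply sum_congr rfl
        intro f hf
        by_cases hl : live z S f
        · simp only [hl, if_true, trL_apply]
          by_cases h0 : cs z S f = 0
          · have hk := hκsv z f hf S hl h0
            have h1 : tr (F z) S h f = 0 := hh z S f hf hl h0
            simp only [as]
            rw [h1, hk]
            simp only [sum_singleton]
            ring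
          · have h1 : tr (F z) S (θ z) f = 0 := htr z S f hf (fun h => h0 h.2)
            simp only [as, cs]
            rw [h1]
            ring
        · have h1 : tr (F z) S (θ z) f = 0 := htr z S f hf (fun h => hl h.1)
          simp only [hl, if_false]
          rw [h1]; ring
      refine Eq.trans e2 ?_
      rw [hsum_form κs ρs hlκs hκsf h]
      have e3 : ∀ z, ∑ S : Finset V, ∑ f ∈ Om, s v / 2 * (nu (F z) f * (tr (F z) S (θ z) f *
            tr (F z) S (θ z) f)) = s v / 2 * ∑ f ∈ Om, θ z f ^ 2 := by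
        intro z
        have := (modesW F Om hOm).parseval z (θ z) (θ z)
        have h2 : ∑ f ∈ Om, θ z f ^ 2 = ∑ f ∈ Om, θ z f * θ z f :=
          sum_congr rfl (fun f _ => by ring)
        rw [h2, this, mul_sum]
        apply sum_congr rfl
        intro S _
        rw [mul_sum]
        rfl
      rw [sum_congr rfl (fun z _ => e3 z), ← mul_sum, sum_comm (s := univ) (t := Om)]
      have e4 : ∑ f ∈ Om, ∑ z, (h f * (F z).op (fun f S =>
            (∑ u ∈ κs z f S, s u) * (2 / ∑ u ∈ κs z f S, ρs u) ^ 2) h f + s v * θ z f ^ 2) =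
          ∑ f ∈ Om, ∑ z, h f * (F z).op (fun f S =>
            (∑ u ∈ κs z f S, s u) * (2 / ∑ u ∈ κs z f S, ρs u) ^ 2) h f +
          s v * ∑ f ∈ Om, ∑ z, θ z f ^ 2 := by
        rw [mul_sum, ← sum_add_distrib]
        apply sum_congr rfl
        intro f _
        rw [mul_sum, ← sum_add_distrib]
      rw [e4]
      ring)
    g
  have e1 : ∑ f ∈ Om, (XW (fun z => nu (F z)) (fun z S => trL (F z) S) live c g f) ^ 2 =
      ∑ f ∈ Om, (∑ z, (F z).op (fun f S => 2 / ∑ u ∈ κ z f S, ρ u) g f) ^ 2 := by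
    apply sum_congr rfl
    intro f hf
    have := hXc κ ρ hlκ g f hf
    simp only [c]
    rw [this]
  rw [← e1, ← hsum_form κ ρ hlκ hκf g]
  exact main

end Pool.Agent.Nest
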