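import Pool.Agent.Lib.MP_26a019_lc.Nest.Link
import Pool.Agent.Lib.MP_26a019_lc.Nest.RayF
import Pool.Agent.Lib.MP_26a019_lc.Nest.FSys
import Pool.Agent.Lib.MP_26a019_lc.Nest.Fib80
import Pool.Agent.Lib.MP_26a019_lc.Nest.Fib80b

set_option autoImplicit false

/-!
# The flip systems of an instance and the ray argument for an instance
-/

open Finset Classical

namespace Pool.Agent.Nest

variable {V : Type} [Fintype V]

set_option linter.unusedSectionVars false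

theorem zm_flip : ∀ z x : ZMod 3, (-z - x = z ↔ x = z) := by decide

theorem zm_invol : ∀ z x : ZMod 3, -z - (-z - x) = x := by decide

theorem bz_sub {A : Finset V} {z : ZMod 3} {f : V → ZMod 3} : bz A z f ⊆ A := filter_subset _ _

theorem bz_fz {A T : Finset V} {z : ZMod 3} {f : V → ZMod 3} :
    bz A z (fz z T f) = bz A z f := by
  ext u
  rw [mem_bz, mem_bz]
  unfold fz
  by_cases hu : u ∈ T
  · rw [if_pos hu, ne_eq, zm_flip]
  · rw [if_neg hu]

theorem fz_empty (z : ZMod 3) (f : V → ZMod 3) : fz z ∅ f = f := by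
  funext u; unfold fz; simp

theorem fz_fz (z : ZMod 3) (T T' : Finset V) (f : V → ZMod 3) :
    fz z T' (fz z T f) = fz z (symmDiff T T') f := by
  funext u
  unfold fz
  by_cases h1 : u ∈ T <;> by_cases h2 : u ∈ T' <;>
    simp [mem_symmDiff, h1, h2, zm_invol]

theorem fz_mem {I : Ins V} (hI : I.Ok) {z : ZMod 3} {f : V → ZMod 3} (hf : f ∈ I.Om)
    {T : Finset V} (hT : T ∈ kf I.m (bz I.A z f)) : fz z T f ∈ I.Om := by
  rw [mem_om] at hf ⊢
  have hsub : T ⊆ I.A := (kf_sub hT).trans bz_sub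
  refine ⟨fun u hu => ?_, fun u hu w hw => ⟨fun h => ?_, fun h => ?_⟩⟩
  · unfold fz
    rw [if_neg (fun h => hu (hsub h))]
    exact hf.1 u hu
  · have hne := (hf.2 u hu w hw).1 h
    have key : ∀ {x y : V}, x ∈ I.A → y ∈ I.A → I.a x y ≠ 0 → x ∈ T → y ∉ T →
        -z - f x ≠ f y := by
      intro x y hx hy hxy hxT hyT he
      have hx' := (mem_bz.1 (kf_sub hT hxT)).2
      have : f y = z := by
        by_contra h'
        refine hyT (kf_adj hT hxT (mem_bz.2 ⟨hy, h'⟩) ?_)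
        unfold Ins.m; omega
      rw [this, zm_flip] at he
      exact hx' he
    unfold fz
    by_cases h1 : u ∈ T <;> by_cases h2 : w ∈ T
    · rw [if_pos h1, if_pos h2]
      intro he; exact hne (sub_right_injective he)
    · rw [if_pos h1, if_neg h2]; exact key hu hw h h1 h2
    · rw [if_neg h1, if_pos h2]
      exact (key hw hu (by rwa [hI.asym]) h2 h1).symm
    · rw [if_neg h1, if_neg h2]; exact hne
  · have he := (hf.2 u hu w hw).2 h
    have key : ∀ {x y : V}, x ∈ I.A → y ∈ I.A → I.b x y ≠ 0 → f x = f y → x ∈ T → y ∈ T := by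
      intro x y hx hy hxy hxy' hxT
      refine kf_adj hT hxT (mem_bz.2 ⟨hy, ?_⟩) ?_
      · rw [← hxy']; exact (mem_bz.1 (kf_sub hT hxT)).2
      · unfold Ins.m; omega
    have hiff : u ∈ T ↔ w ∈ T :=
      ⟨key hu hw h he, key hw hu (by rwa [hI.bsym]) he.symm⟩
    unfold fz
    by_cases h1 : u ∈ T
    · rw [if_pos h1, if_pos (hiff.1 h1), he]
    · rw [if_neg h1, if_neg (fun h' => h1 (hiff.2 h')), he]

/-- the flip system of an instance for the missing colour `z` -/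
noncomputable def Ins.fs (I : Ins V) (hI : I.Ok) (z : ZMod 3) : FS V (V → ZMod 3) where
  Om := I.Om
  K f := kf I.m (bz I.A z f)
  fl := fz z
  emp _ _ := empty_mem_kf _ _
  sd _ _ _ hT _ hT' := symmDiff_mem_kf hI.gm hT hT'
  fl_mem _ hf _ hT := fz_mem hI hf hT
  K_fl _ _ _ _ := by rw [bz_fz]
  fl_fl _ _ _ _ _ _ := fz_fz _ _ _ _
  fl_emp _ _ := fz_empty _ _

theorem op_eq_fs (I : Ins V) (hI : I.Ok) (z : ZMod 3) (μ : Finset V → Finset V → ℝ)
    (g : (V → ZMod 3) → ℝ) (f : V → ZMod 3) :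
    op I.m I.A z μ g f = (I.fs hI z).op (fun f S => μ (bz I.A z f) S) g f := rfl

theorem opI_congr {m : V → V → ℕ} {A : Finset V} {z : ZMod 3} {μ μ' : Finset V → Finset V → ℝ}
    {g g' : (V → ZMod 3) → ℝ} {f : V → ZMod 3}
    (hμ : ∀ S, μ (bz A z f) S = μ' (bz A z f) S)
    (hg : ∀ T ∈ kf m (bz A z f), g (fz z T f) = g' (fz z T f)) :
    op m A z μ g f = op m A z μ' g' f := by
  unfold op cv
  congr 1
  refine sum_congr rfl fun S _ => ?_
  rw [hμ S]
  congr 1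
  refine sum_congr rfl fun T hT => ?_
  show chi S T * g (fz z T f) = chi S T * g' (fz z T f)
  rw [hg T hT]

/-- `{v}` is movable iff `v` is in the bichromatic set, unfrozen and isolated -/
theorem single_mem_kf {m : V → V → ℕ} {B : Finset V} {v : V} :
    {v} ∈ kf m B ↔ v ∈ B ∧ m v v < 2 ∧ ∀ w ∈ B.erase v, m v w = 0 := by
  constructor
  · intro h
    refine ⟨kf_sub h (mem_singleton_self v), kf_loop h (mem_singleton_self v), fun w hw => ?_⟩
    rw [mem_erase] at hw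
    exact kf_zero h (mem_singleton_self v) hw.2 (by simpa using hw.1)
  · rintro ⟨h1, h2, h3⟩
    rw [mem_kf]
    refine ⟨by simpa using h1, fun u hu w hw hwn => ?_, fun U hU hn => ?_⟩
    · rw [mem_singleton] at hu hwn
      subst hu
      exact h3 w (mem_erase.2 ⟨hwn, hw⟩)
    · have : U = {v} := by
        rcases subset_singleton_iff.1 hU with h | h
        · rw [h] at hn; simp at hn
        · exact h
      rw [this]; simpa using h2

/-! ### the choices -/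

theorem km_hκ {m : V → V → ℕ} {ρ : V → ℝ} {B S : Finset V}
    (h : ∃ T ∈ kf m B, Odd (S ∩ T).card) :
    km m ρ B S ∈ kf m B ∧ Odd (S ∩ km m ρ B S).card ∧
      ∀ T ∈ kf m B, Odd (S ∩ T).card → ∑ u ∈ km m ρ B S, ρ u ≤ ∑ u ∈ T, ρ u := by
  obtain ⟨T, hT, ho⟩ := h
  have hne : (adm m B S).Nonempty := ⟨T, mem_adm.2 ⟨hT, ho⟩⟩
  have := mem_adm.1 (km_mem (ρ := ρ) hne)
  exact ⟨this.1, this.2, fun T' hT' ho' => km_le (mem_adm.2 ⟨hT', ho'⟩)⟩

theorem km_hκ0 {m : V → V → ℕ} {ρ : V → ℝ} {B S : Finset V}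
    (h : ¬ ∃ T ∈ kf m B, Odd (S ∩ T).card) : km m ρ B S = ∅ := by
  refine km_none ?_
  rintro ⟨T, hT⟩
  exact h ⟨T, (mem_adm.1 hT).1, (mem_adm.1 hT).2⟩

/-- `kap` is empty if there is nothing admissible -/
theorem El.kap_none {m m' : V → V → ℕ} {ρ : V → ℝ} {v : V} {B : Finset V}
    (E : El m m' v B) (hvB : v ∈ B) (S : Finset V) (h : ¬ (adm m B S).Nonempty) :
    kap m m' ρ v B S = ∅ := by
  by_cases hex : ∃ w ∈ B.erase v, m v w ≠ 0
  · obtain ⟨w, hw, hne⟩ := hex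
    have hk : kap m m' ρ v B S = ext v w (km m' ρ (B.erase v) (lb v w S)) := by
      unfold kap
      rw [if_neg (not_not.2 hvB), dif_pos ⟨w, hw, hne⟩]
      have hex : ∃ w ∈ B.erase v, m v w ≠ 0 := ⟨w, hw, hne⟩
      have hnone : ∀ w, w ∈ B.erase v → m v w ≠ 0 →
          ¬ (adm m' (B.erase v) (lb v w S)).Nonempty := by
        rintro w hw hne ⟨T, hT⟩
        exact h ⟨_, (E.mem_adm_hang hw hvB hne).2 ⟨T, hT, rfl⟩⟩
      rw [km_none (hnone _ hex.choose_spec.1 hex.choose_spec.2), km_none (hnone w hw hne)]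
      unfold ext; simp
    rw [hk, km_none]
    · unfold ext; simp
    · rintro ⟨T, hT⟩
      exact h ⟨_, (E.mem_adm_hang hw hvB hne).2 ⟨T, hT, rfl⟩⟩
  · have h0 : ∀ w ∈ B.erase v, m v w = 0 := fun w hw => by
      by_contra h'; exact hex ⟨w, hw, h'⟩
    rw [kap_iso hvB h0]
    by_cases hvS : v ∈ S
    · exfalso
      apply h
      refine ⟨{v}, mem_adm.2 ⟨?_, ?_⟩⟩
      · rw [E.iso h0]
        refine ⟨by simpa using hvB, ?_⟩
        have : ({v} : Finset V).erase v = ∅ := by simp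
        rw [this]; exact empty_mem_kf _ _
      · rw [inter_singleton_of_mem hvS]; simp
    · rw [if_neg hvS]
      refine km_none ?_
      rintro ⟨T, hT⟩
      obtain ⟨h1, h2⟩ := mem_adm.1 hT
      refine h ⟨T, mem_adm.2 ⟨?_, h2⟩⟩
      rw [E.iso h0]
      refine ⟨(kf_sub h1).trans (erase_subset _ _), ?_⟩
      rw [erase_eq_of_notMem (notMem_of_kf_erase h1)]; exact h1

/-- The face inequality of the instance `I` at the vertex `v` (with `ρ v = 0`), for the slack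
`s`. -/
def FaceR (I : Ins V) (m' : V → V → ℕ) (v : V) (ρ s : V → ℝ) : Prop :=
  ∀ h η : (V → ZMod 3) → ℝ,
    (∀ z, ∀ f ∈ I.Om, {v} ∈ kf I.m (bz I.A z f) → h (fz z {v} f) = h f) →
    (∀ w : (V → ZMod 3) → ℝ,
      (∀ z, ∀ f ∈ I.Om, {v} ∈ kf I.m (bz I.A z f) → w (fz z {v} f) = w f) →
        ∑ f ∈ I.Om, η f * w f = 0) →
    ∃ θ : ZMod 3 → (V → ZMod 3) → ℝ,
      (∀ z, ∀ f ∈ I.Om, {v} ∉ kf I.m (bz I.A z f) → θ z f = 0) ∧
      (∀ z, ∀ f ∈ I.Om, {v} ∈ kf I.m (bz I.A z f) → θ z (fz z {v} f) = - θ z f) ∧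
      (∀ f ∈ I.Om, ∑ z, θ z f = η f) ∧
      1 / 2 * ∑ f ∈ I.Om, ∑ z, (h f * op I.m I.A z (fun B S =>
          (∑ u ∈ kap I.m m' ρ v B S, s u) * lamk (kap I.m m' ρ v) ρ B S ^ 2) h f
            + s v * θ z f ^ 2) ≤
        ∑ f ∈ I.Om, (∑ z, op I.m I.A z (lamk (kap I.m m' ρ v) ρ) h f + η f) ^ 2

/-- the ray argument for an instance, direction `s` -/
theorem ray_I (I : Ins V) (hI : I.Ok) (m' : V → V → ℕ) (v : V)
    (hE : ∀ z, ∀ f ∈ I.Om, v ∈ bz I.A z f → El I.m m' v (bz I.A z f))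
    (ρ ρs s : V → ℝ) (τ : ℝ) (hτ : 0 < τ) (hρ : ∀ u, ρ u = ρs u + τ * s u)
    (hρpos : ∀ u ∈ I.A, 0 < ρ u) (hv : ρs v = 0) (hspos : ∀ u ∈ I.A, u ≠ v → 0 < ρs u)
    (face : FaceR I m' v ρs s) (g : (V → ZMod 3) → ℝ) :
    1 / 2 * ∑ f ∈ I.Om, ∑ z, g f * op I.m I.A z (cst I.m ρ s) g f ≤
      ∑ f ∈ I.Om, (∑ z, op I.m I.A z (lam I.m ρ) g f) ^ 2 := by
  have hρs0 : ∀ u ∈ I.A, 0 ≤ ρs u := by
    intro u hu
    by_cases h : u = v
    · rw [h, hv]
    · exact (hspos u hu h).le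
  refine ray_v (fun z => I.fs hI z) I.Om (fun _ => rfl) ρ ρs s τ hτ hρ v hv ?_ ?_
    (fun z f S => km I.m ρ (bz I.A z f) S) (fun z f S => kap I.m m' ρs v (bz I.A z f) S)
    ?_ ?_ ?_ ?_ ?_ ?_ ?_ g
  · intro z f _ T hT hne
    exact sum_pos (fun u hu => hρpos u (bz_sub (kf_sub hT hu))) (nonempty_iff_ne_empty.2 hne)
  · intro z f _ T hT hne hne'
    have hT' : T ⊆ I.A := (kf_sub hT).trans bz_sub
    have : ∃ u ∈ T, u ≠ v := by
      by_contra hcon
      push Not at hcon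
      apply hne'
      obtain ⟨x, hx⟩ := nonempty_iff_ne_empty.2 hne
      ext u
      rw [mem_singleton]
      constructor
      · exact hcon u
      · rintro rfl
        rwa [← hcon x hx]
    obtain ⟨u, hu, huv⟩ := this
    exact sum_pos' (fun x hx => hρs0 x (hT' hx)) ⟨u, hu, hspos u (hT' hu) huv⟩
  · intro z f _ S h
    exact km_hκ h
  · intro z f _ S h
    exact km_hκ0 h
  · intro z f _ T _ S
    show km I.m ρ (bz I.A z (fz z T f)) S = _
    rw [bz_fz]
  · intro z f hf S h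
    by_cases hvB : v ∈ bz I.A z f
    · obtain ⟨T, hT, ho⟩ := h
      have := (hE z f hf hvB).kap_spec (ρ := ρs) hvB hv (fun u hu => hρs0 u (bz_sub hu)) S
        ⟨T, mem_adm.2 ⟨hT, ho⟩⟩
      exact ⟨(mem_adm.1 this.1).1, (mem_adm.1 this.1).2,
        fun T' hT' ho' => this.2 T' (mem_adm.2 ⟨hT', ho'⟩)⟩
    · show kap I.m m' ρs v (bz I.A z f) S ∈ _ ∧ _
      rw [kap_out hvB]
      exact km_hκ h
  · intro z f hf S h
    show kap I.m m' ρs v (bz I.A z f) S = ∅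
    by_cases hvB : v ∈ bz I.A z f
    · refine (hE z f hf hvB).kap_none hvB S ?_
      rintro ⟨T, hT⟩
      exact h ⟨T, (mem_adm.1 hT).1, (mem_adm.1 hT).2⟩
    · rw [kap_out hvB]
      exact km_hκ0 h
  · intro z f _ T _ S
    show kap I.m m' ρs v (bz I.A z (fz z T f)) S = _
    rw [bz_fz]
  · intro h η h1 h2
    exact face h η h1 h2

end Pool.Agent.Nest
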