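import Pool.Agent.Lib.MP_26a019_lc.Nest.FaceP
import Pool.Agent.Lib.MP_26a019_lc.Nest.FaceGen
import Pool.Agent.Lib.MP_26a019_lc.Nest.InsFS

set_option autoImplicit false
set_option linter.unusedSectionVars false

/-!
# The chart inequality for the states after deletion of a vertex
-/

open Finset Classical

namespace Pool.Agent.Nest

variable {V : Type} [Fintype V] {X : Type}

/-- restriction of a flip system to a stable set of states -/
noncomputable def FS.restr (F : FS V X) (P : X → Prop)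
    (hP : ∀ f ∈ F.Om, ∀ T ∈ F.K f, P f → P (F.fl T f)) : FS V X where
  Om := F.Om.filter P
  K := F.K
  fl := F.fl
  emp f hf := F.emp f (mem_filter.1 hf).1
  sd f hf := F.sd f (mem_filter.1 hf).1
  fl_mem f hf T hT := mem_filter.2 ⟨F.fl_mem f (mem_filter.1 hf).1 T hT,
    hP f (mem_filter.1 hf).1 T hT (mem_filter.1 hf).2⟩
  K_fl f hf := F.K_fl f (mem_filter.1 hf).1
  fl_fl f hf := F.fl_fl f (mem_filter.1 hf).1
  fl_emp f hf := F.fl_emp f (mem_filter.1 hf).1

theorem FS.restr_Om (F : FS V X) (P : X → Prop)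
    (hP : ∀ f ∈ F.Om, ∀ T ∈ F.K f, P f → P (F.fl T f)) [DecidablePred P] :
    (F.restr P hP).Om = F.Om.filter P := by
  unfold FS.restr
  ext f
  simp only [mem_filter]

namespace FG

open FP (lin op_add_mul)

theorem zc5 {x y z : ZMod 3} (h1 : x ≠ z) (h2 : y ≠ z) : (-z - x = y ↔ ¬ x = y) := by
  revert x y z; decide

theorem zc6 {x y z : ZMod 3} : (-z - x = -z - y ↔ x = y) := by
  revert x y z; decide

theorem fz_ne_iff {z : ZMod 3} {T : Finset V} {f : V → ZMod 3} {w : V} :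
    fz z T f w ≠ z ↔ f w ≠ z := by
  unfold fz
  by_cases h : w ∈ T
  · rw [if_pos h, ne_eq, zm_flip]
  · rw [if_neg h]

theorem fz_eq_iff {z : ZMod 3} {T : Finset V} {f : V → ZMod 3} {w₁ w₂ : V} (h1 : f w₁ ≠ z)
    (h2 : f w₂ ≠ z) : (fz z T f w₁ = fz z T f w₂ ↔ (f w₁ = f w₂ ↔ (w₁ ∈ T ↔ w₂ ∈ T))) := by
  unfold fz
  by_cases a1 : w₁ ∈ T
  · by_cases a2 : w₂ ∈ T
    · simp only [a1, a2, if_true, iff_self, iff_true]
      exact zc6
    · simp only [a1, a2, if_true, if_false, iff_false, not_true_eq_false]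
      rw [zc5 h1 h2]
  · by_cases a2 : w₂ ∈ T
    · simp only [a1, a2, if_true, if_false, iff_true, iff_false]
      rw [eq_comm, zc5 h2 h1, eq_comm]
    · simp only [a1, a2, if_false, iff_true]

/-- **The chart inequality after deletion of a vertex**, for the colour `z`. -/
theorem chart20 {I : Ins V} (hI : I.Ok) {v w₁ w₂ : V} (h1 : w₁ ∈ I.A.erase v)
    (h2 : w₂ ∈ I.A.erase v) (ρ : V → ℝ) (hρ : ∀ u ∈ I.A, u ≠ v → 0 < ρ u) (z : ZMod 3)
    (g : (V → ZMod 3) → ℝ) :
    ∑ k ∈ (I.del v).Om.filter (fun k => k w₁ = k w₂ ∧ k w₁ ≠ z),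
        (g k * op (I.delB v w₁ w₂).m (I.A.erase v) z (lin (I.delB v w₁ w₂).m ρ w₁) g k
          + (op I.m (I.A.erase v) z (lam I.m ρ) g k
            - op (I.delB v w₁ w₂).m (I.A.erase v) z (lam (I.delB v w₁ w₂).m ρ) g k) ^ 2)
      ≤ 1 / 2 * ∑ k ∈ (I.del v).Om.filter (fun k => k w₁ ≠ z ∧ k w₂ ≠ z),
        g k * (op I.m (I.A.erase v) z (lin I.m ρ w₁) g k
          + op I.m (I.A.erase v) z (lin I.m ρ w₂) g k) := by
  have hl := m_delB I v w₁ w₂
  obtain ⟨F, hF⟩ : ∃ F : FS V (V → ZMod 3), F = ((I.del v).fs (ok_del hI v) z).restr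
    (fun k => k w₁ ≠ z ∧ k w₂ ≠ z) (fun f _ T _ h => ⟨fz_ne_iff.2 h.1, fz_ne_iff.2 h.2⟩) :=
    ⟨_, rfl⟩
  obtain ⟨F', hF'⟩ : ∃ F : FS V (V → ZMod 3), F = ((I.delB v w₁ w₂).fs (ok_delB hI v w₁ w₂)
    z).restr (fun k => k w₁ ≠ z) (fun f _ T _ h => fz_ne_iff.2 h) := ⟨_, rfl⟩
  have eOm : F.Om = (I.del v).Om.filter (fun k => k w₁ ≠ z ∧ k w₂ ≠ z) := by
    rw [hF]; exact FS.restr_Om _ _ _
  have eOm' : F'.Om = (I.del v).Om.filter (fun k => k w₁ = k w₂ ∧ k w₁ ≠ z) := by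
    have : F'.Om = (I.delB v w₁ w₂).Om.filter (fun k => k w₁ ≠ z) := by
      rw [hF']; exact FS.restr_Om _ _ _
    rw [this, om_delB I h1 h2, filter_filter]
  have eK : ∀ f, F.K f = kf I.m (bz (I.A.erase v) z f) := by
    intro f; rw [hF]; rfl
  have eK' : ∀ f, F'.K f = kf (I.delB v w₁ w₂).m (bz (I.A.erase v) z f) := by
    intro f; rw [hF']; rfl
  have efl : ∀ T f, F.fl T f = fz z T f := by
    intro T f; rw [hF]; rfl
  have hw : ∀ f ∈ F'.Om, w₁ ∈ bz (I.A.erase v) z f ∧ w₂ ∈ bz (I.A.erase v) z f := by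
    intro f hf
    rw [eOm', mem_filter] at hf
    refine ⟨mem_bz.2 ⟨h1, hf.2.2⟩, mem_bz.2 ⟨h2, ?_⟩⟩
    rw [← hf.2.1]
    exact hf.2.2
  have key := chartA F F' (by
      intro f hf
      rw [eOm', mem_filter] at hf
      rw [eOm, mem_filter]
      refine ⟨hf.1, hf.2.2, ?_⟩
      rw [← hf.2.1]
      exact hf.2.2) (by rw [hF, hF']; rfl) w₁ w₂ (by
      intro f hf T hT
      have hfl := F.fl_mem f hf T hT
      rw [eOm', mem_filter, mem_filter]
      rw [eOm, mem_filter] at hf hfl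
      rw [efl] at hfl ⊢
      have e1 := fz_eq_iff (T := T) hf.2.1 hf.2.2
      constructor
      · rintro ⟨a, b, c⟩
        have := e1.1 b
        constructor
        · rintro ⟨a', b', c'⟩
          exact this.1 b'
        · intro hh
          exact ⟨hf.1, this.2 hh, hf.2.1⟩
      · intro hh
        refine ⟨hfl.1, e1.2 ?_, hfl.2.1⟩
        constructor
        · intro b'
          exact hh.1 ⟨hf.1, b', hf.2.1⟩
        · intro b'
          exact (hh.2 b').2.1) (by
      intro f hf hc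
      obtain ⟨T, hT, hc⟩ := hc
      rw [eK] at hT
      rw [eK, eK']
      exact kf_link_sep hI.gm hl (hw f hf).1 (hw f hf).2 hT hc) (by
      intro f hf hc
      rw [eK] at hc
      rw [eK, eK']
      refine kf_link_nsep hI.gm hl (hw f hf).1 (hw f hf).2 fun T hT => ?_
      by_contra h
      exact hc ⟨T, hT, h⟩) (by
      intro f _ T hT T' hT'
      rw [eK] at *
      exact inter_mem_kf hT hT') (by
      intro f _ T hT T' hT'
      rw [eK] at *
      exact sdiff_mem_kf hI.gm hT hT') ρ (by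
      intro f _ T hT x hx
      rw [eK] at hT
      have := (mem_erase.1 (mem_bz.1 (kf_sub hT hx)).1)
      exact hρ x this.2 this.1) g
  rw [eOm, eOm'] at key
  refine le_trans (le_of_eq ?_) (key.trans (le_of_eq ?_))
  · refine sum_congr rfl fun k _ => ?_
    rw [hF, hF']
    rfl
  · congr 1
    refine sum_congr rfl fun k _ => ?_
    congr 1
    rw [← op_add_mul]
    have : ∀ S, ((if w₁ ∈ kmF ρ (F.K k) S then (1 : ℝ) else 0)
        + (if w₂ ∈ kmF ρ (F.K k) S then 1 else 0)) * lamF ρ (F.K k) S ^ 2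
        = lin I.m ρ w₁ (bz (I.A.erase v) z k) S + lin I.m ρ w₂ (bz (I.A.erase v) z k) S := by
      intro S
      rw [eK, add_mul]
      rfl
    unfold FS.op
    simp only [this]
    rw [hF]
    rfl

end FG

end Pool.Agent.Nest
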