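import Pool.Agent.Lib.MP_26a019_lc.Nest.InsFS

set_option autoImplicit false

/-!
# The face inequality at a vertex with one equality edge (exact elimination)

`(0,1)`: `v` has one equality edge (to `w`) and no inequality edge.
`(1,1)`: `v` has one equality edge (to `w`) and one inequality edge (to `x`); after deletion of `v`
an inequality edge between `x` and `w` is added.
-/

open Finset Classical

namespace Pool.Agent.Nest

variable {V : Type} [Fintype V]

set_option linter.unusedSectionVars false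

namespace EqC

theorem km_congr_kf {m m' : V → V → ℕ} {ρ : V → ℝ} {B B' S : Finset V}
    (h : kf m B = kf m' B') : km m ρ B S = km m' ρ B' S := by
  rw [km_eq_kmF, km_eq_kmF, h]

/-- `kap` in the hanging case, in the coordinates of the smaller instance -/
theorem kap_lb {m m' : V → V → ℕ} {ρ : V → ℝ} {v w : V} {B : Finset V} (E : El m m' v B)
    (hw : w ∈ B.erase v) (hvB : v ∈ B) (hne : m v w ≠ 0) (S : Finset V) :
    kap m m' ρ v B (lb v w S) = ext v w (km m' ρ (B.erase v) S) := by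
  obtain ⟨w', hw', hne', e⟩ := E.kap_hang (ρ := ρ) hw hvB hne (lb v w S)
  rw [e]
  congr 1
  rw [km_eq_kmF, km_eq_kmF]
  refine kmF_congr ρ fun T hT => ?_
  have hvT := notMem_of_kf_erase hT
  have hvw : v ≠ w := (mem_erase.1 hw).1.symm
  rw [← chi_ext hvT, ← E.ext_eq hw hvB hne hw' hne' hT, chi_ext hvT, lb_invol hvw]

/-- abstract form of the two exact eliminations -/
theorem face_exact (I I' : Ins V) (hI : I.Ok) (m' : V → V → ℕ) (hm' : I'.m = m') (v w : V)
    (hA : I'.A = I.A.erase v) (hv : v ∈ I.A) (hw : w ∈ I.A.erase v) (hb : I.m v w ≠ 0)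
    (hE : ∀ z, ∀ f ∈ I.Om, v ∈ bz I.A z f → El I.m m' v (bz I.A z f))
    (hOm : ∀ F : (V → ZMod 3) → ℝ,
      ∑ f ∈ I.Om, F f = ∑ h ∈ I'.Om, F (Function.update h v (h w)))
    (hmem : ∀ h ∈ I'.Om, Function.update h v (h w) ∈ I.Om ∧ h v = 0)
    (hkf : ∀ z, ∀ h ∈ I'.Om, h w = z → kf I.m (bz (I.A.erase v) z h)
      = kf m' (bz (I.A.erase v) z h))
    (hs : ∀ u ∈ I.A.erase v, I.s u = I'.s u - if u = w then I.s v else 0)
    (ρ : V → ℝ) (hρv : ρ v = 0) (hQ : ∀ g, 0 ≤ Q3 I' ρ g) : FaceR I m' v ρ I.s := by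
  have hwv : w ≠ v := (mem_erase.1 hw).1
  intro h η _ horth
  have hnot : ∀ z, ∀ h' ∈ I'.Om,
      {v} ∉ kf I.m (bz I.A z (Function.update h' v (h' w))) := by
    intro z h' _ hc
    obtain ⟨h1, -, h3⟩ := single_mem_kf.1 hc
    refine hb (h3 w (mem_erase.2 ⟨hwv, ?_⟩))
    rw [mem_bz] at h1 ⊢
    refine ⟨(mem_erase.1 hw).2, ?_⟩
    have := h1.2
    simpa [Function.update_of_ne hwv] using this
  -- every state of `I` is an update
  have hsurj : ∀ f ∈ I.Om, ∃ h' ∈ I'.Om, Function.update h' v (h' w) = f := by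
    intro f hf
    by_contra hcon
    push Not at hcon
    have := hOm (fun x => if x = f then 1 else 0)
    rw [sum_ite_eq' I.Om f, if_pos hf] at this
    rw [sum_eq_zero (fun h' hh' => if_neg (hcon h' hh'))] at this
    exact one_ne_zero this
  have hnot' : ∀ z, ∀ f ∈ I.Om, {v} ∉ kf I.m (bz I.A z f) := by
    intro z f hf
    obtain ⟨h', hh', rfl⟩ := hsurj f hf
    exact hnot z h' hh'
  have hη : ∀ f ∈ I.Om, η f = 0 := by
    have h0 := horth η (fun z f hf hc => absurd hc (hnot' z f hf))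
    have h1 := (sum_eq_zero_iff_of_nonneg (fun f _ => mul_self_nonneg (η f))).1 h0
    intro f hf
    exact mul_self_eq_zero.1 (h1 f hf)
  refine ⟨fun _ _ => 0, fun _ _ _ _ => rfl, fun _ _ _ _ => by simp, fun f hf => ?_, ?_⟩
  · rw [hη f hf]; simp
  set h0 : (V → ZMod 3) → ℝ := fun f => h (Function.update f v (f w)) with hh0
  -- transport of an operator
  have hrs : ∀ h' ∈ I'.Om, rs v (Function.update h' v (h' w)) = h' := by
    intro h' hh'
    rw [rs_update, rs_of_dead (hmem h' hh').2]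
  have hh : ∀ f ∈ I.Om, h f = h0 (rs v f) := by
    intro f hf
    obtain ⟨h', hh', rfl⟩ := hsurj f hf
    rw [hrs h' hh']
  have hins : ∀ z, ∀ h' ∈ I'.Om, h' w ≠ z →
      bz I.A z (Function.update h' v (h' w)) = insert v (bz (I.A.erase v) z h') := by
    intro z h' hh' hz
    have hfz : (Function.update h' v (h' w)) v ≠ z := by simpa using hz
    rw [bz_rs_ne hv hfz, hrs h' hh']
  have hvB' : ∀ z, ∀ h' : V → ZMod 3, v ∉ bz (I.A.erase v) z h' := by
    intro z h' hc
    exact (mem_erase.1 (mem_bz.1 hc).1).1 rfl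
  have hop : ∀ (μ μ' : Finset V → Finset V → ℝ) (z : ZMod 3) (h' : V → ZMod 3), h' ∈ I'.Om →
      (h' w = z → ∀ S, μ (bz (I.A.erase v) z h') S = μ' (bz (I.A.erase v) z h') S) →
      (h' w ≠ z → ∀ S, μ (insert v (bz (I.A.erase v) z h')) (lb v w S)
        = μ' (bz (I.A.erase v) z h') S) →
      op I.m I.A z μ h (Function.update h' v (h' w)) = op m' (I.A.erase v) z μ' h0 h' := by
    intro μ μ' z h' hh' h1 h2
    set f := Function.update h' v (h' w) with hf
    have hfO : f ∈ I.Om := (hmem h' hh').1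
    have hfv : f v = h' w := by rw [hf]; simp
    have hrsf : rs v f = h' := hrs h' hh'
    unfold op
    by_cases hz : h' w = z
    · have hvB : v ∉ bz I.A z f := by
        rw [mem_bz]; rintro ⟨-, h3⟩; exact h3 (hfv.trans hz)
      have e : bz (I.A.erase v) z h' = bz I.A z f := by
        rw [← hrsf]; exact bz_rs_eq (hfv.trans hz)
      have hk : kf m' (bz (I.A.erase v) z h') = kf I.m (bz I.A z f) := by
        rw [← hkf z h' hh' hz, e]
      rw [hk]
      unfold cv
      congr 1
      refine sum_congr rfl fun S _ => ?_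
      rw [← h1 hz S, e]
      congr 1
      refine sum_congr rfl fun T hT => ?_
      show chi S T * h (fz z T f) = chi S T * h0 (fz z T h')
      have hvT : v ∉ T := fun h' => hvB (kf_sub hT h')
      rw [hh _ (fz_mem hI hfO hT), rs_fz_of_not_mem hvT, hrsf]
    · have eB : bz I.A z f = insert v (bz (I.A.erase v) z h') := hins z h' hh' hz
      have hvB : v ∈ bz I.A z f := by rw [eB]; exact mem_insert_self _ _
      have eB' : (bz I.A z f).erase v = bz (I.A.erase v) z h' := by
        rw [eB, erase_insert (hvB' z h')]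
      have hwB : w ∈ (bz I.A z f).erase v := by
        rw [eB', mem_bz]; exact ⟨hw, hz⟩
      have E := hE z f hfO hvB
      rw [E.cv_hang hwB hvB hb, eB']
      unfold cv
      congr 1
      refine sum_congr rfl fun S _ => ?_
      rw [← h2 hz S, ← eB]
      congr 1
      refine sum_congr rfl fun T hT => ?_
      show chi S T * h (fz z (ext v w T) f) = chi S T * h0 (fz z T h')
      have hvT : v ∉ T := fun hc => hvB' z h' (kf_sub hT hc)
      have hT' : ext v w T ∈ kf I.m (bz I.A z f) := by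
        refine E.ext_mem hwB hvB hb ?_
        rw [eB']; exact hT
      rw [hh _ (fz_mem hI hfO hT'), rs_fz_ext hvT, hrsf]
  -- the choices
  have kap1 : ∀ z, ∀ h' ∈ I'.Om, h' w = z → ∀ S,
      kap I.m m' ρ v (bz (I.A.erase v) z h') S = km m' ρ (bz (I.A.erase v) z h') S := by
    intro z h' hh' hz S
    rw [kap_out (hvB' z h'), km_congr_kf (hkf z h' hh' hz)]
  have kap2 : ∀ z, ∀ h' ∈ I'.Om, h' w ≠ z → ∀ S,
      kap I.m m' ρ v (insert v (bz (I.A.erase v) z h')) (lb v w S)
        = ext v w (km m' ρ (bz (I.A.erase v) z h') S) := by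
    intro z h' hh' hz S
    have eB := hins z h' hh' hz
    have hvB : v ∈ bz I.A z (Function.update h' v (h' w)) := by
      rw [eB]; exact mem_insert_self _ _
    have eB' : (bz I.A z (Function.update h' v (h' w))).erase v
        = bz (I.A.erase v) z h' := by
      rw [eB, erase_insert (hvB' z h')]
    have hwB : w ∈ (bz I.A z (Function.update h' v (h' w))).erase v := by
      rw [eB', mem_bz]; exact ⟨hw, hz⟩
    have E := hE z _ (hmem h' hh').1 hvB
    have := kap_lb (ρ := ρ) E hwB hvB hb S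
    rwa [eB', eB] at this
  have hlam : ∀ z, ∀ h' ∈ I'.Om,
      op I.m I.A z (lamk (kap I.m m' ρ v) ρ) h (Function.update h' v (h' w))
        = op m' (I.A.erase v) z (lam m' ρ) h0 h' := by
    intro z h' hh'
    refine hop _ _ z h' hh' (fun hz S => ?_) (fun hz S => ?_)
    · unfold lamk lam rr
      rw [kap1 z h' hh' hz S]
    · unfold lamk lam rr
      rw [kap2 z h' hh' hz S, sum_ext_zero _ hρv]
      exact fun hc => hvB' z h' (kf_sub (km_mem_kf _ _ _ _) hc)
  have hcst : ∀ z, ∀ h' ∈ I'.Om,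
      op I.m I.A z (fun B S => (∑ u ∈ kap I.m m' ρ v B S, I.s u)
          * lamk (kap I.m m' ρ v) ρ B S ^ 2) h (Function.update h' v (h' w))
        = op m' (I.A.erase v) z (cst m' ρ I'.s) h0 h' := by
    intro z h' hh'
    have hsub : ∀ S, km m' ρ (bz (I.A.erase v) z h') S ⊆ I.A.erase v := fun S =>
      (kf_sub (km_mem_kf _ _ _ _)).trans bz_sub
    refine hop _ _ z h' hh' (fun hz S => ?_) (fun hz S => ?_)
    · unfold lamk cst lam rr
      simp only [kap1 z h' hh' hz S]
      congr 1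
      refine sum_congr rfl fun u hu => ?_
      rw [hs u (hsub S hu), if_neg, sub_zero]
      rintro rfl
      exact (mem_bz.1 (kf_sub (km_mem_kf _ _ _ _) hu)).2 hz
    · unfold lamk cst lam rr
      have hvK : v ∉ km m' ρ (bz (I.A.erase v) z h') S :=
        fun hc => hvB' z h' (kf_sub (km_mem_kf _ _ _ _) hc)
      simp only [kap2 z h' hh' hz S]
      rw [sum_ext_zero hvK hρv, sum_ext hvK]
      congr 1
      rw [sum_congr rfl fun u hu => hs u (hsub S hu), sum_sub_distrib, sum_ite_eq']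
      ring
  have hmain := hQ h0
  unfold Q3 at hmain
  rw [hm', hA] at hmain
  have e1 : 1 / 2 * ∑ f ∈ I.Om, ∑ z, (h f * op I.m I.A z (fun B S =>
          (∑ u ∈ kap I.m m' ρ v B S, I.s u) * lamk (kap I.m m' ρ v) ρ B S ^ 2) h f
            + I.s v * (fun _ _ => (0:ℝ)) z f ^ 2)
      = ∑ h' ∈ I'.Om, 1 / 2 * ∑ z, h0 h' * op m' (I.A.erase v) z (cst m' ρ I'.s) h0 h' := by
    rw [hOm, mul_sum]
    refine sum_congr rfl fun h' hh' => ?_
    congr 1
    refine sum_congr rfl fun z _ => ?_
    rw [hcst z h' hh', hh _ (hmem h' hh').1, hrs h' hh']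
    ring
  have e2 : ∑ f ∈ I.Om, (∑ z, op I.m I.A z (lamk (kap I.m m' ρ v) ρ) h f + η f) ^ 2
      = ∑ h' ∈ I'.Om, (∑ z, op m' (I.A.erase v) z (lam m' ρ) h0 h') ^ 2 := by
    rw [hOm]
    refine sum_congr rfl fun h' hh' => ?_
    rw [hη _ (hmem h' hh').1, add_zero, sum_congr rfl fun z _ => hlam z h' hh']
  rw [e2]
  refine le_trans (le_of_eq e1) ?_
  rw [sum_sub_distrib] at hmain
  linarith

/-- nothing to prove if there is no state -/
theorem face_empty {I : Ins V} (hO : I.Om = ∅) (m' : V → V → ℕ) (v : V) (ρ s : V → ℝ) :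
    FaceR I m' v ρ s := by
  intro h η _ _
  refine ⟨fun _ _ => 0, ?_, ?_, ?_, ?_⟩ <;> simp [hO]

theorem s_del (I : Ins V) {v : V} (hv : v ∈ I.A) (u : V) :
    I.s u = (I.del v).s u - I.a u v - 3 / 2 * I.b u v := by
  unfold Ins.s Ins.del
  simp only
  rw [← add_sum_erase I.A (fun w => (I.a u w : ℝ)) hv,
    ← add_sum_erase I.A (fun w => (I.b u w : ℝ)) hv]
  ring

theorem sum_link {A : Finset V} {w₁ w₂ : V} (h1 : w₁ ∈ A) (h2 : w₂ ∈ A) (u : V) :
    ∑ y ∈ A, (link w₁ w₂ u y : ℝ) = (if u = w₁ then 1 else 0) + (if u = w₂ then 1 else 0) := by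
  unfold link
  push_cast
  rw [sum_add_distrib]
  congr 1
  · by_cases h : u = w₁
    · subst h
      simp only [true_and, if_true]
      rw [sum_ite_eq' A w₂ (fun _ => (1 : ℝ)), if_pos h2]
    · simp [h]
  · by_cases h : u = w₂
    · subst h
      simp only [true_and, if_true]
      rw [sum_ite_eq' A w₁ (fun _ => (1 : ℝ)), if_pos h1]
    · simp [h]

theorem dead_of_del {I : Ins V} {v : V} {h : V → ZMod 3} (hh : h ∈ (I.del v).Om) : h v = 0 := by
  rw [mem_om] at hh
  exact hh.1 v (by simp [Ins.del])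

/-- one equality edge and nothing else -/
theorem face_01' (I : Ins V) (hI : I.Ok) {v w : V} (hv : v ∈ I.A) (hw : w ∈ I.A.erase v)
    (ha : ∀ u ∈ I.A, I.a v u = 0) (hb : ∀ u ∈ I.A, I.b v u = if u = w then 1 else 0)
    (ρ : V → ℝ) (hρv : ρ v = 0) (hQ : ∀ g, 0 ≤ Q3 (I.del v) ρ g) : FaceR I I.m v ρ I.s := by
  have hwv : w ≠ v := (mem_erase.1 hw).1
  have hwA : w ∈ I.A := (mem_erase.1 hw).2
  have hm : ∀ u ∈ I.A, I.m v u = if u = w then 1 else 0 := by
    intro u hu
    unfold Ins.m
    rw [ha u hu, hb u hu, zero_add]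
  have hav : ∀ h, av I v h = {h w} := by
    intro h
    ext c
    rw [mem_av, mem_singleton]
    constructor
    · intro hc
      refine (hc w hw).2 ?_
      rw [hb w hwA]; simp
    · rintro rfl u hu
      refine ⟨fun h' => absurd (ha u (mem_erase.1 hu).2) h', fun h' => ?_⟩
      have : u = w := by
        by_contra hne
        rw [hb u (mem_erase.1 hu).2, if_neg hne] at h'
        exact h' rfl
      rw [this]
  refine face_exact I (I.del v) hI I.m rfl v w rfl hv hw ?_ ?_ ?_ ?_ ?_ ?_ ρ hρv hQ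
  · rw [hm w hwA]; simp
  · intro z f _ hvB
    exact El.one hI.gm hvB hwv.symm (fun u hu => hm u (bz_sub hu)) rfl
  · intro F
    rw [sum_fib I hI v hv]
    refine sum_congr rfl fun h _ => ?_
    rw [hav h, sum_singleton]
  · intro h hh
    refine ⟨(mem_om_iff I hI v hv h (h w) (dead_of_del hh)).2 ⟨hh, ?_⟩, dead_of_del hh⟩
    rw [hav h]; exact mem_singleton_self _
  · intro z h _ _; rfl
  · intro u hu
    have hu' := (mem_erase.1 hu).2
    have hsv : I.s v = 3 / 2 := by
      unfold Ins.s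
      rw [sum_eq_zero (fun u hu => by rw [ha u hu]; simp),
        sum_congr rfl (fun u hu => by rw [hb u hu])]
      push_cast
      rw [sum_ite_eq' I.A w (fun _ => (1 : ℝ)), if_pos hwA]
      norm_num
    rw [s_del I hv u, hsv, hI.asym u v, hI.bsym u v, ha u hu', hb u hu']
    by_cases h : u = w
    · simp [h]
    · simp [h]

/-- one equality edge (to `w`) and one inequality edge (to `x`) -/
theorem face_11' (I : Ins V) (hI : I.Ok) {v w x : V} (hv : v ∈ I.A) (hw : w ∈ I.A.erase v)
    (hx : x ∈ I.A.erase v) (ha : ∀ u ∈ I.A, I.a v u = if u = x then 1 else 0)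
    (hb : ∀ u ∈ I.A, I.b v u = if u = w then 1 else 0)
    (ρ : V → ℝ) (hρv : ρ v = 0) (hQ : x ≠ w → ∀ g, 0 ≤ Q3 (I.delA v x w) ρ g) :
    FaceR I (I.delA v x w).m v ρ I.s := by
  have hwv : w ≠ v := (mem_erase.1 hw).1
  have hwA : w ∈ I.A := (mem_erase.1 hw).2
  have hxv : x ≠ v := (mem_erase.1 hx).1
  have hxA : x ∈ I.A := (mem_erase.1 hx).2
  by_cases hxw : x = w
  · refine face_empty ?_ _ _ _ _
    rw [eq_empty_iff_forall_notMem]
    intro f hf
    have h1 := (mem_om.1 hf).2 v hv w hwA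
    exact h1.1 (by rw [ha w hwA, hxw]; simp) (h1.2 (by rw [hb w hwA]; simp))
  have hm : ∀ u ∈ I.A, I.m v u = (if u = x then 1 else 0) + (if u = w then 1 else 0) := by
    intro u hu
    unfold Ins.m
    rw [ha u hu, hb u hu]
  have hm' : ∀ u y, (I.delA v x w).m u y = I.m u y + link x w u y := by
    intro u y
    show I.a u y + link x w u y + I.b u y = I.a u y + I.b u y + link x w u y
    ring
  have hav : ∀ h, av I v h = if h x ≠ h w then {h w} else ∅ := by
    intro h
    ext c
    rw [mem_av]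
    constructor
    · intro hc
      have h1 : c = h w := (hc w hw).2 (by rw [hb w hwA]; simp)
      have h2 : c ≠ h x := (hc x hx).1 (by rw [ha x hxA]; simp)
      rw [if_pos (fun h' => h2 (h1.trans h'.symm)), mem_singleton]
      exact h1
    · intro hc
      by_cases hne : h x ≠ h w
      · rw [if_pos hne, mem_singleton] at hc
        subst hc
        intro u hu
        have hu' := (mem_erase.1 hu).2
        refine ⟨fun h' => ?_, fun h' => ?_⟩
        · have : u = x := by
            by_contra hn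
            rw [ha u hu', if_neg hn] at h'
            exact h' rfl
          rw [this]; exact hne.symm
        · have : u = w := by
            by_contra hn
            rw [hb u hu', if_neg hn] at h'
            exact h' rfl
          rw [this]
      · rw [if_neg hne] at hc
        exact absurd hc (notMem_empty c)
  -- the states of the smaller instance
  have hOm' : (I.delA v x w).Om = (I.del v).Om.filter (fun h => h x ≠ h w) := by
    ext h
    rw [mem_filter, mem_om, mem_om]
    show ((∀ u, u ∉ I.A.erase v → h u = 0) ∧ ∀ u ∈ I.A.erase v, ∀ y ∈ I.A.erase v,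
      (I.a u y + link x w u y ≠ 0 → h u ≠ h y) ∧ (I.b u y ≠ 0 → h u = h y)) ↔
      ((∀ u, u ∉ I.A.erase v → h u = 0) ∧ ∀ u ∈ I.A.erase v, ∀ y ∈ I.A.erase v,
      (I.a u y ≠ 0 → h u ≠ h y) ∧ (I.b u y ≠ 0 → h u = h y)) ∧ h x ≠ h w
    constructor
    · rintro ⟨h1, h2⟩
      refine ⟨⟨h1, fun u hu y hy => ⟨fun h' => (h2 u hu y hy).1 (by omega),
        (h2 u hu y hy).2⟩⟩, (h2 x hx w hw).1 ?_⟩
      have : link x w x w ≠ 0 := by unfold link; simp
      omega
    · rintro ⟨⟨h1, h2⟩, h3⟩
      refine ⟨h1, fun u hu y hy => ⟨fun h' => ?_, (h2 u hu y hy).2⟩⟩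
      by_cases h4 : I.a u y = 0
      · have h5 : link x w u y ≠ 0 := by omega
        unfold link at h5
        by_cases e1 : u = x ∧ y = w
        · rw [e1.1, e1.2]; exact h3
        by_cases e2 : u = w ∧ y = x
        · rw [e2.1, e2.2]; exact h3.symm
        · exfalso; simp [e1, e2] at h5
      · exact (h2 u hu y hy).1 h4
  refine face_exact I (I.delA v x w) hI _ rfl v w rfl hv hw ?_ ?_ ?_ ?_ ?_ ?_ ρ hρv (hQ hxw)
  · rw [hm w hwA]; simp
  · intro z f _ hvB
    exact El.two hI.gm hm' hvB hxv.symm hwv.symm (fun u hu => hm u (bz_sub hu))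
  · intro F
    rw [sum_fib I hI v hv, hOm', sum_filter]
    refine sum_congr rfl fun h _ => ?_
    rw [hav h]
    by_cases hne : h x ≠ h w
    · rw [if_pos hne, if_pos hne, sum_singleton]
    · rw [if_neg hne, if_neg hne, sum_empty]
  · intro h hh
    rw [hOm', mem_filter] at hh
    refine ⟨(mem_om_iff I hI v hv h (h w) (dead_of_del hh.1)).2 ⟨hh.1, ?_⟩, dead_of_del hh.1⟩
    rw [hav h, if_pos hh.2]; exact mem_singleton_self _
  · intro z h _ hz
    refine (kf_link_out hm' ?_).symm
    rintro ⟨-, h'⟩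
    exact (mem_bz.1 h').2 hz
  · intro u hu
    have hu' := (mem_erase.1 hu).2
    have hsv : I.s v = 1 / 2 := by
      have ea : ∑ u ∈ I.A, (I.a v u : ℝ) = 1 := by
        have : ∑ u ∈ I.A, (I.a v u : ℝ) = ∑ u ∈ I.A, (if u = x then (1 : ℝ) else 0) :=
          sum_congr rfl fun u hu => by rw [ha u hu]; push_cast; rfl
        rw [this, sum_ite_eq' I.A x (fun _ => (1 : ℝ)), if_pos hxA]
      have eb : ∑ u ∈ I.A, (I.b v u : ℝ) = 1 := by
        have : ∑ u ∈ I.A, (I.b v u : ℝ) = ∑ u ∈ I.A, (if u = w then (1 : ℝ) else 0) :=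
          sum_congr rfl fun u hu => by rw [hb u hu]; push_cast; rfl
        rw [this, sum_ite_eq' I.A w (fun _ => (1 : ℝ)), if_pos hwA]
      unfold Ins.s
      rw [ea, eb]
      norm_num
    have hs' : (I.delA v x w).s u = (I.del v).s u
        - ((if u = x then 1 else 0) + (if u = w then 1 else 0)) := by
      rw [← sum_link hx hw u]
      unfold Ins.s Ins.delA Ins.del
      simp only
      push_cast
      rw [sum_add_distrib]
      ring
    rw [s_del I hv u, hs', hsv, hI.asym u v, hI.bsym u v, ha u hu', hb u hu']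
    by_cases h1 : u = x
    · have h2 : u ≠ w := by rw [h1]; exact hxw
      simp [h1, hxw]
    · by_cases h2 : u = w
      · simp [h2, Ne.symm hxw]; ring
      · simp [h1, h2]

end EqC

/-- **The face inequality at a vertex with one equality edge and no inequality edge.** -/
theorem face_01 (I : Ins V) (hI : I.Ok) {v w : V} (hv : v ∈ I.A) (hw : w ∈ I.A.erase v)
    (ρ : V → ℝ) (hρv : ρ v = 0) (_hρ : ∀ u ∈ I.A.erase v, 0 < ρ u)
    (ha : ∀ u ∈ I.A, I.a v u = 0) (hb : ∀ u ∈ I.A, I.b v u = if u = w then 1 else 0)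
    (IH : ∀ g, 0 ≤ Q3 (I.del v) ρ g) : FaceR I I.m v ρ I.s :=
  EqC.face_01' I hI hv hw ha hb ρ hρv IH

/-- **The face inequality at a vertex with one equality edge (to `w₁`) and one inequality edge
(to `w₂`).** -/
theorem face_11 (I : Ins V) (hI : I.Ok) {v w₁ w₂ : V} (hv : v ∈ I.A) (hw₁ : w₁ ∈ I.A.erase v)
    (hw₂ : w₂ ∈ I.A.erase v) (hne : w₁ ≠ w₂)
    (ρ : V → ℝ) (hρv : ρ v = 0) (_hρ : ∀ u ∈ I.A.erase v, 0 < ρ u)
    (ha : ∀ u ∈ I.A, I.a v u = if u = w₂ then 1 else 0)
    (hb : ∀ u ∈ I.A, I.b v u = if u = w₁ then 1 else 0)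
    (IH : ∀ g, 0 ≤ Q3 (I.delA v w₁ w₂) ρ g) : FaceR I (I.delA v w₁ w₂).m v ρ I.s := by
  have hlink : ∀ u y : V, link w₁ w₂ u y = link w₂ w₁ u y := by
    intro u y
    unfold link
    exact Nat.add_comm _ _
  have e : I.delA v w₁ w₂ = I.delA v w₂ w₁ := by
    unfold Ins.delA
    simp only [hlink]
  rw [e] at IH ⊢
  exact EqC.face_11' I hI hv hw₁ hw₂ ha hb ρ hρv (fun _ => IH)

end Pool.Agent.Nest
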