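import Pool.Agent.Lib.MP_26a019_lc.Nest.FaceZero

set_option autoImplicit false

/-!
The face inequality at a leaf.
-/

open Finset Classical

namespace Pool.Agent.Nest.F42

variable {V : Type} [Fintype V]

set_option linter.unusedSectionVars false

theorem sum_zm_at (F : ZMod 3 → ℝ) (x : ZMod 3) :
    ∑ z : ZMod 3, F z = F x + F (x + 1) + F (x + 2) := by
  rw [sum_zm]
  have a1 : (0 : ZMod 3) + 1 = 1 := by decide
  have a2 : (0 : ZMod 3) + 2 = 2 := by decide
  have a3 : (1 : ZMod 3) + 1 = 2 := by decide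
  have a4 : (1 : ZMod 3) + 2 = 0 := by decide
  have a5 : (2 : ZMod 3) + 1 = 0 := by decide
  have a6 : (2 : ZMod 3) + 2 = 1 := by decide
  rcases zm_cases x with rfl | rfl | rfl
  · rw [a1, a2]
  · rw [a3, a4]; ring
  · rw [a5, a6]; ring

theorem sum_zm_ne (F : ZMod 3 → ℝ) (x : ZMod 3) :
    ∑ z ∈ (univ : Finset (ZMod 3)).filter (fun c => c ≠ x), F z = F (x + 1) + F (x + 2) := by
  have h := sum_filter_add_sum_filter_not (univ : Finset (ZMod 3)) (fun c => c = x) F
  rw [sum_zm_at F x] at h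
  have h2 : (univ : Finset (ZMod 3)).filter (fun c => c = x) = {x} := by
    ext c; simp
  rw [h2, sum_singleton] at h
  simp only [ne_eq]
  linarith

theorem op_add_mul (m : V → V → ℕ) (A : Finset V) (z : ZMod 3) (μ ν : Finset V → Finset V → ℝ)
    (g : (V → ZMod 3) → ℝ) (f : V → ZMod 3) :
    op m A z μ g f + op m A z ν g f = op m A z (fun B S => μ B S + ν B S) g f := by
  unfold op cv
  rw [← add_div, ← sum_add_distrib]
  congr 1
  refine sum_congr rfl fun S _ => ?_
  ring

theorem op_mul_mul (m : V → V → ℕ) (A : Finset V) (z : ZMod 3) (μ : Finset V → Finset V → ℝ)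
    (c : ℝ) (g : (V → ZMod 3) → ℝ) (f : V → ZMod 3) :
    c * op m A z μ g f = op m A z (fun B S => c * μ B S) g f := by
  unfold op cv
  rw [← mul_div_assoc, mul_sum]
  congr 1
  refine sum_congr rfl fun S _ => ?_
  ring

theorem del_s_one (I : Ins V) (hI : I.Ok) (v w : V) (hvA : v ∈ I.A)
    (ha : ∀ u ∈ I.A, I.a v u = if u = w then 1 else 0)
    (hb : ∀ u ∈ I.A, I.b v u = 0) :
    ∀ u ∈ I.A.erase v, (I.del v).s u = I.s u + if u = w then 1 else 0 := by
  intro u hu
  have huA := (mem_erase.1 hu).2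
  unfold Ins.s Ins.del
  rw [← add_sum_erase I.A (fun w => (I.a u w : ℝ)) hvA,
    ← add_sum_erase I.A (fun w => (I.b u w : ℝ)) hvA]
  rw [hI.asym u v, hI.bsym u v, ha u huA, hb u huA]
  split_ifs
  · push_cast; ring
  · push_cast; ring

theorem face10 (I : Ins V) (hI : I.Ok) (v w : V) (hvA : v ∈ I.A) (hw : w ∈ I.A.erase v)
    (ρ : V → ℝ) (hρv : ρ v = 0)
    (IH : ∀ g : (V → ZMod 3) → ℝ, 0 ≤ Q3 (I.del v) ρ g)
    (ha : ∀ u ∈ I.A, I.a v u = if u = w then 1 else 0) (hb : ∀ u ∈ I.A, I.b v u = 0) :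
    FaceR I I.m v ρ I.s := by
  intro h η hh hη
  obtain ⟨hwv, hwA⟩ := mem_erase.1 hw
  have hm : ∀ u ∈ I.A, I.m v u = if u = w then 1 else 0 := fun u hu => by
    unfold Ins.m; rw [ha u hu, hb u hu]; simp
  have hvv : I.m v v < 2 := by rw [hm v hvA]; simp [hwv.symm]
  have hmw : I.m v w ≠ 0 := by rw [hm w hwA]; simp
  obtain ⟨g, hg⟩ := exists_res I hvA hvv h hh
  have hE : ∀ z : ZMod 3, ∀ f : V → ZMod 3, v ∈ bz I.A z f → El I.m I.m v (bz I.A z f) :=
    fun z f hv => El.one hI.gm hv hwv.symm (fun u hu => hm u (bz_sub hu)) rfl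
  have hfw : ∀ f ∈ I.Om, f v ≠ f w := by
    intro f hf
    exact ((mem_om.1 hf).2 v hvA w hwA).1 (by rw [ha w hwA]; simp)
  have hiso : ∀ z : ZMod 3, ∀ f : V → ZMod 3, f w = z → ∀ u ∈ (bz I.A z f).erase v,
      I.m v u = 0 := by
    intro z f hz u hu
    have hu2 := mem_bz.1 (mem_erase.1 hu).2
    rw [hm u hu2.1, if_neg]
    rintro rfl
    exact hu2.2 hz
  have hkf : ∀ z : ZMod 3, ∀ f ∈ I.Om, ({v} ∈ kf I.m (bz I.A z f) ↔ f w = z) := by
    intro z f hf
    rw [single_mem_kf, mem_bz]
    constructor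
    · rintro ⟨h1, _, h3⟩
      by_contra hne
      exact hmw (h3 w (mem_erase.2 ⟨hwv, mem_bz.2 ⟨hwA, hne⟩⟩))
    · intro h1
      exact ⟨⟨hvA, fun hz => hfw f hf (hz.trans h1.symm)⟩, hvv, hiso z f h1⟩
  have hav : ∀ k, av I v k = univ.filter (fun c => c ≠ k w) := by
    intro k
    ext c
    rw [mem_av, mem_filter]
    simp only [mem_univ, true_and]
    constructor
    · intro h
      exact (h w hw).1 (by rw [ha w hwA]; simp)
    · intro hc u hu
      have huA := (mem_erase.1 hu).2
      refine ⟨fun h => ?_, fun h => absurd (hb u huA) h⟩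
      rw [ha u huA] at h
      by_cases huw : u = w
      · rw [huw]; exact hc
      · simp [huw] at h
  set X : ZMod 3 → (V → ZMod 3) → ℝ := fun z k =>
    op (I.del v).m (I.del v).A z (lam (I.del v).m ρ) g k with hX
  set Y : ZMod 3 → (V → ZMod 3) → ℝ := fun z k =>
    op (I.del v).m (I.del v).A z (cst (I.del v).m ρ (I.del v).s) g k with hY
  set P : ZMod 3 → (V → ZMod 3) → ℝ := fun z k =>
    op I.m (I.A.erase v) z (cst I.m ρ I.s) g k with hP
  set H : ZMod 3 → (V → ZMod 3) → ℝ := fun z k =>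
    op I.m (I.A.erase v) z (mulk (km I.m ρ)
      (fun T => (∑ u ∈ ext v w T, I.s u) * (2 / ∑ u ∈ ext v w T, ρ u) ^ 2)) g k with hH
  have hs : I.s v = 2 := by
    unfold Ins.s
    rw [sum_congr rfl (fun u hu => by rw [ha u hu]),
      sum_eq_zero (s := I.A) (f := fun u => (I.b v u : ℝ)) (fun u hu => by rw [hb u hu]; simp)]
    simp only [Nat.cast_ite, Nat.cast_one, Nat.cast_zero, sum_ite_eq', if_pos hwA]
    norm_num
  have hPH : ∀ z : ZMod 3, ∀ k : V → ZMod 3, P z k + H z k = 2 * Y z k := by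
    intro z k
    rw [hP, hH, hY]
    simp only
    rw [op_add_mul, op_mul_mul]
    refine opI_congr (fun S => ?_) (fun _ _ => rfl)
    have hkm := km_mem_kf I.m ρ (bz (I.A.erase v) z k) S
    have hsub : km I.m ρ (bz (I.A.erase v) z k) S ⊆ I.A.erase v := (kf_sub hkm).trans bz_sub
    have hvT : v ∉ km I.m ρ (bz (I.A.erase v) z k) S := fun h' =>
      (mem_erase.1 (hsub h')).1 rfl
    show cst I.m ρ I.s (bz (I.A.erase v) z k) S + (∑ u ∈ ext v w (km I.m ρ _ S), I.s u) *
      (2 / ∑ u ∈ ext v w (km I.m ρ _ S), ρ u) ^ 2 =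
      2 * cst I.m ρ (I.del v).s (bz (I.A.erase v) z k) S
    unfold cst lam rr
    rw [sum_ext_zero hvT hρv, sum_ext hvT, hs]
    have e : ∑ u ∈ km I.m ρ (bz (I.A.erase v) z k) S, (I.del v).s u =
        ∑ u ∈ km I.m ρ (bz (I.A.erase v) z k) S, I.s u +
          if w ∈ km I.m ρ (bz (I.A.erase v) z k) S then 1 else 0 := by
      rw [sum_congr rfl (fun u hu => del_s_one I hI v w hvA ha hb u (hsub hu)),
        sum_add_distrib]
      congr 1
      simp
    rw [e]
    split_ifs <;> ring
  have hPY : ∀ z : ZMod 3, ∀ k : V → ZMod 3, k w = z → P z k = Y z k := by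
    intro z k hz
    rw [hP, hY]
    simp only
    refine opI_congr (fun S => ?_) (fun _ _ => rfl)
    show cst I.m ρ I.s (bz (I.A.erase v) z k) S = cst I.m ρ (I.del v).s (bz (I.A.erase v) z k) S
    unfold cst
    congr 1
    refine sum_congr rfl fun u hu => ?_
    have hu2 := kf_sub (km_mem_kf I.m ρ (bz (I.A.erase v) z k) S) hu
    rw [del_s_one I hI v w hvA ha hb u (bz_sub hu2), if_neg, add_zero]
    rintro rfl
    exact (mem_bz.1 hu2).2 hz
  have e1 : ∀ (c : Finset V → ℝ) (z : ZMod 3) (f : V → ZMod 3), f ∈ I.Om →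
      op I.m I.A z (mulk (kap I.m I.m ρ v) c) h f =
        op I.m I.A z (mulk (kap I.m I.m ρ v) c) (fun f => g (rs v f)) f :=
    fun c z f hf => opI_congr (fun _ => rfl) (fun T hT => hg _ (fz_mem hI hf hT))
  have hX' : ∀ z : ZMod 3, ∀ f ∈ I.Om,
      op I.m I.A z (lamk (kap I.m I.m ρ v) ρ) h f = X z (rs v f) := by
    intro z f hf
    rw [lamk_eq_mulk, e1 _ z f hf]
    by_cases hz : f v = z
    · rw [op_at_eq I I.m ρ v _ g hz]; rfl
    · by_cases hwz : f w = z
      · rw [op_at_iso I I.m ρ v hvA _ (by simp [hρv]) g hz (hE z f (mem_bz.2 ⟨hvA, hz⟩))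
          (hiso z f hwz)]
        rfl
      · rw [op_at_hang I I.m ρ v w hvA _ g hz (hE z f (mem_bz.2 ⟨hvA, hz⟩))
          (mem_erase.2 ⟨hwv, mem_bz.2 ⟨hwA, hwz⟩⟩) hmw]
        rw [hX]
        simp only
        refine opI_congr (fun S => ?_) (fun _ _ => rfl)
        have hkm := km_mem_kf I.m ρ (bz (I.A.erase v) z (rs v f)) S
        have hvT : v ∉ km I.m ρ (bz (I.A.erase v) z (rs v f)) S := fun h' =>
          (mem_erase.1 ((kf_sub hkm).trans bz_sub h')).1 rfl
        show 2 / ∑ u ∈ ext v w (km I.m ρ _ S), ρ u = 2 / ∑ u ∈ km I.m ρ _ S, ρ u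
        rw [sum_ext_zero hvT hρv]
  have hY' : ∀ z : ZMod 3, ∀ f ∈ I.Om,
      op I.m I.A z (fun B S => (∑ u ∈ kap I.m I.m ρ v B S, I.s u) *
        lamk (kap I.m I.m ρ v) ρ B S ^ 2) h f =
      if f v = z ∨ f w = z then P z (rs v f) else H z (rs v f) := by
    intro z f hf
    have e2 : op I.m I.A z (fun B S => (∑ u ∈ kap I.m I.m ρ v B S, I.s u) *
        lamk (kap I.m I.m ρ v) ρ B S ^ 2) h f =
        op I.m I.A z (mulk (kap I.m I.m ρ v)
          (fun T => (∑ u ∈ T, I.s u) * (2 / ∑ u ∈ T, ρ u) ^ 2)) h f := rfl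
    rw [e2, e1 _ z f hf]
    by_cases hz : f v = z
    · rw [op_at_eq I I.m ρ v _ g hz, if_pos (Or.inl hz)]; rfl
    · by_cases hwz : f w = z
      · rw [op_at_iso I I.m ρ v hvA _ (by simp [hρv]) g hz (hE z f (mem_bz.2 ⟨hvA, hz⟩))
          (hiso z f hwz), if_pos (Or.inr hwz)]
        rfl
      · rw [op_at_hang I I.m ρ v w hvA _ g hz (hE z f (mem_bz.2 ⟨hvA, hz⟩))
          (mem_erase.2 ⟨hwv, mem_bz.2 ⟨hwA, hwz⟩⟩) hmw, if_neg (by tauto)]
  -- the flow
  have hfib : ∀ F : (V → ZMod 3) → ℝ, ∑ f ∈ I.Om, F f =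
      ∑ k ∈ (I.del v).Om, (F (Function.update k v (k w + 1)) +
        F (Function.update k v (k w + 2))) := by
    intro F
    rw [sum_fib I hI v hvA]
    exact sum_congr rfl fun k _ => by rw [hav, sum_zm_ne (fun c => F (Function.update k v c))]
  have hk0 : ∀ k ∈ (I.del v).Om, k v = 0 := fun k hk => (mem_om.1 hk).1 v (by simp [Ins.del])
  have hmem : ∀ k ∈ (I.del v).Om, ∀ c : ZMod 3, c ≠ k w → Function.update k v c ∈ I.Om := by
    intro k hk c hc
    exact (mem_om_iff I hI v hvA k c (hk0 k hk)).2 ⟨hk, by rw [hav]; simpa using hc⟩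
  have hrs : ∀ k ∈ (I.del v).Om, ∀ c : ZMod 3, rs v (Function.update k v c) = k := by
    intro k hk c
    rw [rs_update, rs_of_dead (hk0 k hk)]
  have hE0 : ∀ k ∈ (I.del v).Om, η (Function.update k v (k w + 1)) +
      η (Function.update k v (k w + 2)) = 0 := by
    intro k hk
    have h0 := sum_eta_fib I hI v hvA η hη hk
    rwa [hav, sum_zm_ne (fun c => η (Function.update k v c))] at h0
  have hdel : ∀ f ∈ I.Om, rs v f ∈ (I.del v).Om := by
    intro f hf
    exact ((mem_om_iff I hI v hvA (rs v f) (f v) (rs_self v f)).1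
      (by rw [update_rs]; exact hf)).1
  have hodd : ∀ f ∈ I.Om, η (fz (f w) {v} f) = - η f := by
    intro f hf
    have h0 := hE0 _ (hdel f hf)
    rw [rs_of_ne f hwv] at h0
    have hc := hfw f hf
    rw [fz_single_update]
    have hcc : f v = f w + 1 ∨ f v = f w + 2 := by
      have : ∀ x y : ZMod 3, x ≠ y → x = y + 1 ∨ x = y + 2 := by decide
      exact this _ _ hc
    have ef : Function.update (rs v f) v (f v) = f := update_rs v f
    rcases hcc with hcc | hcc
    · have e : - f w - f v = f w + 2 := by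
        rw [hcc]
        have : ∀ y : ZMod 3, - y - (y + 1) = y + 2 := by decide
        exact this _
      rw [e]
      rw [← hcc, ef] at h0
      linarith
    · have e : - f w - f v = f w + 1 := by
        rw [hcc]
        have : ∀ y : ZMod 3, - y - (y + 2) = y + 1 := by decide
        exact this _
      rw [e]
      rw [← hcc, ef] at h0
      linarith
  refine ⟨fun z f => if f w = z then η f else 0, ?_, ?_, ?_, ?_⟩
  · intro z f hf hn
    rw [hkf z f hf] at hn
    simp only [if_neg hn]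
  · intro z f hf hk
    rw [hkf z f hf] at hk
    have hw2 : fz z {v} f w = f w := by simp [fz, hwv]
    simp only [hw2, if_pos hk]
    rw [← hk]
    exact hodd f hf
  · intro f hf
    simp
  · rw [hfib, hfib]
    have key : ∀ k ∈ (I.del v).Om,
        1 / 2 * ((∑ z : ZMod 3, (h (Function.update k v (k w + 1)) *
          op I.m I.A z (fun B S => (∑ u ∈ kap I.m I.m ρ v B S, I.s u) *
            lamk (kap I.m I.m ρ v) ρ B S ^ 2) h (Function.update k v (k w + 1)) +
          I.s v * (if Function.update k v (k w + 1) w = z then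
            η (Function.update k v (k w + 1)) else 0) ^ 2)) +
          (∑ z : ZMod 3, (h (Function.update k v (k w + 2)) *
          op I.m I.A z (fun B S => (∑ u ∈ kap I.m I.m ρ v B S, I.s u) *
            lamk (kap I.m I.m ρ v) ρ B S ^ 2) h (Function.update k v (k w + 2)) +
          I.s v * (if Function.update k v (k w + 2) w = z then
            η (Function.update k v (k w + 2)) else 0) ^ 2))) =
        (∑ z : ZMod 3, op I.m I.A z (lamk (kap I.m I.m ρ v) ρ) h
          (Function.update k v (k w + 1)) + η (Function.update k v (k w + 1))) ^ 2 +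
        (∑ z : ZMod 3, op I.m I.A z (lamk (kap I.m I.m ρ v) ρ) h
          (Function.update k v (k w + 2)) + η (Function.update k v (k w + 2))) ^ 2 -
          2 * ((∑ z : ZMod 3, X z k) ^ 2 - 1 / 2 * ∑ z : ZMod 3, g k * Y z k) := by
      intro k hk
      have n1 : k w + 1 ≠ k w := by
        have : ∀ y : ZMod 3, y + 1 ≠ y := by decide
        exact this _
      have n2 : k w + 2 ≠ k w := by
        have : ∀ y : ZMod 3, y + 2 ≠ y := by decide
        exact this _
      have n12 : k w + 1 ≠ k w + 2 := by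
        have : ∀ y : ZMod 3, y + 1 ≠ y + 2 := by decide
        exact this _
      have m1 := hmem k hk _ n1
      have m2 := hmem k hk _ n2
      have u1 : ∀ c : ZMod 3, Function.update k v c w = k w := fun c =>
        Function.update_of_ne hwv _ _
      have d : ∀ c : ZMod 3, c ≠ k w → ∑ z : ZMod 3, op I.m I.A z (lamk (kap I.m I.m ρ v) ρ) h
          (Function.update k v c) = ∑ z : ZMod 3, X z k := by
        intro c hc
        refine sum_congr rfl fun z _ => ?_
        rw [hX' z _ (hmem k hk c hc), hrs k hk c]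
      rw [d _ n1, d _ n2]
      have yy : ∀ c : ZMod 3, c ≠ k w → ∀ z : ZMod 3, (h (Function.update k v c) *
          op I.m I.A z (fun B S => (∑ u ∈ kap I.m I.m ρ v B S, I.s u) *
            lamk (kap I.m I.m ρ v) ρ B S ^ 2) h (Function.update k v c) +
          I.s v * (if Function.update k v c w = z then
            η (Function.update k v c) else 0) ^ 2) =
          g k * (if c = z ∨ k w = z then P z k else H z k) + 2 * (if k w = z then
            η (Function.update k v c) else 0) ^ 2 := by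
        intro c hc z
        rw [hg _ (hmem k hk c hc), hY' z _ (hmem k hk c hc), hrs k hk c, hs, u1,
          Function.update_self]
      simp only [yy _ n1, yy _ n2]
      rw [sum_zm_at _ (k w), sum_zm_at _ (k w), sum_zm_at (fun z => g k * Y z k) (k w)]
      have t1 : P (k w) k = Y (k w) k := hPY _ _ rfl
      have t2 := hPH (k w + 1) k
      have t3 := hPH (k w + 2) k
      have e0 := hE0 k hk
      simp only [n1, n2, n12, n1.symm, n2.symm, n12.symm, or_true, or_false, if_true,
        if_false, t1]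
      have e0' : η (Function.update k v (k w + 2)) = - η (Function.update k v (k w + 1)) := by
        linarith
      rw [e0']
      have t2' : H (k w + 1) k = 2 * Y (k w + 1) k - P (k w + 1) k := by linarith
      have t3' : H (k w + 2) k = 2 * Y (k w + 2) k - P (k w + 2) k := by linarith
      rw [t2', t3']
      ring
    have hQ := IH g
    unfold Q3 at hQ
    rw [mul_sum, sum_congr rfl key, sum_sub_distrib, ← mul_sum]
    linarith

end Pool.Agent.Nest.F42

namespace Pool.Agent.Nest

variable {V : Type} [Fintype V]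

/-- the face inequality at a leaf -/
theorem face_10 (I : Ins V) (hI : I.Ok) {v w : V} (hv : v ∈ I.A) (hw : w ∈ I.A.erase v)
    (ρ : V → ℝ) (hρv : ρ v = 0) (_hρ : ∀ u ∈ I.A.erase v, 0 < ρ u)
    (ha : ∀ u ∈ I.A, I.a v u = if u = w then 1 else 0) (hb : ∀ u ∈ I.A, I.b v u = 0)
    (IH : ∀ g, 0 ≤ Q3 (I.del v) ρ g) : FaceR I I.m v ρ I.s :=
  F42.face10 I hI v w hv hw ρ hρv IH ha hb

end Pool.Agent.Nest
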