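import Pool.Agent.Lib.MP_26a019_lc.Nest.FaceBase

set_option autoImplicit false

/-!
The face inequality at an isolated vertex.
-/

open Finset Classical

namespace Pool.Agent.Nest.F42

variable {V : Type} [Fintype V]

set_option linter.unusedSectionVars false

theorem zm_cases : ∀ c : ZMod 3, c = 0 ∨ c = 1 ∨ c = 2 := by decide

theorem sum_zm (F : ZMod 3 → ℝ) : ∑ z : ZMod 3, F z = F 0 + F 1 + F 2 := Fin.sum_univ_three F

/-- the scalar identity on the fibre of an isolated vertex -/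
theorem scal00 (E : ZMod 3 → ℝ) (hE : ∑ c, E c = 0) (D : ℝ) (Y : ZMod 3 → ℝ) :
    1 / 2 * ∑ c : ZMod 3, ∑ z : ZMod 3,
      (Y z + 3 * (if c ≠ z then (E c - E (- z - c)) / 3 else 0) ^ 2) =
    ∑ c : ZMod 3, (D + E c) ^ 2 - 3 * (D ^ 2 - 1 / 2 * ∑ z : ZMod 3, Y z) := by
  rw [sum_zm] at hE
  simp only [sum_zm]
  have a01 : (-1 - 0 : ZMod 3) = 2 := by decide
  have a02 : (-2 - 0 : ZMod 3) = 1 := by decide
  have a10 : (-0 - 1 : ZMod 3) = 2 := by decide
  have a12 : (-2 - 1 : ZMod 3) = 0 := by decide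
  have a20 : (-0 - 2 : ZMod 3) = 1 := by decide
  have a21 : (-1 - 2 : ZMod 3) = 0 := by decide
  have n01 : (0 : ZMod 3) ≠ 1 := by decide
  have n02 : (0 : ZMod 3) ≠ 2 := by decide
  have n10 : (1 : ZMod 3) ≠ 0 := by decide
  have n12 : (1 : ZMod 3) ≠ 2 := by decide
  have n20 : (2 : ZMod 3) ≠ 0 := by decide
  have n21 : (2 : ZMod 3) ≠ 1 := by decide
  rw [if_neg (by simp : ¬ ((0 : ZMod 3) ≠ 0)), if_pos n01, if_pos n02, if_pos n10,
    if_neg (by simp : ¬ ((1 : ZMod 3) ≠ 1)), if_pos n12, if_pos n20, if_pos n21,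
    if_neg (by simp : ¬ ((2 : ZMod 3) ≠ 2)), a01, a02, a10, a12, a20, a21]
  have e2 : E 2 = - E 0 - E 1 := by linarith
  rw [e2]
  ring

/-- the state with the colour `c` at `v` has the flip of `v` as neighbour -/
theorem fz_single_update (z : ZMod 3) (v : V) (f : V → ZMod 3) :
    fz z {v} f = Function.update (rs v f) v (- z - f v) := by
  funext u
  by_cases hu : u = v
  · subst hu; simp [fz]
  · simp [fz, hu, rs]

theorem lamk_eq_mulk (κ : Finset V → Finset V → Finset V) (ρ : V → ℝ) :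
    lamk κ ρ = mulk κ (fun T => 2 / ∑ u ∈ T, ρ u) := rfl

theorem lam_eq_mulk (m : V → V → ℕ) (ρ : V → ℝ) :
    lam m ρ = mulk (km m ρ) (fun T => 2 / ∑ u ∈ T, ρ u) := rfl

theorem cst_eq_mulk (m : V → V → ℕ) (ρ s : V → ℝ) :
    cst m ρ s = mulk (km m ρ) (fun T => (∑ u ∈ T, s u) * (2 / ∑ u ∈ T, ρ u) ^ 2) := rfl

/-- congruence of `op` in the slack -/
theorem op_cst_congr (m : V → V → ℕ) (A : Finset V) (z : ZMod 3) (ρ s s' : V → ℝ)
    (hs : ∀ u ∈ A, s u = s' u) (g : (V → ZMod 3) → ℝ) (f : V → ZMod 3) :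
    op m A z (cst m ρ s) g f = op m A z (cst m ρ s') g f := by
  refine opI_congr (fun S => ?_) (fun _ _ => rfl)
  unfold cst
  congr 1
  refine sum_congr rfl fun u hu => ?_
  exact hs u (bz_sub (kf_sub (km_mem_kf m ρ _ S) hu))

theorem del_s_zero (I : Ins V) (hI : I.Ok) (v : V) (hvA : v ∈ I.A) (ha : ∀ u ∈ I.A, I.a v u = 0)
    (hb : ∀ u ∈ I.A, I.b v u = 0) : ∀ u ∈ I.A.erase v, I.s u = (I.del v).s u := by
  intro u hu
  have huA := (mem_erase.1 hu).2
  unfold Ins.s Ins.del
  rw [← add_sum_erase I.A (fun w => (I.a u w : ℝ)) hvA,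
    ← add_sum_erase I.A (fun w => (I.b u w : ℝ)) hvA]
  rw [hI.asym u v, hI.bsym u v, ha u huA, hb u huA]
  simp

theorem face00 (I : Ins V) (hI : I.Ok) (v : V) (hvA : v ∈ I.A) (ρ : V → ℝ) (hρv : ρ v = 0)
    (IH : ∀ g : (V → ZMod 3) → ℝ, 0 ≤ Q3 (I.del v) ρ g)
    (ha : ∀ u ∈ I.A, I.a v u = 0) (hb : ∀ u ∈ I.A, I.b v u = 0) :
    FaceR I I.m v ρ I.s := by
  intro h η hh hη
  have hm0 : ∀ u ∈ I.A, I.m v u = 0 := fun u hu => by
    unfold Ins.m; rw [ha u hu, hb u hu]
  have hvv : I.m v v < 2 := by rw [hm0 v hvA]; norm_num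
  obtain ⟨g, hg⟩ := exists_res I hvA hvv h hh
  have hE : ∀ z : ZMod 3, ∀ f : V → ZMod 3, v ∈ bz I.A z f → El I.m I.m v (bz I.A z f) :=
    fun z f hv => El.zero hI.gm hv (fun u hu => hm0 u (bz_sub hu)) rfl
  have hkf : ∀ z : ZMod 3, ∀ f : V → ZMod 3, {v} ∈ kf I.m (bz I.A z f) ↔ f v ≠ z := by
    intro z f
    rw [single_mem_kf, mem_bz]
    constructor
    · rintro ⟨h1, _⟩; exact h1.2
    · intro h1
      exact ⟨⟨hvA, h1⟩, hvv, fun w hw => hm0 w (bz_sub (mem_erase.1 hw).2)⟩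
  have hav : ∀ k, av I v k = univ := by
    intro k
    ext c
    rw [mem_av]
    simp only [mem_univ, iff_true]
    intro u hu
    have huA := (mem_erase.1 hu).2
    exact ⟨fun h => absurd (ha u huA) h, fun h => absurd (hb u huA) h⟩
  -- the operators
  have hop : ∀ c : Finset V → ℝ, c {v} = 0 → ∀ z : ZMod 3, ∀ f ∈ I.Om,
      op I.m I.A z (mulk (kap I.m I.m ρ v) c) h f =
        op I.m (I.A.erase v) z (mulk (km I.m ρ) c) g (rs v f) := by
    intro c hc z f hf
    have e1 : op I.m I.A z (mulk (kap I.m I.m ρ v) c) h f =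
        op I.m I.A z (mulk (kap I.m I.m ρ v) c) (fun f => g (rs v f)) f :=
      opI_congr (fun _ => rfl) (fun T hT => hg _ (fz_mem hI hf hT))
    rw [e1]
    by_cases hz : f v = z
    · exact op_at_eq I I.m ρ v c g hz
    · exact op_at_iso I I.m ρ v hvA c hc g hz (hE z f (mem_bz.2 ⟨hvA, hz⟩))
        (fun w hw => hm0 w (bz_sub (mem_erase.1 hw).2))
  set X : ZMod 3 → (V → ZMod 3) → ℝ := fun z k =>
    op (I.del v).m (I.del v).A z (lam (I.del v).m ρ) g k with hX
  set Y : ZMod 3 → (V → ZMod 3) → ℝ := fun z k =>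
    op (I.del v).m (I.del v).A z (cst (I.del v).m ρ (I.del v).s) g k with hY
  have hX' : ∀ z : ZMod 3, ∀ f ∈ I.Om,
      op I.m I.A z (lamk (kap I.m I.m ρ v) ρ) h f = X z (rs v f) := by
    intro z f hf
    rw [lamk_eq_mulk, hop _ (by simp [hρv]) z f hf]
    rfl
  have hY' : ∀ z : ZMod 3, ∀ f ∈ I.Om,
      op I.m I.A z (fun B S => (∑ u ∈ kap I.m I.m ρ v B S, I.s u) *
        lamk (kap I.m I.m ρ v) ρ B S ^ 2) h f = Y z (rs v f) := by
    intro z f hf
    have e := hop (fun T => (∑ u ∈ T, I.s u) * (2 / ∑ u ∈ T, ρ u) ^ 2) (by simp [hρv]) z f hf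
    have e2 : op I.m (I.A.erase v) z (cst I.m ρ I.s) g (rs v f) = Y z (rs v f) :=
      op_cst_congr I.m (I.A.erase v) z ρ _ _ (del_s_zero I hI v hvA ha hb) g (rs v f)
    rw [← e2]
    exact e
  have hs : I.s v = 3 := by
    unfold Ins.s
    rw [sum_eq_zero (fun u hu => by rw [ha u hu]; simp),
      sum_eq_zero (fun u hu => by rw [hb u hu]; simp)]
    norm_num
  refine ⟨fun z f => if {v} ∈ kf I.m (bz I.A z f) then (η f - η (fz z {v} f)) / 3 else 0,
    ?_, ?_, ?_, ?_⟩
  · intro z f _ hn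
    simp only [if_neg hn]
  · intro z f _ hk
    simp only [bz_fz, if_pos hk, fz_fz, symmDiff_self, Finset.bot_eq_empty, fz_empty]
    ring
  · intro f hf
    have hk : rs v f ∈ (I.del v).Om := by
      have := (mem_om_iff I hI v hvA (rs v f) (f v) (rs_self v f)).1 (by rw [update_rs]; exact hf)
      exact this.1
    have h0 := sum_eta_fib I hI v hvA η hη hk
    rw [hav] at h0
    have hE0 : ∀ (E : ZMod 3 → ℝ) (c : ZMod 3), ∑ c', E c' = 0 →
        ∑ z, (if c ≠ z then (E c - E (- z - c)) / 3 else 0) = E c := by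
      intro E c hE
      have h3 : ∑ c' : ZMod 3, E c' = E 0 + E 1 + E 2 := Fin.sum_univ_three E
      have h4 : ∑ z : ZMod 3, (if c ≠ z then (E c - E (- z - c)) / 3 else 0) =
        (if c ≠ 0 then (E c - E (- 0 - c)) / 3 else 0) +
        (if c ≠ 1 then (E c - E (- 1 - c)) / 3 else 0) +
        (if c ≠ 2 then (E c - E (- 2 - c)) / 3 else 0) :=
        Fin.sum_univ_three (fun z : ZMod 3 => (if c ≠ z then (E c - E (- z - c)) / 3 else 0))
      rw [h3] at hE
      rw [h4]
      have hc : c = 0 ∨ c = 1 ∨ c = 2 := zm_cases c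
      rcases hc with rfl | rfl | rfl
      · have e1 : (-1 - 0 : ZMod 3) = 2 := by decide
        have e2 : (-2 - 0 : ZMod 3) = 1 := by decide
        have n1 : (0 : ZMod 3) ≠ 1 := by decide
        have n2 : (0 : ZMod 3) ≠ 2 := by decide
        rw [e1, e2, if_neg (by simp), if_pos n1, if_pos n2]; linarith
      · have e1 : (-0 - 1 : ZMod 3) = 2 := by decide
        have e2 : (-2 - 1 : ZMod 3) = 0 := by decide
        have n1 : (1 : ZMod 3) ≠ 0 := by decide
        have n2 : (1 : ZMod 3) ≠ 2 := by decide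
        rw [e1, e2, if_neg (by simp : ¬ ((1 : ZMod 3) ≠ 1)), if_pos n1, if_pos n2]; linarith
      · have e1 : (-0 - 2 : ZMod 3) = 1 := by decide
        have e2 : (-1 - 2 : ZMod 3) = 0 := by decide
        have n1 : (2 : ZMod 3) ≠ 0 := by decide
        have n2 : (2 : ZMod 3) ≠ 1 := by decide
        rw [e1, e2, if_neg (by simp : ¬ ((2 : ZMod 3) ≠ 2)), if_pos n1, if_pos n2]; linarith
    have := hE0 (fun c => η (Function.update (rs v f) v c)) (f v) h0
    rw [update_rs] at this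
    rw [← this]
    refine sum_congr rfl fun z _ => ?_
    simp only [hkf, fz_single_update]
  · have hfib : ∀ F : (V → ZMod 3) → ℝ, ∑ f ∈ I.Om, F f =
        ∑ k ∈ (I.del v).Om, ∑ c : ZMod 3, F (Function.update k v c) := by
      intro F
      rw [sum_fib I hI v hvA]
      exact sum_congr rfl fun k _ => by rw [hav]
    have hmem : ∀ k ∈ (I.del v).Om, ∀ c : ZMod 3, Function.update k v c ∈ I.Om := by
      intro k hk c
      have hk0 : k v = 0 := (mem_om.1 hk).1 v (by simp [Ins.del])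
      exact (mem_om_iff I hI v hvA k c hk0).2 ⟨hk, by rw [hav]; exact mem_univ _⟩
    have hrs : ∀ k ∈ (I.del v).Om, ∀ c : ZMod 3, rs v (Function.update k v c) = k := by
      intro k hk c
      have hk0 : k v = 0 := (mem_om.1 hk).1 v (by simp [Ins.del])
      rw [rs_update, rs_of_dead hk0]
    rw [hfib, hfib]
    have key : ∀ k ∈ (I.del v).Om,
        1 / 2 * ∑ c : ZMod 3, ∑ z : ZMod 3, (h (Function.update k v c) *
          op I.m I.A z (fun B S => (∑ u ∈ kap I.m I.m ρ v B S, I.s u) *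
            lamk (kap I.m I.m ρ v) ρ B S ^ 2) h (Function.update k v c) +
          I.s v * (if {v} ∈ kf I.m (bz I.A z (Function.update k v c)) then
            (η (Function.update k v c) - η (fz z {v} (Function.update k v c))) / 3 else 0) ^ 2) =
        ∑ c : ZMod 3, (∑ z : ZMod 3, op I.m I.A z (lamk (kap I.m I.m ρ v) ρ) h
          (Function.update k v c) + η (Function.update k v c)) ^ 2 -
          3 * ((∑ z : ZMod 3, X z k) ^ 2 - 1 / 2 * ∑ z : ZMod 3, g k * Y z k) := by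
      intro k hk
      have h0 := sum_eta_fib I hI v hvA η hη hk
      rw [hav] at h0
      have e1 : ∀ c z : ZMod 3, h (Function.update k v c) *
          op I.m I.A z (fun B S => (∑ u ∈ kap I.m I.m ρ v B S, I.s u) *
            lamk (kap I.m I.m ρ v) ρ B S ^ 2) h (Function.update k v c) +
          I.s v * (if {v} ∈ kf I.m (bz I.A z (Function.update k v c)) then
            (η (Function.update k v c) - η (fz z {v} (Function.update k v c))) / 3 else 0) ^ 2 =
          g k * Y z k + 3 * (if c ≠ z then (η (Function.update k v c) -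
            η (Function.update k v (- z - c))) / 3 else 0) ^ 2 := by
        intro c z
        rw [hg _ (hmem k hk c), hY' z _ (hmem k hk c), hrs k hk c, hs]
        simp only [hkf, fz_single_update, hrs k hk c, Function.update_self]
      have e2 : ∀ c : ZMod 3, ∑ z : ZMod 3, op I.m I.A z (lamk (kap I.m I.m ρ v) ρ) h
          (Function.update k v c) = ∑ z : ZMod 3, X z k := by
        intro c
        refine sum_congr rfl fun z _ => ?_
        rw [hX' z _ (hmem k hk c), hrs k hk c]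
      simp only [e1, e2]
      exact scal00 (fun c => η (Function.update k v c)) h0 (∑ z : ZMod 3, X z k)
        (fun z => g k * Y z k)
    have hQ := IH g
    unfold Q3 at hQ
    rw [mul_sum, sum_congr rfl key, sum_sub_distrib, ← mul_sum]
    linarith

end Pool.Agent.Nest.F42

namespace Pool.Agent.Nest

variable {V : Type} [Fintype V]

/-- the face inequality at an isolated vertex -/
theorem face_00 (I : Ins V) (hI : I.Ok) {v : V} (hv : v ∈ I.A) (ρ : V → ℝ) (hρv : ρ v = 0)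
    (_hρ : ∀ u ∈ I.A.erase v, 0 < ρ u)
    (ha : ∀ u ∈ I.A, I.a v u = 0) (hb : ∀ u ∈ I.A, I.b v u = 0)
    (IH : ∀ g, 0 ≤ Q3 (I.del v) ρ g) : FaceR I I.m v ρ I.s :=
  F42.face00 I hI v hv ρ hρv IH ha hb

end Pool.Agent.Nest
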