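import Pool.Agent.Lib.MP_26a019_lc.Nest.RayA
import Pool.Agent.Lib.MP_26a019_lc.Nest.InsFS

set_option autoImplicit false

/-!
# The ray argument for an instance, all resistances

`q3_of_face`: if the face inequality holds at every vertex of positive slack, then the three colour
form is nonnegative for all positive resistances.
-/

open Finset Classical

namespace Pool.Agent.Nest

variable {V : Type} [Fintype V]

theorem argMin_km (I : Ins V) (hI : I.Ok) (ρ : V → ℝ) :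
    ArgMin (fun z => I.fs hI z) I.Om ρ (fun z f S => km I.m ρ (bz I.A z f) S) where
  mem z f _ S h := km_hκ h
  none z f _ S h := km_hκ0 h
  inv z f _ T _ S := by
    show km I.m ρ (bz I.A z (fz z T f)) S = _
    rw [bz_fz]

theorem argMin_kap (I : Ins V) (hI : I.Ok) (m' : V → V → ℕ) (v : V)
    (hE : ∀ z, ∀ f ∈ I.Om, v ∈ bz I.A z f → El I.m m' v (bz I.A z f))
    (ρs : V → ℝ) (hv : ρs v = 0) (hspos : ∀ u ∈ I.A, u ≠ v → 0 < ρs u) :
    ArgMin (fun z => I.fs hI z) I.Om ρs (fun z f S => kap I.m m' ρs v (bz I.A z f) S) where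
  mem z f hf S h := by
    have hρs0 : ∀ u ∈ I.A, 0 ≤ ρs u := by
      intro u hu
      by_cases h : u = v
      · rw [h, hv]
      · exact (hspos u hu h).le
    by_cases hvB : v ∈ bz I.A z f
    · obtain ⟨T, hT, ho⟩ := h
      have := (hE z f hf hvB).kap_spec (ρ := ρs) hvB hv (fun u hu => hρs0 u (bz_sub hu)) S
        ⟨T, mem_adm.2 ⟨hT, ho⟩⟩
      exact ⟨(mem_adm.1 this.1).1, (mem_adm.1 this.1).2,
        fun T' hT' ho' => this.2 T' (mem_adm.2 ⟨hT', ho'⟩)⟩
    · show kap I.m m' ρs v (bz I.A z f) S ∈ _ ∧ _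
      rw [kap_out hvB]
      exact km_hκ h
  none z f hf S h := by
    show kap I.m m' ρs v (bz I.A z f) S = ∅
    by_cases hvB : v ∈ bz I.A z f
    · refine (hE z f hf hvB).kap_none hvB S ?_
      rintro ⟨T, hT⟩
      exact h ⟨T, (mem_adm.1 hT).1, (mem_adm.1 hT).2⟩
    · rw [kap_out hvB]
      exact km_hκ0 h
  inv z f _ T _ S := by
    show kap I.m m' ρs v (bz I.A z (fz z T f)) S = _
    rw [bz_fz]

/-- **The three colour form is nonnegative if all face inequalities hold.** -/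
theorem q3_of_face (I : Ins V) (hI : I.Ok)
    (face : ∀ v ∈ I.A, 0 < I.s v → ∀ ρs : V → ℝ, ρs v = 0 → (∀ u ∈ I.A, u ≠ v → 0 < ρs u) →
      ∃ m' : V → V → ℕ, (∀ z, ∀ f ∈ I.Om, v ∈ bz I.A z f → El I.m m' v (bz I.A z f)) ∧
        FaceR I m' v ρs I.s)
    (ρ : V → ℝ) (hρ : ∀ u ∈ I.A, 0 < ρ u) (g : (V → ZMod 3) → ℝ) : 0 ≤ Q3 I ρ g := by
  have h := ray_all (fun z => I.fs hI z) I.Om (fun _ => rfl) I.A
    (fun z f _ T hT => (kf_sub hT).trans bz_sub) I.s
    (by
      intro v hv hs ρs h0 hpos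
      obtain ⟨m', hE, hF⟩ := face v hv hs ρs h0 hpos
      refine ⟨fun z f S => kap I.m m' ρs v (bz I.A z f) S,
        argMin_kap I hI m' v hE ρs h0 hpos, ?_⟩
      intro h η h1 h2
      exact hF h η h1 h2)
    ρ hρ (fun z f S => km I.m ρ (bz I.A z f) S) (argMin_km I hI ρ) g
  have e : Q3 I ρ g =
      ∑ f ∈ I.Om, (∑ z, (I.fs hI z).op (fun f S => 2 / ∑ u ∈ km I.m ρ (bz I.A z f) S, ρ u) g f) ^ 2
      - 1 / 2 * slackForm (fun z => I.fs hI z) I.Om ρ I.s
        (fun z f S => km I.m ρ (bz I.A z f) S) g := by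
    unfold Q3 slackForm
    rw [mul_sum, ← sum_sub_distrib]
    rfl
  rw [e]
  linarith

end Pool.Agent.Nest
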