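import Pool.Agent.Lib.MP_26a019_lc.Nest.Face20
import Pool.Agent.Lib.MP_26a019_lc.Nest.Cases
import Pool.Agent.Lib.MP_26a019_lc.Nest.RayI
import Pool.Agent.Lib.MP_26a019_lc.Nest.EqCase
import Pool.Agent.Lib.MP_26a019_lc.Nest.FaceZero
import Pool.Agent.Lib.MP_26a019_lc.Nest.FaceOne

set_option autoImplicit false

/-!
# The three colour theorem for the nested generator
-/

open Finset Classical

namespace Pool.Agent.Nest

variable {V : Type} [Fintype V]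

/-- **The three colour theorem.** -/
theorem core (I : Ins V) (hI : I.Ok) (ρ : V → ℝ) (hρ : ∀ u ∈ I.A, 0 < ρ u)
    (g : (V → ZMod 3) → ℝ) : 0 ≤ Q3 I ρ g := by
  obtain ⟨n, hn⟩ : ∃ n, n = I.A.card := ⟨_, rfl⟩
  induction n using Nat.strong_induction_on generalizing I ρ g with
  | _ n ih =>
    refine q3_of_face I hI (fun v hv hs ρs hρv hρs' => ?_) ρ hρ g
    have hρs : ∀ u ∈ I.A.erase v, 0 < ρs u := fun u hu =>
      hρs' u (mem_erase.1 hu).2 (mem_erase.1 hu).1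
    have hcard : (I.A.erase v).card < n := by
      rw [hn]; exact card_erase_lt_of_mem hv
    have ihd : ∀ g, 0 ≤ Q3 (I.del v) ρs g := fun g =>
      ih _ hcard (I.del v) (hI.del v) ρs hρs g rfl
    rcases case_list I hI hv hs with ⟨ha, hb⟩ | ⟨w, hw, ha, hb⟩ | ⟨w₁, hw₁, w₂, hw₂, ha, hb⟩ |
      ⟨w, hw, ha, hb⟩ | ⟨w₁, hw₁, w₂, hw₂, ha, hb⟩
    · exact ⟨I.m, fun z f _ hvB => el_00 hI ha hb hvB, face_00 I hI hv ρs hρv hρs ha hb ihd⟩
    · exact ⟨I.m, fun z f _ hvB => el_10 hI hw ha hb hvB,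
        face_10 I hI hv hw ρs hρv hρs ha hb ihd⟩
    · exact ⟨(I.delB v w₁ w₂).m, fun z f _ hvB => el_20 hI hw₁ hw₂ ha hb hvB,
        face_20 I hI hv hw₁ hw₂ ρs hρv hρs ha hb ihd
          (fun g => ih _ hcard (I.delB v w₁ w₂) (hI.delB v w₁ w₂) ρs hρs g rfl)⟩
    · exact ⟨I.m, fun z f _ hvB => el_01 hI hw ha hb hvB,
        face_01 I hI hv hw ρs hρv hρs ha hb ihd⟩
    · by_cases hne : w₁ = w₂
      · subst hne
        have hw := (mem_erase.1 hw₁).2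
        exact ⟨(I.delA v w₁ w₁).m, fun z f _ hvB => el_11 hI hw₁ hw₂ ha hb hvB,
          FaceR_of_empty (Om_empty_of_both hv hw (by rw [ha w₁ hw, if_pos rfl]; norm_num)
            (by rw [hb w₁ hw, if_pos rfl]; norm_num)) _ _ _ _⟩
      · exact ⟨(I.delA v w₁ w₂).m, fun z f _ hvB => el_11 hI hw₁ hw₂ ha hb hvB,
          face_11 I hI hv hw₁ hw₂ hne ρs hρv hρs ha hb
            (fun g => ih _ hcard (I.delA v w₁ w₂) (hI.delA v hne) ρs hρs g rfl)⟩

end Pool.Agent.Nest
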