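import Mathlib

set_option autoImplicit false

/-!
# Nested resampling generator for three (and `q`) colours: definitions

`V` is a fixed finite vertex type.  `m : V → V → ℕ` are edge multiplicities (inequality edges `a`
plus equality edges `b`), `B : Finset V` is a bichromatic set.  `kf m B` is the family of movable
sets: unions of components of `B` which are forests.  Modes are ALL subsets `S` of `V`, with sign
`chi S T = (-1)^|S ∩ T|`.
-/

open Finset Classical

namespace Pool.Agent.Nest

variable {V : Type} [Fintype V]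

/-- the sign of the mode `S` on the set `T` -/
noncomputable def chi (S T : Finset V) : ℝ := (-1) ^ (S ∩ T).card

/-- `T` spans a forest (a vertex with `m v v ≥ 2` is frozen, a double edge is a cycle) -/
def Fr (m : V → V → ℕ) (T : Finset V) : Prop :=
  ∀ U ⊆ T, U.Nonempty → ∑ u ∈ U, ∑ w ∈ U, m u w < 2 * U.card

/-- the movable sets inside `B`: closed (no edge to the rest of `B`) and forests -/
noncomputable def kf (m : V → V → ℕ) (B : Finset V) : Finset (Finset V) :=
  B.powerset.filter (fun T => (∀ u ∈ T, ∀ w ∈ B, w ∉ T → m u w = 0) ∧ Fr m T)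

/-- the movable sets which see the mode `S` -/
noncomputable def adm (m : V → V → ℕ) (B S : Finset V) : Finset (Finset V) :=
  (kf m B).filter (fun T => Odd (S ∩ T).card)

/-- an admissible set of minimal resistance (`∅` if there is none) -/
noncomputable def km (m : V → V → ℕ) (ρ : V → ℝ) (B S : Finset V) : Finset V :=
  if h : (adm m B S).Nonempty then
    (exists_min_image (adm m B S) (fun T => ∑ u ∈ T, ρ u) h).choose else ∅

/-- minimal resistance (`0` if there is no admissible set) -/
noncomputable def rr (m : V → V → ℕ) (ρ : V → ℝ) (B S : Finset V) : ℝ :=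
  ∑ u ∈ km m ρ B S, ρ u

/-- eigenvalue of the nested generator (`0` if there is no admissible set) -/
noncomputable def lam (m : V → V → ℕ) (ρ : V → ℝ) (B S : Finset V) : ℝ :=
  2 / rr m ρ B S

/-- the multiplier of the slack term -/
noncomputable def cst (m : V → V → ℕ) (ρ s : V → ℝ) (B S : Finset V) : ℝ :=
  (∑ u ∈ km m ρ B S, s u) * lam m ρ B S ^ 2

/-! ### Abstract flip systems -/

/-- A finite set of states with, for every state `f`, a group `K f` of flips (finsets of `V` with
symmetric difference). -/
structure FS (V X : Type) [Fintype V] where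
  Om : Finset X
  K : X → Finset (Finset V)
  fl : Finset V → X → X
  emp : ∀ f ∈ Om, ∅ ∈ K f
  sd : ∀ f ∈ Om, ∀ T ∈ K f, ∀ T' ∈ K f, symmDiff T T' ∈ K f
  fl_mem : ∀ f ∈ Om, ∀ T ∈ K f, fl T f ∈ Om
  K_fl : ∀ f ∈ Om, ∀ T ∈ K f, K (fl T f) = K f
  fl_fl : ∀ f ∈ Om, ∀ T ∈ K f, ∀ T' ∈ K f, fl T' (fl T f) = fl (symmDiff T T') f
  fl_emp : ∀ f ∈ Om, fl ∅ f = f

/-- `μ` is a multiplier of the flip system `F`: constant on orbits and depending only on the
restriction of the mode to the group. -/
def Mul {X : Type} (F : FS V X) (μ : X → Finset V → ℝ) : Prop :=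
  (∀ f ∈ F.Om, ∀ T ∈ F.K f, ∀ S, μ (F.fl T f) S = μ f S) ∧
  (∀ f ∈ F.Om, ∀ S S' : Finset V, (∀ T ∈ F.K f, chi S T = chi S' T) → μ f S = μ f S')

/-- the operator with multiplier `μ` at one state: `K` the group, `g T` the value after the
flip `T` -/
noncomputable def cv (K : Finset (Finset V)) (μ : Finset V → ℝ) (g : Finset V → ℝ) : ℝ :=
  (∑ S : Finset V, μ S * ∑ T ∈ K, chi S T * g T) / 2 ^ Fintype.card V

/-- the operator of a multiplier on a flip system -/
noncomputable def FS.op {X : Type} (F : FS V X) (μ : X → Finset V → ℝ) (g : X → ℝ) (f : X) : ℝ :=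
  cv (F.K f) (μ f) (fun T => g (F.fl T f))

/-! ### Three colours -/

/-- exchange the two colours different from `z` on `T` -/
noncomputable def fz (z : ZMod 3) (T : Finset V) (f : V → ZMod 3) : V → ZMod 3 :=
  fun u => if u ∈ T then - z - f u else f u

/-- the alive vertices whose colour is not `z` -/
noncomputable def bz (A : Finset V) (z : ZMod 3) (f : V → ZMod 3) : Finset V :=
  A.filter (fun u => f u ≠ z)

/-- the operator with multiplier `μ` (a function of the bichromatic set and the mode) for the pair
of colours different from `z` -/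
noncomputable def op (m : V → V → ℕ) (A : Finset V) (z : ZMod 3)
    (μ : Finset V → Finset V → ℝ) (g : (V → ZMod 3) → ℝ) (f : V → ZMod 3) : ℝ :=
  cv (kf m (bz A z f)) (μ (bz A z f)) (fun T => g (fz z T f))

/-- an instance: alive vertices, multiplicities of inequality edges and of equality edges -/
structure Ins (V : Type) where
  A : Finset V
  a : V → V → ℕ
  b : V → V → ℕ

/-- total multiplicity -/
def Ins.m (I : Ins V) (u w : V) : ℕ := I.a u w + I.b u w

/-- the standing assumptions on an instance -/
structure Ins.Ok (I : Ins V) : Prop where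
  asym : ∀ u w, I.a u w = I.a w u
  bsym : ∀ u w, I.b u w = I.b w u
  aloop : ∀ u, I.a u u = 0
  bloop : ∀ u, Even (I.b u u)

/-- the states: colourings of the alive vertices (dead vertices have colour `0`) -/
noncomputable def Ins.Om (I : Ins V) : Finset (V → ZMod 3) :=
  univ.filter (fun f => (∀ u, u ∉ I.A → f u = 0) ∧
    ∀ u ∈ I.A, ∀ w ∈ I.A, (I.a u w ≠ 0 → f u ≠ f w) ∧ (I.b u w ≠ 0 → f u = f w))

/-- the slack of a vertex -/
noncomputable def Ins.s (I : Ins V) (u : V) : ℝ :=
  3 - ∑ w ∈ I.A, (I.a u w : ℝ) - 3 / 2 * ∑ w ∈ I.A, (I.b u w : ℝ)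

/-- the form of the three colour theorem -/
noncomputable def Q3 (I : Ins V) (ρ : V → ℝ) (g : (V → ZMod 3) → ℝ) : ℝ :=
  ∑ f ∈ I.Om, ((∑ z, op I.m I.A z (lam I.m ρ) g f) ^ 2 -
    1 / 2 * ∑ z, g f * op I.m I.A z (cst I.m ρ I.s) g f)

/-- one edge (a loop counts twice) between `w₁` and `w₂` -/
noncomputable def link (w₁ w₂ u w : V) : ℕ :=
  (if u = w₁ ∧ w = w₂ then 1 else 0) + (if u = w₂ ∧ w = w₁ then 1 else 0)

/-- delete the vertex `v` -/
noncomputable def Ins.del (I : Ins V) (v : V) : Ins V := ⟨I.A.erase v, I.a, I.b⟩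

/-- delete `v` and add an equality edge between `w₁` and `w₂` -/
noncomputable def Ins.delB (I : Ins V) (v w₁ w₂ : V) : Ins V :=
  ⟨I.A.erase v, I.a, fun u w => I.b u w + link w₁ w₂ u w⟩

/-- delete `v` and add an inequality edge between `w₁` and `w₂` -/
noncomputable def Ins.delA (I : Ins V) (v w₁ w₂ : V) : Ins V :=
  ⟨I.A.erase v, fun u w => I.a u w + link w₁ w₂ u w, I.b⟩

/-- forget the colour of `v` -/
noncomputable def rs (v : V) (f : V → ZMod 3) : V → ZMod 3 := Function.update f v 0

/-- add `v` to `T` if `w ∈ T` -/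
noncomputable def ext (v w : V) (T : Finset V) : Finset V := if w ∈ T then insert v T else T

/-- the mode on `B` corresponding to the mode `S` on `insert v B` when `v` hangs at `w` -/
noncomputable def lb (v w : V) (S : Finset V) : Finset V :=
  if v ∈ S then symmDiff S {w} else S

/-- the argmin choice on an instance with vertex `v` of resistance `0`, in terms of the argmin
choice for the linked multiplicities `m'` after deletion of `v` -/
noncomputable def kap (m m' : V → V → ℕ) (ρ : V → ℝ) (v : V) (B S : Finset V) : Finset V :=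
  if v ∉ B then km m ρ B S
  else if h : ∃ w ∈ B.erase v, m v w ≠ 0 then
    ext v h.choose (km m' ρ (B.erase v) (lb v h.choose S))
  else if v ∈ S then {v} else km m' ρ (B.erase v) S

/-- eigenvalue belonging to a choice function -/
noncomputable def lamk (κ : Finset V → Finset V → Finset V) (ρ : V → ℝ) (B S : Finset V) : ℝ :=
  2 / ∑ u ∈ κ B S, ρ u

/-- indicator of the modes which can move -/
noncomputable def mv (m : V → V → ℕ) (B S : Finset V) : ℝ :=
  if (adm m B S).Nonempty then 1 else 0

/-! ### `q` colours -/

variable {C : Type} [Fintype C]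

/-- proper colourings which agree with `p` on `W` (this is `Kempe.Om`) -/
noncomputable def OmQ (G : SimpleGraph V) (W : Finset V) (p : V → C) : Finset (V → C) :=
  univ.filter (fun f => (∀ u w, G.Adj u w → f u ≠ f w) ∧ (∀ z ∈ W, f z = p z))

/-- adjacency as a multiplicity -/
noncomputable def adj (G : SimpleGraph V) (u w : V) : ℕ := if G.Adj u w then 1 else 0

/-- loops at the pinned vertices -/
noncomputable def pin (W : Finset V) (u w : V) : ℕ := if u = w ∧ u ∈ W then 2 else 0

/-- the multiplicities of the pinned graph -/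
noncomputable def mq (G : SimpleGraph V) (W : Finset V) (u w : V) : ℕ := adj G u w + pin W u w

/-- bichromatic set of the pair `c, d` -/
noncomputable def bq (c d : C) (f : V → C) : Finset V := univ.filter (fun u => f u = c ∨ f u = d)

/-- exchange `c` and `d` on `T` -/
noncomputable def fq (c d : C) (T : Finset V) (f : V → C) : V → C :=
  fun u => if u ∈ T then Equiv.swap c d (f u) else f u

/-- operator for the pair `c, d` -/
noncomputable def oq (m : V → V → ℕ) (c d : C) (μ : Finset V → Finset V → ℝ)
    (g : (V → C) → ℝ) (f : V → C) : ℝ :=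
  cv (kf m (bq c d f)) (μ (bq c d f)) (fun T => g (fq c d T f))

/-- slack for `q` colours -/
noncomputable def sq (C : Type) [Fintype C] (G : SimpleGraph V) (u : V) : ℝ :=
  (Fintype.card C : ℝ) - ((univ.filter (fun w => G.Adj u w)).card : ℝ)

/-- ordered pairs of distinct colours -/
noncomputable def prs (C : Type) [Fintype C] : Finset (C × C) := univ.filter (fun x => x.1 ≠ x.2)

/-- the generator for `q` colours: sum over ordered pairs -/
noncomputable def LQ (G : SimpleGraph V) (W : Finset V) (ρ : V → ℝ) (g : (V → C) → ℝ)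
    (f : V → C) : ℝ :=
  ∑ x ∈ prs C, oq (mq G W) x.1 x.2 (lam (mq G W) ρ) g f

end Pool.Agent.Nest
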