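import Mathlib

set_option autoImplicit false

/-!
# The face inequality for a vertex of degree two: bookkeeping of the sums

Everything is stated for arbitrary real valued functions of a colour `z : ZMod 3` and a state.
-/

open Finset

namespace Pool.Agent.Nest.F20

theorem univ3 (x : ZMod 3) : (univ : Finset (ZMod 3)) = {x, x + 1, x + 2} := by
  revert x; decide

theorem sum3 (x : ZMod 3) (F : ZMod 3 → ℝ) : ∑ z, F z = F x + F (x + 1) + F (x + 2) := by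
  have h1 : x ∉ ({x + 1, x + 2} : Finset (ZMod 3)) := by revert x; decide
  have h2 : x + 1 ∉ ({x + 2} : Finset (ZMod 3)) := by revert x; decide
  rw [univ3 x, sum_insert h1, sum_insert h2, sum_singleton]
  ring

theorem univ3' {x y : ZMod 3} (h : x ≠ y) : (univ : Finset (ZMod 3)) = {x, y, -x - y} := by
  revert x y; decide

theorem sum3' {x y : ZMod 3} (h : x ≠ y) (F : ZMod 3 → ℝ) :
    ∑ z, F z = F x + F y + F (-x - y) := by
  have h1 : x ∉ ({y, -x - y} : Finset (ZMod 3)) := by revert x y; decide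
  have h2 : y ∉ ({-x - y} : Finset (ZMod 3)) := by revert x y; decide
  rw [univ3' h, sum_insert h1, sum_insert h2, sum_singleton]
  ring

theorem avE (x : ZMod 3) :
    univ.filter (fun c : ZMod 3 => c ≠ x ∧ c ≠ x) = {x + 1, x + 2} := by
  revert x; decide

theorem avN {x y : ZMod 3} (h : x ≠ y) :
    univ.filter (fun c : ZMod 3 => c ≠ x ∧ c ≠ y) = {-x - y} := by
  revert x y; decide

theorem ne1 (x : ZMod 3) : x ≠ x + 1 := by revert x; decide
theorem ne2 (x : ZMod 3) : x ≠ x + 2 := by revert x; decide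
theorem ne12 (x : ZMod 3) : x + 1 ≠ x + 2 := by revert x; decide
theorem net1 {x y : ZMod 3} (h : x ≠ y) : x ≠ -x - y := by revert x y; decide
theorem net2 {x y : ZMod 3} (h : x ≠ y) : y ≠ -x - y := by revert x y; decide

/-- The values over one fibre. -/
theorem fibre (X0 X12 C0 C12 Jg Lo : ZMod 3 → ℝ) (XG CG : ZMod 3 → ZMod 3 → ℝ) (e : ZMod 3 → ℝ)
    (x y : ZMod 3)
    (hX : ∀ z c, c ≠ x → c ≠ y → XG c z = if z ≠ c ∧ x ≠ z ∧ y ≠ z then X12 z else X0 z)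
    (hC : ∀ z c, c ≠ x → c ≠ y → CG c z = if z = c then C0 z - Jg z
      else if x ≠ z ∧ y ≠ z then C12 z + 2 * Lo z else C0 z)
    (hXx : x = y → X12 x = X0 x) (hCx : x = y → C12 x = C0 x)
    (he : ∑ c ∈ univ.filter (fun c : ZMod 3 => c ≠ x ∧ c ≠ y), e c = 0) :
    ((∑ z, X0 z) ^ 2 - 1 / 2 * ∑ z, C0 z)
      + (if x = y then (∑ z, X12 z) ^ 2 - 1 / 2 * ∑ z, C12 z else 0)
      + 1 / 2 * ∑ z, (if x ≠ z ∧ y ≠ z then Jg z else 0)
      - ∑ z, (if x = y ∧ x ≠ z then Lo z + (X0 z - X12 z) ^ 2 else 0)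
      ≤ ∑ c ∈ univ.filter (fun c : ZMod 3 => c ≠ x ∧ c ≠ y),
          ((∑ z, XG c z + e c) ^ 2 - 1 / 2 * e c ^ 2 - 1 / 2 * ∑ z, CG c z) := by
  by_cases hxy : x = y
  · subst hxy
    have hXx := hXx rfl
    have hCx := hCx rfl
    rw [avE, sum_pair (ne12 x)] at he
    rw [avE, sum_pair (ne12 x)]
    have a1 : (x + 1 : ZMod 3) ≠ x := (ne1 x).symm
    have a2 : (x + 2 : ZMod 3) ≠ x := (ne2 x).symm
    simp only [sum3 x]
    rw [hX x (x + 1) a1 a1, hX (x + 1) (x + 1) a1 a1, hX (x + 2) (x + 1) a1 a1,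
      hX x (x + 2) a2 a2, hX (x + 1) (x + 2) a2 a2, hX (x + 2) (x + 2) a2 a2,
      hC x (x + 1) a1 a1, hC (x + 1) (x + 1) a1 a1, hC (x + 2) (x + 1) a1 a1,
      hC x (x + 2) a2 a2, hC (x + 1) (x + 2) a2 a2, hC (x + 2) (x + 2) a2 a2]
    have b1 := ne1 x
    have b2 := ne2 x
    have b3 := ne12 x
    have b4 := (ne12 x).symm
    simp only [ne_eq, b1, b2, b3, b4, a1, a2, not_true_eq_false, not_false_eq_true, and_self,
      and_true, true_and, and_false, false_and, if_true, if_false]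
    have h2 : e (x + 2) = - e (x + 1) := by linarith
    rw [h2, hXx, hCx]
    nlinarith [sq_nonneg (e (x + 1) + (X0 (x + 1) - X12 (x + 1)) - (X0 (x + 2) - X12 (x + 2)))]
  · rw [avN hxy, sum_singleton] at he
    rw [avN hxy, sum_singleton]
    have t1 : (-x - y : ZMod 3) ≠ x := (net1 hxy).symm
    have t2 : (-x - y : ZMod 3) ≠ y := (net2 hxy).symm
    have t3 := net1 hxy
    have t4 := net2 hxy
    have hyx : y ≠ x := fun h => hxy h.symm
    simp only [sum3' hxy]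
    rw [hX x _ t1 t2, hX y _ t1 t2, hX (-x - y) _ t1 t2, hC x _ t1 t2, hC y _ t1 t2,
      hC (-x - y) _ t1 t2, he]
    simp only [ne_eq, hxy, hyx, t1, t2, t3, t4, not_true_eq_false, not_false_eq_true, and_self,
      and_true, true_and, and_false, false_and, if_true, if_false]
    linarith

variable {St : Type*} [DecidableEq St]

/-- **Bookkeeping of the sums.**  `Om0` are the states after deletion, `p h`, `q h` the colours of
the two neighbours, `up h c` the state with colour `c` at the deleted vertex. -/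
theorem sums (Om0 : Finset St) (p q : St → ZMod 3)
    (X0 X12 C0 C12 Jg Lo : ZMod 3 → St → ℝ) (XG CG : St → ZMod 3 → ZMod 3 → ℝ)
    (e : St → ZMod 3 → ℝ)
    (hX : ∀ h ∈ Om0, ∀ z c, c ≠ p h → c ≠ q h →
      XG h c z = if z ≠ c ∧ p h ≠ z ∧ q h ≠ z then X12 z h else X0 z h)
    (hC : ∀ h ∈ Om0, ∀ z c, c ≠ p h → c ≠ q h →
      CG h c z = if z = c then C0 z h - Jg z h
        else if p h ≠ z ∧ q h ≠ z then C12 z h + 2 * Lo z h else C0 z h)
    (hXx : ∀ h ∈ Om0, p h = q h → X12 (p h) h = X0 (p h) h)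
    (hCx : ∀ h ∈ Om0, p h = q h → C12 (p h) h = C0 (p h) h)
    (he : ∀ h ∈ Om0, ∑ c ∈ univ.filter (fun c : ZMod 3 => c ≠ p h ∧ c ≠ q h), e h c = 0)
    (chart : ∀ z, ∑ h ∈ Om0.filter (fun h => p h = q h ∧ p h ≠ z),
        (Lo z h + (X0 z h - X12 z h) ^ 2)
      ≤ 1 / 2 * ∑ h ∈ Om0.filter (fun h => p h ≠ z ∧ q h ≠ z), Jg z h)
    (ih0 : 0 ≤ ∑ h ∈ Om0, ((∑ z, X0 z h) ^ 2 - 1 / 2 * ∑ z, C0 z h))
    (ih1 : 0 ≤ ∑ h ∈ Om0.filter (fun h => p h = q h),
      ((∑ z, X12 z h) ^ 2 - 1 / 2 * ∑ z, C12 z h)) :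
    0 ≤ ∑ h ∈ Om0, ∑ c ∈ univ.filter (fun c : ZMod 3 => c ≠ p h ∧ c ≠ q h),
      ((∑ z, XG h c z + e h c) ^ 2 - 1 / 2 * e h c ^ 2 - 1 / 2 * ∑ z, CG h c z) := by
  have key : ∀ h ∈ Om0,
      ((∑ z, X0 z h) ^ 2 - 1 / 2 * ∑ z, C0 z h)
      + (if p h = q h then (∑ z, X12 z h) ^ 2 - 1 / 2 * ∑ z, C12 z h else 0)
      + 1 / 2 * ∑ z, (if p h ≠ z ∧ q h ≠ z then Jg z h else 0)
      - ∑ z, (if p h = q h ∧ p h ≠ z then Lo z h + (X0 z h - X12 z h) ^ 2 else 0)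
      ≤ ∑ c ∈ univ.filter (fun c : ZMod 3 => c ≠ p h ∧ c ≠ q h),
          ((∑ z, XG h c z + e h c) ^ 2 - 1 / 2 * e h c ^ 2 - 1 / 2 * ∑ z, CG h c z) := by
    intro h hh
    exact fibre (fun z => X0 z h) (fun z => X12 z h) (fun z => C0 z h) (fun z => C12 z h)
      (fun z => Jg z h) (fun z => Lo z h) (XG h) (CG h) (e h) (p h) (q h)
      (hX h hh) (hC h hh) (hXx h hh) (hCx h hh) (he h hh)
  refine le_trans ?_ (sum_le_sum key)
  rw [sum_sub_distrib, sum_add_distrib, sum_add_distrib, ← mul_sum]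
  have e1 : ∑ h ∈ Om0, (if p h = q h then (∑ z, X12 z h) ^ 2 - 1 / 2 * ∑ z, C12 z h else 0)
      = ∑ h ∈ Om0.filter (fun h => p h = q h),
        ((∑ z, X12 z h) ^ 2 - 1 / 2 * ∑ z, C12 z h) := by
    rw [sum_filter]
  have e2 : ∑ h ∈ Om0, ∑ z, (if p h ≠ z ∧ q h ≠ z then Jg z h else 0)
      = ∑ z, ∑ h ∈ Om0.filter (fun h => p h ≠ z ∧ q h ≠ z), Jg z h := by
    rw [sum_comm]
    refine sum_congr rfl fun z _ => ?_
    rw [sum_filter]
  have e3 : ∑ h ∈ Om0, ∑ z, (if p h = q h ∧ p h ≠ z then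
        Lo z h + (X0 z h - X12 z h) ^ 2 else 0)
      = ∑ z, ∑ h ∈ Om0.filter (fun h => p h = q h ∧ p h ≠ z),
        (Lo z h + (X0 z h - X12 z h) ^ 2) := by
    rw [sum_comm]
    refine sum_congr rfl fun z _ => ?_
    rw [sum_filter]
  rw [e1, e2, e3]
  have e4 : ∑ z : ZMod 3, ∑ h ∈ Om0.filter (fun h => p h = q h ∧ p h ≠ z),
        (Lo z h + (X0 z h - X12 z h) ^ 2)
      ≤ 1 / 2 * ∑ z : ZMod 3, ∑ h ∈ Om0.filter (fun h => p h ≠ z ∧ q h ≠ z), Jg z h := by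
    rw [mul_sum]
    exact sum_le_sum fun z _ => chart z
  linarith

end Pool.Agent.Nest.F20
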