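import Pool.Agent.Lib.MP_26a019_lc.Nest.Chart20
import Pool.Agent.Lib.MP_26a019_lc.Nest.Face20Sum

set_option autoImplicit false
set_option linter.unusedSectionVars false

/-!
# The face inequality for a vertex with two inequality edges
-/

open Finset Classical

namespace Pool.Agent.Nest

variable {V : Type} [Fintype V]

namespace FP.Two

variable {I : Ins V} {v w₁ w₂ : V}

theorem mvv (D : Two I v w₁ w₂) : I.m v v < 2 := by
  rw [D.mv D.hv]
  simp [D.ne1, D.ne2]

theorem a1 (D : Two I v w₁ w₂) : I.a v w₁ ≠ 0 := by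
  rw [D.ha w₁ (mem_erase.1 D.h1).2]
  simp

theorem a2 (D : Two I v w₁ w₂) : I.a v w₂ ≠ 0 := by
  rw [D.ha w₂ (mem_erase.1 D.h2).2]
  simp

theorem n1 (D : Two I v w₁ w₂) {f : V → ZMod 3} (hf : f ∈ I.Om) : f v ≠ f w₁ :=
  ((mem_om.1 hf).2 v D.hv w₁ (mem_erase.1 D.h1).2).1 D.a1

theorem n2 (D : Two I v w₁ w₂) {f : V → ZMod 3} (hf : f ∈ I.Om) : f v ≠ f w₂ :=
  ((mem_om.1 hf).2 v D.hv w₂ (mem_erase.1 D.h2).2).1 D.a2

/-- the vertex `v` alone is movable iff both neighbours have the excluded colour -/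
theorem sv_iff (D : Two I v w₁ w₂) {f : V → ZMod 3} (hf : f ∈ I.Om) (z : ZMod 3) :
    {v} ∈ kf I.m (bz I.A z f) ↔ f w₁ = z ∧ f w₂ = z := by
  rw [FG.sv_mem_kf]
  constructor
  · rintro ⟨_, h2, _⟩
    constructor
    · by_contra h
      have := h2 w₁ (mem_bz.2 ⟨(mem_erase.1 D.h1).2, h⟩) D.ne1.symm
      rw [D.mv (mem_erase.1 D.h1).2] at this
      simp at this
    · by_contra h
      have := h2 w₂ (mem_bz.2 ⟨(mem_erase.1 D.h2).2, h⟩) D.ne2.symm
      rw [D.mv (mem_erase.1 D.h2).2] at this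
      simp at this
  · rintro ⟨e1, e2⟩
    refine ⟨mem_bz.2 ⟨D.hv, ?_⟩, fun w hw _ => ?_, D.mvv⟩
    · rw [← e1]
      exact D.n1 hf
    · obtain ⟨hwA, hwz⟩ := mem_bz.1 hw
      rw [D.mv hwA]
      have b1 : w ≠ w₁ := fun h => hwz (h ▸ e1)
      have b2 : w ≠ w₂ := fun h => hwz (h ▸ e2)
      simp [b1, b2]

/-- the colours available at `v` -/
theorem av_eq (D : Two I v w₁ w₂) (k : V → ZMod 3) :
    av I v k = univ.filter (fun c : ZMod 3 => c ≠ k w₁ ∧ c ≠ k w₂) := by
  ext c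
  rw [mem_av, mem_filter]
  constructor
  · intro h
    exact ⟨mem_univ _, (h w₁ D.h1).1 D.a1, (h w₂ D.h2).1 D.a2⟩
  · rintro ⟨_, h1, h2⟩ u hu
    refine ⟨fun ha => ?_, fun hb => ?_⟩
    · rw [D.ha u (mem_erase.1 hu).2] at ha
      by_cases e1 : u = w₁
      · rw [e1]; exact h1
      · by_cases e2 : u = w₂
        · rw [e2]; exact h2
        · exfalso
          apply ha
          simp [e1, e2]
    · exact absurd (D.hb u (mem_erase.1 hu).2) hb

theorem dead {k : V → ZMod 3} (hk : k ∈ (I.del v).Om) : k v = 0 :=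
  (mem_om.1 hk).1 v (by simp [Ins.del])

theorem rs_mem {f : V → ZMod 3} (hI : I.Ok) (hv : v ∈ I.A) (hf : f ∈ I.Om) :
    rs v f ∈ (I.del v).Om := by
  have h1 : Function.update (rs v f) v (f v) ∈ I.Om := by
    rw [update_rs]
    exact hf
  exact ((mem_om_iff I hI v hv (rs v f) (f v) (rs_self v f)).1 h1).1

/-- the values of `η` on a fibre -/
theorem eta_fib (D : Two I v w₁ w₂) (η : (V → ZMod 3) → ℝ)
    (he : ∀ w : (V → ZMod 3) → ℝ,
      (∀ z, ∀ f ∈ I.Om, {v} ∈ kf I.m (bz I.A z f) → w (fz z {v} f) = w f) →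
      ∑ f ∈ I.Om, η f * w f = 0) {f : V → ZMod 3} (hf : f ∈ I.Om) :
    ∑ c ∈ univ.filter (fun c : ZMod 3 => c ≠ f w₁ ∧ c ≠ f w₂),
      η (Function.update f v c) = 0 := by
  have h := FG.fib_zero D.ok D.hv η he (rs_mem D.ok D.hv hf)
  rw [D.av_eq, rs_of_ne f D.ne1.symm, rs_of_ne f D.ne2.symm] at h
  rw [← h]
  refine sum_congr rfl fun c _ => ?_
  congr 1
  unfold rs
  rw [Function.update_idem]

theorem fz_update (z : ZMod 3) (f : V → ZMod 3) :
    fz z {v} f = Function.update f v (- z - f v) := by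
  funext u
  unfold fz
  by_cases h : u = v
  · subst h
    simp
  · simp [h]

theorem zc7 {x z : ZMod 3} (h : x ≠ z) :
    (x = z + 1 ∧ -z - x = z + 2) ∨ (x = z + 2 ∧ -z - x = z + 1) := by
  revert x z; decide

theorem eta_flip (D : Two I v w₁ w₂) (η : (V → ZMod 3) → ℝ)
    (he : ∀ w : (V → ZMod 3) → ℝ,
      (∀ z, ∀ f ∈ I.Om, {v} ∈ kf I.m (bz I.A z f) → w (fz z {v} f) = w f) →
      ∑ f ∈ I.Om, η f * w f = 0) {f : V → ZMod 3} (hf : f ∈ I.Om) {z : ZMod 3}
    (hz : {v} ∈ kf I.m (bz I.A z f)) : η (fz z {v} f) = - η f := by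
  obtain ⟨e1, e2⟩ := (D.sv_iff hf z).1 hz
  have h := D.eta_fib η he hf
  rw [e1, e2, F20.avE, sum_pair (F20.ne12 z)] at h
  have hn := D.n1 hf
  rw [e1] at hn
  have hfv : Function.update f v (f v) = f := Function.update_eq_self v f
  rw [fz_update]
  have hc : (f v = z + 1 ∧ -z - f v = z + 2) ∨ (f v = z + 2 ∧ -z - f v = z + 1) :=
    zc7 hn
  rcases hc with ⟨c1, c2⟩ | ⟨c1, c2⟩
  · rw [c2]
    rw [← c1, hfv] at h
    linarith
  · rw [c2]
    rw [← c1, hfv] at h
    linarith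

theorem eta_single (D : Two I v w₁ w₂) (η : (V → ZMod 3) → ℝ)
    (he : ∀ w : (V → ZMod 3) → ℝ,
      (∀ z, ∀ f ∈ I.Om, {v} ∈ kf I.m (bz I.A z f) → w (fz z {v} f) = w f) →
      ∑ f ∈ I.Om, η f * w f = 0) {f : V → ZMod 3} (hf : f ∈ I.Om) (hne : f w₁ ≠ f w₂) :
    η f = 0 := by
  have h := D.eta_fib η he hf
  rw [F20.avN hne, sum_singleton] at h
  have e : f v = - f w₁ - f w₂ := FG.zc1 hne (D.n1 hf) (D.n2 hf)
  rw [← e, Function.update_eq_self] at h
  exact h

/-- **The face inequality for a vertex with two inequality edges.** -/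
theorem face (D : Two I v w₁ w₂) (ρ : V → ℝ) (hv : ρ v = 0)
    (hρ : ∀ u ∈ I.A, u ≠ v → 0 < ρ u) (ih0 : ∀ g, 0 ≤ Q3 (I.del v) ρ g)
    (ih1 : ∀ g, 0 ≤ Q3 (I.delB v w₁ w₂) ρ g) :
    FaceR I (I.delB v w₁ w₂).m v ρ I.s := by
  intro h η hinv horth
  obtain ⟨u0, hu0⟩ := FG.fact D.ok D.hv D.mvv h hinv
  obtain ⟨g, hg⟩ : ∃ g : (V → ZMod 3) → ℝ, ∀ f, g f = u0 (rs v f) :=
    ⟨fun f => u0 (rs v f), fun _ => rfl⟩
  obtain ⟨θ, hθ⟩ : ∃ θ : ZMod 3 → (V → ZMod 3) → ℝ,
      ∀ z f, θ z f = if {v} ∈ kf I.m (bz I.A z f) then η f else 0 :=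
    ⟨fun z f => if {v} ∈ kf I.m (bz I.A z f) then η f else 0, fun _ _ => rfl⟩
  have hsum : ∀ f ∈ I.Om, ∀ F : ℝ → ℝ, F 0 = 0 → ∑ z, F (θ z f) = F (η f) := by
    intro f hf F hF
    have e : ∀ z, F (θ z f) = if f w₁ = z ∧ f w₂ = z then F (η f) else 0 := by
      intro z
      rw [hθ]
      by_cases hz : {v} ∈ kf I.m (bz I.A z f)
      · rw [if_pos hz, if_pos ((D.sv_iff hf z).1 hz)]
      · rw [if_neg hz, if_neg (fun h' => hz ((D.sv_iff hf z).2 h')), hF]
    rw [sum_congr rfl (fun z _ => e z)]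
    by_cases hne : f w₁ = f w₂
    · have e2 : ∀ z, (if f w₁ = z ∧ f w₂ = z then F (η f) else 0)
          = if f w₁ = z then F (η f) else 0 := by
        intro z
        rw [← hne]
        simp only [and_self]
      rw [sum_congr rfl (fun z _ => e2 z), sum_ite_eq, if_pos (mem_univ _)]
    · rw [D.eta_single η horth hf hne, hF]
      simp
  refine ⟨θ, ?_, ?_, ?_, ?_⟩
  · intro z f _ hz
    rw [hθ, if_neg hz]
  · intro z f hf hz
    rw [hθ, hθ, bz_fz, if_pos hz, if_pos hz]
    exact D.eta_flip η horth hf hz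
  · intro f hf
    exact hsum f hf (fun x => x) rfl
  · -- the inequality
    have hop : ∀ z, ∀ f ∈ I.Om, ∀ μ : Finset V → Finset V → ℝ,
        op I.m I.A z μ h f = op I.m I.A z μ g f := by
      intro z f hf μ
      exact FG.op_congr D.ok z μ (fun f hf => by rw [hu0 f hf, hg]) hf
    have hsq : ∀ f ∈ I.Om, ∑ z, θ z f ^ 2 = η f ^ 2 := by
      intro f hf
      exact hsum f hf (fun x => x ^ 2) (by norm_num)
    obtain ⟨A0, hA0⟩ : ∃ A0, A0 = I.A.erase v := ⟨_, rfl⟩
    have hw1 : ∀ (k : V → ZMod 3) (c : ZMod 3), Function.update k v c w₁ = k w₁ := fun k c =>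
      Function.update_of_ne D.ne1.symm c k
    have hw2 : ∀ (k : V → ZMod 3) (c : ZMod 3), Function.update k v c w₂ = k w₂ := fun k c =>
      Function.update_of_ne D.ne2.symm c k
    have hrs : ∀ k ∈ (I.del v).Om, ∀ c, rs v (Function.update k v c) = k := by
      intro k hk c
      rw [rs_update, rs_of_dead (dead hk)]
    have hout : ∀ k : V → ZMod 3, k w₁ = k w₂ →
        kf (I.delB v w₁ w₂).m (bz (I.A.erase v) (k w₁) k)
          = kf I.m (bz (I.A.erase v) (k w₁) k) := by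
      intro k _
      refine kf_link_out (link_eq I v w₁ w₂) ?_
      rintro ⟨a, _⟩
      exact (mem_bz.1 a).2 rfl
    have main := F20.sums (I.del v).Om (fun k => k w₁) (fun k => k w₂)
      (fun z k => op I.m (I.A.erase v) z (lam I.m ρ) u0 k)
      (fun z k => op (I.delB v w₁ w₂).m (I.A.erase v) z (lam (I.delB v w₁ w₂).m ρ) u0 k)
      (fun z k => u0 k * op I.m (I.A.erase v) z (cst I.m ρ (I.del v).s) u0 k)
      (fun z k => u0 k * op (I.delB v w₁ w₂).m (I.A.erase v) z
        (cst (I.delB v w₁ w₂).m ρ (I.delB v w₁ w₂).s) u0 k)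
      (fun z k => u0 k * (op I.m (I.A.erase v) z (lin I.m ρ w₁) u0 k
        + op I.m (I.A.erase v) z (lin I.m ρ w₂) u0 k))
      (fun z k => u0 k * op (I.delB v w₁ w₂).m (I.A.erase v) z
        (lin (I.delB v w₁ w₂).m ρ w₁) u0 k)
      (fun k c z => op I.m I.A z (lamk (kap I.m (I.delB v w₁ w₂).m ρ v) ρ) g
        (Function.update k v c))
      (fun k c z => u0 k * op I.m I.A z (cstk (kap I.m (I.delB v w₁ w₂).m ρ v) ρ I.s) g
        (Function.update k v c))
      (fun k c => η (Function.update k v c))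
      (by
        intro k hk z c hc1 hc2
        by_cases hzc : z = c
        · rw [if_neg (fun h' => h'.1 hzc)]
          have hfz : Function.update k v c v = z := by rw [Function.update_self, hzc]
          rw [X_out ρ g u0 hg I.m (I.delB v w₁ w₂).m I.A hfz, hrs k hk c]
        · have hfz : Function.update k v c v ≠ z := by
            rw [Function.update_self]
            exact fun h' => hzc h'.symm
          by_cases hzz : k w₁ ≠ z ∧ k w₂ ≠ z
          · rw [if_pos ⟨hzc, hzz.1, hzz.2⟩, D.X_in ρ hv g u0 hg hfz, hrs k hk c]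
          · rw [if_neg (fun h' => hzz h'.2), D.X_not ρ hv g u0 hg hfz ?_, hrs k hk c]
            rw [hw1, hw2]
            by_contra hcon
            push Not at hcon
            exact hzz hcon)
      (by
        intro k hk z c hc1 hc2
        by_cases hzc : z = c
        · rw [if_pos hzc]
          have hfz : Function.update k v c v = z := by rw [Function.update_self, hzc]
          rw [D.C_out ρ g u0 hg (I.delB v w₁ w₂).m hfz, hrs k hk c]
          ring
        · rw [if_neg hzc]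
          have hfz : Function.update k v c v ≠ z := by
            rw [Function.update_self]
            exact fun h' => hzc h'.symm
          by_cases hzz : k w₁ ≠ z ∧ k w₂ ≠ z
          · rw [if_pos hzz, D.C_both ρ hv g u0 hg hfz (by rw [hw1]; exact hzz.1)
              (by rw [hw2]; exact hzz.2), hrs k hk c]
            ring
          · rw [if_neg hzz, D.C_not ρ hv g u0 hg hfz ?_, hrs k hk c]
            rw [hw1, hw2]
            by_contra hcon
            push Not at hcon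
            exact hzz hcon)
      (by
        intro k hk he
        have hK := hout k he
        refine FP.op_congr hK (fun S => ?_)
        unfold lam rr
        rw [FP.km_congr_kf hK])
      (by
        intro k hk he
        have hK := hout k he
        have h5 : op (I.delB v w₁ w₂).m (I.A.erase v) (k w₁)
            (cst (I.delB v w₁ w₂).m ρ (I.delB v w₁ w₂).s) u0 k
            = op I.m (I.A.erase v) (k w₁) (cst I.m ρ (I.del v).s) u0 k := by
          refine FP.op_congr hK (fun S => ?_)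
          unfold cst lam rr
          rw [FP.km_congr_kf hK, D.sum_sB]
          have c1 : w₁ ∉ km I.m ρ (bz (I.A.erase v) (k w₁) k) S := fun h' =>
            (mem_bz.1 (kf_sub (km_mem_kf _ _ _ _) h')).2 rfl
          have c2 : w₂ ∉ km I.m ρ (bz (I.A.erase v) (k w₁) k) S := fun h' =>
            (mem_bz.1 (kf_sub (km_mem_kf _ _ _ _) h')).2 he.symm
          unfold cn
          rw [if_neg c1, if_neg c2]
          ring
        show u0 k * _ = u0 k * _
        rw [h5])
      (by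
        intro k hk
        rw [← D.av_eq]
        exact FG.fib_zero D.ok D.hv η horth hk)
      (by
        intro z
        exact FG.chart20 D.ok D.h1 D.h2 ρ hρ z u0)
      (ih0 u0)
      (by
        have := ih1 u0
        unfold Q3 at this
        rw [FG.om_delB I D.h1 D.h2] at this
        exact this)
    -- back to the states of `I`
    have hfib := sum_fib I D.ok v D.hv (fun f =>
      (∑ z, op I.m I.A z (lamk (kap I.m (I.delB v w₁ w₂).m ρ v) ρ) g f + η f) ^ 2
        - 1 / 2 * η f ^ 2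
        - 1 / 2 * ∑ z, g f * op I.m I.A z (cstk (kap I.m (I.delB v w₁ w₂).m ρ v) ρ I.s) g f)
    have hmain : 0 ≤ ∑ f ∈ I.Om,
      ((∑ z, op I.m I.A z (lamk (kap I.m (I.delB v w₁ w₂).m ρ v) ρ) g f + η f) ^ 2
        - 1 / 2 * η f ^ 2
        - 1 / 2 * ∑ z, g f * op I.m I.A z
          (cstk (kap I.m (I.delB v w₁ w₂).m ρ v) ρ I.s) g f) := by
      rw [hfib]
      refine le_trans main (le_of_eq ?_)
      refine sum_congr rfl fun k hk => ?_
      rw [← D.av_eq]
      refine sum_congr rfl fun c _ => ?_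
      rw [hg (Function.update k v c), hrs k hk c]
    rw [sum_sub_distrib, sum_sub_distrib] at hmain
    have e1 : ∑ f ∈ I.Om,
        (∑ z, op I.m I.A z (lamk (kap I.m (I.delB v w₁ w₂).m ρ v) ρ) h f + η f) ^ 2
        = ∑ f ∈ I.Om,
          (∑ z, op I.m I.A z (lamk (kap I.m (I.delB v w₁ w₂).m ρ v) ρ) g f + η f) ^ 2 := by
      refine sum_congr rfl fun f hf => ?_
      congr 2
      exact sum_congr rfl fun z _ => hop z f hf _
    have e2 : ∑ f ∈ I.Om, ∑ z, (h f * op I.m I.A z (fun B S =>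
          (∑ u ∈ kap I.m (I.delB v w₁ w₂).m ρ v B S, I.s u) *
            lamk (kap I.m (I.delB v w₁ w₂).m ρ v) ρ B S ^ 2) h f + I.s v * θ z f ^ 2)
        = ∑ f ∈ I.Om, (∑ z, g f * op I.m I.A z
          (cstk (kap I.m (I.delB v w₁ w₂).m ρ v) ρ I.s) g f + η f ^ 2) := by
      refine sum_congr rfl fun f hf => ?_
      rw [sum_add_distrib, ← mul_sum univ (fun z => θ z f ^ 2), hsq f hf, D.s_v, one_mul]
      congr 1
      refine sum_congr rfl fun z _ => ?_
      rw [hop z f hf, hu0 f hf, ← hg]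
      rfl
    rw [e1, e2, sum_add_distrib]
    rw [← mul_sum, ← mul_sum] at hmain
    linarith

end FP.Two

/-- The case of two inequality edges, in the form used by the induction. -/
theorem face_20 (I : Ins V) (hI : I.Ok) {v w₁ w₂ : V} (hv : v ∈ I.A)
    (hw₁ : w₁ ∈ I.A.erase v) (hw₂ : w₂ ∈ I.A.erase v)
    (ρ : V → ℝ) (hρv : ρ v = 0) (hρ : ∀ u ∈ I.A.erase v, 0 < ρ u)
    (ha : ∀ u ∈ I.A, I.a v u = (if u = w₁ then 1 else 0) + (if u = w₂ then 1 else 0))
    (hb : ∀ u ∈ I.A, I.b v u = 0)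
    (IH : ∀ g, 0 ≤ Q3 (I.del v) ρ g) (IH' : ∀ g, 0 ≤ Q3 (I.delB v w₁ w₂) ρ g) :
    FaceR I (I.delB v w₁ w₂).m v ρ I.s :=
  FP.Two.face ⟨hI, hv, hw₁, hw₂, ha, hb⟩ ρ hρv
    (fun u hu hne => hρ u (mem_erase.2 ⟨hne, hu⟩)) IH IH'

end Pool.Agent.Nest
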