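import Pool.Agent.Lib.MP_26a019_lc.Nest.InsFS

set_option autoImplicit false

/-!
The face inequality at a vertex of resistance zero: common lemmas.
-/

open Finset Classical

namespace Pool.Agent.Nest.F42

variable {V : Type} [Fintype V]

/-- two states which differ only at `v` are joined by a flip of `v` -/
theorem rs_eq_flip (I : Ins V) {v : V} (hvA : v ∈ I.A) (hvv : I.m v v < 2)
    {f f' : V → ZMod 3} (hf : f ∈ I.Om) (hf' : f' ∈ I.Om) (h : rs v f = rs v f')
    (hne : f v ≠ f' v) :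
    {v} ∈ kf I.m (bz I.A (- f v - f' v) f) ∧ fz (- f v - f' v) {v} f = f' := by
  obtain ⟨-, h2⟩ := mem_om.1 hf
  obtain ⟨-, h2'⟩ := mem_om.1 hf'
  have hu : ∀ u, u ≠ v → f u = f' u := by
    intro u hu
    have := congrFun h u
    rwa [rs_of_ne _ hu, rs_of_ne _ hu] at this
  have zm : ∀ x y : ZMod 3, x ≠ y → x ≠ - x - y := by decide
  have zm2 : ∀ x y : ZMod 3, - (- x - y) - x = y := by decide
  refine ⟨single_mem_kf.2 ⟨mem_bz.2 ⟨hvA, zm _ _ hne⟩, hvv, ?_⟩, ?_⟩
  · intro w hw
    obtain ⟨hwv, hw⟩ := mem_erase.1 hw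
    obtain ⟨hwA, hwz⟩ := mem_bz.1 hw
    by_contra hm
    have hab : I.a v w ≠ 0 ∨ I.b v w ≠ 0 := by
      unfold Ins.m at hm; omega
    rcases hab with ha | hb
    · have e1 := (h2 v hvA w hwA).1 ha
      have e2 := (h2' v hvA w hwA).1 ha
      rw [← hu w hwv] at e2
      have zm3 : ∀ x y t : ZMod 3, x ≠ y → x ≠ t → y ≠ t → t = - x - y := by decide
      exact hwz (zm3 _ _ _ hne e1 e2)
    · have e1 := (h2 v hvA w hwA).2 hb
      have e2 := (h2' v hvA w hwA).2 hb
      rw [← hu w hwv] at e2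
      exact hne (e1.trans e2.symm)
  · funext u
    unfold fz
    by_cases huv : u = v
    · subst huv
      simp only [mem_singleton, if_true]
      exact zm2 _ _
    · simp only [mem_singleton, huv, if_false]
      exact hu u huv

/-- a function invariant under the flips of `v` is a function of the colouring after deletion -/
theorem exists_res (I : Ins V) {v : V} (hvA : v ∈ I.A) (hvv : I.m v v < 2)
    (h : (V → ZMod 3) → ℝ)
    (hh : ∀ z : ZMod 3, ∀ f ∈ I.Om, {v} ∈ kf I.m (bz I.A z f) → h (fz z {v} f) = h f) :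
    ∃ g : (V → ZMod 3) → ℝ, ∀ f ∈ I.Om, h f = g (rs v f) := by
  refine ⟨fun k => if hk : ∃ f ∈ I.Om, rs v f = k then h hk.choose else 0, fun f hf => ?_⟩
  have hk : ∃ f' ∈ I.Om, rs v f' = rs v f := ⟨f, hf, rfl⟩
  simp only [dif_pos hk]
  obtain ⟨h1, h2⟩ := hk.choose_spec
  set f' := hk.choose
  by_cases hne : f' v = f v
  · have : f' = f := by
      rw [← update_rs v f', ← update_rs v f, h2, hne]
    rw [this]
  · obtain ⟨e1, e2⟩ := rs_eq_flip I hvA hvv h1 hf h2 hne
    rw [← e2]
    exact hh _ _ h1 e1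

/-- `rs v` does not see the flip of `v` -/
theorem rs_fz_single (z : ZMod 3) (v : V) (f : V → ZMod 3) : rs v (fz z {v} f) = rs v f := by
  funext u
  by_cases hu : u = v
  · subst hu
    rw [rs_self, rs_self]
  · rw [rs_of_ne _ hu, rs_of_ne _ hu]
    simp [fz, hu]

/-- the sum of `η` over the extensions of a colouring is zero -/
theorem sum_eta (I : Ins V) (v : V) (η : (V → ZMod 3) → ℝ)
    (hη : ∀ w : (V → ZMod 3) → ℝ,
      (∀ z, ∀ f ∈ I.Om, {v} ∈ kf I.m (bz I.A z f) → w (fz z {v} f) = w f) →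
        ∑ f ∈ I.Om, η f * w f = 0) (φ : (V → ZMod 3) → ℝ) :
    ∑ f ∈ I.Om, η f * φ (rs v f) = 0 :=
  hη (fun f => φ (rs v f)) (fun z f _ _ => by rw [rs_fz_single])

theorem sum_eta_fib (I : Ins V) (hI : I.Ok) (v : V) (hvA : v ∈ I.A) (η : (V → ZMod 3) → ℝ)
    (hη : ∀ w : (V → ZMod 3) → ℝ,
      (∀ z, ∀ f ∈ I.Om, {v} ∈ kf I.m (bz I.A z f) → w (fz z {v} f) = w f) →
        ∑ f ∈ I.Om, η f * w f = 0) {k : V → ZMod 3} (hk : k ∈ (I.del v).Om) :
    ∑ c ∈ av I v k, η (Function.update k v c) = 0 := by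
  have h := sum_eta I v η hη (fun k' => if k' = k then 1 else 0)
  rw [sum_fib I hI v hvA] at h
  rw [← h]
  rw [sum_eq_single k]
  · refine sum_congr rfl fun c _ => ?_
    have hk0 : k v = 0 := (mem_om.1 hk).1 v (by simp [Ins.del])
    rw [rs_update, rs_of_dead hk0, if_pos rfl, mul_one]
  · intro k' hk' hne
    refine sum_eq_zero fun c _ => ?_
    have hk0 : k' v = 0 := (mem_om.1 hk').1 v (by simp [Ins.del])
    rw [rs_update, rs_of_dead hk0, if_neg hne, mul_zero]
  · intro h'; exact absurd hk h'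

/-- modes with the same restriction to the movable sets have the same minimal set -/
theorem km_congr {m : V → V → ℕ} (ρ : V → ℝ) {B S S' : Finset V}
    (h : ∀ T ∈ kf m B, chi S T = chi S' T) : km m ρ B S = km m ρ B S' := by
  have h : adm m B S = adm m B S' := by
    unfold adm
    refine filter_congr fun T hT => ?_
    rw [LinkAux.odd_iff_chi, LinkAux.odd_iff_chi, h T hT]
  unfold km
  simp only [h]

/-- modes which differ only at `v` have the same minimal set, away from `v` -/
theorem km_erase (m : V → V → ℕ) (ρ : V → ℝ) (v : V) (B S : Finset V) :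
    km m ρ (B.erase v) (S.erase v) = km m ρ (B.erase v) S := by
  refine km_congr ρ fun T hT => ?_
  have : S.erase v ∩ T = S ∩ T := by
    have hvT := notMem_of_kf_erase hT
    ext u
    simp only [mem_inter, mem_erase]
    constructor
    · rintro ⟨⟨_, a⟩, b⟩; exact ⟨a, b⟩
    · rintro ⟨a, b⟩
      exact ⟨⟨fun hu => hvT (hu ▸ b), a⟩, b⟩
  unfold chi
  rw [this]

/-- the multiplier belonging to a choice function -/
noncomputable def mulk (κ : Finset V → Finset V → Finset V) (c : Finset V → ℝ)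
    (B S : Finset V) : ℝ := c (κ B S)

/-- the operator at a state where `v` has the colour `z` -/
theorem op_at_eq (I : Ins V) (m' : V → V → ℕ) (ρ : V → ℝ) (v : V) (c : Finset V → ℝ)
    (g : (V → ZMod 3) → ℝ) {z : ZMod 3} {f : V → ZMod 3} (hz : f v = z) :
    op I.m I.A z (mulk (kap I.m m' ρ v) c) (fun f => g (rs v f)) f =
      op I.m (I.A.erase v) z (mulk (km I.m ρ) c) g (rs v f) := by
  have h1 : op I.m I.A z (mulk (kap I.m m' ρ v) c) (fun f => g (rs v f)) f =
      op I.m I.A z (mulk (km I.m ρ) c) (fun f => g (rs v f)) f := by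
    refine opI_congr (fun S => ?_) (fun _ _ => rfl)
    unfold mulk
    rw [kap_out]
    exact fun h => (mem_bz.1 h).2 hz
  rw [h1]
  exact op_rs_eq I.m I.A z _ _ g v (fun _ => rfl) f hz

/-- the operator at a state where `v` is isolated in the bichromatic set -/
theorem op_at_iso (I : Ins V) (m' : V → V → ℕ) (ρ : V → ℝ) (v : V) (hvA : v ∈ I.A)
    (c : Finset V → ℝ) (hc : c {v} = 0)
    (g : (V → ZMod 3) → ℝ) {z : ZMod 3} {f : V → ZMod 3} (hz : f v ≠ z)
    (E : El I.m m' v (bz I.A z f)) (h0 : ∀ w ∈ (bz I.A z f).erase v, I.m v w = 0) :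
    op I.m I.A z (mulk (kap I.m m' ρ v) c) (fun f => g (rs v f)) f =
      op m' (I.A.erase v) z (mulk (km m' ρ) c) g (rs v f) := by
  have hvB : v ∈ bz I.A z f := mem_bz.2 ⟨hvA, hz⟩
  have hB : (bz I.A z f).erase v = bz (I.A.erase v) z (rs v f) := by
    rw [bz_rs_ne hvA hz, erase_insert not_mem_bz_rs]
  unfold op
  rw [E.cv_iso hvB h0 _ (mulk (km m' ρ) c ((bz I.A z f).erase v))]
  · rw [hB]
    unfold cv
    congr 1
    refine sum_congr rfl fun S _ => ?_
    congr 1
    refine sum_congr rfl fun T hT => ?_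
    congr 1
    show g (rs v (fz z T f)) = g (fz z T (rs v f))
    rw [rs_fz_of_not_mem]
    rw [← hB] at hT
    exact notMem_of_kf_erase hT
  · intro S hS
    unfold mulk
    rw [kap_iso hvB h0, if_pos hS, hc]
  · intro S hS
    unfold mulk
    rw [kap_iso hvB h0, if_neg hS]
  · intro S
    unfold mulk
    rw [km_erase]
  · intro T hT
    show g (rs v (fz z (insert v T) f)) = g (rs v (fz z T f))
    rw [rs_fz_insert (notMem_of_kf_erase hT), rs_fz_of_not_mem (notMem_of_kf_erase hT)]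

/-- the operator at a state where `v` hangs at `w`; the constant of the choice is evaluated at
the extended set -/
theorem op_at_hang (I : Ins V) (m' : V → V → ℕ) (ρ : V → ℝ) (v w : V) (hvA : v ∈ I.A)
    (c : Finset V → ℝ)
    (g : (V → ZMod 3) → ℝ) {z : ZMod 3} {f : V → ZMod 3} (hz : f v ≠ z)
    (E : El I.m m' v (bz I.A z f)) (hw : w ∈ (bz I.A z f).erase v) (hne : I.m v w ≠ 0) :
    op I.m I.A z (mulk (kap I.m m' ρ v) c) (fun f => g (rs v f)) f =
      op m' (I.A.erase v) z (mulk (km m' ρ) (fun T => c (ext v w T))) g (rs v f) := by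
  have hvB : v ∈ bz I.A z f := mem_bz.2 ⟨hvA, hz⟩
  have hvw : v ≠ w := (mem_erase.1 hw).1.symm
  have hB : (bz I.A z f).erase v = bz (I.A.erase v) z (rs v f) := by
    rw [bz_rs_ne hvA hz, erase_insert not_mem_bz_rs]
  unfold op
  rw [E.cv_hang hw hvB hne]
  rw [hB]
  unfold cv
  congr 1
  refine sum_congr rfl fun S _ => ?_
  congr 1
  · show c (kap I.m m' ρ v (bz I.A z f) (lb v w S)) =
      c (ext v w (km m' ρ (bz (I.A.erase v) z (rs v f)) S))
    obtain ⟨w', hw', hne', e⟩ := E.kap_hang (ρ := ρ) hw hvB hne (lb v w S)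
    have e2 : km m' ρ ((bz I.A z f).erase v) (lb v w' (lb v w S)) =
        km m' ρ ((bz I.A z f).erase v) S := by
      refine km_congr ρ fun T hT => ?_
      have hvT := notMem_of_kf_erase hT
      rw [← chi_ext hvT, ← E.ext_eq hw hvB hne hw' hne' hT, chi_ext hvT, lb_invol hvw]
    rw [e, e2, hB]
  · refine sum_congr rfl fun T hT => ?_
    congr 1
    show g (rs v (fz z (ext v w T) f)) = g (fz z T (rs v f))
    rw [rs_fz_ext]
    rw [← hB] at hT
    exact notMem_of_kf_erase hT

end Pool.Agent.Nest.F42
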