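import Pool.Agent.Lib.MP_26a019_lc.Nest.Link
import Pool.Agent.Lib.MP_26a019_lc.Nest.Fib80
import Pool.Agent.Lib.MP_26a019_lc.Nest.Fib80b

set_option autoImplicit false
set_option linter.unusedSectionVars false

/-!
# Pointwise identities on the face `ρ v = 0`

The operators of an instance with the choice `kap`, applied to a function which does not see `v`,
in terms of the operators after the elimination of `v`.
-/

open Finset Classical

namespace Pool.Agent.Nest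

namespace FP

variable {V : Type} [Fintype V]

/-! ### linearity in the multiplier -/

theorem cv_congr {K : Finset (Finset V)} {μ μ' g g' : Finset V → ℝ} (hμ : ∀ S, μ S = μ' S)
    (hg : ∀ T ∈ K, g T = g' T) : cv K μ g = cv K μ' g' := by
  unfold cv
  congr 1
  refine sum_congr rfl (fun S _ => ?_)
  rw [hμ S]
  congr 1
  exact sum_congr rfl (fun T hT => by rw [hg T hT])

theorem cv_add_mul (K : Finset (Finset V)) (μ ν g : Finset V → ℝ) :
    cv K (fun S => μ S + ν S) g = cv K μ g + cv K ν g := by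
  unfold cv
  rw [← add_div, ← sum_add_distrib]
  congr 1
  exact sum_congr rfl (fun S _ => by ring)

theorem cv_const_mul (K : Finset (Finset V)) (c : ℝ) (μ g : Finset V → ℝ) :
    cv K (fun S => c * μ S) g = c * cv K μ g := by
  unfold cv
  rw [mul_div_assoc', mul_sum]
  congr 1
  exact sum_congr rfl (fun S _ => by ring)

theorem op_congr {m m' : V → V → ℕ} {A : Finset V} {z : ZMod 3}
    {μ μ' : Finset V → Finset V → ℝ} {g : (V → ZMod 3) → ℝ} {f : V → ZMod 3}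
    (hK : kf m (bz A z f) = kf m' (bz A z f)) (hμ : ∀ S, μ (bz A z f) S = μ' (bz A z f) S) :
    op m A z μ g f = op m' A z μ' g f := by
  unfold op
  rw [hK]
  exact cv_congr hμ (fun _ _ => rfl)

theorem op_add_mul (m : V → V → ℕ) (A : Finset V) (z : ZMod 3) (μ ν : Finset V → Finset V → ℝ)
    (g : (V → ZMod 3) → ℝ) (f : V → ZMod 3) :
    op m A z (fun B S => μ B S + ν B S) g f = op m A z μ g f + op m A z ν g f :=
  cv_add_mul _ _ _ _

theorem op_const_mul (m : V → V → ℕ) (A : Finset V) (z : ZMod 3) (c : ℝ)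
    (μ : Finset V → Finset V → ℝ) (g : (V → ZMod 3) → ℝ) (f : V → ZMod 3) :
    op m A z (fun B S => c * μ B S) g f = c * op m A z μ g f :=
  cv_const_mul _ _ _ _

theorem km_congr_kf {m m' : V → V → ℕ} {ρ : V → ℝ} {B : Finset V} (h : kf m B = kf m' B)
    (S : Finset V) : km m ρ B S = km m' ρ B S := by
  have e : adm m B S = adm m' B S := by
    unfold adm
    rw [h]
  unfold km
  simp only [e]

/-! ### the operator with a function of the choice `kap` as multiplier -/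

theorem km_erase {m : V → V → ℕ} {ρ : V → ℝ} {v : V} {B S : Finset V} (hv : v ∉ B) :
    km m ρ B (S.erase v) = km m ρ B S := by
  have e : adm m B (S.erase v) = adm m B S := by
    unfold adm
    refine filter_congr (fun T hT => ?_)
    have h : S.erase v ∩ T = S ∩ T := by
      ext u
      simp only [mem_inter, mem_erase]
      constructor
      · rintro ⟨h1, h2⟩
        exact ⟨h1.2, h2⟩
      · rintro ⟨h1, h2⟩
        exact ⟨⟨fun e => hv (e ▸ kf_sub hT h2), h1⟩, h2⟩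
    rw [h]
  unfold km
  simp only [e]

theorem cv_kap {m m' : V → V → ℕ} {v : V} {B : Finset V} (E : El m m' v B) (hvB : v ∈ B)
    (ρ : V → ℝ) (Φ Φ' : Finset V → ℝ)
    (h1 : ∀ w ∈ B.erase v, m v w ≠ 0 → ∀ T ∈ kf m' (B.erase v), Φ (ext v w T) = Φ' T)
    (h2 : (∀ w ∈ B.erase v, m v w = 0) → Φ {v} = 0 ∧ ∀ T ∈ kf m' (B.erase v), Φ T = Φ' T)
    (g g' : Finset V → ℝ) (hg : ∀ T ∈ kf m B, g T = g' (T.erase v)) :
    cv (kf m B) (fun S => Φ (kap m m' ρ v B S)) g =
      cv (kf m' (B.erase v)) (fun S => Φ' (km m' ρ (B.erase v) S)) g' := by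
  by_cases hex : ∃ w ∈ B.erase v, m v w ≠ 0
  · have hk : ∀ S, kap m m' ρ v B S
        = ext v hex.choose (km m' ρ (B.erase v) (lb v hex.choose S)) := by
      intro S
      unfold kap
      rw [if_neg (not_not.2 hvB), dif_pos hex]
    obtain ⟨hw, hne⟩ := hex.choose_spec
    obtain ⟨c, hc⟩ : ∃ c, c = hex.choose := ⟨_, rfl⟩
    rw [← hc] at hk hw hne
    have hvc : v ≠ c := (mem_erase.1 hw).1.symm
    rw [E.cv_hang hw hvB hne]
    refine cv_congr (fun S => ?_) (fun T hT => ?_)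
    · rw [hk, lb_lb hvc]
      exact h1 c hw hne _ (km_mem_kf _ _ _ _)
    · rw [hg _ (E.ext_mem hw hvB hne hT), ext_erase (notMem_of_kf_erase hT)]
  · have h0 : ∀ w ∈ B.erase v, m v w = 0 := fun w hw => by
      by_contra h'
      exact hex ⟨w, hw, h'⟩
    obtain ⟨e1, e2⟩ := h2 h0
    have hgT : ∀ T ∈ kf m' (B.erase v), g T = g' T ∧ g (insert v T) = g' T := by
      intro T hT
      have hvT := notMem_of_kf_erase hT
      have hT1 : T ∈ kf m B := by
        rw [E.iso h0]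
        refine ⟨(kf_sub hT).trans (erase_subset _ _), ?_⟩
        rw [erase_eq_of_notMem hvT]
        exact hT
      have hT2 : insert v T ∈ kf m B := by
        rw [E.iso h0]
        refine ⟨insert_subset hvB ((kf_sub hT).trans (erase_subset _ _)), ?_⟩
        rw [erase_insert hvT]
        exact hT
      refine ⟨?_, ?_⟩
      · rw [hg T hT1, erase_eq_of_notMem hvT]
      · rw [hg _ hT2, erase_insert hvT]
    rw [E.cv_iso hvB h0 _ (fun S => Φ' (km m' ρ (B.erase v) S)) g ?_ ?_ ?_ ?_]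
    · exact cv_congr (fun _ => rfl) (fun T hT => (hgT T hT).1)
    · intro S hS
      show Φ (kap m m' ρ v B S) = 0
      rw [kap_iso hvB h0, if_pos hS, e1]
    · intro S hS
      show Φ (kap m m' ρ v B S) = _
      rw [kap_iso hvB h0, if_neg hS]
      exact e2 _ (km_mem_kf _ _ _ _)
    · intro S
      rw [km_erase (notMem_erase v B)]
    · intro T hT
      rw [(hgT T hT).1, (hgT T hT).2]

/-- the operator at a state where `v` has not the excluded colour -/
theorem op_kap_in {m m' : V → V → ℕ} {A : Finset V} {z : ZMod 3} {v : V} {f : V → ZMod 3}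
    (E : El m m' v (bz A z f)) (hv : v ∈ A) (hfz : f v ≠ z) (ρ : V → ℝ) (Φ Φ' : Finset V → ℝ)
    (h1 : ∀ w ∈ bz (A.erase v) z (rs v f), m v w ≠ 0 →
      ∀ T ∈ kf m' (bz (A.erase v) z (rs v f)), Φ (ext v w T) = Φ' T)
    (h2 : (∀ w ∈ bz (A.erase v) z (rs v f), m v w = 0) →
      Φ {v} = 0 ∧ ∀ T ∈ kf m' (bz (A.erase v) z (rs v f)), Φ T = Φ' T)
    (g g' : (V → ZMod 3) → ℝ) (hg : ∀ f, g f = g' (rs v f)) :
    op m A z (fun B S => Φ (kap m m' ρ v B S)) g f =
      op m' (A.erase v) z (fun B S => Φ' (km m' ρ B S)) g' (rs v f) := by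
  have hvB : v ∈ bz A z f := mem_bz.2 ⟨hv, hfz⟩
  have hB : (bz A z f).erase v = bz (A.erase v) z (rs v f) := by
    rw [bz_rs_ne hv hfz, erase_insert not_mem_bz_rs]
  unfold op
  rw [← hB] at h1 h2 ⊢
  refine cv_kap E hvB ρ Φ Φ' h1 h2 _ _ (fun T hT => ?_)
  show g (fz z T f) = g' (fz z (T.erase v) (rs v f))
  rw [hg]
  by_cases hvT : v ∈ T
  · rw [← rs_fz_insert (notMem_erase v T), insert_erase hvT]
  · rw [erase_eq_of_notMem hvT, rs_fz_of_not_mem hvT]

/-- the operator at a state where `v` has the excluded colour -/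
theorem op_kap_out {m m' : V → V → ℕ} {A : Finset V} {z : ZMod 3} {v : V} {f : V → ZMod 3}
    (hfz : f v = z) (ρ : V → ℝ) (Φ : Finset V → ℝ)
    (g g' : (V → ZMod 3) → ℝ) (hg : ∀ f, g f = g' (rs v f)) :
    op m A z (fun B S => Φ (kap m m' ρ v B S)) g f =
      op m (A.erase v) z (fun B S => Φ (km m ρ B S)) g' (rs v f) := by
  unfold op
  rw [bz_rs_eq hfz]
  have hvB : v ∉ bz A z f := fun h => (mem_bz.1 h).2 hfz
  refine cv_congr (fun S => ?_) (fun T hT => ?_)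
  · show Φ (kap m m' ρ v (bz A z f) S) = Φ (km m ρ (bz A z f) S)
    rw [kap_out hvB]
  · show g (fz z T f) = g' (fz z T (rs v f))
    have hvT : v ∉ T := fun h => hvB (kf_sub hT h)
    rw [hg, rs_fz_of_not_mem hvT]

/-! ### the case of two inequality edges -/

/-- number of the two vertices which lie in `T` -/
noncomputable def cn (w₁ w₂ : V) (T : Finset V) : ℝ :=
  (if w₁ ∈ T then 1 else 0) + (if w₂ ∈ T then 1 else 0)

/-- multiplier `[w ∈ km] λ²` -/
noncomputable def lin (m : V → V → ℕ) (ρ : V → ℝ) (w : V) (B S : Finset V) : ℝ :=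
  (if w ∈ km m ρ B S then 1 else 0) * lam m ρ B S ^ 2

/-- multiplier of the slack term for the choice `kap` -/
noncomputable def cstk (κ : Finset V → Finset V → Finset V) (ρ s : V → ℝ) (B S : Finset V) : ℝ :=
  (∑ u ∈ κ B S, s u) * lamk κ ρ B S ^ 2

/-- the data of the case of two inequality edges -/
structure Two (I : Ins V) (v w₁ w₂ : V) : Prop where
  ok : I.Ok
  hv : v ∈ I.A
  h1 : w₁ ∈ I.A.erase v
  h2 : w₂ ∈ I.A.erase v
  ha : ∀ u ∈ I.A, I.a v u = (if u = w₁ then 1 else 0) + (if u = w₂ then 1 else 0)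
  hb : ∀ u ∈ I.A, I.b v u = 0

theorem sum_ind {A : Finset V} {w : V} (hw : w ∈ A) :
    ∑ u ∈ A, (if u = w then (1 : ℝ) else 0) = 1 := by
  rw [sum_ite_eq' A w (fun _ => (1 : ℝ)), if_pos hw]

theorem sum_ind_cn {T : Finset V} (w₁ w₂ : V) :
    ∑ u ∈ T, ((if u = w₁ then (1 : ℝ) else 0) + (if u = w₂ then 1 else 0)) = cn w₁ w₂ T := by
  unfold cn
  rw [sum_add_distrib, sum_ite_eq' T w₁ (fun _ => (1 : ℝ)), sum_ite_eq' T w₂ (fun _ => (1 : ℝ))]

theorem sum_link {A : Finset V} {w₁ w₂ : V} (h1 : w₁ ∈ A) (h2 : w₂ ∈ A) (u : V) :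
    ∑ w ∈ A, (link w₁ w₂ u w : ℝ) = (if u = w₁ then 1 else 0) + (if u = w₂ then 1 else 0) := by
  have e : ∀ w, (link w₁ w₂ u w : ℝ) = (if u = w₁ then (1 : ℝ) else 0) * (if w = w₂ then 1 else 0)
      + (if u = w₂ then (1 : ℝ) else 0) * (if w = w₁ then 1 else 0) := by
    intro w
    have h : ∀ p q : Prop, (((if p ∧ q then 1 else 0 : ℕ)) : ℝ) =
        (if p then (1 : ℝ) else 0) * (if q then 1 else 0) := by
      intro p q
      by_cases hp : p <;> by_cases hq : q <;> simp [hp, hq]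
    unfold link
    rw [Nat.cast_add, h, h]
  simp only [e]
  rw [sum_add_distrib, ← mul_sum, ← mul_sum, sum_ind h1, sum_ind h2, mul_one, mul_one]

namespace Two

variable {I : Ins V} {v w₁ w₂ : V}

theorem ne1 (D : Two I v w₁ w₂) : v ≠ w₁ := (mem_erase.1 D.h1).1.symm

theorem ne2 (D : Two I v w₁ w₂) : v ≠ w₂ := (mem_erase.1 D.h2).1.symm

theorem link_eq (I : Ins V) (v w₁ w₂ : V) (u w : V) :
    (I.delB v w₁ w₂).m u w = I.m u w + link w₁ w₂ u w := by
  simp [Ins.m, Ins.delB, add_assoc]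

theorem mv (D : Two I v w₁ w₂) {u : V} (hu : u ∈ I.A) :
    I.m v u = (if u = w₁ then 1 else 0) + (if u = w₂ then 1 else 0) := by
  unfold Ins.m
  rw [D.ha u hu, D.hb u hu, add_zero]

theorem s_del (D : Two I v w₁ w₂) {u : V} (hu : u ∈ I.A) : I.s u = (I.del v).s u -
    ((if u = w₁ then 1 else 0) + (if u = w₂ then 1 else 0)) := by
  unfold Ins.s Ins.del
  rw [← add_sum_erase I.A (fun w => (I.a u w : ℝ)) D.hv,
    ← add_sum_erase I.A (fun w => (I.b u w : ℝ)) D.hv]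
  simp only
  rw [D.ok.asym u v, D.ok.bsym u v, D.ha u hu, D.hb u hu]
  push_cast
  ring

theorem s_delB (D : Two I v w₁ w₂) (u : V) : (I.delB v w₁ w₂).s u = (I.del v).s u -
    3 / 2 * ((if u = w₁ then 1 else 0) + (if u = w₂ then 1 else 0)) := by
  have e : ∑ w ∈ I.A.erase v, ((I.b u w + link w₁ w₂ u w : ℕ) : ℝ) =
      ∑ w ∈ I.A.erase v, (I.b u w : ℝ) +
        ((if u = w₁ then (1 : ℝ) else 0) + (if u = w₂ then 1 else 0)) := by
    rw [← sum_link D.h1 D.h2 u, ← sum_add_distrib]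
    exact sum_congr rfl (fun w _ => by push_cast; ring)
  unfold Ins.s Ins.delB Ins.del
  simp only
  rw [e]
  ring

theorem s_v (D : Two I v w₁ w₂) : I.s v = 1 := by
  unfold Ins.s
  have e1 : ∑ w ∈ I.A, (I.a v w : ℝ) = 2 := by
    rw [sum_congr rfl (fun w hw => by rw [D.ha w hw])]
    push_cast
    rw [sum_add_distrib, sum_ind (mem_erase.1 D.h1).2, sum_ind (mem_erase.1 D.h2).2]
    norm_num
  have e2 : ∑ w ∈ I.A, (I.b v w : ℝ) = 0 := by
    refine sum_eq_zero (fun w hw => ?_)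
    rw [D.hb w hw]
    simp
  rw [e1, e2]
  norm_num

theorem sum_s (D : Two I v w₁ w₂) {T : Finset V} (hT : T ⊆ I.A) :
    ∑ u ∈ T, I.s u = ∑ u ∈ T, (I.del v).s u - cn w₁ w₂ T := by
  rw [← sum_ind_cn, ← sum_sub_distrib]
  exact sum_congr rfl (fun u hu => D.s_del (hT hu))

theorem sum_sB (D : Two I v w₁ w₂) (T : Finset V) :
    ∑ u ∈ T, (I.delB v w₁ w₂).s u = ∑ u ∈ T, (I.del v).s u - 3 / 2 * cn w₁ w₂ T := by
  rw [← sum_ind_cn, mul_sum, ← sum_sub_distrib]
  exact sum_congr rfl (fun u _ => D.s_delB u)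

theorem el (D : Two I v w₁ w₂) {z : ZMod 3} {f : V → ZMod 3} (hfz : f v ≠ z) :
    El I.m (I.delB v w₁ w₂).m v (bz I.A z f) :=
  El.two D.ok.gm (link_eq I v w₁ w₂) (mem_bz.2 ⟨D.hv, hfz⟩) D.ne1 D.ne2
    (fun u hu => D.mv (mem_bz.1 hu).1)

theorem sub {z : ZMod 3} {f : V → ZMod 3} {A : Finset V} {v : V} : bz (A.erase v) z f ⊆ A :=
  fun _ hu => (mem_erase.1 (mem_bz.1 hu).1).2

/-- (P1), generator -/
theorem X_out (ρ : V → ℝ) (g g' : (V → ZMod 3) → ℝ) (hg : ∀ f, g f = g' (rs v f))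
    (m m' : V → V → ℕ) (A : Finset V) {z : ZMod 3} {f : V → ZMod 3} (hfz : f v = z) :
    op m A z (lamk (kap m m' ρ v) ρ) g f =
      op m (A.erase v) z (lam m ρ) g' (rs v f) :=
  op_kap_out hfz ρ (fun T => 2 / ∑ u ∈ T, ρ u) g g' hg

/-- (P1), slack term -/
theorem C_out (D : Two I v w₁ w₂) (ρ : V → ℝ) (g g' : (V → ZMod 3) → ℝ)
    (hg : ∀ f, g f = g' (rs v f)) (m' : V → V → ℕ) {z : ZMod 3} {f : V → ZMod 3} (hfz : f v = z) :
    op I.m I.A z (cstk (kap I.m m' ρ v) ρ I.s) g f =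
      op I.m (I.A.erase v) z (cst I.m ρ (I.del v).s) g' (rs v f) -
        (op I.m (I.A.erase v) z (lin I.m ρ w₁) g' (rs v f) +
          op I.m (I.A.erase v) z (lin I.m ρ w₂) g' (rs v f)) := by
  have e := op_kap_out (m' := m') (m := I.m) (A := I.A) hfz ρ
    (fun T => (∑ u ∈ T, I.s u) * (2 / ∑ u ∈ T, ρ u) ^ 2) g g' hg
  have e2 : op I.m (I.A.erase v) z (fun B S => (fun T => (∑ u ∈ T, I.s u) *
      (2 / ∑ u ∈ T, ρ u) ^ 2) (km I.m ρ B S)) g' (rs v f) =
      op I.m (I.A.erase v) z (fun B S => cst I.m ρ (I.del v).s B S +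
        (-1) * (lin I.m ρ w₁ B S + lin I.m ρ w₂ B S)) g' (rs v f) := by
    refine op_congr rfl (fun S => ?_)
    have hsub : km I.m ρ (bz (I.A.erase v) z (rs v f)) S ⊆ I.A :=
      (kf_sub (km_mem_kf _ _ _ _)).trans sub
    simp only
    rw [D.sum_s hsub]
    unfold cst lin lam rr cn
    ring
  rw [op_add_mul, op_const_mul, op_add_mul] at e2
  have e3 : op I.m I.A z (cstk (kap I.m m' ρ v) ρ I.s) g f =
    op I.m I.A z (fun B S => (fun T => (∑ u ∈ T, I.s u) *
      (2 / ∑ u ∈ T, ρ u) ^ 2) (kap I.m m' ρ v B S)) g f := rfl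
  rw [e3, e, e2]
  ring

/-- (P2) and (P3), generator: `v` has not the excluded colour -/
theorem X_in (D : Two I v w₁ w₂) (ρ : V → ℝ) (hρ : ρ v = 0) (g g' : (V → ZMod 3) → ℝ)
    (hg : ∀ f, g f = g' (rs v f)) {z : ZMod 3} {f : V → ZMod 3} (hfz : f v ≠ z) :
    op I.m I.A z (lamk (kap I.m (I.delB v w₁ w₂).m ρ v) ρ) g f =
      op (I.delB v w₁ w₂).m (I.A.erase v) z (lam (I.delB v w₁ w₂).m ρ) g' (rs v f) := by
  have e := op_kap_in (D.el hfz) D.hv hfz ρ (fun T => 2 / ∑ u ∈ T, ρ u)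
    (fun T => 2 / ∑ u ∈ T, ρ u) ?_ ?_ g g' hg
  · exact e
  · intro w _ _ T hT
    have hvT : v ∉ T := fun h => not_mem_bz_rs (kf_sub hT h)
    rw [sum_ext_zero hvT hρ]
  · intro _
    refine ⟨?_, fun _ _ => rfl⟩
    simp [hρ]

/-- (P2), slack term: both neighbours are in the bichromatic set -/
theorem C_both (D : Two I v w₁ w₂) (ρ : V → ℝ) (hρ : ρ v = 0) (g g' : (V → ZMod 3) → ℝ)
    (hg : ∀ f, g f = g' (rs v f)) {z : ZMod 3} {f : V → ZMod 3} (hfz : f v ≠ z)
    (hz1 : f w₁ ≠ z) (hz2 : f w₂ ≠ z) :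
    op I.m I.A z (cstk (kap I.m (I.delB v w₁ w₂).m ρ v) ρ I.s) g f =
      op (I.delB v w₁ w₂).m (I.A.erase v) z
          (cst (I.delB v w₁ w₂).m ρ (I.delB v w₁ w₂).s) g' (rs v f) +
        2 * op (I.delB v w₁ w₂).m (I.A.erase v) z (lin (I.delB v w₁ w₂).m ρ w₁) g' (rs v f) := by
  have hw1 : w₁ ∈ bz (I.A.erase v) z (rs v f) :=
    mem_bz.2 ⟨D.h1, by rw [rs_of_ne f D.ne1.symm]; exact hz1⟩
  have hw2 : w₂ ∈ bz (I.A.erase v) z (rs v f) :=
    mem_bz.2 ⟨D.h2, by rw [rs_of_ne f D.ne2.symm]; exact hz2⟩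
  have e := op_kap_in (D.el hfz) D.hv hfz ρ
    (fun T => (∑ u ∈ T, I.s u) * (2 / ∑ u ∈ T, ρ u) ^ 2)
    (fun T => (∑ u ∈ T, (I.delB v w₁ w₂).s u + 2 * (if w₁ ∈ T then 1 else 0)) *
      (2 / ∑ u ∈ T, ρ u) ^ 2) ?_ ?_ g g' hg
  · have e3 : op I.m I.A z (cstk (kap I.m (I.delB v w₁ w₂).m ρ v) ρ I.s) g f =
      op I.m I.A z (fun B S => (fun T => (∑ u ∈ T, I.s u) *
        (2 / ∑ u ∈ T, ρ u) ^ 2) (kap I.m (I.delB v w₁ w₂).m ρ v B S)) g f := rfl
    rw [e3, e, ← op_const_mul, ← op_add_mul]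
    refine op_congr rfl (fun S => ?_)
    unfold cst lin lam rr
    ring
  · intro w hw hne T hT
    have hvT : v ∉ T := fun h => not_mem_bz_rs (kf_sub hT h)
    have hTA : T ⊆ I.A := (kf_sub hT).trans sub
    have hiff : w₁ ∈ T ↔ w₂ ∈ T :=
      (kf_link_sub D.ok.gm (link_eq I v w₁ w₂) hw1 hw2 hT).2
    have hwT : w ∈ T ↔ w₁ ∈ T := by
      rw [D.mv (sub hw)] at hne
      by_cases e1 : w = w₁
      · rw [e1]
      · by_cases e2 : w = w₂
        · rw [e2, hiff]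
        · exfalso
          apply hne
          simp [e1, e2]
    rw [sum_ext_zero hvT hρ, sum_ext hvT, D.s_v, D.sum_s hTA, D.sum_sB]
    congr 1
    unfold cn
    by_cases hw1T : w₁ ∈ T
    · have a1 := hiff.1 hw1T
      have a2 := hwT.2 hw1T
      simp only [hw1T, a1, a2, if_true]
      ring
    · have a1 : w₂ ∉ T := fun h => hw1T (hiff.2 h)
      have a2 : w ∉ T := fun h => hw1T (hwT.1 h)
      simp only [hw1T, a1, a2, if_false]
      ring
  · intro h0
    exfalso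
    have := h0 w₁ hw1
    rw [D.mv (mem_erase.1 D.h1).2] at this
    simp at this

/-- (P3), generator: not both neighbours are in the bichromatic set -/
theorem X_not (D : Two I v w₁ w₂) (ρ : V → ℝ) (hρ : ρ v = 0) (g g' : (V → ZMod 3) → ℝ)
    (hg : ∀ f, g f = g' (rs v f)) {z : ZMod 3} {f : V → ZMod 3} (hfz : f v ≠ z)
    (hz : f w₁ = z ∨ f w₂ = z) :
    op I.m I.A z (lamk (kap I.m (I.delB v w₁ w₂).m ρ v) ρ) g f =
      op I.m (I.A.erase v) z (lam I.m ρ) g' (rs v f) := by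
  rw [D.X_in ρ hρ g g' hg hfz]
  have hK : kf (I.delB v w₁ w₂).m (bz (I.A.erase v) z (rs v f)) =
      kf I.m (bz (I.A.erase v) z (rs v f)) := by
    refine kf_link_out (link_eq I v w₁ w₂) ?_
    rintro ⟨h1, h2⟩
    rcases hz with hz | hz
    · exact (mem_bz.1 h1).2 (by rw [rs_of_ne f D.ne1.symm]; exact hz)
    · exact (mem_bz.1 h2).2 (by rw [rs_of_ne f D.ne2.symm]; exact hz)
  refine op_congr hK (fun S => ?_)
  unfold lam rr
  rw [km_congr_kf hK]

/-- (P3), slack term -/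
theorem C_not (D : Two I v w₁ w₂) (ρ : V → ℝ) (hρ : ρ v = 0) (g g' : (V → ZMod 3) → ℝ)
    (hg : ∀ f, g f = g' (rs v f)) {z : ZMod 3} {f : V → ZMod 3} (hfz : f v ≠ z)
    (hz : f w₁ = z ∨ f w₂ = z) :
    op I.m I.A z (cstk (kap I.m (I.delB v w₁ w₂).m ρ v) ρ I.s) g f =
      op I.m (I.A.erase v) z (cst I.m ρ (I.del v).s) g' (rs v f) := by
  have hn1 : f w₁ = z → w₁ ∉ bz (I.A.erase v) z (rs v f) := fun h h' =>
    (mem_bz.1 h').2 (by rw [rs_of_ne f D.ne1.symm]; exact h)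
  have hn2 : f w₂ = z → w₂ ∉ bz (I.A.erase v) z (rs v f) := fun h h' =>
    (mem_bz.1 h').2 (by rw [rs_of_ne f D.ne2.symm]; exact h)
  have hK : kf (I.delB v w₁ w₂).m (bz (I.A.erase v) z (rs v f)) =
      kf I.m (bz (I.A.erase v) z (rs v f)) := by
    refine kf_link_out (link_eq I v w₁ w₂) ?_
    rintro ⟨h1, h2⟩
    rcases hz with hz | hz
    · exact hn1 hz h1
    · exact hn2 hz h2
  have e := op_kap_in (D.el hfz) D.hv hfz ρ
    (fun T => (∑ u ∈ T, I.s u) * (2 / ∑ u ∈ T, ρ u) ^ 2)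
    (fun T => (∑ u ∈ T, (I.del v).s u) * (2 / ∑ u ∈ T, ρ u) ^ 2) ?_ ?_ g g' hg
  · have e3 : op I.m I.A z (cstk (kap I.m (I.delB v w₁ w₂).m ρ v) ρ I.s) g f =
      op I.m I.A z (fun B S => (fun T => (∑ u ∈ T, I.s u) *
        (2 / ∑ u ∈ T, ρ u) ^ 2) (kap I.m (I.delB v w₁ w₂).m ρ v B S)) g f := rfl
    rw [e3, e]
    refine op_congr hK (fun S => ?_)
    unfold cst lam rr
    rw [km_congr_kf hK]
  · intro w hw hne T hT
    have hvT : v ∉ T := fun h => not_mem_bz_rs (kf_sub hT h)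
    have hTA : T ⊆ I.A := (kf_sub hT).trans sub
    rw [sum_ext_zero hvT hρ, sum_ext hvT, D.s_v, D.sum_s hTA]
    congr 1
    rw [D.mv (sub hw)] at hne
    unfold cn
    rcases hz with hz | hz
    · have b1 := hn1 hz
      have b2 : w₁ ∉ T := fun h => b1 (kf_sub hT h)
      have b3 : w ≠ w₁ := fun h => b1 (h ▸ hw)
      have b4 : w = w₂ := by
        by_contra h
        apply hne
        simp [b3, h]
      rw [b4, if_neg b2]
      ring
    · have b1 := hn2 hz
      have b2 : w₂ ∉ T := fun h => b1 (kf_sub hT h)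
      have b3 : w ≠ w₂ := fun h => b1 (h ▸ hw)
      have b4 : w = w₁ := by
        by_contra h
        apply hne
        simp [b3, h]
      rw [b4, if_neg b2]
      ring
  · intro h0
    refine ⟨by simp [hρ], fun T hT => ?_⟩
    have hTA : T ⊆ I.A := (kf_sub hT).trans sub
    have c1 : w₁ ∉ T := by
      intro h
      have := h0 w₁ (kf_sub hT h)
      rw [D.mv (mem_erase.1 D.h1).2] at this
      simp at this
    have c2 : w₂ ∉ T := by
      intro h
      have := h0 w₂ (kf_sub hT h)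
      rw [D.mv (mem_erase.1 D.h2).2] at this
      simp at this
    rw [D.sum_s hTA]
    unfold cn
    rw [if_neg c1, if_neg c2]
    ring

end Two

end FP

end Pool.Agent.Nest
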