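import Mathlib

/-!
# Fourier analysis for families of moves closed under symmetric difference

`V` is a finite set, a move is a subset `U` of `V`, a mode is a subset `S` of `V`, the sign of a
mode on a move is `(-1)^|S ∩ U|`.  At every state `f` of a finite set `Om` a family `fam f` of
moves is given, closed under symmetric difference, and the moves act on the states.
-/

namespace Pool.Agent.Lib.MP_26a019_lc.Nest

open Finset

set_option linter.unusedSectionVars false

variable {V : Type*} [DecidableEq V]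

/-- The sign `(-1)^|S ∩ T|`. -/
def sg (S T : Finset V) : ℝ := (-1) ^ (S ∩ T).card

theorem sg_eq_prod (S T : Finset V) : sg S T = ∏ x ∈ S, if x ∈ T then (-1 : ℝ) else 1 := by
  unfold sg
  rw [Finset.prod_ite, Finset.prod_const, Finset.prod_const_one, mul_one,
    Finset.filter_mem_eq_inter]

theorem sg_comm (S T : Finset V) : sg S T = sg T S := by
  unfold sg
  rw [Finset.inter_comm]

theorem sg_empty_right (S : Finset V) : sg S ∅ = 1 := by simp [sg]

theorem sg_empty_left (S : Finset V) : sg ∅ S = 1 := by simp [sg]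

theorem sg_symmDiff_right (S T T' : Finset V) : sg S (symmDiff T T') = sg S T * sg S T' := by
  rw [sg_eq_prod, sg_eq_prod, sg_eq_prod, ← Finset.prod_mul_distrib]
  refine Finset.prod_congr rfl fun x _ => ?_
  by_cases h1 : x ∈ T <;> by_cases h2 : x ∈ T' <;> simp [Finset.mem_symmDiff, h1, h2]

theorem sg_symmDiff_left (S S' T : Finset V) : sg (symmDiff S S') T = sg S T * sg S' T := by
  rw [sg_comm, sg_symmDiff_right, sg_comm T S, sg_comm T S']

theorem sg_eq_or (S T : Finset V) : sg S T = 1 ∨ sg S T = -1 := by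
  unfold sg
  exact neg_one_pow_eq_or ℝ _

theorem sg_mul_self (S T : Finset V) : sg S T * sg S T = 1 := by
  rcases sg_eq_or S T with h | h <;> rw [h] <;> norm_num

theorem sg_ne_zero (S T : Finset V) : sg S T ≠ 0 := by
  rcases sg_eq_or S T with h | h <;> rw [h] <;> norm_num

theorem sum_sg [Fintype V] (T : Finset V) :
    ∑ S : Finset V, sg S T = if T = ∅ then (2 : ℝ) ^ Fintype.card V else 0 := by
  have h1 : ∑ S : Finset V, sg S T
      = ∏ x : V, (1 + if x ∈ T then (-1 : ℝ) else 1) := by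
    rw [Finset.prod_one_add, Finset.powerset_univ]
    exact Finset.sum_congr rfl fun S _ => sg_eq_prod S T
  rw [h1]
  split_ifs with h
  · subst h
    simp only [Finset.notMem_empty, if_false]
    rw [Finset.prod_const, Finset.card_univ]
    norm_num
  · obtain ⟨x, hx⟩ := Finset.nonempty_iff_ne_empty.mpr h
    exact Finset.prod_eq_zero (Finset.mem_univ x) (by simp [hx])

theorem sum_sg_mul_sg [Fintype V] (T T' : Finset V) :
    ∑ S : Finset V, sg S T * sg S T' = if T = T' then (2 : ℝ) ^ Fintype.card V else 0 := by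
  have h1 : ∑ S : Finset V, sg S T * sg S T' = ∑ S : Finset V, sg S (symmDiff T T') :=
    Finset.sum_congr rfl fun S _ => (sg_symmDiff_right S T T').symm
  rw [h1, sum_sg]
  by_cases h : T = T'
  · subst h
    simp
  · rw [if_neg h, if_neg]
    intro h2
    exact h (symmDiff_eq_bot.mp h2)

section Family

variable {Ω : Type*}

/-- A family of moves on a finite set of states. -/
structure Fam (Om : Finset Ω) (fam : Ω → Finset (Finset V)) (fl : Finset V → Ω → Ω) :
    Prop where
  empty_mem : ∀ f ∈ Om, ∅ ∈ fam f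
  symm_mem : ∀ f ∈ Om, ∀ U ∈ fam f, ∀ U' ∈ fam f, symmDiff U U' ∈ fam f
  fl_mem : ∀ f ∈ Om, ∀ U ∈ fam f, fl U f ∈ Om
  fam_fl : ∀ f ∈ Om, ∀ U ∈ fam f, fam (fl U f) = fam f
  fl_fl : ∀ f ∈ Om, ∀ U ∈ fam f, ∀ U' ∈ fam f, fl U' (fl U f) = fl (symmDiff U U') f
  fl_empty : ∀ f ∈ Om, fl ∅ f = f

/-- The local transform of `g` at the state `f` in the mode `S`. -/
noncomputable def tr (fam : Ω → Finset (Finset V)) (fl : Finset V → Ω → Ω) (g : Ω → ℝ)
    (f : Ω) (S : Finset V) : ℝ :=
  (∑ U ∈ fam f, sg S U * g (fl U f)) / ((fam f).card : ℝ)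

/-- Sum over the characters of a family of moves (each one is represented by
`2^|V| / |fam|` modes). -/
noncomputable def csum [Fintype V] (A : Finset (Finset V)) (F : Finset V → ℝ) : ℝ :=
  (A.card : ℝ) * (∑ S : Finset V, F S) / 2 ^ Fintype.card V

/-- The operator with eigenvalue `w f S` on the mode `S`. -/
noncomputable def opX [Fintype V] (fam : Ω → Finset (Finset V)) (fl : Finset V → Ω → Ω)
    (w : Ω → Finset V → ℝ) (g : Ω → ℝ) (f : Ω) : ℝ :=
  csum (fam f) (fun S => w f S * tr fam fl g f S)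

/-- A weight that depends on the state only through its chart and on the mode only through its
signs. -/
structure Wt (Om : Finset Ω) (fam : Ω → Finset (Finset V)) (fl : Finset V → Ω → Ω)
    (w : Ω → Finset V → ℝ) : Prop where
  inv : ∀ f ∈ Om, ∀ U ∈ fam f, ∀ S, w (fl U f) S = w f S
  char : ∀ f ∈ Om, ∀ S S', (∀ U ∈ fam f, sg S U = sg S' U) → w f S = w f S'

variable {Om : Finset Ω} {fam : Ω → Finset (Finset V)} {fl : Finset V → Ω → Ω}

theorem Fam.card_pos (H : Fam Om fam fl) {f : Ω} (hf : f ∈ Om) : (0 : ℝ) < (fam f).card := by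
  have : 0 < (fam f).card := Finset.card_pos.mpr ⟨∅, H.empty_mem f hf⟩
  exact_mod_cast this

theorem Fam.fl_invol (H : Fam Om fam fl) {f : Ω} (hf : f ∈ Om) {U : Finset V}
    (hU : U ∈ fam f) : fl U (fl U f) = f := by
  rw [H.fl_fl f hf U hU U hU, symmDiff_self]
  exact H.fl_empty f hf

/-- Chart averaging. -/
theorem Fam.sum_avg (H : Fam Om fam fl) (Φ : Ω → ℝ) :
    ∑ f ∈ Om, (∑ U ∈ fam f, Φ (fl U f)) / ((fam f).card : ℝ) = ∑ f ∈ Om, Φ f := by
  have h1 : ∑ f ∈ Om, (∑ U ∈ fam f, Φ (fl U f)) / ((fam f).card : ℝ)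
      = ∑ f ∈ Om, ∑ U ∈ fam f, Φ (fl U f) / ((fam (fl U f)).card : ℝ) := by
    refine Finset.sum_congr rfl fun f hf => ?_
    rw [Finset.sum_div]
    refine Finset.sum_congr rfl fun U hU => ?_
    rw [H.fam_fl f hf U hU]
  have h2 : ∑ f ∈ Om, ∑ U ∈ fam f, Φ (fl U f) / ((fam (fl U f)).card : ℝ)
      = ∑ f ∈ Om, ∑ U ∈ fam f, Φ f / ((fam f).card : ℝ) := by
    rw [Finset.sum_sigma', Finset.sum_sigma']
    refine Finset.sum_nbij' (fun p => ⟨fl p.2 p.1, p.2⟩) (fun p => ⟨fl p.2 p.1, p.2⟩)
      ?_ ?_ ?_ ?_ ?_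
    · rintro ⟨f, U⟩ h
      simp only [Finset.mem_sigma] at h ⊢
      exact ⟨H.fl_mem f h.1 U h.2, by rw [H.fam_fl f h.1 U h.2]; exact h.2⟩
    · rintro ⟨f, U⟩ h
      simp only [Finset.mem_sigma] at h ⊢
      exact ⟨H.fl_mem f h.1 U h.2, by rw [H.fam_fl f h.1 U h.2]; exact h.2⟩
    · rintro ⟨f, U⟩ h
      simp only [Finset.mem_sigma] at h
      simp only [H.fl_invol h.1 h.2]
    · rintro ⟨f, U⟩ h
      simp only [Finset.mem_sigma] at h
      simp only [H.fl_invol h.1 h.2]
    · rintro ⟨f, U⟩ h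
      rfl
  rw [h1, h2]
  refine Finset.sum_congr rfl fun f hf => ?_
  rw [Finset.sum_const, nsmul_eq_mul]
  have := H.card_pos hf
  field_simp

/-- Translation invariance of the sum over a family. -/
theorem Fam.sum_translate (H : Fam Om fam fl) {f : Ω} (hf : f ∈ Om) {U₀ : Finset V}
    (hU₀ : U₀ ∈ fam f) (Φ : Finset V → ℝ) :
    ∑ U ∈ fam f, Φ (symmDiff U₀ U) = ∑ U ∈ fam f, Φ U := by
  refine Finset.sum_nbij' (fun U => symmDiff U₀ U) (fun U => symmDiff U₀ U) ?_ ?_ ?_ ?_ ?_
  · intro U hU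
    exact H.symm_mem f hf U₀ hU₀ U hU
  · intro U hU
    exact H.symm_mem f hf U₀ hU₀ U hU
  · intro U _
    exact symmDiff_symmDiff_cancel_left U₀ U
  · intro U _
    exact symmDiff_symmDiff_cancel_left U₀ U
  · intro U _
    rfl

/-- Orthogonality of the characters. -/
theorem Fam.orth (H : Fam Om fam fl) {f : Ω} (hf : f ∈ Om) (S S' : Finset V)
    [Decidable (∀ U ∈ fam f, sg S U = sg S' U)] :
    ∑ U ∈ fam f, sg S U * sg S' U
      = if (∀ U ∈ fam f, sg S U = sg S' U) then ((fam f).card : ℝ) else 0 := by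
  split_ifs with h
  · rw [Finset.sum_congr rfl (fun U hU => by rw [h U hU, sg_mul_self]), Finset.sum_const,
      nsmul_eq_mul, mul_one]
  · push Not at h
    obtain ⟨U₀, hU₀, hne⟩ := h
    have hm : sg S U₀ * sg S' U₀ = -1 := by
      rcases sg_eq_or S U₀ with a | a <;> rcases sg_eq_or S' U₀ with b | b
      · exact absurd (a.trans b.symm) hne
      · rw [a, b]; norm_num
      · rw [a, b]; norm_num
      · exact absurd (a.trans b.symm) hne
    have h1 := H.sum_translate hf hU₀ (fun U => sg S U * sg S' U)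
    have h2 : ∑ U ∈ fam f, sg S (symmDiff U₀ U) * sg S' (symmDiff U₀ U)
        = - ∑ U ∈ fam f, sg S U * sg S' U := by
      rw [← Finset.sum_neg_distrib]
      refine Finset.sum_congr rfl fun U _ => ?_
      rw [sg_symmDiff_right, sg_symmDiff_right]
      calc sg S U₀ * sg S U * (sg S' U₀ * sg S' U)
          = (sg S U₀ * sg S' U₀) * (sg S U * sg S' U) := by ring
        _ = _ := by rw [hm]; ring
    linarith

/-- Inversion formula. -/
theorem Fam.inversion [Fintype V] (H : Fam Om fam fl) {f : Ω} (hf : f ∈ Om) (g : Ω → ℝ) :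
    csum (fam f) (tr fam fl g f) = g f := by
  unfold csum tr
  have hc := H.card_pos hf
  rw [← Finset.sum_div, Finset.sum_comm]
  have h1 : ∑ U ∈ fam f, ∑ S : Finset V, sg S U * g (fl U f)
      = (2 : ℝ) ^ Fintype.card V * g f := by
    rw [Finset.sum_eq_single ∅]
    · rw [← Finset.sum_mul, sum_sg, if_pos rfl, H.fl_empty f hf]
    · intro U _ hU
      rw [← Finset.sum_mul, sum_sg, if_neg hU, zero_mul]
    · intro h
      exact absurd (H.empty_mem f hf) h
  rw [h1]
  have : (2 : ℝ) ^ Fintype.card V ≠ 0 := by positivity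
  field_simp

/-- Local Parseval identity. -/
theorem Fam.parseval_loc [Fintype V] (H : Fam Om fam fl) {f : Ω} (hf : f ∈ Om)
    (g h : Ω → ℝ) :
    csum (fam f) (fun S => tr fam fl g f S * tr fam fl h f S)
      = (∑ U ∈ fam f, g (fl U f) * h (fl U f)) / ((fam f).card : ℝ) := by
  unfold csum tr
  have hc := H.card_pos hf
  have h1 : ∑ S : Finset V, (∑ U ∈ fam f, sg S U * g (fl U f)) / ((fam f).card : ℝ)
        * ((∑ U ∈ fam f, sg S U * h (fl U f)) / ((fam f).card : ℝ))
      = ((2 : ℝ) ^ Fintype.card V * ∑ U ∈ fam f, g (fl U f) * h (fl U f))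
        / (((fam f).card : ℝ) * ((fam f).card : ℝ)) := by
    have e1 : ∀ S : Finset V, (∑ U ∈ fam f, sg S U * g (fl U f)) / ((fam f).card : ℝ)
        * ((∑ U ∈ fam f, sg S U * h (fl U f)) / ((fam f).card : ℝ))
        = (∑ U ∈ fam f, ∑ U' ∈ fam f, (sg S U * sg S U') * (g (fl U f) * h (fl U' f)))
          / (((fam f).card : ℝ) * ((fam f).card : ℝ)) := by
      intro S
      rw [div_mul_div_comm, Finset.sum_mul_sum]
      congr 1
      refine Finset.sum_congr rfl fun U _ => Finset.sum_congr rfl fun U' _ => ?_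
      ring
    rw [Finset.sum_congr rfl (fun S _ => e1 S), ← Finset.sum_div]
    congr 1
    rw [Finset.sum_comm, Finset.mul_sum]
    refine Finset.sum_congr rfl fun U hU => ?_
    rw [Finset.sum_comm]
    have e2 : ∀ U' ∈ fam f, ∑ S : Finset V, (sg S U * sg S U') * (g (fl U f) * h (fl U' f))
        = if U = U' then (2 : ℝ) ^ Fintype.card V * (g (fl U f) * h (fl U f)) else 0 := by
      intro U' _
      rw [← Finset.sum_mul, sum_sg_mul_sg]
      by_cases e : U = U'
      · subst e; simp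
      · simp [e]
    rw [Finset.sum_congr rfl e2, Finset.sum_ite_eq, if_pos hU]
  rw [h1]
  have : (2 : ℝ) ^ Fintype.card V ≠ 0 := by positivity
  field_simp

/-- Parseval identity. -/
theorem Fam.parseval [Fintype V] (H : Fam Om fam fl) (g h : Ω → ℝ) :
    ∑ f ∈ Om, csum (fam f) (fun S => tr fam fl g f S * tr fam fl h f S)
      = ∑ f ∈ Om, g f * h f := by
  rw [← H.sum_avg (fun f => g f * h f)]
  exact Finset.sum_congr rfl fun f hf => H.parseval_loc hf g h

/-- Sign rule for the transform. -/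
theorem Fam.tr_fl (H : Fam Om fam fl) {f : Ω} (hf : f ∈ Om) (g : Ω → ℝ) {U₀ : Finset V}
    (hU₀ : U₀ ∈ fam f) (S : Finset V) :
    tr fam fl g (fl U₀ f) S = sg S U₀ * tr fam fl g f S := by
  unfold tr
  rw [H.fam_fl f hf U₀ hU₀, ← mul_div_assoc, Finset.mul_sum]
  congr 1
  rw [← H.sum_translate hf hU₀ (fun U => sg S U₀ * (sg S U * g (fl U f)))]
  refine Finset.sum_congr rfl fun U hU => ?_
  rw [H.fl_fl f hf U₀ hU₀ U hU, sg_symmDiff_right, ← mul_assoc, ← mul_assoc, sg_mul_self,
    one_mul]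

/-- The transform depends on the mode only through its signs. -/
theorem tr_congr_mode (fam : Ω → Finset (Finset V)) (fl : Finset V → Ω → Ω) (g : Ω → ℝ)
    (f : Ω) {S S' : Finset V} (h : ∀ U ∈ fam f, sg S U = sg S' U) :
    tr fam fl g f S = tr fam fl g f S' := by
  unfold tr
  congr 1
  exact Finset.sum_congr rfl fun U hU => by rw [h U hU]

/-- Counting the modes with given signs. -/
theorem Fam.card_modes [Fintype V] (H : Fam Om fam fl) {f : Ω} (hf : f ∈ Om)
    (S : Finset V) (c : ℝ) (F : Finset V → ℝ)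
    (hF : ∀ S', (∀ U ∈ fam f, sg S U = sg S' U) → F S' = c) :
    ∑ S' : Finset V, F S' * (∑ U ∈ fam f, sg S U * sg S' U)
      = (2 : ℝ) ^ Fintype.card V * c := by
  classical
  have e : ∀ S' : Finset V, F S' * (∑ U ∈ fam f, sg S U * sg S' U)
      = c * (∑ U ∈ fam f, sg S U * sg S' U) := by
    intro S'
    rw [H.orth hf S S']
    split_ifs with h
    · rw [hF S' h]
    · simp
  rw [Finset.sum_congr rfl (fun S' _ => e S'), ← Finset.mul_sum, Finset.sum_comm]
  have h1 : ∑ U ∈ fam f, ∑ S' : Finset V, sg S U * sg S' U = (2 : ℝ) ^ Fintype.card V := by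
    rw [Finset.sum_eq_single ∅]
    · rw [← Finset.mul_sum, sum_sg, if_pos rfl, sg_empty_right, one_mul]
    · intro U _ hU
      rw [← Finset.mul_sum, sum_sg, if_neg hU, mul_zero]
    · intro h
      exact absurd (H.empty_mem f hf) h
  rw [h1]
  ring

/-- Diagonality: the transform of `opX w g` is `w` times the transform of `g`. -/
theorem Fam.tr_opX [Fintype V] (H : Fam Om fam fl) {w : Ω → Finset V → ℝ}
    (hw : Wt Om fam fl w) (g : Ω → ℝ) {f : Ω} (hf : f ∈ Om) (S : Finset V) :
    tr fam fl (opX fam fl w g) f S = w f S * tr fam fl g f S := by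
  have hc := H.card_pos hf
  have h2 : (2 : ℝ) ^ Fintype.card V ≠ 0 := by positivity
  have e1 : ∀ U ∈ fam f, opX fam fl w g (fl U f)
      = ((fam f).card : ℝ) * (∑ S' : Finset V, w f S' * (sg S' U * tr fam fl g f S'))
        / 2 ^ Fintype.card V := by
    intro U hU
    unfold opX csum
    rw [H.fam_fl f hf U hU]
    congr 2
    refine Finset.sum_congr rfl fun S' _ => ?_
    simp only []
    rw [hw.inv f hf U hU, H.tr_fl hf g hU]
  have e2 : tr fam fl (opX fam fl w g) f S
      = (∑ S' : Finset V, (w f S' * tr fam fl g f S') * (∑ U ∈ fam f, sg S U * sg S' U))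
        / 2 ^ Fintype.card V := by
    unfold tr
    rw [Finset.sum_congr rfl (fun U hU => by rw [e1 U hU])]
    have e3 : ∀ U ∈ fam f, sg S U * (((fam f).card : ℝ) *
        (∑ S' : Finset V, w f S' * (sg S' U * tr fam fl g f S')) / 2 ^ Fintype.card V)
        = ((fam f).card : ℝ) * (∑ S' : Finset V, (w f S' * tr fam fl g f S') *
          (sg S U * sg S' U)) / 2 ^ Fintype.card V := by
      intro U _
      rw [mul_div_assoc', Finset.mul_sum, Finset.mul_sum, Finset.mul_sum]
      congr 1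
      refine Finset.sum_congr rfl fun S' _ => ?_
      ring
    rw [Finset.sum_congr rfl e3, ← Finset.sum_div, ← Finset.mul_sum, Finset.sum_comm]
    have e4 : ∀ S' : Finset V, ∑ U ∈ fam f, (w f S' * tr fam fl g f S') *
          (sg S U * sg S' U) = (w f S' * tr fam fl g f S') * (∑ U ∈ fam f, sg S U * sg S' U) := by
      intro S'
      rw [Finset.mul_sum]
    rw [Finset.sum_congr rfl (fun S' _ => e4 S')]
    unfold tr
    field_simp
  rw [e2, H.card_modes hf S (w f S * tr fam fl g f S)]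
  · field_simp
  · intro S' hS'
    rw [hw.char f hf S S' hS', tr_congr_mode fam fl g f hS']

/-- Symmetry of `opX`. -/
theorem Fam.inner_opX [Fintype V] (H : Fam Om fam fl) {w : Ω → Finset V → ℝ}
    (hw : Wt Om fam fl w) (g h : Ω → ℝ) :
    ∑ f ∈ Om, opX fam fl w g f * h f
      = ∑ f ∈ Om, csum (fam f) (fun S => w f S * (tr fam fl g f S * tr fam fl h f S)) := by
  rw [← H.parseval]
  refine Finset.sum_congr rfl fun f hf => ?_
  congr 1
  funext S
  rw [H.tr_opX hw g hf S]
  ring

theorem Fam.inner_opX_opX [Fintype V] (H : Fam Om fam fl) {w w' : Ω → Finset V → ℝ}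
    (hw : Wt Om fam fl w) (hw' : Wt Om fam fl w') (g h : Ω → ℝ) :
    ∑ f ∈ Om, opX fam fl w g f * opX fam fl w' h f
      = ∑ f ∈ Om, csum (fam f)
          (fun S => w f S * w' f S * (tr fam fl g f S * tr fam fl h f S)) := by
  rw [← H.parseval]
  refine Finset.sum_congr rfl fun f hf => ?_
  congr 1
  funext S
  rw [H.tr_opX hw g hf S, H.tr_opX hw' h hf S]
  ring

theorem Fam.opX_symm [Fintype V] (H : Fam Om fam fl) {w : Ω → Finset V → ℝ}
    (hw : Wt Om fam fl w) (g h : Ω → ℝ) :
    ∑ f ∈ Om, opX fam fl w g f * h f = ∑ f ∈ Om, g f * opX fam fl w h f := by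
  rw [H.inner_opX hw g h]
  have : ∑ f ∈ Om, g f * opX fam fl w h f = ∑ f ∈ Om, opX fam fl w h f * g f :=
    Finset.sum_congr rfl fun f _ => mul_comm _ _
  rw [this, H.inner_opX hw h g]
  refine Finset.sum_congr rfl fun f _ => ?_
  congr 1
  funext S
  ring

theorem csum_nonneg [Fintype V] (A : Finset (Finset V)) {F : Finset V → ℝ}
    (hF : ∀ S, 0 ≤ F S) : 0 ≤ csum A F := by
  unfold csum
  exact div_nonneg (mul_nonneg (Nat.cast_nonneg _) (Finset.sum_nonneg fun S _ => hF S))
    (by positivity)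

theorem csum_le_csum [Fintype V] (A : Finset (Finset V)) {F G : Finset V → ℝ}
    (h : ∀ S, F S ≤ G S) : csum A F ≤ csum A G := by
  unfold csum
  gcongr with S
  exact h S

theorem csum_add [Fintype V] (A : Finset (Finset V)) (F G : Finset V → ℝ) :
    csum A (fun S => F S + G S) = csum A F + csum A G := by
  unfold csum
  rw [Finset.sum_add_distrib, mul_add, add_div]

theorem csum_sub [Fintype V] (A : Finset (Finset V)) (F G : Finset V → ℝ) :
    csum A (fun S => F S - G S) = csum A F - csum A G := by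
  unfold csum
  rw [Finset.sum_sub_distrib, mul_sub, sub_div]

theorem csum_const_mul [Fintype V] (A : Finset (Finset V)) (c : ℝ) (F : Finset V → ℝ) :
    csum A (fun S => c * F S) = c * csum A F := by
  unfold csum
  rw [← Finset.mul_sum]
  ring

theorem opX_add [Fintype V] (w : Ω → Finset V → ℝ) (g h : Ω → ℝ) (f : Ω) :
    opX fam fl w (fun f => g f + h f) f = opX fam fl w g f + opX fam fl w h f := by
  unfold opX
  rw [← csum_add]
  congr 1
  funext S
  unfold tr
  rw [← mul_add, ← add_div, ← Finset.sum_add_distrib]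
  congr 2
  refine Finset.sum_congr rfl fun U _ => ?_
  ring

theorem opX_smul [Fintype V] (w : Ω → Finset V → ℝ) (c : ℝ) (g : Ω → ℝ) (f : Ω) :
    opX fam fl w (fun f => c * g f) f = c * opX fam fl w g f := by
  unfold opX
  rw [← csum_const_mul]
  congr 1
  funext S
  unfold tr
  have : ∑ U ∈ fam f, sg S U * (c * g (fl U f)) = c * ∑ U ∈ fam f, sg S U * g (fl U f) := by
    rw [Finset.mul_sum]
    refine Finset.sum_congr rfl fun U _ => ?_
    ring
  rw [this]
  ring

/-- Nonnegative weights give a positive semidefinite operator. -/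
theorem Fam.inner_opX_nonneg [Fintype V] (H : Fam Om fam fl) {w : Ω → Finset V → ℝ}
    (hw : Wt Om fam fl w) (h0 : ∀ f ∈ Om, ∀ S, 0 ≤ w f S) (g : Ω → ℝ) :
    0 ≤ ∑ f ∈ Om, opX fam fl w g f * g f := by
  rw [H.inner_opX hw g g]
  refine Finset.sum_nonneg fun f hf => csum_nonneg _ fun S => ?_
  exact mul_nonneg (h0 f hf S) (mul_self_nonneg _)

end Family

end Pool.Agent.Lib.MP_26a019_lc.Nest
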