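import Pool.Agent.Lib.MP_26a019_lc.Nest.Fib80b

set_option autoImplicit false
set_option linter.unusedSectionVars false

open Finset Classical

namespace Pool.Agent.Nest

variable {V : Type} [Fintype V]

theorem chi_eq_prod (S T : Finset V) : chi S T = ∏ u ∈ T, (if u ∈ S then (-1 : ℝ) else 1) := by
  unfold chi
  rw [prod_ite, prod_const, prod_const_one, mul_one]
  congr 2
  ext u
  simp [and_comm]

theorem chi_insert' {S T : Finset V} {v : V} (hv : v ∉ T) :
    chi S (insert v T) = (if v ∈ S then (-1 : ℝ) else 1) * chi S T := by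
  rw [chi_eq_prod, chi_eq_prod, prod_insert hv]

theorem chi_lb {S T : Finset V} {v w : V} (hv : v ∉ T) :
    chi S (ext v w T) = chi (lb v w S) T := by
  unfold ext lb
  by_cases hw : w ∈ T
  · rw [if_pos hw, chi_insert' hv]
    by_cases hS : v ∈ S
    · rw [if_pos hS, if_pos hS, chi_eq_prod, chi_eq_prod]
      rw [← mul_prod_erase T _ hw, ← mul_prod_erase T _ hw]
      have e1 : (if w ∈ symmDiff S {w} then (-1 : ℝ) else 1) = - (if w ∈ S then (-1 : ℝ) else 1) := by
        by_cases hwS : w ∈ S <;> simp [mem_symmDiff, hwS]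
      have e2 : ∏ x ∈ T.erase w, (if x ∈ symmDiff S {w} then (-1 : ℝ) else 1) =
          ∏ x ∈ T.erase w, (if x ∈ S then (-1 : ℝ) else 1) := by
        refine prod_congr rfl (fun x hx => ?_)
        have hxw := (mem_erase.1 hx).1
        simp [mem_symmDiff, hxw]
      rw [e1, e2]
      ring
    · rw [if_neg hS, if_neg hS, one_mul]
  · rw [if_neg hw]
    by_cases hS : v ∈ S
    · rw [if_pos hS, chi_eq_prod, chi_eq_prod]
      refine prod_congr rfl (fun x hx => ?_)
      have hxw : x ≠ w := fun e => hw (e ▸ hx)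
      simp [mem_symmDiff, hxw]
    · rw [if_neg hS]

theorem lb_lb {v w : V} (hvw : v ≠ w) (S : Finset V) : lb v w (lb v w S) = S := by
  unfold lb
  by_cases hS : v ∈ S
  · have h2 : v ∈ symmDiff S {w} := by simp [mem_symmDiff, hS, hvw]
    rw [if_pos hS, if_pos h2, symmDiff_symmDiff_cancel_right]
  · simp [hS]

/-- the operator at a state where `v` hangs at `w` -/
theorem cv_ext {K' : Finset (Finset V)} {v w : V} (hvw : v ≠ w) (hK : ∀ T ∈ K', v ∉ T)
    (μ' : Finset V → ℝ) (g g' : Finset V → ℝ) (hg : ∀ T ∈ K', g (ext v w T) = g' T) :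
    cv (K'.image (ext v w)) (fun S => μ' (lb v w S)) g = cv K' μ' g' := by
  unfold cv
  congr 1
  have hinj : Set.InjOn (ext v w) (K' : Set (Finset V)) := by
    intro T hT T' hT' h
    have h1 := hK T hT
    have h2 := hK T' hT'
    have key : ∀ U : Finset V, v ∉ U → (ext v w U).erase v = U := by
      intro U hU
      unfold ext
      split_ifs
      · exact erase_insert hU
      · exact erase_eq_of_notMem hU
    rw [← key T h1, ← key T' h2, h]
  have e : ∀ S : Finset V, ∑ T ∈ K'.image (ext v w), chi S T * g T =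
      ∑ T ∈ K', chi (lb v w S) T * g' T := by
    intro S
    rw [sum_image hinj]
    refine sum_congr rfl (fun T hT => ?_)
    rw [chi_lb (hK T hT), hg T hT]
  simp only [e]
  have hb : Function.Involutive (lb v w) := fun S => lb_lb hvw S
  exact Equiv.sum_comp (hb.toPerm) (fun S => μ' S * ∑ T ∈ K', chi S T * g' T)

/-- the operator at a state where `v` is isolated in the bichromatic set, `g` independent of `v` -/
theorem cv_iso {K' : Finset (Finset V)} {v : V} (hK : ∀ T ∈ K', v ∉ T)
    (μ μ' : Finset V → ℝ) (hμ : ∀ S, v ∉ S → μ S = μ' S) (hμ' : ∀ S, μ' (insert v S) = μ' S)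
    (g g' : Finset V → ℝ) (hg : ∀ T ∈ K', g T = g' T) (hg' : ∀ T ∈ K', g (insert v T) = g' T) :
    cv (K' ∪ K'.image (insert v)) μ g = cv K' μ' g' := by
  unfold cv
  congr 1
  have hinj : Set.InjOn (insert v) (K' : Set (Finset V)) := by
    intro T hT T' hT' h
    have h1 := hK T hT
    have h2 := hK T' hT'
    rw [← erase_insert h1, ← erase_insert h2, h]
  have hdis : Disjoint K' (K'.image (insert v)) := by
    rw [Finset.disjoint_left]
    intro T hT hT'
    obtain ⟨U, _, rfl⟩ := mem_image.1 hT'
    exact hK _ hT (mem_insert_self v U)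
  have e : ∀ S : Finset V, ∑ T ∈ K' ∪ K'.image (insert v), chi S T * g T =
      (1 + (if v ∈ S then (-1 : ℝ) else 1)) * ∑ T ∈ K', chi S T * g' T := by
    intro S
    rw [sum_union hdis, sum_image hinj, add_mul, one_mul, mul_sum]
    congr 1
    · refine sum_congr rfl (fun T hT => ?_)
      rw [hg T hT]
    · refine sum_congr rfl (fun T hT => ?_)
      rw [chi_insert' (hK T hT), hg' T hT]
      ring
  have hchi : ∀ S : Finset V, ∑ T ∈ K', chi (insert v S) T * g' T = ∑ T ∈ K', chi S T * g' T := by
    intro S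
    refine sum_congr rfl (fun T hT => ?_)
    congr 1
    rw [chi_eq_prod, chi_eq_prod]
    refine prod_congr rfl (fun x hx => ?_)
    have hxv : x ≠ v := fun h => hK T hT (h ▸ hx)
    simp [hxv]
  simp only [e]
  -- split the sum over modes according to `v ∈ S`
  have hsplit : ∀ F : Finset V → ℝ, ∑ S : Finset V, F S =
      ∑ S ∈ (univ.erase v).powerset, (F S + F (insert v S)) := by
    intro F
    rw [← Finset.powerset_univ, ← insert_erase (mem_univ v), sum_powerset_insert (notMem_erase v univ),
      erase_insert (notMem_erase v univ), sum_add_distrib]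
  rw [hsplit, hsplit]
  refine sum_congr rfl (fun S hS => ?_)
  have hvS : v ∉ S := fun h => (notMem_erase v univ) (mem_powerset.1 hS h)
  rw [hchi, hμ S hvS, hμ' S]
  simp [hvS]
  ring

end Pool.Agent.Nest
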