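import Pool.Agent.Lib.MP_26a019_lc.Nest.Kf

set_option autoImplicit false

/-!
# Deleting a vertex: `ext`, `lb`, the elimination structure `El`, the choice `kap`
-/

open Finset Classical

namespace Pool.Agent.Nest

variable {V : Type} [Fintype V]

set_option linter.unusedSectionVars false

/-! ### signs (in their own namespace: the general facts are in `Chi.lean`) -/

namespace LinkAux

theorem chi_prod (S T : Finset V) : chi S T = ∏ u ∈ T, (if u ∈ S then (-1 : ℝ) else 1) := by
  unfold chi
  rw [prod_ite, prod_const, prod_const_one, mul_one]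
  congr 1
  rw [inter_comm]
  congr 1

theorem chi_insert {S T : Finset V} {v : V} (hv : v ∉ T) :
    chi S (insert v T) = (if v ∈ S then -1 else 1) * chi S T := by
  rw [chi_prod, chi_prod, prod_insert hv]

theorem chi_symmDiff_left (S S' T : Finset V) : chi (symmDiff S S') T = chi S T * chi S' T := by
  rw [chi_prod, chi_prod, chi_prod, ← prod_mul_distrib]
  refine prod_congr rfl fun u _ => ?_
  by_cases h1 : u ∈ S <;> by_cases h2 : u ∈ S' <;> simp [mem_symmDiff, h1, h2]

theorem chi_single (w : V) (T : Finset V) : chi {w} T = if w ∈ T then -1 else 1 := by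
  unfold chi
  by_cases h : w ∈ T
  · rw [singleton_inter_of_mem h]; simp [h]
  · rw [singleton_inter_of_notMem h]; simp [h]

theorem chi_sq (S T : Finset V) : chi S T * chi S T = 1 := by
  unfold chi
  rw [← pow_add, ← two_mul, pow_mul]; norm_num

theorem odd_iff_chi {S T : Finset V} : Odd (S ∩ T).card ↔ chi S T = -1 := by
  unfold chi
  constructor
  · intro h; exact h.neg_one_pow
  · intro h
    by_contra h'
    rw [Nat.not_odd_iff_even] at h'
    rw [h'.neg_one_pow] at h
    norm_num at h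

end LinkAux

open LinkAux

/-! ### `ext` and `lb` -/

theorem mem_ext {v w u : V} {T : Finset V} : u ∈ ext v w T ↔ u ∈ T ∨ (u = v ∧ w ∈ T) := by
  unfold ext
  split_ifs with h
  · rw [mem_insert]
    constructor
    · rintro (h' | h')
      · exact Or.inr ⟨h', h⟩
      · exact Or.inl h'
    · rintro (h' | h')
      · exact Or.inr h'
      · exact Or.inl h'.1
  · simp [h]

theorem ext_erase {v w : V} {T : Finset V} (hvT : v ∉ T) : (ext v w T).erase v = T := by
  unfold ext
  split_ifs
  · exact erase_insert hvT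
  · exact erase_eq_of_notMem hvT

theorem ext_of_erase {v w : V} {T : Finset V} (hvw : v ≠ w) (h : v ∈ T ↔ w ∈ T) :
    ext v w (T.erase v) = T := by
  unfold ext
  by_cases hv : v ∈ T
  · have hw : w ∈ T.erase v := mem_erase.2 ⟨hvw.symm, h.1 hv⟩
    rw [if_pos hw, insert_erase hv]
  · have hw : w ∉ T.erase v := fun h' => hv (h.2 (mem_erase.1 h').2)
    rw [if_neg hw, erase_eq_of_notMem hv]

theorem chi_ext {v w : V} {T : Finset V} (hvT : v ∉ T) (S : Finset V) :
    chi S (ext v w T) = chi (lb v w S) T := by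
  unfold ext lb
  by_cases hw : w ∈ T
  · rw [if_pos hw, chi_insert hvT]
    by_cases hv : v ∈ S
    · rw [if_pos hv, if_pos hv, chi_symmDiff_left, chi_single, if_pos hw]; ring
    · rw [if_neg hv, if_neg hv, one_mul]
  · rw [if_neg hw]
    by_cases hv : v ∈ S
    · rw [if_pos hv, chi_symmDiff_left, chi_single, if_neg hw, mul_one]
    · rw [if_neg hv]

theorem odd_ext {v w : V} {T : Finset V} (hvT : v ∉ T) (S : Finset V) :
    Odd (S ∩ ext v w T).card ↔ Odd (lb v w S ∩ T).card := by
  rw [odd_iff_chi, odd_iff_chi, chi_ext hvT]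

theorem lb_lb {v w : V} (hvw : v ≠ w) (S : Finset V) : lb v w (lb v w S) = S := by
  unfold lb
  by_cases hv : v ∈ S
  · have : v ∈ symmDiff S {w} := by
      rw [mem_symmDiff]; left; exact ⟨hv, by simpa using hvw⟩
    simp only [hv, if_true, this]
    rw [symmDiff_assoc, symmDiff_self]
    exact symmDiff_bot S
  · simp [hv]

/-- the same as `lb_lb`, a name which does not clash -/
theorem lb_invol {v w : V} (hvw : v ≠ w) (S : Finset V) : lb v w (lb v w S) = S :=
  lb_lb hvw S

theorem sum_lb {v w : V} (hvw : v ≠ w) (F : Finset V → ℝ) :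
    ∑ S : Finset V, F (lb v w S) = ∑ S : Finset V, F S :=
  Function.Bijective.sum_comp (Function.Involutive.bijective (lb_lb hvw)) F

theorem sum_ext {v w : V} {T : Finset V} (hvT : v ∉ T) (r : V → ℝ) :
    ∑ u ∈ ext v w T, r u = (∑ u ∈ T, r u) + if w ∈ T then r v else 0 := by
  unfold ext
  split_ifs with h
  · rw [sum_insert hvT]; ring
  · simp

theorem sum_ext_zero {v w : V} {T : Finset V} (hvT : v ∉ T) {r : V → ℝ} (hr : r v = 0) :
    ∑ u ∈ ext v w T, r u = ∑ u ∈ T, r u := by
  rw [sum_ext hvT, hr]; simp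

/-! ### the choice of a minimal admissible set -/

theorem mem_adm {m : V → V → ℕ} {B S T : Finset V} :
    T ∈ adm m B S ↔ T ∈ kf m B ∧ Odd (S ∩ T).card := by
  unfold adm; rw [mem_filter]

theorem km_mem {m : V → V → ℕ} {ρ : V → ℝ} {B S : Finset V} (h : (adm m B S).Nonempty) :
    km m ρ B S ∈ adm m B S := by
  unfold km
  rw [dif_pos h]
  exact (exists_min_image (adm m B S) (fun T => ∑ u ∈ T, ρ u) h).choose_spec.1

theorem km_le {m : V → V → ℕ} {ρ : V → ℝ} {B S T : Finset V} (hT : T ∈ adm m B S) :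
    rr m ρ B S ≤ ∑ u ∈ T, ρ u := by
  unfold rr km
  have h : (adm m B S).Nonempty := ⟨T, hT⟩
  rw [dif_pos h]
  exact (exists_min_image (adm m B S) (fun T => ∑ u ∈ T, ρ u) h).choose_spec.2 T hT

theorem km_none {m : V → V → ℕ} {ρ : V → ℝ} {B S : Finset V} (h : ¬ (adm m B S).Nonempty) :
    km m ρ B S = ∅ := by
  unfold km
  rw [dif_neg h]

theorem rr_none {m : V → V → ℕ} {ρ : V → ℝ} {B S : Finset V} (h : ¬ (adm m B S).Nonempty) :
    rr m ρ B S = 0 := by
  unfold rr; rw [km_none h]; simp

theorem km_mem_kf (m : V → V → ℕ) (ρ : V → ℝ) (B S : Finset V) : km m ρ B S ∈ kf m B := by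
  by_cases h : (adm m B S).Nonempty
  · exact (mem_adm.1 (km_mem h)).1
  · rw [km_none h]; exact empty_mem_kf m B

theorem km_nonempty {m : V → V → ℕ} {ρ : V → ℝ} {B S : Finset V} (h : (adm m B S).Nonempty) :
    (km m ρ B S).Nonempty := by
  rw [nonempty_iff_ne_empty]
  intro h'
  have := (mem_adm.1 (km_mem (ρ := ρ) h)).2
  rw [h'] at this
  simp at this

theorem rr_pos {m : V → V → ℕ} {ρ : V → ℝ} {B S : Finset V} (hρ : ∀ u ∈ B, 0 < ρ u)
    (h : (adm m B S).Nonempty) : 0 < rr m ρ B S := by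
  unfold rr
  exact sum_pos (fun u hu => hρ u (kf_sub (km_mem_kf m ρ B S) hu)) (km_nonempty h)

theorem rr_nonneg {m : V → V → ℕ} {ρ : V → ℝ} {B S : Finset V} (hρ : ∀ u ∈ B, 0 ≤ ρ u) :
    0 ≤ rr m ρ B S :=
  sum_nonneg fun u hu => hρ u (kf_sub (km_mem_kf m ρ B S) hu)

/-! ### the elimination structure -/

/-- How the movable sets inside `B ∋ v` come from the movable sets of `B.erase v` for the
multiplicities `m'`: if `v` has no neighbour in `B` then `v` may be added freely, otherwise `v`
goes with any of its neighbours. -/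
structure El (m m' : V → V → ℕ) (v : V) (B : Finset V) : Prop where
  iso : (∀ w ∈ B.erase v, m v w = 0) →
    ∀ T, T ∈ kf m B ↔ T ⊆ B ∧ T.erase v ∈ kf m' (B.erase v)
  hang : ∀ w ∈ B.erase v, m v w ≠ 0 →
    ∀ T, T ∈ kf m B ↔ T ⊆ B ∧ T.erase v ∈ kf m' (B.erase v) ∧ (v ∈ T ↔ w ∈ T)

/-- elimination of a vertex without edges into `B` -/
theorem El.zero {m m' : V → V → ℕ} (hm : Gm m) {B : Finset V} {v : V} (hvB : v ∈ B)
    (hv : ∀ u ∈ B, m v u = 0) (h : kf m' (B.erase v) = kf m (B.erase v)) : El m m' v B := by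
  refine ⟨fun _ T => ?_, fun w hw hw' => ?_⟩
  · rw [h]; exact mem_kf_iso hm hvB hv
  · exact absurd (hv w (mem_erase.1 hw).2) hw'

/-- elimination of a vertex with one edge (its neighbour may be outside of `B`) -/
theorem El.one {m m' : V → V → ℕ} (hm : Gm m) {B : Finset V} {v w : V} (hvB : v ∈ B)
    (hvw : v ≠ w) (hv : ∀ u ∈ B, m v u = if u = w then 1 else 0)
    (h : kf m' (B.erase v) = kf m (B.erase v)) : El m m' v B := by
  by_cases hwB : w ∈ B
  · refine ⟨fun h0 => ?_, fun w' hw' hne T => ?_⟩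
    · have := h0 w (mem_erase.2 ⟨hvw.symm, hwB⟩)
      rw [hv w hwB] at this; simp at this
    · have e : w' = w := by
        by_contra h'
        rw [hv w' (mem_erase.1 hw').2, if_neg h'] at hne
        exact hne rfl
      subst e
      rw [h]; exact mem_kf_one hm hvB hwB hvw hv
  · refine El.zero hm hvB (fun u hu => ?_) h
    rw [hv u hu, if_neg]
    rintro rfl; exact hwB hu

/-- elimination of a vertex with two edges, to `w₁` and `w₂` (`w₁ = w₂` and neighbours outside
of `B` are allowed) -/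
theorem El.two {m m' : V → V → ℕ} (hm : Gm m) {B : Finset V} {v w₁ w₂ : V}
    (h : ∀ u w, m' u w = m u w + link w₁ w₂ u w)
    (hvB : v ∈ B) (hv1 : v ≠ w₁) (hv2 : v ≠ w₂)
    (hv : ∀ u ∈ B, m v u = (if u = w₁ then 1 else 0) + (if u = w₂ then 1 else 0)) :
    El m m' v B := by
  by_cases h1 : w₁ ∈ B
  · by_cases h2 : w₂ ∈ B
    · refine ⟨fun h0 => ?_, fun w hw hne T => ?_⟩
      · have := h0 w₁ (mem_erase.2 ⟨hv1.symm, h1⟩)
        rw [hv w₁ h1] at this; simp at this
      · have key := mem_kf_two hm h hvB h1 h2 hv1 hv2 hv (T := T)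
        by_cases e1 : w = w₁
        · rw [e1]; exact key
        by_cases e2 : w = w₂
        · rw [e2]
          constructor
          · intro hT
            obtain ⟨a, b, c⟩ := key.1 hT
            refine ⟨a, b, fun hvT => ?_, fun hwT => ?_⟩
            · refine kf_adj hT hvT h2 ?_
              rw [hv w₂ h2]; simp
            · refine kf_adj hT hwT hvB ?_
              rw [hm.symm, hv w₂ h2]; simp
          · rintro ⟨a, b, c⟩
            refine key.2 ⟨a, b, ?_⟩
            have := (kf_link_sub hm h (mem_erase.2 ⟨hv1.symm, h1⟩)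
              (mem_erase.2 ⟨hv2.symm, h2⟩) b).2
            rw [c]
            rw [mem_erase, mem_erase] at this
            simpa [hv1.symm, hv2.symm] using this.symm
        · exfalso; apply hne
          rw [hv w (mem_erase.1 hw).2]; simp [e1, e2]
    · refine El.one (w := w₁) hm hvB hv1 (fun u hu => ?_) ?_
      · rw [hv u hu]
        have : u ≠ w₂ := by rintro rfl; exact h2 hu
        simp [this]
      · refine kf_link_out h ?_
        rintro ⟨-, h'⟩; exact h2 (mem_erase.1 h').2
  · refine El.one (w := w₂) hm hvB hv2 (fun u hu => ?_) ?_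
    · rw [hv u hu]
      have : u ≠ w₁ := by rintro rfl; exact h1 hu
      simp [this]
    · refine kf_link_out h ?_
      rintro ⟨h', -⟩; exact h1 (mem_erase.1 h').2

/-- in the hanging case the movable sets are the images under `ext` -/
theorem El.kf_hang {m m' : V → V → ℕ} {v w : V} {B : Finset V} (E : El m m' v B)
    (hw : w ∈ B.erase v) (hvB : v ∈ B) (hne : m v w ≠ 0) :
    kf m B = (kf m' (B.erase v)).image (ext v w) := by
  have hvw : v ≠ w := (mem_erase.1 hw).1.symm
  ext T
  rw [E.hang w hw hne, mem_image]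
  constructor
  · rintro ⟨a, b, c⟩
    exact ⟨T.erase v, b, ext_of_erase hvw c⟩
  · rintro ⟨T', hT', rfl⟩
    have hvT : v ∉ T' := fun h => (mem_erase.1 (kf_sub hT' h)).1 rfl
    refine ⟨fun u hu => ?_, ?_, ?_⟩
    · rcases mem_ext.1 hu with h | h
      · exact (mem_erase.1 (kf_sub hT' h)).2
      · rw [h.1]; exact hvB
    · rw [ext_erase hvT]; exact hT'
    · rw [mem_ext, mem_ext]
      simp [hvT, hvw.symm]

theorem El.ext_mem {m m' : V → V → ℕ} {v w : V} {B : Finset V} (E : El m m' v B)
    (hw : w ∈ B.erase v) (hvB : v ∈ B) (hne : m v w ≠ 0) {T : Finset V}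
    (hT : T ∈ kf m' (B.erase v)) : ext v w T ∈ kf m B := by
  rw [E.kf_hang hw hvB hne]
  exact mem_image_of_mem _ hT

theorem notMem_of_kf_erase {m : V → V → ℕ} {v : V} {B T : Finset V}
    (hT : T ∈ kf m (B.erase v)) : v ∉ T := fun h => (mem_erase.1 (kf_sub hT h)).1 rfl

theorem ext_injOn (m : V → V → ℕ) (v w : V) (B : Finset V) :
    Set.InjOn (ext v w) (kf m (B.erase v) : Set (Finset V)) := by
  intro T hT T' hT' h
  have h1 := ext_erase (w := w) (notMem_of_kf_erase (mem_coe.1 hT))
  have h2 := ext_erase (w := w) (notMem_of_kf_erase (mem_coe.1 hT'))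
  rw [← h1, h, h2]

/-- sums over movable sets, hanging case -/
theorem El.sum_hang {m m' : V → V → ℕ} {v w : V} {B : Finset V} (E : El m m' v B)
    (hw : w ∈ B.erase v) (hvB : v ∈ B) (hne : m v w ≠ 0) (F : Finset V → ℝ) :
    ∑ T ∈ kf m B, F T = ∑ T ∈ kf m' (B.erase v), F (ext v w T) := by
  rw [E.kf_hang hw hvB hne, sum_image (ext_injOn m' v w B)]

/-- sums over movable sets, isolated case -/
theorem El.sum_iso {m m' : V → V → ℕ} {v : V} {B : Finset V} (E : El m m' v B)
    (hvB : v ∈ B) (h0 : ∀ w ∈ B.erase v, m v w = 0) (F : Finset V → ℝ) :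
    ∑ T ∈ kf m B, F T = ∑ T ∈ kf m' (B.erase v), (F T + F (insert v T)) := by
  have e : kf m B = kf m' (B.erase v) ∪ (kf m' (B.erase v)).image (insert v) := by
    ext T
    rw [E.iso h0, mem_union, mem_image]
    constructor
    · rintro ⟨a, b⟩
      by_cases hv : v ∈ T
      · right; exact ⟨T.erase v, b, insert_erase hv⟩
      · left; rwa [erase_eq_of_notMem hv] at b
    · rintro (h | ⟨T', hT', rfl⟩)
      · refine ⟨(kf_sub h).trans (erase_subset _ _), ?_⟩
        rw [erase_eq_of_notMem (notMem_of_kf_erase h)]; exact h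
      · refine ⟨insert_subset hvB ((kf_sub hT').trans (erase_subset _ _)), ?_⟩
        rw [erase_insert (notMem_of_kf_erase hT')]; exact hT'
  have hd : Disjoint (kf m' (B.erase v)) ((kf m' (B.erase v)).image (insert v)) := by
    rw [disjoint_left]
    intro T hT hT'
    obtain ⟨T'', -, rfl⟩ := mem_image.1 hT'
    exact notMem_of_kf_erase hT (mem_insert_self v T'')
  rw [e, sum_union hd, sum_image, ← sum_add_distrib]
  intro T hT T' hT' h
  have h1 := erase_insert (notMem_of_kf_erase (mem_coe.1 hT))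
  have h2 := erase_insert (notMem_of_kf_erase (mem_coe.1 hT'))
  rw [← h1, h, h2]

/-- the operator, hanging case -/
theorem El.cv_hang {m m' : V → V → ℕ} {v w : V} {B : Finset V} (E : El m m' v B)
    (hw : w ∈ B.erase v) (hvB : v ∈ B) (hne : m v w ≠ 0) (μ g : Finset V → ℝ) :
    cv (kf m B) μ g
      = cv (kf m' (B.erase v)) (fun S => μ (lb v w S)) (fun T => g (ext v w T)) := by
  have hvw : v ≠ w := (mem_erase.1 hw).1.symm
  unfold cv
  congr 1
  rw [← sum_lb hvw (fun S => μ S * ∑ T ∈ kf m B, chi S T * g T)]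
  refine sum_congr rfl fun S _ => ?_
  congr 1
  rw [E.sum_hang hw hvB hne]
  refine sum_congr rfl fun T hT => ?_
  rw [chi_ext (notMem_of_kf_erase hT), lb_lb hvw]

/-- the operator, isolated case, for a function which does not see `v` and a multiplier vanishing
on the modes containing `v` -/
theorem El.cv_iso {m m' : V → V → ℕ} {v : V} {B : Finset V} (E : El m m' v B)
    (hvB : v ∈ B) (h0 : ∀ w ∈ B.erase v, m v w = 0) (μ μ' g : Finset V → ℝ)
    (hμ : ∀ S, v ∈ S → μ S = 0) (hμ' : ∀ S, v ∉ S → μ S = μ' S)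
    (hμv : ∀ S, μ' (S.erase v) = μ' S)
    (hg : ∀ T ∈ kf m' (B.erase v), g (insert v T) = g T) :
    cv (kf m B) μ g = cv (kf m' (B.erase v)) μ' g := by
  unfold cv
  congr 1
  have key : ∀ S : Finset V, μ S * ∑ T ∈ kf m B, chi S T * g T
      = if v ∈ S then 0 else 2 * (μ' S * ∑ T ∈ kf m' (B.erase v), chi S T * g T) := by
    intro S
    by_cases hv : v ∈ S
    · rw [hμ S hv, if_pos hv, zero_mul]
    · rw [if_neg hv, hμ' S hv, E.sum_iso hvB h0]
      have : ∑ T ∈ kf m' (B.erase v), (chi S T * g T + chi S (insert v T) * g (insert v T))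
          = 2 * ∑ T ∈ kf m' (B.erase v), chi S T * g T := by
        rw [mul_sum]
        refine sum_congr rfl fun T hT => ?_
        rw [hg T hT, chi_insert (notMem_of_kf_erase hT), if_neg hv]
        ring
      rw [this]; ring
  simp only [key]
  -- the right hand side: pair `S` and `insert v S`
  have hpair : ∀ F : Finset V → ℝ, (∀ S, F (S.erase v) = F S) →
      ∑ S : Finset V, F S = ∑ S : Finset V, if v ∈ S then 0 else 2 * F S := by
    intro F hF
    have h1 : ∑ S : Finset V, (if v ∈ S then F S else 0)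
        = ∑ S : Finset V, (if v ∈ S then 0 else F S) := by
      have hinv : Function.Involutive (fun S : Finset V => symmDiff S {v}) := by
        intro S
        show symmDiff (symmDiff S {v}) {v} = S
        rw [symmDiff_assoc, symmDiff_self]
        exact symmDiff_bot S
      rw [← Function.Bijective.sum_comp hinv.bijective
        (fun S => if v ∈ S then (0 : ℝ) else F S)]
      refine sum_congr rfl fun S _ => ?_
      by_cases hv : v ∈ S
      · have h2 : v ∉ symmDiff S {v} := by
          rw [mem_symmDiff]; simp [hv]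
        have h3 : symmDiff S {v} = S.erase v := by
          ext u
          rw [mem_symmDiff, mem_erase, mem_singleton]
          by_cases hu : u = v
          · subst hu; simp [hv]
          · simp [hu]
        simp only [hv, if_true, h2, if_false]
        rw [h3, hF]
      · have h2 : v ∈ symmDiff S {v} := by
          rw [mem_symmDiff]; simp [hv]
        simp only [hv, if_false, h2, if_true]
    have h2 : ∀ S : Finset V, F S = (if v ∈ S then F S else 0) + (if v ∈ S then 0 else F S) := by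
      intro S; by_cases hv : v ∈ S <;> simp [hv]
    rw [sum_congr rfl fun S _ => h2 S, sum_add_distrib, h1, ← sum_add_distrib]
    refine sum_congr rfl fun S _ => ?_
    by_cases hv : v ∈ S
    · simp [hv]
    · simp [hv]; ring
  refine (hpair _ fun S => ?_).symm
  rw [hμv]
  congr 1
  refine sum_congr rfl fun T hT => ?_
  congr 1
  rw [chi_prod, chi_prod]
  refine prod_congr rfl fun u hu => ?_
  have : u ≠ v := by
    rintro rfl; exact notMem_of_kf_erase hT hu
  simp [mem_erase, this]

/-! ### the choice `kap` -/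

theorem El.mem_adm_hang {m m' : V → V → ℕ} {v w : V} {B : Finset V} (E : El m m' v B)
    (hw : w ∈ B.erase v) (hvB : v ∈ B) (hne : m v w ≠ 0) {S T : Finset V} :
    T ∈ adm m B S ↔ ∃ T' ∈ adm m' (B.erase v) (lb v w S), ext v w T' = T := by
  rw [mem_adm, E.kf_hang hw hvB hne, mem_image]
  constructor
  · rintro ⟨⟨T', hT', rfl⟩, h⟩
    refine ⟨T', mem_adm.2 ⟨hT', ?_⟩, rfl⟩
    rwa [odd_ext (notMem_of_kf_erase hT')] at h
  · rintro ⟨T', hT', rfl⟩
    obtain ⟨h1, h2⟩ := mem_adm.1 hT'
    refine ⟨⟨T', h1, rfl⟩, ?_⟩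
    rwa [odd_ext (notMem_of_kf_erase h1)]

theorem kap_out {m m' : V → V → ℕ} {ρ : V → ℝ} {v : V} {B S : Finset V} (h : v ∉ B) :
    kap m m' ρ v B S = km m ρ B S := by
  unfold kap; rw [if_pos h]

theorem kap_iso {m m' : V → V → ℕ} {ρ : V → ℝ} {v : V} {B S : Finset V} (h : v ∈ B)
    (h0 : ∀ w ∈ B.erase v, m v w = 0) :
    kap m m' ρ v B S = if v ∈ S then {v} else km m' ρ (B.erase v) S := by
  unfold kap
  rw [if_neg (not_not.2 h), dif_neg]
  rintro ⟨w, hw, hne⟩; exact hne (h0 w hw)

theorem El.ext_eq {m m' : V → V → ℕ} {v w w' : V} {B : Finset V} (E : El m m' v B)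
    (hw : w ∈ B.erase v) (hvB : v ∈ B) (hne : m v w ≠ 0) (hw' : w' ∈ B.erase v)
    (hne' : m v w' ≠ 0) {T : Finset V} (hT : T ∈ kf m' (B.erase v)) :
    ext v w T = ext v w' T := by
  have h1 := E.ext_mem hw hvB hne hT
  have h2 := (E.hang w' hw' hne' _).1 h1
  have h3 := h2.2.2
  rw [mem_ext, mem_ext] at h3
  have hvT := notMem_of_kf_erase hT
  have hw'v : w' ≠ v := (mem_erase.1 hw').1
  simp only [hvT, false_or, true_and, hw'v, false_and, or_false] at h3
  unfold ext
  simp only [h3]

theorem El.kap_hang {m m' : V → V → ℕ} {ρ : V → ℝ} {v w : V} {B : Finset V} (E : El m m' v B)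
    (hw : w ∈ B.erase v) (hvB : v ∈ B) (hne : m v w ≠ 0) (S : Finset V) :
    ∃ w', w' ∈ B.erase v ∧ m v w' ≠ 0 ∧
      kap m m' ρ v B S = ext v w (km m' ρ (B.erase v) (lb v w' S)) := by
  have hex : ∃ w ∈ B.erase v, m v w ≠ 0 := ⟨w, hw, hne⟩
  refine ⟨hex.choose, hex.choose_spec.1, hex.choose_spec.2, ?_⟩
  unfold kap
  rw [if_neg (not_not.2 hvB), dif_pos hex]
  exact E.ext_eq hex.choose_spec.1 hvB hex.choose_spec.2 hw hne (km_mem_kf _ _ _ _)

/-- `kap` is an argmin choice for the resistance `ρ` with `ρ v = 0` -/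
theorem El.kap_spec {m m' : V → V → ℕ} {ρ : V → ℝ} {v : V} {B : Finset V}
    (E : El m m' v B) (hvB : v ∈ B) (hv : ρ v = 0) (hρ : ∀ u ∈ B, 0 ≤ ρ u)
    (S : Finset V) (h : (adm m B S).Nonempty) :
    kap m m' ρ v B S ∈ adm m B S ∧
      ∀ T ∈ adm m B S, ∑ u ∈ kap m m' ρ v B S, ρ u ≤ ∑ u ∈ T, ρ u := by
  by_cases hex : ∃ w ∈ B.erase v, m v w ≠ 0
  · have hk : kap m m' ρ v B S
        = ext v hex.choose (km m' ρ (B.erase v) (lb v hex.choose S)) := by
      unfold kap
      rw [if_neg (not_not.2 hvB), dif_pos hex]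
    obtain ⟨hw, hne⟩ := hex.choose_spec
    set w := hex.choose
    have hadm : (adm m' (B.erase v) (lb v w S)).Nonempty := by
      obtain ⟨T, hT⟩ := h
      obtain ⟨T', hT', -⟩ := (E.mem_adm_hang hw hvB hne).1 hT
      exact ⟨T', hT'⟩
    rw [hk]
    refine ⟨(E.mem_adm_hang hw hvB hne).2 ⟨_, km_mem hadm, rfl⟩, fun T hT => ?_⟩
    obtain ⟨T', hT', rfl⟩ := (E.mem_adm_hang hw hvB hne).1 hT
    rw [sum_ext_zero (notMem_of_kf_erase (km_mem_kf _ _ _ _)) hv,
      sum_ext_zero (notMem_of_kf_erase (mem_adm.1 hT').1) hv]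
    exact km_le hT'
  · have h0 : ∀ w ∈ B.erase v, m v w = 0 := fun w hw => by
      by_contra h'; exact hex ⟨w, hw, h'⟩
    rw [kap_iso hvB h0]
    by_cases hvS : v ∈ S
    · rw [if_pos hvS]
      refine ⟨?_, fun T hT => ?_⟩
      · rw [mem_adm, E.iso h0]
        refine ⟨⟨by simpa using hvB, ?_⟩, ?_⟩
        · have : ({v} : Finset V).erase v = ∅ := by simp
          rw [this]; exact empty_mem_kf _ _
        · rw [inter_singleton_of_mem hvS]; simp
      · rw [sum_singleton, hv]
        exact sum_nonneg fun u hu => hρ u (kf_sub (mem_adm.1 hT).1 hu)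
    · rw [if_neg hvS]
      have tr : ∀ T ∈ adm m B S, T.erase v ∈ adm m' (B.erase v) S := by
        intro T hT
        obtain ⟨h1, h2⟩ := mem_adm.1 hT
        refine mem_adm.2 ⟨((E.iso h0 T).1 h1).2, ?_⟩
        have : S ∩ T.erase v = S ∩ T := by
          ext u
          rw [mem_inter, mem_inter, mem_erase]
          constructor
          · rintro ⟨a, b⟩; exact ⟨a, b.2⟩
          · rintro ⟨a, b⟩
            exact ⟨a, by rintro rfl; exact hvS a, b⟩
        rwa [this]
      have hadm : (adm m' (B.erase v) S).Nonempty := by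
        obtain ⟨T, hT⟩ := h
        exact ⟨_, tr T hT⟩
      refine ⟨?_, fun T hT => ?_⟩
      · obtain ⟨h1, h2⟩ := mem_adm.1 (km_mem (ρ := ρ) hadm)
        rw [mem_adm, E.iso h0]
        refine ⟨⟨(kf_sub h1).trans (erase_subset _ _), ?_⟩, h2⟩
        rw [erase_eq_of_notMem (notMem_of_kf_erase h1)]; exact h1
      · refine (km_le (tr T hT)).trans ?_
        have hsub : T.erase v ⊆ T := erase_subset v T
        exact sum_le_sum_of_subset_of_nonneg hsub
          (fun u hu _ => hρ u (kf_sub (mem_adm.1 hT).1 hu))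

end Pool.Agent.Nest
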