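import Mathlib

set_option autoImplicit false

/-!
# Algebra of the reduction from `q` colours to three

`X a b` is a symmetric real matrix with zero diagonal, indexed by the colours.
-/

open Finset

namespace Pool.Agent.Nest

variable {C : Type} [Fintype C] [DecidableEq C]

/-- sum over the ordered triples of distinct colours -/
def sum3 (F : C → C → C → ℝ) : ℝ :=
  ∑ a, ∑ b, ∑ c, if a ≠ b ∧ a ≠ c ∧ b ≠ c then F a b c else 0

/-- sum over the ordered quadruples with `{a,b}` and `{c,d}` disjoint -/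
def sum4 (F : C → C → C → C → ℝ) : ℝ :=
  ∑ a, ∑ b, ∑ c, ∑ d, if a ≠ c ∧ a ≠ d ∧ b ≠ c ∧ b ≠ d then F a b c d else 0

theorem sum3_nonneg (F : C → C → C → ℝ) (h : ∀ a b c, a ≠ b → a ≠ c → b ≠ c → 0 ≤ F a b c) :
    0 ≤ sum3 F := by
  unfold sum3
  refine sum_nonneg fun a _ => sum_nonneg fun b _ => sum_nonneg fun c _ => ?_
  split_ifs with h1
  · exact h a b c h1.1 h1.2.1 h1.2.2
  · exact le_refl _

theorem sum3_mono (F F' : C → C → C → ℝ)
    (h : ∀ a b c, a ≠ b → a ≠ c → b ≠ c → F a b c ≤ F' a b c) : sum3 F ≤ sum3 F' := by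
  unfold sum3
  refine sum_le_sum fun a _ => sum_le_sum fun b _ => sum_le_sum fun c _ => ?_
  split_ifs with h1
  · exact h a b c h1.1 h1.2.1 h1.2.2
  · exact le_refl _

theorem sum4_nonneg (F : C → C → C → C → ℝ)
    (h : ∀ a b c d, a ≠ c → a ≠ d → b ≠ c → b ≠ d → 0 ≤ F a b c d) : 0 ≤ sum4 F := by
  unfold sum4
  refine sum_nonneg fun a _ => sum_nonneg fun b _ => sum_nonneg fun c _ => sum_nonneg fun d _ => ?_
  split_ifs with h1
  · exact h a b c d h1.1 h1.2.1 h1.2.2.1 h1.2.2.2
  · exact le_refl _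

/-- sum over the matrix with two rows and two columns removed -/
theorem sum_removed (X : C → C → ℝ) (hs : ∀ a b, X a b = X b a) (hd : ∀ a, X a a = 0)
    (a b : C) :
    X a b * ∑ c, ∑ d, (if a ≠ c ∧ a ≠ d ∧ b ≠ c ∧ b ≠ d then X c d else 0) =
      X a b * (∑ c, ∑ d, X c d - 2 * ∑ c, X a c - 2 * ∑ c, X b c + 2 * X a b) := by
  by_cases hab : a = b
  · subst hab
    rw [hd a]; ring
  congr 1
  have h1 : ∀ c d, (if a ≠ c ∧ a ≠ d ∧ b ≠ c ∧ b ≠ d then X c d else 0) =
      X c d - (if c = a then X a d else 0) - (if c = b then X b d else 0)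
        - (if d = a then X c a else 0) - (if d = b then X c b else 0)
        + (if c = a then (if d = b then X a b else 0) else 0)
        + (if c = b then (if d = a then X b a else 0) else 0) := by
    intro c d
    by_cases h1 : c = a
    · subst h1
      by_cases h2 : d = c
      · subst h2
        simp [hab, hd]
      · by_cases h3 : d = b
        · subst h3
          simp [hab, hd, h2]
        · simp [hab, h2, h3]
    · by_cases h2 : c = b
      · subst h2
        by_cases h3 : d = a
        · subst h3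
          simp [hd, h1]
        · by_cases h4 : d = c
          · subst h4
            simp [hd, h1]
          · simp [h1, h3, h4]
      · by_cases h3 : d = a
        · subst h3
          simp [h1, h2, hab]
        · by_cases h4 : d = b
          · subst h4
            simp [h1, h2, h3]
          · rw [if_pos ⟨fun h => h1 h.symm, fun h => h3 h.symm, fun h => h2 h.symm,
              fun h => h4 h.symm⟩]
            simp [h1, h2, h3, h4]
  simp only [h1]
  simp only [sum_add_distrib, sum_sub_distrib]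
  have e1 : ∑ c, ∑ d, (if c = a then X a d else 0) = ∑ c, X a c := by
    rw [sum_eq_single a]
    · simp
    · intro c _ hc; simp [hc]
    · simp
  have e2 : ∑ c, ∑ d, (if c = b then X b d else 0) = ∑ c, X b c := by
    rw [sum_eq_single b]
    · simp
    · intro c _ hc; simp [hc]
    · simp
  have e3 : ∑ c, ∑ d, (if d = a then X c a else 0) = ∑ c, X a c := by
    apply sum_congr rfl
    intro c _
    rw [sum_ite_eq' univ a, if_pos (mem_univ _), hs]
  have e4 : ∑ c, ∑ d, (if d = b then X c b else 0) = ∑ c, X b c := by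
    apply sum_congr rfl
    intro c _
    rw [sum_ite_eq' univ b, if_pos (mem_univ _), hs]
  have e5 : ∑ c, ∑ d, (if c = a then (if d = b then X a b else 0) else 0) = X a b := by
    rw [sum_eq_single a]
    · simp
    · intro c _ hc; simp [hc]
    · simp
  have e6 : ∑ c, ∑ d, (if c = b then (if d = a then X b a else 0) else 0) = X a b := by
    rw [sum_eq_single b]
    · simp [hs b a]
    · intro c _ hc; simp [hc]
    · simp
  rw [e1, e2, e3, e4, e5, e6]
  ring

/-- the quadruple sum -/
theorem sum4_eq (X : C → C → ℝ) (hs : ∀ a b, X a b = X b a) (hd : ∀ a, X a a = 0) :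
    sum4 (fun a b c d => X a b * X c d) =
      (∑ a, ∑ b, X a b) ^ 2 - 4 * ∑ a, (∑ b, X a b) ^ 2 + 2 * ∑ a, ∑ b, (X a b) ^ 2 := by
  have h1 : sum4 (fun a b c d => X a b * X c d) = ∑ a, ∑ b,
      X a b * (∑ c, ∑ d, X c d - 2 * ∑ c, X a c - 2 * ∑ c, X b c + 2 * X a b) := by
    unfold sum4
    apply sum_congr rfl; intro a _
    apply sum_congr rfl; intro b _
    rw [← sum_removed X hs hd a b, mul_sum]
    apply sum_congr rfl; intro c _
    rw [mul_sum]
    apply sum_congr rfl; intro d _
    split_ifs <;> simp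
  rw [h1]
  set S := ∑ c, ∑ d, X c d with hS
  have h2 : ∀ a, ∑ b, X a b * (S - 2 * ∑ c, X a c - 2 * ∑ c, X b c + 2 * X a b) =
      S * (∑ b, X a b) - 2 * (∑ b, X a b) ^ 2 - 2 * ∑ b, X a b * (∑ c, X b c) +
        2 * ∑ b, (X a b) ^ 2 := by
    intro a
    have : ∀ b, X a b * (S - 2 * ∑ c, X a c - 2 * ∑ c, X b c + 2 * X a b) =
        S * X a b - 2 * (∑ c, X a c) * X a b - 2 * (X a b * (∑ c, X b c)) + 2 * (X a b) ^ 2 := by
      intro b; ring
    rw [sum_congr rfl (fun b _ => this b)]
    rw [sum_add_distrib, sum_sub_distrib, sum_sub_distrib, ← mul_sum, ← mul_sum, ← mul_sum,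
      ← mul_sum]
    ring
  rw [sum_congr rfl (fun a _ => h2 a)]
  rw [sum_add_distrib, sum_sub_distrib, sum_sub_distrib, ← mul_sum, ← mul_sum, ← mul_sum,
    ← mul_sum]
  have h3 : ∑ a, ∑ b, X a b * (∑ c, X b c) = ∑ a, (∑ b, X a b) ^ 2 := by
    rw [sum_comm]
    apply sum_congr rfl
    intro b _
    rw [← sum_mul, sq]
    congr 1
    exact sum_congr rfl (fun a _ => hs a b)
  rw [h3, ← hS]
  ring

/-- the triple sum -/
theorem sum3_eq (X : C → C → ℝ) (hs : ∀ a b, X a b = X b a) (hd : ∀ a, X a a = 0) :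
    sum3 (fun a b c => (X a b + X a c + X b c) ^ 2) =
      3 * (Fintype.card C : ℝ) * (∑ a, ∑ b, (X a b) ^ 2) + 6 * ∑ a, (∑ b, X a b) ^ 2
        - 12 * ∑ a, ∑ b, (X a b) ^ 2 := by
  set N := ∑ a, ∑ b, (X a b) ^ 2 with hN
  have h1 : ∀ a b c, (if a ≠ b ∧ a ≠ c ∧ b ≠ c then (X a b + X a c + X b c) ^ 2 else 0) =
      (X a b + X a c + X b c) ^ 2 - (if b = a then 4 * (X a c) ^ 2 else 0)
        - (if c = a then 4 * (X a b) ^ 2 else 0) - (if c = b then 4 * (X a b) ^ 2 else 0) := by
    intro a b c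
    by_cases h1 : b = a
    · subst h1
      by_cases h2 : c = b
      · subst h2
        simp [hd]
      · simp [hd, h2]; ring
    · by_cases h2 : c = a
      · subst h2
        have : ¬ c = b := fun h => h1 h.symm
        simp [hd, h1, this, hs b c]; ring
      · by_cases h3 : c = b
        · subst h3
          simp [hd, h1]; ring
        · rw [if_pos ⟨fun h => h1 h.symm, fun h => h2 h.symm, fun h => h3 h.symm⟩]
          simp [h1, h2, h3]
  unfold sum3
  simp only [h1]
  simp only [sum_sub_distrib]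
  have e1 : ∑ a, ∑ b, ∑ c, (if b = a then 4 * (X a c) ^ 2 else 0) = 4 * N := by
    rw [hN, mul_sum]
    apply sum_congr rfl
    intro a _
    rw [sum_eq_single a, mul_sum]
    · simp
    · intro b _ hb; simp [hb]
    · simp
  have e2 : ∑ a, ∑ b, ∑ c, (if c = a then 4 * (X a b) ^ 2 else 0) = 4 * N := by
    rw [hN, mul_sum]
    apply sum_congr rfl
    intro a _
    rw [mul_sum]
    apply sum_congr rfl
    intro b _
    rw [sum_ite_eq' univ a, if_pos (mem_univ _)]
  have e3 : ∑ a, ∑ b, ∑ c, (if c = b then 4 * (X a b) ^ 2 else 0) = 4 * N := by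
    rw [hN, mul_sum]
    apply sum_congr rfl
    intro a _
    rw [mul_sum]
    apply sum_congr rfl
    intro b _
    rw [sum_ite_eq' univ b, if_pos (mem_univ _)]
  have e4 : ∑ a, ∑ b, ∑ c, (X a b + X a c + X b c) ^ 2 =
      3 * (Fintype.card C : ℝ) * N + 6 * ∑ a, (∑ b, X a b) ^ 2 := by
    have h2 : ∀ a b c, (X a b + X a c + X b c) ^ 2 =
        (X a b) ^ 2 + (X a c) ^ 2 + (X b c) ^ 2 + 2 * (X a b * X a c) + 2 * (X a b * X b c)
          + 2 * (X a c * X b c) := by
      intro a b c; ring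
    simp only [h2, sum_add_distrib]
    have f1 : ∑ a, ∑ b, ∑ _c : C, (X a b) ^ 2 = (Fintype.card C : ℝ) * N := by
      simp only [sum_const, card_univ, nsmul_eq_mul, ← mul_sum]
      rw [hN]
    have f2 : ∑ a, ∑ _b : C, ∑ c, (X a c) ^ 2 = (Fintype.card C : ℝ) * N := by
      simp only [sum_const, card_univ, nsmul_eq_mul, ← mul_sum]
      rw [hN]
    have f3 : ∑ _a : C, ∑ b, ∑ c, (X b c) ^ 2 = (Fintype.card C : ℝ) * N := by
      rw [sum_const, card_univ, nsmul_eq_mul]
    have f4 : ∑ a, ∑ b, ∑ c, 2 * (X a b * X a c) = 2 * ∑ a, (∑ b, X a b) ^ 2 := by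
      rw [mul_sum]
      apply sum_congr rfl
      intro a _
      rw [sq, sum_mul, mul_sum]
      apply sum_congr rfl
      intro b _
      rw [mul_sum, mul_sum]
    have f5 : ∑ a, ∑ b, ∑ c, 2 * (X a b * X b c) = 2 * ∑ a, (∑ b, X a b) ^ 2 := by
      rw [sum_comm, mul_sum]
      apply sum_congr rfl
      intro b _
      rw [sq, sum_mul, mul_sum]
      apply sum_congr rfl
      intro a _
      rw [mul_sum, mul_sum]
      apply sum_congr rfl
      intro c _
      rw [hs a b]
    have f6 : ∑ a, ∑ b, ∑ c, 2 * (X a c * X b c) = 2 * ∑ a, (∑ b, X a b) ^ 2 := by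
      have : ∑ a, ∑ b, ∑ c, 2 * (X a c * X b c) = ∑ c, ∑ a, ∑ b, 2 * (X a c * X b c) := by
        rw [sum_comm]
        rw [sum_congr rfl (fun b _ => sum_comm)]
        rw [sum_comm]
        apply sum_congr rfl
        intro c _
        rw [sum_comm]
      rw [this, mul_sum]
      apply sum_congr rfl
      intro c _
      rw [sq, sum_mul, mul_sum]
      apply sum_congr rfl
      intro a _
      rw [mul_sum, mul_sum]
      apply sum_congr rfl
      intro b _
      rw [hs a c, hs b c]
    rw [f1, f2, f3, f4, f5, f6]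
    ring
  rw [e1, e2, e3, e4]
  ring

/-- **The reduction identity.** -/
theorem red_identity (X : C → C → ℝ) (hs : ∀ a b, X a b = X b a) (hd : ∀ a, X a a = 0) :
    ((1 / 2) * ∑ a, ∑ b, X a b) ^ 2 =
      (1 / 6) * sum3 (fun a b c => (X a b + X a c + X b c) ^ 2)
        - (1 / 2) * ((Fintype.card C : ℝ) - 3) * (∑ a, ∑ b, (X a b) ^ 2)
        + (1 / 4) * sum4 (fun a b c d => X a b * X c d) := by
  rw [sum3_eq X hs hd, sum4_eq X hs hd]
  ring

/-- Sum over triples of a quantity attached to a pair and a third colour. -/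
theorem sum3_rot (D : C → C → C → ℝ) (hD : ∀ a b c, D a b c = D b a c) :
    sum3 (fun a b c => D a b c + D a c b + D b c a) =
      3 * ∑ a, ∑ b, if a ≠ b then (∑ c, if a ≠ c ∧ b ≠ c then D a b c else 0) else 0 := by
  have h0 : ∀ F : C → C → C → ℝ, sum3 F =
      ∑ a, ∑ b, ∑ c, if a ≠ b ∧ a ≠ c ∧ b ≠ c then F a b c else 0 := fun _ => rfl
  have hadd : ∀ F F' : C → C → C → ℝ, sum3 (fun a b c => F a b c + F' a b c) =
      sum3 F + sum3 F' := by
    intro F F'
    simp only [h0, ← sum_add_distrib]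
    apply sum_congr rfl; intro a _
    apply sum_congr rfl; intro b _
    apply sum_congr rfl; intro c _
    split_ifs <;> simp
  have h1 : sum3 (fun a b c => D a c b) = sum3 D := by
    simp only [h0]
    apply sum_congr rfl; intro a _
    rw [sum_comm]
    apply sum_congr rfl; intro c _
    apply sum_congr rfl; intro b _
    by_cases h : a ≠ b ∧ a ≠ c ∧ b ≠ c
    · rw [if_pos h, if_pos ⟨h.2.1, h.1, h.2.2.symm⟩]
    · rw [if_neg h, if_neg (fun h' => h ⟨h'.2.1, h'.1, h'.2.2.symm⟩)]
  have h2 : sum3 (fun a b c => D b c a) = sum3 D := by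
    simp only [h0]
    rw [sum_congr rfl (fun a _ => sum_comm), sum_comm, sum_congr rfl (fun a _ => sum_comm)]
    rw [sum_comm]
    apply sum_congr rfl; intro x _
    apply sum_congr rfl; intro y _
    apply sum_congr rfl; intro z _
    by_cases h : x ≠ y ∧ x ≠ z ∧ y ≠ z
    · rw [if_pos h, if_pos]
      · exact ⟨h.2.1.symm, h.2.2.symm, h.1⟩
    · rw [if_neg h, if_neg]
      intro h'
      exact h ⟨h'.2.2, h'.1.symm, h'.2.1.symm⟩
  have e : sum3 (fun a b c => D a b c + D a c b + D b c a) = 3 * sum3 D := by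
    rw [hadd (fun a b c => D a b c + D a c b) (fun a b c => D b c a),
      hadd D (fun a b c => D a c b), h1, h2]
    ring
  rw [e]
  congr 1
  simp only [h0]
  apply sum_congr rfl; intro a _
  apply sum_congr rfl; intro b _
  by_cases hab : a ≠ b
  · rw [if_pos hab]
    apply sum_congr rfl; intro c _
    by_cases h : a ≠ c ∧ b ≠ c
    · rw [if_pos h, if_pos ⟨hab, h⟩]
    · rw [if_neg h, if_neg (fun h' => h h'.2)]
  · rw [if_neg hab]
    apply sum_eq_zero; intro c _
    rw [if_neg (fun h' => hab h'.1)]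

end Pool.Agent.Nest
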