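import Pool.Agent.Lib.MP_26a019_lc.Nest.FSys

set_option autoImplicit false

/-!
# Calculus of multipliers, in the form used by the tail
-/

open Finset Classical

namespace Pool.Agent.Nest

variable {V : Type} [Fintype V] {X : Type}

/-- orthogonality of characters over the group -/
theorem sum_chi_fam (K : Finset (Finset V)) (hemp : ∅ ∈ K)
    (hsd : ∀ T ∈ K, ∀ T' ∈ K, symmDiff T T' ∈ K) (S S' : Finset V) :
    ∑ T ∈ K, chi S T * chi S' T = if (∀ T ∈ K, chi S T = chi S' T) then (K.card : ℝ) else 0 :=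
  orthK hemp hsd S S'

/-- number of modes with a given restriction -/
theorem card_modes (K : Finset (Finset V)) (hemp : ∅ ∈ K)
    (hsd : ∀ T ∈ K, ∀ T' ∈ K, symmDiff T T' ∈ K) (S0 : Finset V) :
    ((univ.filter (fun S : Finset V => ∀ T ∈ K, chi S T = chi S0 T)).card : ℝ) * K.card =
      2 ^ Fintype.card V :=
  countK hemp hsd S0

theorem op_one (F : FS V X) (g : X → ℝ) {f : X} (hf : f ∈ F.Om) :
    F.op (fun _ _ => 1) g f = g f :=
  F.op_one g hf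

theorem op_op (F : FS V X) (μ ν : X → Finset V → ℝ) (_hμ : Mul F μ) (hν : Mul F ν)
    (g : X → ℝ) {f : X} (hf : f ∈ F.Om) :
    F.op μ (F.op ν g) f = F.op (fun f S => μ f S * ν f S) g f :=
  F.op_op hν g hf

theorem op_symm (F : FS V X) (μ : X → Finset V → ℝ) (hμ : Mul F μ) (φ ψ : X → ℝ) :
    ∑ f ∈ F.Om, φ f * F.op μ ψ f = ∑ f ∈ F.Om, F.op μ φ f * ψ f :=
  F.op_symm' hμ φ ψ

theorem op_quad (F : FS V X) (μ : X → Finset V → ℝ) (hμ : Mul F μ) (g : X → ℝ) :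
    ∑ f ∈ F.Om, g f * F.op μ g f = ∑ f ∈ F.Om,
      (∑ S : Finset V, μ f S * (∑ T ∈ F.K f, chi S T * g (F.fl T f)) ^ 2) /
        (2 ^ Fintype.card V * (F.K f).card) :=
  F.quad hμ g

theorem op_nonneg (F : FS V X) (μ : X → Finset V → ℝ) (hμ : Mul F μ)
    (h0 : ∀ f ∈ F.Om, ∀ S, 0 ≤ μ f S) (g : X → ℝ) :
    0 ≤ ∑ f ∈ F.Om, g f * F.op μ g f :=
  F.op_nonneg hμ h0 g

theorem op_fl (F : FS V X) (μ : X → Finset V → ℝ) (hμ : Mul F μ) (g : X → ℝ) {f : X}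
    (hf : f ∈ F.Om) {T0 : Finset V} (hT0 : T0 ∈ F.K f) :
    F.op μ g (F.fl T0 f) = F.op (fun f S => chi S T0 * μ f S) g f :=
  F.op_fl hμ.1 g hf hT0

theorem orbit_sum (F : FS V X) (h : X → ℝ) :
    ∑ f ∈ F.Om, h f = ∑ f ∈ F.Om, (∑ T ∈ F.K f, h (F.fl T f)) / (F.K f).card :=
  (F.sum_avg h).symm

end Pool.Agent.Nest
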