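import Pool.Agent.Lib.MP_26a019_lc.Nest.Defs

set_option autoImplicit false

/-!
# `q` colours: definitions used in the reduction to three colours
-/

open Finset Classical

namespace Pool.Agent.Nest

variable {V : Type} [Fintype V] {C : Type} [Fintype C]

/-- the vertices coloured `a`, `b` or `c` -/
noncomputable def aq (a b c : C) (f : V → C) : Finset V :=
  univ.filter (fun u => f u = a ∨ f u = b ∨ f u = c)

/-- the slack of `u` in the three colour instance formed by the vertices coloured `a`, `b`, `c` -/
noncomputable def s3 (G : SimpleGraph V) (W : Finset V) (a b c : C) (f : V → C) (u : V) : ℝ :=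
  3 - ∑ w ∈ aq a b c f, (adj G u w : ℝ) - 3 / 2 * ∑ w ∈ aq a b c f, (pin W u w : ℝ)

/-- the generator of the pair `a, b` (zero if `a = b`) -/
noncomputable def Xq (G : SimpleGraph V) (W : Finset V) (ρ : V → ℝ) (g : (V → C) → ℝ)
    (a b : C) (f : V → C) : ℝ :=
  if a = b then 0 else oq (mq G W) a b (lam (mq G W) ρ) g f

/-- the slack operator of the pair `a, b` in the sector `a, b, c` -/
noncomputable def Yq (G : SimpleGraph V) (W : Finset V) (ρ : V → ℝ) (g : (V → C) → ℝ)
    (a b c : C) (f : V → C) : ℝ :=
  cv (kf (mq G W) (bq a b f)) (cst (mq G W) ρ (s3 G W a b c f) (bq a b f))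
    (fun T => g (fq a b T f))

/-- the hypothesis delivered by the three colour theorem -/
def Core (V : Type) [Fintype V] : Prop :=
  ∀ (I : Ins V), I.Ok → ∀ ρ : V → ℝ, (∀ u, 0 < ρ u) → ∀ g : (V → ZMod 3) → ℝ, 0 ≤ Q3 I ρ g

end Pool.Agent.Nest
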