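import Pool.Agent.Lib.MP_26a019_lc.Nest.QFS
import Pool.Agent.Lib.MP_26a019_lc.Nest.QCalc

set_option autoImplicit false
set_option linter.unusedSectionVars false

/-!
# Two disjoint pairs of colours: the generators commute and have a nonnegative pairing
-/

open Finset Classical

namespace Pool.Agent.Nest

variable {V : Type} [Fintype V] {C : Type} [Fintype C]

/-- the operator of a multiplier as a sum over the group -/
theorem cv_eq_sum (K : Finset (Finset V)) (μ : Finset V → ℝ) (g : Finset V → ℝ) :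
    cv K μ g = ∑ T ∈ K, ((∑ S : Finset V, μ S * chi S T) / 2 ^ Fintype.card V) * g T := by
  unfold cv
  rw [sum_div]
  have h1 : ∀ S : Finset V, (μ S * ∑ T ∈ K, chi S T * g T) / 2 ^ Fintype.card V =
      ∑ T ∈ K, (μ S * chi S T) / 2 ^ Fintype.card V * g T := by
    intro S
    rw [mul_sum, sum_div]
    refine sum_congr rfl fun T _ => ?_
    ring
  simp only [h1]
  rw [sum_comm]
  refine sum_congr rfl fun T _ => ?_
  rw [sum_div, sum_mul]

/-- Fubini for two operators -/
theorem cv_swap (K K' : Finset (Finset V)) (μ ν : Finset V → ℝ) (h : Finset V → Finset V → ℝ) :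
    cv K μ (fun T => cv K' ν (fun U => h T U)) = cv K' ν (fun U => cv K μ (fun T => h T U)) := by
  rw [cv_eq_sum, cv_eq_sum]
  simp only [cv_eq_sum, mul_sum]
  rw [sum_comm]
  refine sum_congr rfl fun U _ => sum_congr rfl fun T _ => ?_
  ring

theorem bq_fq_disj {a b c d : C} (hac : a ≠ c) (had : a ≠ d) (hbc : b ≠ c) (hbd : b ≠ d)
    (T : Finset V) (f : V → C) : bq c d (fq a b T f) = bq c d f := by
  ext u
  simp only [mem_bq, fq]
  by_cases hu : u ∈ T
  · simp only [hu, if_true]
    by_cases h : f u = a ∨ f u = b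
    · rcases h with h | h
      · rw [h]; simp [hac, had, hbc, hbd]
      · rw [h]; simp [hac, had, hbc, hbd]
    · rw [swap_of_not h]
  · simp only [hu, if_false]

theorem swap_disj {a b c d : C} (hac : a ≠ c) (had : a ≠ d) (hbc : b ≠ c) (hbd : b ≠ d)
    (x : C) : Equiv.swap c d (Equiv.swap a b x) = Equiv.swap a b (Equiv.swap c d x) := by
  by_cases h : x = a ∨ x = b
  · have h1 : ¬ (x = c ∨ x = d) := by
      rcases h with h | h <;> subst h <;> simp [hac, had, hbc, hbd]
    have h2 : ¬ (Equiv.swap a b x = c ∨ Equiv.swap a b x = d) := by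
      rcases h with h | h <;> subst h <;> simp [hac, had, hbc, hbd]
    rw [swap_of_not h1, swap_of_not h2]
  · rw [swap_of_not h]
    by_cases h1 : x = c ∨ x = d
    · have h2 : ¬ (Equiv.swap c d x = a ∨ Equiv.swap c d x = b) := by
        rcases h1 with h1 | h1 <;> subst h1 <;> simp [hac.symm, had.symm, hbc.symm, hbd.symm]
      rw [swap_of_not h2]
    · rw [swap_of_not h1, swap_of_not h]

theorem fq_fq_disj {a b c d : C} (hac : a ≠ c) (had : a ≠ d) (hbc : b ≠ c) (hbd : b ≠ d)
    (T U : Finset V) (f : V → C) : fq c d U (fq a b T f) = fq a b T (fq c d U f) := by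
  funext u
  simp only [fq]
  by_cases h : u ∈ T <;> by_cases h' : u ∈ U <;> simp [h, h', swap_disj hac had hbc hbd]

/-- operators of disjoint pairs commute -/
theorem op_comm (G : SimpleGraph V) (W : Finset V) (p : V → C) {a b c d : C} (hac : a ≠ c)
    (had : a ≠ d) (hbc : b ≠ c) (hbd : b ≠ d) (μ ν : Finset V → Finset V → ℝ)
    (g : (V → C) → ℝ) (f : V → C) :
    (FQ G W p a b).op (fun f => μ (bq a b f))
        ((FQ G W p c d).op (fun f => ν (bq c d f)) g) f =
      (FQ G W p c d).op (fun f => ν (bq c d f))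
        ((FQ G W p a b).op (fun f => μ (bq a b f)) g) f := by
  unfold FS.op
  show cv (kf (mq G W) (bq a b f)) (μ (bq a b f)) (fun T =>
      cv (kf (mq G W) (bq c d (fq a b T f))) (ν (bq c d (fq a b T f)))
        (fun U => g (fq c d U (fq a b T f)))) =
    cv (kf (mq G W) (bq c d f)) (ν (bq c d f)) (fun U =>
      cv (kf (mq G W) (bq a b (fq c d U f))) (μ (bq a b (fq c d U f)))
        (fun T => g (fq a b T (fq c d U f))))
  simp only [bq_fq_disj hac had hbc hbd,
    bq_fq_disj (V := V) hac.symm hbc.symm had.symm hbd.symm,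
    fq_fq_disj hac had hbc hbd]
  exact cv_swap _ _ _ _ _

/-- QDisj.lean -/
theorem disj_nonneg (G : SimpleGraph V) (W : Finset V) (p : V → C) (ρ : V → ℝ)
    (hρ : ∀ u, 0 < ρ u) (g : (V → C) → ℝ) (a b c d : C) (hac : a ≠ c) (had : a ≠ d)
    (hbc : b ≠ c) (hbd : b ≠ d) :
    0 ≤ ∑ f ∈ OmQ G W p, Xq G W ρ g a b f * Xq G W ρ g c d f := by
  by_cases hab : a = b
  · simp [Xq, hab]
  by_cases hcd : c = d
  · simp [Xq, hcd]
  set A := (FQ G W p a b).op (fun f S => Real.sqrt (lam (mq G W) ρ (bq a b f) S)) with hA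
  set B := (FQ G W p c d).op (fun f S => Real.sqrt (lam (mq G W) ρ (bq c d f) S)) with hB
  have hX : ∀ f ∈ OmQ G W p, Xq G W ρ g a b f = A (A g) f := by
    intro f hf
    rw [hA, op_op (FQ G W p a b) _ _ (mul_sqrt G W p a b ρ) (mul_sqrt G W p a b ρ) g hf]
    unfold Xq
    rw [if_neg hab]
    unfold oq FS.op
    congr 1
    funext S
    exact (Real.mul_self_sqrt (lam_nonneg hρ _ _)).symm
  have hY : ∀ f ∈ OmQ G W p, Xq G W ρ g c d f = B (B g) f := by
    intro f hf
    rw [hB, op_op (FQ G W p c d) _ _ (mul_sqrt G W p c d ρ) (mul_sqrt G W p c d ρ) g hf]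
    unfold Xq
    rw [if_neg hcd]
    unfold oq FS.op
    congr 1
    funext S
    exact (Real.mul_self_sqrt (lam_nonneg hρ _ _)).symm
  have hcomm : ∀ (h : (V → C) → ℝ) (f : V → C), A (B h) f = B (A h) f := fun h f =>
    op_comm G W p hac had hbc hbd (fun B S => Real.sqrt (lam (mq G W) ρ B S))
      (fun B S => Real.sqrt (lam (mq G W) ρ B S)) h f
  have h1 : ∑ f ∈ OmQ G W p, Xq G W ρ g a b f * Xq G W ρ g c d f =
      ∑ f ∈ OmQ G W p, A (A g) f * B (B g) f :=
    sum_congr rfl fun f hf => by rw [hX f hf, hY f hf]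
  have h2 : ∑ f ∈ OmQ G W p, A (A g) f * B (B g) f =
      ∑ f ∈ OmQ G W p, A g f * A (B (B g)) f :=
    (op_symm (FQ G W p a b) _ (mul_sqrt G W p a b ρ) (A g) (B (B g))).symm
  have h3 : ∑ f ∈ OmQ G W p, A g f * A (B (B g)) f =
      ∑ f ∈ OmQ G W p, A g f * B (A (B g)) f :=
    sum_congr rfl fun f _ => by rw [hcomm (B g) f]
  have h4 : ∑ f ∈ OmQ G W p, A g f * B (A (B g)) f =
      ∑ f ∈ OmQ G W p, B (A g) f * A (B g) f :=
    op_symm (FQ G W p c d) _ (mul_sqrt G W p c d ρ) (A g) (A (B g))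
  rw [h1, h2, h3, h4]
  refine sum_nonneg fun f _ => ?_
  rw [hcomm g f]
  exact mul_self_nonneg _

end Pool.Agent.Nest
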