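import Pool.Agent.Lib.MP_26a019_lc.Nest.QDefs
import Pool.Agent.Lib.MP_26a019_lc.Nest.Link

set_option autoImplicit false

/-!
# The flip system of a pair of colours
-/

set_option linter.unusedSectionVars false

open Finset Classical

namespace Pool.Agent.Nest

variable {V : Type} [Fintype V] {C : Type} [Fintype C]

theorem mem_bq {c d : C} {f : V → C} {u : V} : u ∈ bq c d f ↔ f u = c ∨ f u = d := by
  simp [bq]

theorem bq_comm (c d : C) (f : V → C) : bq c d f = bq d c f := by
  ext u; simp only [mem_bq]; exact or_comm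

theorem fq_comm (c d : C) (T : Finset V) (f : V → C) : fq c d T f = fq d c T f := by
  unfold fq; rw [Equiv.swap_comm]

theorem swap_mem {c d x : C} (h : x = c ∨ x = d) :
    Equiv.swap c d x = c ∨ Equiv.swap c d x = d := by
  rcases h with h | h
  · subst h; right; simp
  · subst h; left; simp

theorem swap_mem_iff {c d x : C} :
    (Equiv.swap c d x = c ∨ Equiv.swap c d x = d) ↔ (x = c ∨ x = d) := by
  constructor
  · intro h
    have := swap_mem h
    rwa [Equiv.swap_apply_self] at this
  · exact swap_mem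

theorem swap_of_not {c d x : C} (h : ¬ (x = c ∨ x = d)) : Equiv.swap c d x = x := by
  push Not at h
  exact Equiv.swap_apply_of_ne_of_ne h.1 h.2

theorem bq_fq (c d : C) (T : Finset V) (f : V → C) : bq c d (fq c d T f) = bq c d f := by
  ext u
  simp only [mem_bq, fq]
  by_cases hu : u ∈ T
  · simp only [hu, if_true]; exact swap_mem_iff
  · simp only [hu, if_false]

theorem fq_empty (c d : C) (f : V → C) : fq c d ∅ f = f := by
  funext u; simp [fq]

theorem fq_fq (c d : C) (T T' : Finset V) (f : V → C) :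
    fq c d T' (fq c d T f) = fq c d (symmDiff T T') f := by
  funext u
  simp only [fq, mem_symmDiff]
  by_cases h : u ∈ T <;> by_cases h' : u ∈ T' <;> simp [h, h']

/-- members of `kf (mq G W) B` contain no pinned vertex -/
theorem notMem_pin {G : SimpleGraph V} {W B T : Finset V} (hT : T ∈ kf (mq G W) B) {u : V}
    (hu : u ∈ T) : u ∉ W := by
  intro hW
  have h := (mem_kf.mp hT).2.2 {u} (singleton_subset_iff.mpr hu) (singleton_nonempty u)
  simp [mq, adj, pin, hW] at h

theorem adj_mq {G : SimpleGraph V} {W : Finset V} {u w : V} (h : G.Adj u w) : mq G W u w ≠ 0 := by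
  simp [mq, adj, h]

theorem fq_mem {G : SimpleGraph V} {W : Finset V} {p : V → C} {c d : C} {f : V → C}
    (hf : f ∈ OmQ G W p) {T : Finset V} (hT : T ∈ kf (mq G W) (bq c d f)) :
    fq c d T f ∈ OmQ G W p := by
  have hT' := mem_kf.mp hT
  simp only [OmQ, mem_filter, mem_univ, true_and] at hf ⊢
  refine ⟨?_, ?_⟩
  · intro u w huw
    have key : ∀ u w, G.Adj u w → u ∈ T → w ∉ T → Equiv.swap c d (f u) ≠ f w := by
      intro u w huw hu hw heq
      have hwB : w ∈ bq c d f := by
        rw [mem_bq, ← heq]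
        exact swap_mem (mem_bq.mp (hT'.1 hu))
      exact adj_mq huw (hT'.2.1 u hu w hwB hw)
    by_cases hu : u ∈ T <;> by_cases hw : w ∈ T
    · simp only [fq, hu, hw, if_true]
      intro h
      exact hf.1 u w huw ((Equiv.swap c d).injective h)
    · simp only [fq, hu, hw, if_true, if_false]
      exact key u w huw hu hw
    · simp only [fq, hu, hw, if_true, if_false]
      exact fun h => key w u huw.symm hw hu h.symm
    · simp only [fq, hu, hw, if_false]
      exact hf.1 u w huw
  · intro z hz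
    have : z ∉ T := fun h => notMem_pin hT h hz
    simp only [fq, this, if_false]
    exact hf.2 z hz

/-! ### the kf family -/

theorem mq_symm (G : SimpleGraph V) (W : Finset V) (u w : V) : mq G W u w = mq G W w u := by
  have h1 : adj G u w = adj G w u := by
    unfold adj; simp [G.adj_comm u w]
  have h2 : pin W u w = pin W w u := by
    unfold pin
    by_cases h : u = w
    · subst h; rfl
    · have h' : ¬ w = u := fun e => h e.symm
      simp [h, h']
  unfold mq; rw [h1, h2]

theorem mq_gm (G : SimpleGraph V) (W : Finset V) : Gm (mq G W) := by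
  refine ⟨mq_symm G W, fun u => ?_⟩
  unfold mq adj pin
  by_cases h : u ∈ W
  · simp [h]
  · simp [h]

/-- flips of the pair `c, d` -/
noncomputable def FQ (G : SimpleGraph V) (W : Finset V) (p : V → C) (c d : C) : FS V (V → C) where
  Om := OmQ G W p
  K := fun f => kf (mq G W) (bq c d f)
  fl := fun T f => fq c d T f
  emp := fun _ _ => empty_mem_kf _ _
  sd := fun _ _ _ hT _ hT' => symmDiff_mem_kf (mq_gm G W) hT hT'
  fl_mem := fun _ hf _ hT => fq_mem hf hT
  K_fl := fun f _ T _ => by rw [bq_fq]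
  fl_fl := fun f _ T _ T' _ => fq_fq c d T T' f
  fl_emp := fun f _ => fq_empty c d f

/-! ### the choice depends only on the restriction of the mode -/

theorem adm_congr {m : V → V → ℕ} {B S S' : Finset V}
    (h : ∀ T ∈ kf m B, chi S T = chi S' T) : adm m B S = adm m B S' := by
  unfold adm
  apply filter_congr
  intro T hT
  have h1 := h T hT
  unfold chi at h1
  rcases Nat.even_or_odd (S ∩ T).card with e | o <;>
    rcases Nat.even_or_odd (S' ∩ T).card with e' | o'
  · simp [Nat.not_odd_iff_even.mpr e, Nat.not_odd_iff_even.mpr e']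
  · rw [e.neg_one_pow, o'.neg_one_pow] at h1; norm_num at h1
  · rw [o.neg_one_pow, e'.neg_one_pow] at h1; norm_num at h1
  · simp [o, o']

theorem km_congr {m : V → V → ℕ} {ρ : V → ℝ} {B S S' : Finset V}
    (h : ∀ T ∈ kf m B, chi S T = chi S' T) : km m ρ B S = km m ρ B S' := by
  unfold km
  simp only [adm_congr h]

theorem lam_congr {m : V → V → ℕ} {ρ : V → ℝ} {B S S' : Finset V}
    (h : ∀ T ∈ kf m B, chi S T = chi S' T) : lam m ρ B S = lam m ρ B S' := by
  unfold lam rr
  rw [km_congr h]

theorem cst_congr {m : V → V → ℕ} {ρ s : V → ℝ} {B S S' : Finset V}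
    (h : ∀ T ∈ kf m B, chi S T = chi S' T) : cst m ρ s B S = cst m ρ s B S' := by
  unfold cst
  rw [km_congr h, lam_congr h]

theorem km_spec {m : V → V → ℕ} {ρ : V → ℝ} {B S : Finset V} (h : (adm m B S).Nonempty) :
    km m ρ B S ∈ adm m B S ∧ ∀ T ∈ adm m B S, ∑ u ∈ km m ρ B S, ρ u ≤ ∑ u ∈ T, ρ u := by
  unfold km
  rw [dif_pos h]
  exact (exists_min_image (adm m B S) (fun T => ∑ u ∈ T, ρ u) h).choose_spec

theorem km_of_not {m : V → V → ℕ} {ρ : V → ℝ} {B S : Finset V} (h : ¬ (adm m B S).Nonempty) :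
    km m ρ B S = ∅ := by
  unfold km
  rw [dif_neg h]

theorem rr_pos' {m : V → V → ℕ} {ρ : V → ℝ} (hρ : ∀ u, 0 < ρ u) {B S : Finset V}
    (h : (adm m B S).Nonempty) : 0 < rr m ρ B S :=
  rr_pos (fun u _ => hρ u) h

theorem lam_nonneg {m : V → V → ℕ} {ρ : V → ℝ} (hρ : ∀ u, 0 < ρ u) (B S : Finset V) :
    0 ≤ lam m ρ B S :=
  div_nonneg (by norm_num) (sum_nonneg fun u _ => (hρ u).le)

theorem lam_of_not {m : V → V → ℕ} {ρ : V → ℝ} {B S : Finset V} (h : ¬ (adm m B S).Nonempty) :
    lam m ρ B S = 0 := by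
  unfold lam rr
  rw [km_of_not h]; simp

theorem lam_pos {m : V → V → ℕ} {ρ : V → ℝ} (hρ : ∀ u, 0 < ρ u) {B S : Finset V}
    (h : (adm m B S).Nonempty) : 0 < lam m ρ B S :=
  div_pos (by norm_num) (rr_pos' hρ h)

/-! ### multipliers -/

theorem mul_of_bq (G : SimpleGraph V) (W : Finset V) (p : V → C) (c d : C)
    (μ : Finset V → Finset V → ℝ)
    (h : ∀ B S S', (∀ T ∈ kf (mq G W) B, chi S T = chi S' T) → μ B S = μ B S') :
    Mul (FQ G W p c d) (fun f => μ (bq c d f)) := by
  refine ⟨?_, ?_⟩
  · intro f _ T _ S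
    show μ (bq c d (fq c d T f)) S = μ (bq c d f) S
    rw [bq_fq]
  · intro f _ S S' hS
    exact h _ S S' hS

theorem mul_lam (G : SimpleGraph V) (W : Finset V) (p : V → C) (c d : C) (ρ : V → ℝ) :
    Mul (FQ G W p c d) (fun f => lam (mq G W) ρ (bq c d f)) :=
  mul_of_bq G W p c d (lam (mq G W) ρ) (fun _ _ _ h => lam_congr h)

theorem mul_sqrt (G : SimpleGraph V) (W : Finset V) (p : V → C) (c d : C) (ρ : V → ℝ) :
    Mul (FQ G W p c d) (fun f S => Real.sqrt (lam (mq G W) ρ (bq c d f) S)) :=
  mul_of_bq G W p c d (fun B S => Real.sqrt (lam (mq G W) ρ B S))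
    (fun _ _ _ h => by rw [lam_congr h])

end Pool.Agent.Nest
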