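import Pool.Agent.Lib.MP_26a019_lc.Nest.QMain
import Pool.Agent.Lib.MP_26a019_lc.Mix.MMain

set_option autoImplicit false

/-!
# Polynomial mixing from the three colour theorem
-/

open Finset Classical

namespace Pool.Agent.Nest

open Pool.Agent.Kempe Pool.Agent.KempeMix

/-- Glauber dynamics with `q ≥ Δ + 2` colours mixes in time `2 q^(3q-2) (n+1)^q`. -/
theorem mixing_of_core {V C : Type} [Fintype V] [Fintype C] [Nonempty V] (core : Core V)
    (q Δ : ℕ) (hq : Δ + 2 ≤ q) (hC : Fintype.card C = q) (G : SimpleGraph V)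
    (hΔ : ∀ v, (univ.filter (fun u => G.Adj v u)).card ≤ Δ) (t : ℕ)
    (ht : 2 * (q : ℝ) ^ (3 * q - 2) * ((Fintype.card V : ℝ) + 1) ^ q ≤ t)
    (f0 : {f : V → C // f ∈ PC G C}) : tvd G C t f0 ≤ 1 / 4 := by
  have hq' : Δ + 2 ≤ Fintype.card C := by omega
  apply mixing_of_si Δ hq' (Fintype.card C - 1) (by omega) G hΔ
    (fun W p _ _ h => H_of_core core Δ hq' G hΔ W p h) t _ f0
  rw [show 3 * (Fintype.card C - 1) + 1 = 3 * q - 2 by omega,
    show Fintype.card C - 1 + 1 = q by omega, hC]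
  exact ht

end Pool.Agent.Nest
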