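import Mathlib

set_option autoImplicit false

/-!
# Gap from the square inequality

If `L` is symmetric and nonnegative on the functions on the finite set `Om`, its kernel consists of
the constants, and `⟨φ, L φ⟩ ≤ |L φ|^2` for all `φ`, then `|G|^2 ≤ ⟨G, L G⟩` for `∑ G = 0`.
-/

open Finset

namespace Pool.Agent.Nest

variable {Ω : Type} [Fintype Ω] [DecidableEq Ω]

omit [Fintype Ω] in
/-- A symmetric operator is local. -/
theorem local_of_symm (Om : Finset Ω) (L : (Ω → ℝ) →ₗ[ℝ] (Ω → ℝ))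
    (hsym : ∀ φ ψ : Ω → ℝ, ∑ f ∈ Om, φ f * L ψ f = ∑ f ∈ Om, L φ f * ψ f)
    (φ ψ : Ω → ℝ) (h : ∀ f ∈ Om, φ f = ψ f) : ∀ f ∈ Om, L φ f = L ψ f := by
  intro f0 hf0
  have key : ∀ χ : Ω → ℝ, L χ f0 = ∑ f ∈ Om, L (Pi.single f0 1) f * χ f := by
    intro χ
    rw [← hsym (Pi.single f0 1) χ]
    rw [sum_eq_single f0]
    · simp
    · intro b _ hb
      simp [hb]
    · intro h; exact absurd hf0 h
  rw [key φ, key ψ]
  exact sum_congr rfl (fun f hf => by rw [h f hf])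

/-- Existence of a potential. -/
theorem exists_potential (Om : Finset Ω) (L : (Ω → ℝ) →ₗ[ℝ] (Ω → ℝ))
    (hsym : ∀ φ ψ : Ω → ℝ, ∑ f ∈ Om, φ f * L ψ f = ∑ f ∈ Om, L φ f * ψ f)
    (hker : ∀ φ : Ω → ℝ, (∀ f ∈ Om, L φ f = 0) → ∀ f ∈ Om, ∀ f' ∈ Om, φ f = φ f')
    (hone : ∀ f ∈ Om, L (fun _ => 1) f = 0)
    (G : Ω → ℝ) (hG : ∑ f ∈ Om, G f = 0) : ∃ φ : Ω → ℝ, ∀ f ∈ Om, L φ f = G f := by
  classical
  rcases Om.eq_empty_or_nonempty with hE | hE
  · subst hE
    exact ⟨0, by simp⟩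
  have hc : (0 : ℝ) < (Om.card : ℝ) := by exact_mod_cast hE.card_pos
  let A : (Ω → ℝ) →ₗ[ℝ] (Ω → ℝ) :=
    { toFun := fun φ f => if f ∈ Om then L φ f + ∑ f' ∈ Om, φ f' else φ f
      map_add' := by
        intro φ ψ
        funext f
        by_cases hf : f ∈ Om
        · simp only [hf, if_true, map_add, Pi.add_apply, sum_add_distrib]; ring
        · simp only [hf, if_false, Pi.add_apply]
      map_smul' := by
        intro c φ
        funext f
        by_cases hf : f ∈ Om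
        · simp only [hf, if_true, map_smul, Pi.smul_apply, smul_eq_mul, ← mul_sum,
            RingHom.id_apply]
          ring
        · simp only [hf, if_false, Pi.smul_apply, smul_eq_mul, RingHom.id_apply] }
  have hA : ∀ φ f, A φ f = if f ∈ Om then L φ f + ∑ f' ∈ Om, φ f' else φ f := fun _ _ => rfl
  have hsum : ∀ φ : Ω → ℝ, ∑ f ∈ Om, L φ f = 0 := by
    intro φ
    have := hsym (fun _ => 1) φ
    simp only [one_mul] at this
    rw [this]
    apply sum_eq_zero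
    intro f hf
    rw [hone f hf, zero_mul]
  have hinj : Function.Injective A := by
    rw [injective_iff_map_eq_zero]
    intro φ hφ
    have h1 : ∀ f ∈ Om, L φ f + ∑ f' ∈ Om, φ f' = 0 := by
      intro f hf
      have := congrFun hφ f
      rw [hA, if_pos hf] at this
      exact this
    have h2 : ∑ f' ∈ Om, φ f' = 0 := by
      have h3 : ∑ f ∈ Om, (L φ f + ∑ f' ∈ Om, φ f') = 0 := sum_eq_zero h1
      rw [sum_add_distrib, hsum, zero_add, sum_const, nsmul_eq_mul] at h3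
      rcases mul_eq_zero.mp h3 with h | h
      · exact absurd h hc.ne'
      · exact h
    have h3 : ∀ f ∈ Om, L φ f = 0 := by
      intro f hf
      have := h1 f hf
      rw [h2, add_zero] at this
      exact this
    have h4 := hker φ h3
    funext f
    by_cases hf : f ∈ Om
    · have h5 : ∑ f' ∈ Om, φ f' = Om.card * φ f := by
        rw [sum_congr rfl (fun f' hf' => h4 f' hf' f hf), sum_const, nsmul_eq_mul]
      rw [h2] at h5
      rcases mul_eq_zero.mp h5.symm with h | h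
      · exact absurd h hc.ne'
      · exact h
    · have := congrFun hφ f
      rw [hA, if_neg hf] at this
      exact this
  obtain ⟨φ, hφ⟩ := (LinearMap.injective_iff_surjective.mp hinj) G
  refine ⟨φ, ?_⟩
  have h1 : ∀ f ∈ Om, L φ f + ∑ f' ∈ Om, φ f' = G f := by
    intro f hf
    have := congrFun hφ f
    rw [hA, if_pos hf] at this
    exact this
  have h2 : ∑ f' ∈ Om, φ f' = 0 := by
    have h3 : ∑ f ∈ Om, (L φ f + ∑ f' ∈ Om, φ f') = ∑ f ∈ Om, G f := sum_congr rfl h1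
    rw [sum_add_distrib, hsum, zero_add, sum_const, nsmul_eq_mul, hG] at h3
    rcases mul_eq_zero.mp h3 with h | h
    · exact absurd h hc.ne'
    · exact h
  intro f hf
  rw [← h1 f hf, h2, add_zero]

/-- The gap. -/
theorem gap_of_sq (Om : Finset Ω) (L : (Ω → ℝ) →ₗ[ℝ] (Ω → ℝ))
    (hsym : ∀ φ ψ : Ω → ℝ, ∑ f ∈ Om, φ f * L ψ f = ∑ f ∈ Om, L φ f * ψ f)
    (hpos : ∀ φ : Ω → ℝ, 0 ≤ ∑ f ∈ Om, φ f * L φ f)
    (hsq : ∀ φ : Ω → ℝ, ∑ f ∈ Om, φ f * L φ f ≤ ∑ f ∈ Om, (L φ f) ^ 2)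
    (hker : ∀ φ : Ω → ℝ, (∀ f ∈ Om, L φ f = 0) → ∀ f ∈ Om, ∀ f' ∈ Om, φ f = φ f')
    (hone : ∀ f ∈ Om, L (fun _ => 1) f = 0)
    (G : Ω → ℝ) (hG : ∑ f ∈ Om, G f = 0) :
    ∑ f ∈ Om, (G f) ^ 2 ≤ ∑ f ∈ Om, G f * L G f := by
  obtain ⟨φ, hφ⟩ := exists_potential Om L hsym hker hone G hG
  set N := ∑ f ∈ Om, (G f) ^ 2 with hN
  set E := ∑ f ∈ Om, G f * L G f with hE
  set F := ∑ f ∈ Om, φ f * L φ f with hF
  have hFN : F ≤ N := by
    have := hsq φ
    rw [← hF] at this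
    refine le_trans this (le_of_eq ?_)
    rw [hN]
    exact sum_congr rfl (fun f hf => by rw [hφ f hf])
  have hcross : ∑ f ∈ Om, φ f * L G f = N := by
    rw [hsym φ G, hN]
    exact sum_congr rfl (fun f hf => by rw [hφ f hf]; ring)
  have hcross' : ∑ f ∈ Om, G f * L φ f = N := by
    rw [hN]
    exact sum_congr rfl (fun f hf => by rw [hφ f hf]; ring)
  -- ⟨G - φ, L (G - φ)⟩ ≥ 0
  have h1 := hpos (G - φ)
  have h2 : ∑ f ∈ Om, (G - φ) f * L (G - φ) f = E - 2 * N + F := by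
    have : ∀ f ∈ Om, (G - φ) f * L (G - φ) f =
        G f * L G f - G f * L φ f - φ f * L G f + φ f * L φ f := by
      intro f _
      rw [map_sub]
      simp only [Pi.sub_apply]
      ring
    rw [sum_congr rfl this, sum_add_distrib, sum_sub_distrib, sum_sub_distrib, hcross, hcross',
      ← hE, ← hF]
    ring
  rw [h2] at h1
  linarith

end Pool.Agent.Nest
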