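import Pool.Agent.Lib.MP_26a019_lc.Nest.QFS
import Pool.Agent.Lib.MP_26a019_lc.Nest.QCalc
import Pool.Agent.Lib.MP_26a019_lc.Mix.MConn

set_option autoImplicit false

/-!
# The kernel of the generator consists of the constants
-/

open Finset Classical

namespace Pool.Agent.Nest

variable {V : Type} [Fintype V] {C : Type} [Fintype C]

/-- a function with zero energy for the pair `a, b` is invariant under the flips of the pair -/
theorem inv_of_quad (G : SimpleGraph V) (W : Finset V) (p : V → C) (ρ : V → ℝ)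
    (hρ : ∀ u, 0 < ρ u) (g : (V → C) → ℝ) (a b : C)
    (h : ∑ f ∈ OmQ G W p,
      g f * (FQ G W p a b).op (fun f => lam (mq G W) ρ (bq a b f)) g f = 0)
    {f : V → C} (hf : f ∈ OmQ G W p) {T0 : Finset V} (hT0 : T0 ∈ kf (mq G W) (bq a b f)) :
    g (fq a b T0 f) = g f := by
  have hq := op_quad (FQ G W p a b) _ (mul_lam G W p a b ρ) g
  have hq' : ∑ f ∈ OmQ G W p,
      (∑ S : Finset V, lam (mq G W) ρ (bq a b f) S *
        (∑ T ∈ kf (mq G W) (bq a b f), chi S T * g (fq a b T f)) ^ 2) /
        (2 ^ Fintype.card V * ((kf (mq G W) (bq a b f)).card : ℝ)) = 0 := by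
    rw [← h]; exact hq.symm
  have hnn : ∀ f ∈ OmQ G W p, 0 ≤ (∑ S : Finset V, lam (mq G W) ρ (bq a b f) S *
        (∑ T ∈ kf (mq G W) (bq a b f), chi S T * g (fq a b T f)) ^ 2) /
        (2 ^ Fintype.card V * ((kf (mq G W) (bq a b f)).card : ℝ)) := by
    intro f _
    exact div_nonneg (sum_nonneg fun S _ => mul_nonneg (lam_nonneg hρ _ _) (sq_nonneg _))
      (by positivity)
  have h0 := (sum_eq_zero_iff_of_nonneg hnn).mp hq' f hf
  have hcard : 0 < (2 : ℝ) ^ Fintype.card V * ((kf (mq G W) (bq a b f)).card : ℝ) := by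
    have : 0 < (kf (mq G W) (bq a b f)).card := card_pos.mpr ⟨∅, empty_mem_kf _ _⟩
    positivity
  have h1 : ∑ S : Finset V, lam (mq G W) ρ (bq a b f) S *
        (∑ T ∈ kf (mq G W) (bq a b f), chi S T * g (fq a b T f)) ^ 2 = 0 := by
    rcases div_eq_zero_iff.mp h0 with h1 | h1
    · exact h1
    · exact absurd h1 hcard.ne'
  have h2 : ∀ S : Finset V, lam (mq G W) ρ (bq a b f) S *
        (∑ T ∈ kf (mq G W) (bq a b f), chi S T * g (fq a b T f)) ^ 2 = 0 := by
    intro S
    exact (sum_eq_zero_iff_of_nonneg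
      (fun S _ => mul_nonneg (lam_nonneg hρ _ _) (sq_nonneg _))).mp h1 S (mem_univ S)
  have h3 : ∀ S : Finset V, chi S T0 *
      (∑ T ∈ kf (mq G W) (bq a b f), chi S T * g (fq a b T f)) =
      ∑ T ∈ kf (mq G W) (bq a b f), chi S T * g (fq a b T f) := by
    intro S
    by_cases hS : (adm (mq G W) (bq a b f) S).Nonempty
    · have h4 := h2 S
      have h5 : (∑ T ∈ kf (mq G W) (bq a b f), chi S T * g (fq a b T f)) ^ 2 = 0 := by
        rcases mul_eq_zero.mp h4 with h5 | h5
        · exact absurd h5 (lam_pos hρ hS).ne'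
        · exact h5
      rw [pow_eq_zero_iff (by norm_num : (2 : ℕ) ≠ 0)] at h5
      rw [h5, mul_zero]
    · have h4 : ¬ Odd (S ∩ T0).card := by
        intro ho
        exact hS ⟨T0, by unfold adm; exact mem_filter.mpr ⟨hT0, ho⟩⟩
      have h5 : chi S T0 = 1 := by
        unfold chi
        exact (Nat.not_odd_iff_even.mp h4).neg_one_pow
      rw [h5, one_mul]
  have hone : Mul (FQ G W p a b) (fun _ _ => (1 : ℝ)) :=
    ⟨fun _ _ _ _ _ => rfl, fun _ _ _ _ _ => rfl⟩
  have e1 : g (fq a b T0 f) = (FQ G W p a b).op (fun _ _ => 1) g (fq a b T0 f) :=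
    (op_one (FQ G W p a b) g (fq_mem hf hT0)).symm
  have e2 : (FQ G W p a b).op (fun _ _ => 1) g (fq a b T0 f) =
      (FQ G W p a b).op (fun _ S => chi S T0 * 1) g f :=
    op_fl (FQ G W p a b) _ hone g hf hT0
  have e3 : g f = (FQ G W p a b).op (fun _ _ => 1) g f := (op_one (FQ G W p a b) g hf).symm
  rw [e1, e2]
  conv_rhs => rw [e3]
  unfold FS.op cv
  show (∑ S : Finset V, chi S T0 * 1 *
      ∑ T ∈ kf (mq G W) (bq a b f), chi S T * g (fq a b T f)) / 2 ^ Fintype.card V =
    (∑ S : Finset V, 1 *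
      ∑ T ∈ kf (mq G W) (bq a b f), chi S T * g (fq a b T f)) / 2 ^ Fintype.card V
  congr 1
  refine sum_congr rfl fun S _ => ?_
  rw [mul_one, one_mul, h3 S]

/-- QKer.lean -/
theorem ker_const (Δ : ℕ) (hq : Δ + 2 ≤ Fintype.card C) (G : SimpleGraph V)
    (hΔ : ∀ v, (univ.filter (fun u => G.Adj v u)).card ≤ Δ) (W : Finset V) (p : V → C)
    (ρ : V → ℝ) (hρ : ∀ u, 0 < ρ u) (g : (V → C) → ℝ)
    (h : ∀ f ∈ OmQ G W p, LQ G W ρ g f = 0) :
    ∀ f ∈ OmQ G W p, ∀ f' ∈ OmQ G W p, g f = g f' := by
  -- the energy of every pair vanishes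
  have hnn : ∀ x ∈ prs C, 0 ≤ ∑ f ∈ OmQ G W p,
      g f * (FQ G W p x.1 x.2).op (fun f => lam (mq G W) ρ (bq x.1 x.2 f)) g f := by
    intro x _
    exact op_nonneg (FQ G W p x.1 x.2) _ (mul_lam G W p x.1 x.2 ρ)
      (fun f _ S => lam_nonneg hρ _ _) g
  have hsum : ∑ x ∈ prs C, ∑ f ∈ OmQ G W p,
      g f * (FQ G W p x.1 x.2).op (fun f => lam (mq G W) ρ (bq x.1 x.2 f)) g f = 0 := by
    rw [sum_comm]
    refine sum_eq_zero fun f hf => ?_
    have h1 := h f hf
    rw [← mul_sum]
    have h2 : ∑ x ∈ prs C,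
        (FQ G W p x.1 x.2).op (fun f => lam (mq G W) ρ (bq x.1 x.2 f)) g f =
        LQ G W ρ g f := rfl
    rw [h2, h1, mul_zero]
  have hpair : ∀ c d : C, c ≠ d → ∑ f ∈ OmQ G W p,
      g f * (FQ G W p c d).op (fun f => lam (mq G W) ρ (bq c d f)) g f = 0 := by
    intro c d hcd
    exact (sum_eq_zero_iff_of_nonneg hnn).mp hsum (c, d)
      (by unfold prs; exact mem_filter.mpr ⟨mem_univ _, hcd⟩)
  -- single vertex moves
  have hstep : ∀ x ∈ OmQ G W p, ∀ y : V → C, KempeMix.Stp G Wᶜ x y →
      y ∈ OmQ G W p ∧ g x = g y := by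
    intro x hx y hxy
    obtain ⟨_, hy, w, hw, hxy'⟩ := hxy
    have hwW : w ∉ W := by simpa using hw
    have hx' := hx
    simp only [OmQ, mem_filter, mem_univ, true_and] at hx'
    have hyM : y ∈ OmQ G W p := by
      simp only [OmQ, mem_filter, mem_univ, true_and]
      refine ⟨hy, fun z hz => ?_⟩
      have hzw : z ≠ w := fun e => hwW (e ▸ hz)
      rw [← hxy' z hzw]
      exact hx'.2 z hz
    refine ⟨hyM, ?_⟩
    by_cases he : x w = y w
    · have : x = y := by
        funext u
        by_cases hu : u = w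
        · rw [hu]; exact he
        · exact hxy' u hu
      rw [this]
    · have hmem : ({w} : Finset V) ∈ kf (mq G W) (bq (x w) (y w) x) := by
        rw [mem_kf]
        refine ⟨?_, ?_, ?_⟩
        · intro u hu
          rw [mem_singleton] at hu
          rw [hu, mem_bq]
          exact Or.inl rfl
        · intro u hu z hz hzw
          rw [mem_singleton] at hu hzw
          subst hu
          rw [mem_bq] at hz
          have hna : ¬ G.Adj u z := by
            intro hadj
            rcases hz with hz | hz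
            · exact hx'.1 u z hadj hz.symm
            · have h5 := hy u z hadj
              rw [← hxy' z hzw] at h5
              exact h5 hz.symm
          have hne : ¬ u = z := fun e => hzw e.symm
          simp [mq, adj, pin, hna, hne]
        · intro U hU hn
          have hU' : U = {w} := by
            rcases subset_singleton_iff.mp hU with h5 | h5
            · rw [h5] at hn; exact absurd hn (by simp)
            · exact h5
          rw [hU']
          simp [mq, adj, pin, hwW]
      have h6 := inv_of_quad G W p ρ hρ g (x w) (y w) (hpair _ _ he) hx hmem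
      rw [← h6]
      congr 1
      funext u
      unfold fq
      by_cases hu : u = w
      · subst hu; simp
      · have : u ∉ ({w} : Finset V) := by simpa using hu
        rw [if_neg this]
        exact hxy' u hu
  intro f hf f' hf'
  have hfm := hf
  have hfm' := hf'
  simp only [OmQ, mem_filter, mem_univ, true_and] at hfm hfm'
  have hpath := KempeMix.conn Δ hq G hΔ Wᶜ f f' hfm.1 hfm'.1 (fun u hu => by
    have huW : u ∈ W := by simpa using hu
    rw [hfm.2 u huW, hfm'.2 u huW])
  have key : ∀ y : V → C, Relation.ReflTransGen (KempeMix.Stp G Wᶜ) f y →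
      y ∈ OmQ G W p ∧ g f = g y := by
    intro y hy
    induction hy with
    | refl => exact ⟨hf, rfl⟩
    | tail _ hyz ih =>
      obtain ⟨h7, h8⟩ := hstep _ ih.1 _ hyz
      exact ⟨h7, ih.2.trans h8⟩
  exact (key f' hpath).2

end Pool.Agent.Nest
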