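import Pool.Agent.Lib.MP_26a019_lc.Nest.QFS
import Pool.Agent.Lib.MP_26a019_lc.Nest.QCalc

set_option autoImplicit false
set_option linter.unusedSectionVars false

/-!
# Additive functions: counting the flips which change one vertex
-/

open Finset Classical

namespace Pool.Agent.Nest

variable {V : Type} [Fintype V] {C : Type} [Fintype C]

namespace QSICnt

/-- half of the members of a group of flips contain a movable vertex -/
theorem half (K : Finset (Finset V)) (hemp : ∅ ∈ K)
    (hsd : ∀ T ∈ K, ∀ T' ∈ K, symmDiff T T' ∈ K) (v : V) (hv : ∃ T ∈ K, v ∈ T) (x y : ℝ) :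
    (∑ T ∈ K, if v ∈ T then x else y) = (K.card : ℝ) * ((x + y) / 2) := by
  have h1 : ∑ T ∈ K, chi {v} T * chi ∅ T = 0 := by
    rw [sum_chi_fam K hemp hsd {v} ∅, if_neg]
    intro h
    obtain ⟨T, hT, hvT⟩ := hv
    have := h T hT
    rw [chi_singleton, if_pos hvT, chi_empty_left] at this
    norm_num at this
  have h2 : ∀ T ∈ K, (if v ∈ T then x else y) =
      (x + y) / 2 + (y - x) / 2 * (chi {v} T * chi ∅ T) := by
    intro T _
    rw [chi_singleton, chi_empty_left]
    split_ifs <;> ring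
  rw [sum_congr rfl h2, sum_add_distrib, ← mul_sum, h1, sum_const, nsmul_eq_mul]
  ring

/-- exchange of the value before and after the flip -/
theorem exch (G : SimpleGraph V) (W : Finset V) (p : V → C) (F : C → ℝ) (a b : C) (v : V) :
    ∑ f ∈ OmQ G W p, (if (∃ T ∈ kf (mq G W) (bq a b f), v ∈ T) then
        F (Equiv.swap a b (f v)) else 0) =
      ∑ f ∈ OmQ G W p, (if (∃ T ∈ kf (mq G W) (bq a b f), v ∈ T) then F (f v) else 0) := by
  have key : ∀ Φ : C → ℝ, ∑ f ∈ OmQ G W p, (if (∃ T ∈ kf (mq G W) (bq a b f), v ∈ T) then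
      Φ (f v) else 0) = ∑ f ∈ OmQ G W p, (if (∃ T ∈ kf (mq G W) (bq a b f), v ∈ T) then
      (Φ (Equiv.swap a b (f v)) + Φ (f v)) / 2 else 0) := by
    intro Φ
    have h := orbit_sum (FQ G W p a b) (fun f =>
      if (∃ T ∈ kf (mq G W) (bq a b f), v ∈ T) then Φ (f v) else 0)
    refine h.trans ?_
    apply sum_congr rfl
    intro f _
    show (∑ T ∈ kf (mq G W) (bq a b f), if (∃ T' ∈ kf (mq G W) (bq a b (fq a b T f)), v ∈ T')
      then Φ (fq a b T f v) else 0) / ((kf (mq G W) (bq a b f)).card : ℝ) = _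
    have hc : (0 : ℝ) < ((kf (mq G W) (bq a b f)).card : ℝ) := by
      exact_mod_cast card_pos.mpr ⟨∅, empty_mem_kf _ _⟩
    simp only [bq_fq]
    by_cases hv : ∃ T ∈ kf (mq G W) (bq a b f), v ∈ T
    · simp only [if_pos hv]
      have h1 : ∀ T ∈ kf (mq G W) (bq a b f), Φ (fq a b T f v) =
          if v ∈ T then Φ (Equiv.swap a b (f v)) else Φ (f v) := by
        intro T _
        unfold fq
        split_ifs <;> rfl
      rw [sum_congr rfl h1, half _ (empty_mem_kf _ _)
        (fun T hT T' hT' => symmDiff_mem_kf (mq_gm G W) hT hT') v hv]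
      field_simp
    · simp only [if_neg hv]
      simp
  rw [key (fun c => F (Equiv.swap a b c)), key F]
  apply sum_congr rfl
  intro f _
  split_ifs
  · rw [Equiv.swap_apply_self]; ring
  · rfl

/-- number of ordered pairs containing a given colour -/
theorem card_prs_le (c : C) :
    ∑ x ∈ prs C, (if c = x.1 ∨ c = x.2 then (1 : ℝ) else 0) ≤ 2 * ((Fintype.card C : ℝ) - 1) := by
  have h1 : ∑ x ∈ prs C, (if c = x.1 ∨ c = x.2 then (1 : ℝ) else 0) =
      ∑ a, ∑ b, (if a ≠ b then (if c = a ∨ c = b then (1 : ℝ) else 0) else 0) := by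
    unfold prs
    rw [sum_filter, ← univ_product_univ, sum_product]
  have h2 : ∀ a b : C, (if a ≠ b then (if c = a ∨ c = b then (1 : ℝ) else 0) else 0) ≤
      (if a = c then (if b = c then 0 else 1) else 0) +
        (if b = c then (if a = c then 0 else 1) else 0) := by
    intro a b
    by_cases ha : a = c
    · subst ha
      by_cases hb : b = a
      · subst hb; simp
      · have : a ≠ b := fun h => hb h.symm
        simp [hb, this]
    · by_cases hb : b = c
      · subst hb
        simp [ha]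
      · have h1 : ¬ (c = a ∨ c = b) := by
          rintro (h | h)
          · exact ha h.symm
          · exact hb h.symm
        simp [ha, hb, h1]
  rw [h1]
  refine le_trans (sum_le_sum fun a _ => sum_le_sum fun b _ => h2 a b) ?_
  simp only [sum_add_distrib]
  have e0 : ∑ b : C, (if b = c then (0 : ℝ) else 1) = (Fintype.card C : ℝ) - 1 := by
    have : ∀ b : C, (if b = c then (0 : ℝ) else 1) = 1 - (if b = c then 1 else 0) := by
      intro b; split_ifs <;> ring
    rw [sum_congr rfl (fun b _ => this b), sum_sub_distrib, sum_ite_eq' univ c]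
    simp
  have e1 : ∑ a : C, ∑ b : C, (if a = c then (if b = c then (0 : ℝ) else 1) else 0) =
      (Fintype.card C : ℝ) - 1 := by
    rw [← e0, sum_eq_single c]
    · simp
    · intro a _ ha; simp [ha]
    · simp
  have e2 : ∑ a : C, ∑ b : C, (if b = c then (if a = c then (0 : ℝ) else 1) else 0) =
      (Fintype.card C : ℝ) - 1 := by
    rw [← e0]
    apply sum_congr rfl
    intro a _
    rw [sum_ite_eq' univ c]
    simp
  rw [e1, e2]
  linarith

end QSICnt

open QSICnt in
/-- The flips which change `v`, summed over the pairs. -/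
theorem si_count (G : SimpleGraph V) (W : Finset V) (p : V → C) (h : C → ℝ) (t : ℝ) (v : V) :
    1 / 2 * ∑ x ∈ prs C, (1 / 4 * ∑ f ∈ OmQ G W p,
        if (∃ T ∈ kf (mq G W) (bq x.1 x.2 f), v ∈ T) then
          (h (Equiv.swap x.1 x.2 (f v)) - h (f v)) ^ 2 else 0) ≤
      ((Fintype.card C : ℝ) - 1) * ∑ f ∈ OmQ G W p, (h (f v) - t) ^ 2 := by
  have h1 : ∀ x ∈ prs C, (1 / 4 * ∑ f ∈ OmQ G W p,
        if (∃ T ∈ kf (mq G W) (bq x.1 x.2 f), v ∈ T) then
          (h (Equiv.swap x.1 x.2 (f v)) - h (f v)) ^ 2 else 0) ≤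
      ∑ f ∈ OmQ G W p, (if f v = x.1 ∨ f v = x.2 then 1 else 0) * (h (f v) - t) ^ 2 := by
    intro x _
    have h2 : ∑ f ∈ OmQ G W p, (if (∃ T ∈ kf (mq G W) (bq x.1 x.2 f), v ∈ T) then
          (h (Equiv.swap x.1 x.2 (f v)) - h (f v)) ^ 2 else 0) ≤
        ∑ f ∈ OmQ G W p, (2 * (if (∃ T ∈ kf (mq G W) (bq x.1 x.2 f), v ∈ T) then
          (h (Equiv.swap x.1 x.2 (f v)) - t) ^ 2 else 0) +
          2 * (if (∃ T ∈ kf (mq G W) (bq x.1 x.2 f), v ∈ T) then (h (f v) - t) ^ 2 else 0)) := by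
      apply sum_le_sum
      intro f _
      split_ifs
      · nlinarith [sq_nonneg ((h (Equiv.swap x.1 x.2 (f v)) - t) + (h (f v) - t))]
      · simp
    rw [sum_add_distrib, ← mul_sum, ← mul_sum] at h2
    have h3 := exch G W p (fun c => (h c - t) ^ 2) x.1 x.2 v
    rw [h3] at h2
    have h4 : ∑ f ∈ OmQ G W p, (if (∃ T ∈ kf (mq G W) (bq x.1 x.2 f), v ∈ T) then
        (h (f v) - t) ^ 2 else 0) ≤
        ∑ f ∈ OmQ G W p, (if f v = x.1 ∨ f v = x.2 then 1 else 0) * (h (f v) - t) ^ 2 := by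
      apply sum_le_sum
      intro f _
      by_cases hv : ∃ T ∈ kf (mq G W) (bq x.1 x.2 f), v ∈ T
      · obtain ⟨T, hT, hvT⟩ := hv
        have := mem_bq.mp (kf_sub hT hvT)
        rw [if_pos ⟨T, hT, hvT⟩, if_pos this, one_mul]
      · rw [if_neg hv]
        split_ifs
        · rw [one_mul]; positivity
        · rw [zero_mul]
    linarith
  calc 1 / 2 * ∑ x ∈ prs C, (1 / 4 * ∑ f ∈ OmQ G W p,
        if (∃ T ∈ kf (mq G W) (bq x.1 x.2 f), v ∈ T) then
          (h (Equiv.swap x.1 x.2 (f v)) - h (f v)) ^ 2 else 0)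
      ≤ 1 / 2 * ∑ x ∈ prs C, ∑ f ∈ OmQ G W p,
          (if f v = x.1 ∨ f v = x.2 then 1 else 0) * (h (f v) - t) ^ 2 :=
        mul_le_mul_of_nonneg_left (sum_le_sum h1) (by norm_num)
    _ = 1 / 2 * ∑ f ∈ OmQ G W p, (∑ x ∈ prs C, (if f v = x.1 ∨ f v = x.2 then (1 : ℝ) else 0)) *
          (h (f v) - t) ^ 2 := by
        rw [sum_comm]
        congr 1
        apply sum_congr rfl
        intro f _
        rw [sum_mul]
    _ ≤ 1 / 2 * ∑ f ∈ OmQ G W p, (2 * ((Fintype.card C : ℝ) - 1)) * (h (f v) - t) ^ 2 := by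
        apply mul_le_mul_of_nonneg_left _ (by norm_num)
        apply sum_le_sum
        intro f _
        exact mul_le_mul_of_nonneg_right (card_prs_le (f v)) (sq_nonneg _)
    _ = _ := by
        rw [← mul_sum]; ring

end Pool.Agent.Nest
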