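import Pool.Agent.Lib.MP_26a019_lc.Nest.QFS
import Pool.Agent.Lib.MP_26a019_lc.Nest.QCalc

set_option autoImplicit false
set_option linter.unusedSectionVars false

/-!
# The nested form of an additive function
-/

open Finset Classical

namespace Pool.Agent.Nest

variable {V : Type} [Fintype V] {C : Type} [Fintype C]

theorem QSILoc.chi_sing (x : V) (T : Finset V) : chi {x} T = if x ∈ T then -1 else 1 := by
  unfold chi
  by_cases h : x ∈ T
  · rw [singleton_inter_of_mem h, if_pos h]; simp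
  · rw [singleton_inter_of_notMem h, if_neg h]; simp

theorem QSILoc.chi_emp (T : Finset V) : chi ∅ T = 1 := by
  unfold chi; simp

theorem QSILoc.fam (K : Finset (Finset V)) (hemp : ∅ ∈ K)
    (hsd : ∀ T ∈ K, ∀ T' ∈ K, symmDiff T T' ∈ K) (δ : V → ℝ) (c0 : ℝ) (l : Finset V → ℝ)
    (hl0 : ∀ S, 0 ≤ l S)
    (hl : ∀ S, l S ≠ 0 → ∃ T ∈ K, Odd (S ∩ T).card ∧ l S * (T.card : ℝ) ≤ 1) :
    ∑ S : Finset V, l S * (∑ T ∈ K, chi S T * (c0 + ∑ x ∈ T, δ x)) ^ 2 ≤
      2 ^ Fintype.card V * (K.card : ℝ) * (1 / 4 * ∑ x : V,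
        if (∃ T ∈ K, x ∈ T) then δ x ^ 2 else 0) := by
  have hK : (0 : ℝ) < (K.card : ℝ) := by exact_mod_cast card_pos.mpr ⟨∅, hemp⟩
  have step : ∀ S : Finset V, l S * (∑ T ∈ K, chi S T * (c0 + ∑ x ∈ T, δ x)) ^ 2 ≤
      ∑ x : V, if (∀ T ∈ K, chi S T = chi {x} T) then
        (if (∃ T ∈ K, x ∈ T) then (K.card : ℝ) ^ 2 / 4 * δ x ^ 2 else 0) else 0 := by
    intro S
    by_cases h0 : l S = 0
    · rw [h0, zero_mul]
      apply sum_nonneg
      intro x _
      split_ifs
      · positivity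
      · exact le_refl _
      · exact le_refl _
    obtain ⟨T0, hT0, hodd, hle⟩ := hl S h0
    have hm1 : chi S T0 = -1 := by
      unfold chi; exact hodd.neg_one_pow
    have z0 : ∑ T ∈ K, chi S T = 0 := by
      have := sum_chi_fam K hemp hsd S ∅
      rw [if_neg (by
        intro h
        have h1 := h T0 hT0
        rw [hm1, QSILoc.chi_emp] at h1
        norm_num at h1)] at this
      rw [← this]
      exact sum_congr rfl (fun T _ => by rw [QSILoc.chi_emp, mul_one])
    set X : Finset V := univ.filter (fun x => ∀ T ∈ K, chi S T = chi {x} T) with hX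
    have hXT : ∀ x ∈ X, x ∈ T0 := by
      intro x hx
      rw [hX, mem_filter] at hx
      have h1 := hx.2 T0 hT0
      rw [hm1, QSILoc.chi_sing] at h1
      by_contra hn
      rw [if_neg hn] at h1
      norm_num at h1
    have hA : ∑ T ∈ K, chi S T * (c0 + ∑ x ∈ T, δ x) = - ((K.card : ℝ) / 2) * ∑ x ∈ X, δ x := by
      have e1 : ∀ T ∈ K, chi S T * (c0 + ∑ x ∈ T, δ x) =
          (c0 + 1 / 2 * ∑ x : V, δ x) * chi S T -
            ∑ x : V, 1 / 2 * δ x * (chi S T * chi {x} T) := by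
        intro T _
        have e2 : ∑ x ∈ T, δ x = ∑ x : V, 1 / 2 * δ x * (1 - chi {x} T) := by
          rw [← sum_subset (subset_univ T)]
          · apply sum_congr rfl
            intro x hx
            rw [QSILoc.chi_sing, if_pos hx]; ring
          · intro x _ hx
            rw [QSILoc.chi_sing, if_neg hx]; ring
        rw [e2]
        have e3 : ∑ x : V, 1 / 2 * δ x * (1 - chi {x} T) =
            1 / 2 * ∑ x : V, δ x - ∑ x : V, 1 / 2 * δ x * chi {x} T := by
          rw [mul_sum, ← sum_sub_distrib]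
          exact sum_congr rfl (fun x _ => by ring)
        rw [e3]
        have e4 : ∑ x : V, 1 / 2 * δ x * (chi S T * chi {x} T) =
            chi S T * ∑ x : V, 1 / 2 * δ x * chi {x} T := by
          rw [mul_sum]
          exact sum_congr rfl (fun x _ => by ring)
        rw [e4]; ring
      rw [sum_congr rfl e1, sum_sub_distrib, ← mul_sum, z0, mul_zero, zero_sub, sum_comm]
      have e5 : ∀ x : V, ∑ T ∈ K, 1 / 2 * δ x * (chi S T * chi {x} T) =
          if (∀ T ∈ K, chi S T = chi {x} T) then (K.card : ℝ) / 2 * δ x else 0 := by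
        intro x
        rw [← mul_sum, sum_chi_fam K hemp hsd S {x}]
        by_cases h : ∀ T ∈ K, chi S T = chi {x} T
        · rw [if_pos h, if_pos h]; ring
        · rw [if_neg h, if_neg h, mul_zero]
      rw [sum_congr rfl (fun x _ => e5 x), ← sum_filter, ← mul_sum]
      ring
    rw [hA]
    have cs : (∑ x ∈ X, δ x) ^ 2 ≤ (X.card : ℝ) * ∑ x ∈ X, δ x ^ 2 := sq_sum_le_card_mul_sum_sq
    have hXc : (X.card : ℝ) ≤ (T0.card : ℝ) := by
      exact_mod_cast card_le_card hXT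
    have hlX : l S * (X.card : ℝ) ≤ 1 :=
      le_trans (mul_le_mul_of_nonneg_left hXc (hl0 S)) hle
    have hsq : 0 ≤ ∑ x ∈ X, δ x ^ 2 := sum_nonneg (fun x _ => sq_nonneg _)
    have e6 : ∑ x : V, (if (∀ T ∈ K, chi S T = chi {x} T) then
        (if (∃ T ∈ K, x ∈ T) then (K.card : ℝ) ^ 2 / 4 * δ x ^ 2 else 0) else 0) =
        (K.card : ℝ) ^ 2 / 4 * ∑ x ∈ X, δ x ^ 2 := by
      rw [← sum_filter, mul_sum]
      apply sum_congr rfl
      intro x hx
      rw [if_pos ⟨T0, hT0, hXT x hx⟩]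
    rw [e6]
    calc l S * (- ((K.card : ℝ) / 2) * ∑ x ∈ X, δ x) ^ 2
        = (K.card : ℝ) ^ 2 / 4 * (l S * (∑ x ∈ X, δ x) ^ 2) := by ring
      _ ≤ (K.card : ℝ) ^ 2 / 4 * (l S * ((X.card : ℝ) * ∑ x ∈ X, δ x ^ 2)) := by
          apply mul_le_mul_of_nonneg_left _ (by positivity)
          exact mul_le_mul_of_nonneg_left cs (hl0 S)
      _ = (K.card : ℝ) ^ 2 / 4 * ((l S * (X.card : ℝ)) * ∑ x ∈ X, δ x ^ 2) := by ring
      _ ≤ (K.card : ℝ) ^ 2 / 4 * (1 * ∑ x ∈ X, δ x ^ 2) := by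
          apply mul_le_mul_of_nonneg_left _ (by positivity)
          exact mul_le_mul_of_nonneg_right hlX hsq
      _ = _ := by rw [one_mul]
  refine le_trans (sum_le_sum (fun S _ => step S)) (le_of_eq ?_)
  rw [sum_comm, mul_sum, mul_sum]
  apply sum_congr rfl
  intro x _
  rw [← sum_filter, sum_const, nsmul_eq_mul]
  have hc := card_modes K hemp hsd {x}
  by_cases hE : ∃ T ∈ K, x ∈ T
  · rw [if_pos hE, if_pos hE]
    calc ((univ.filter (fun S : Finset V => ∀ T ∈ K, chi S T = chi {x} T)).card : ℝ) *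
          ((K.card : ℝ) ^ 2 / 4 * δ x ^ 2)
        = (((univ.filter (fun S : Finset V => ∀ T ∈ K, chi S T = chi {x} T)).card : ℝ) *
          K.card) * ((K.card : ℝ) / 4 * δ x ^ 2) := by ring
      _ = 2 ^ Fintype.card V * ((K.card : ℝ) / 4 * δ x ^ 2) := by rw [hc]
      _ = _ := by ring
  · rw [if_neg hE, if_neg hE]; ring

/-- the form of an additive function -/
theorem si_local (G : SimpleGraph V) (W : Finset V) (p : V → C) (ρ : V → ℝ)
    (hρ : ∀ u, 2 ≤ ρ u) (h : V → C → ℝ) (t : ℝ) (a b : C) (hab : a ≠ b) (G0 : (V → C) → ℝ)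
    (hG0 : ∀ f, G0 f = ∑ v ∈ Wᶜ, h v (f v) - t) :
    ∑ f ∈ OmQ G W p, G0 f * oq (mq G W) a b (lam (mq G W) ρ) G0 f ≤
      1 / 4 * ∑ f ∈ OmQ G W p, ∑ v : V,
        if (∃ T ∈ kf (mq G W) (bq a b f), v ∈ T) then
          (h v (Equiv.swap a b (f v)) - h v (f v)) ^ 2 else 0 := by
  have hρ0 : ∀ u, 0 < ρ u := fun u => lt_of_lt_of_le (by norm_num) (hρ u)
  have hq := op_quad (FQ G W p a b) (fun f => lam (mq G W) ρ (bq a b f))
    (mul_lam G W p a b ρ) G0
  have hq' : ∑ f ∈ OmQ G W p, G0 f * oq (mq G W) a b (lam (mq G W) ρ) G0 f =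
      ∑ f ∈ OmQ G W p, (∑ S : Finset V, lam (mq G W) ρ (bq a b f) S *
        (∑ T ∈ kf (mq G W) (bq a b f), chi S T * G0 (fq a b T f)) ^ 2) /
        (2 ^ Fintype.card V * ((kf (mq G W) (bq a b f)).card : ℝ)) := hq
  rw [hq', mul_sum]
  apply sum_le_sum
  intro f _
  set K := kf (mq G W) (bq a b f) with hKdef
  have hemp : ∅ ∈ K := empty_mem_kf _ _
  have hsd : ∀ T ∈ K, ∀ T' ∈ K, symmDiff T T' ∈ K := fun T hT T' hT' =>
    symmDiff_mem_kf (mq_gm G W) hT hT'
  have hK : (0 : ℝ) < (K.card : ℝ) := by exact_mod_cast card_pos.mpr ⟨∅, hemp⟩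
  set δ : V → ℝ := fun v => h v (Equiv.swap a b (f v)) - h v (f v) with hδ
  have hG : ∀ T ∈ K, G0 (fq a b T f) = G0 f + ∑ x ∈ T, δ x := by
    intro T hT
    rw [hG0, hG0]
    have hTW : T ⊆ Wᶜ := by
      intro u hu
      rw [mem_compl]
      exact notMem_pin hT hu
    have e1 : ∑ v ∈ Wᶜ, h v (fq a b T f v) = ∑ v ∈ Wᶜ, (h v (f v) +
        if v ∈ T then δ v else 0) := by
      apply sum_congr rfl
      intro v _
      unfold fq
      by_cases hv : v ∈ T
      · simp only [hv, if_true, hδ]; ring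
      · simp only [hv, if_false, add_zero]
    rw [e1, sum_add_distrib, ← sum_filter]
    have e2 : (Wᶜ).filter (fun v => v ∈ T) = T := by
      ext v
      simp only [mem_filter]
      exact ⟨fun hh => hh.2, fun hh => ⟨hTW hh, hh⟩⟩
    rw [e2]; ring
  have key := QSILoc.fam K hemp hsd δ (G0 f) (fun S => lam (mq G W) ρ (bq a b f) S)
    (fun S => lam_nonneg hρ0 _ _) (by
      intro S hS
      have hne : (adm (mq G W) (bq a b f) S).Nonempty := by
        by_contra hn
        exact hS (lam_of_not hn)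
      have hm := mem_adm.mp (km_spec (ρ := ρ) hne).1
      refine ⟨km (mq G W) ρ (bq a b f) S, hm.1, hm.2, ?_⟩
      have hr := rr_pos' (ρ := ρ) hρ0 hne
      have h2 : 2 * ((km (mq G W) ρ (bq a b f) S).card : ℝ) ≤ rr (mq G W) ρ (bq a b f) S := by
        unfold rr
        calc 2 * ((km (mq G W) ρ (bq a b f) S).card : ℝ)
            = ∑ u ∈ km (mq G W) ρ (bq a b f) S, (2 : ℝ) := by
              rw [sum_const, nsmul_eq_mul]; ring
          _ ≤ _ := sum_le_sum (fun u _ => hρ u)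
      unfold lam
      rw [div_mul_eq_mul_div, div_le_one hr]
      exact h2)
  have e3 : ∑ S : Finset V, lam (mq G W) ρ (bq a b f) S *
      (∑ T ∈ K, chi S T * G0 (fq a b T f)) ^ 2 =
      ∑ S : Finset V, lam (mq G W) ρ (bq a b f) S *
      (∑ T ∈ K, chi S T * (G0 f + ∑ x ∈ T, δ x)) ^ 2 := by
    apply sum_congr rfl
    intro S _
    congr 2
    exact sum_congr rfl (fun T hT => by rw [hG T hT])
  rw [e3, div_le_iff₀ (by positivity)]
  refine le_trans key (le_of_eq ?_)
  ring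

end Pool.Agent.Nest
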