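import Pool.Agent.Lib.MP_26a019_lc.Nest.QFS

set_option autoImplicit false
set_option linter.unusedSectionVars false

/-!
# The slack inequality of the reduction from `q` colours to three
-/

open Finset Classical

namespace Pool.Agent.Nest

variable {V : Type} [Fintype V] {C : Type} [Fintype C]

namespace QSlackAux

theorem even_adj (G : SimpleGraph V) (T : Finset V) : Even (∑ u ∈ T, ∑ w ∈ T, adj G u w) := by
  induction T using Finset.induction_on with
  | empty => simp
  | insert v T hv ih =>
    have h1 : ∑ u ∈ insert v T, ∑ w ∈ insert v T, adj G u w =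
        (∑ u ∈ T, ∑ w ∈ T, adj G u w) + 2 * ∑ w ∈ T, adj G v w := by
      rw [sum_insert hv, sum_insert hv]
      have h2 : ∀ u ∈ T, ∑ w ∈ insert v T, adj G u w = adj G v u + ∑ w ∈ T, adj G u w := by
        intro u _
        rw [sum_insert hv]
        congr 1
        unfold adj; simp [G.adj_comm u v]
      rw [sum_congr rfl h2, sum_add_distrib]
      have h3 : adj G v v = 0 := by simp [adj]
      rw [h3]; ring
    rw [h1]
    exact ih.add (even_two_mul _)

theorem card_third {a b : C} (hab : a ≠ b) :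
    ∑ c : C, (if a ≠ c ∧ b ≠ c then (1 : ℝ) else 0) = (Fintype.card C : ℝ) - 2 := by
  have h1 : ∀ c : C, (if a ≠ c ∧ b ≠ c then (1 : ℝ) else 0) =
      1 - (if c = a then 1 else 0) - (if c = b then 1 else 0) := by
    intro c
    by_cases h : c = a
    · subst h
      simp [hab]
    · by_cases h' : c = b
      · subst h'
        simp [h]
      · have e1 : a ≠ c := fun e => h e.symm
        have e2 : b ≠ c := fun e => h' e.symm
        simp [h, h', e1, e2]
  rw [sum_congr rfl (fun c _ => h1 c), sum_sub_distrib, sum_sub_distrib, sum_ite_eq' univ a,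
    sum_ite_eq' univ b]
  simp
  ring

/-- sum over the third colour of a sum over the vertices with this colour -/
theorem sum_third (F : V → ℝ) (f : V → C) {a b : C} :
    ∑ c : C, (if a ≠ c ∧ b ≠ c then ∑ w : V, (if f w = c then F w else 0) else 0) =
      ∑ w : V, if w ∈ bq a b f then 0 else F w := by
  have h1 : ∀ c : C, (if a ≠ c ∧ b ≠ c then ∑ w : V, (if f w = c then F w else 0) else 0) =
      ∑ w : V, (if f w = c then (if a ≠ c ∧ b ≠ c then F w else 0) else 0) := by
    intro c
    by_cases h : a ≠ c ∧ b ≠ c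
    · simp [h]
    · rw [if_neg h]; symm; apply sum_eq_zero; intro w _; rw [if_neg h]; simp
  rw [sum_congr rfl (fun c _ => h1 c), sum_comm]
  apply sum_congr rfl
  intro w _
  rw [sum_ite_eq univ (f w), if_pos (mem_univ _)]
  by_cases hw : w ∈ bq a b f
  · rw [if_pos hw, if_neg]
    rw [mem_bq] at hw
    intro h
    rcases hw with hw | hw
    · exact h.1 hw.symm
    · exact h.2 hw.symm
  · rw [if_neg hw, if_pos]
    rw [mem_bq] at hw
    push Not at hw
    exact ⟨fun h => hw.1 h.symm, fun h => hw.2 h.symm⟩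

end QSlackAux

open QSlackAux in
theorem slack (hq : 3 ≤ Fintype.card C) (G : SimpleGraph V) (W : Finset V)
    {f : V → C} {a b : C} (hab : a ≠ b) {T : Finset V}
    (hT : T ∈ kf (mq G W) (bq a b f)) (hne : T.Nonempty) :
    ∑ u ∈ T, sq C G u + 2 * ((Fintype.card C : ℝ) - 3) ≤
      ∑ c, if a ≠ c ∧ b ≠ c then ∑ u ∈ T, s3 G W a b c f u else 0 := by
  have hT' := mem_kf.mp hT
  set q : ℝ := (Fintype.card C : ℝ) with hqdef
  have hq3 : (3 : ℝ) ≤ q := by rw [hqdef]; exact_mod_cast hq
  -- degrees inside `T`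
  set D : V → ℝ := fun u => ∑ w ∈ T, (adj G u w : ℝ) with hD
  have hBT : ∀ u ∈ T, ∑ w : V, (if w ∈ bq a b f then (adj G u w : ℝ) else 0) = D u := by
    intro u hu
    rw [hD]
    simp only
    rw [← sum_filter, filter_mem_eq_inter, univ_inter]
    symm
    apply sum_subset hT'.1
    intro w hw hwT
    have h1 := hT'.2.1 u hu w hw hwT
    unfold mq at h1
    have h2 : adj G u w = 0 := by omega
    rw [h2]; simp
  have hdeg : ∀ u ∈ T, sq C G u = q - D u -
      ∑ w : V, (if w ∈ bq a b f then 0 else (adj G u w : ℝ)) := by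
    intro u hu
    rw [← hBT u hu]
    have h1 : ((univ.filter (fun w => G.Adj u w)).card : ℝ) = ∑ w : V, (adj G u w : ℝ) := by
      rw [card_filter]
      push_cast
      apply sum_congr rfl
      intro w _
      unfold adj
      by_cases h : G.Adj u w <;> simp [h]
    have h2 : ∑ w : V, (adj G u w : ℝ) = ∑ w : V, (if w ∈ bq a b f then (adj G u w : ℝ) else 0) +
        ∑ w : V, (if w ∈ bq a b f then 0 else (adj G u w : ℝ)) := by
      rw [← sum_add_distrib]
      apply sum_congr rfl
      intro w _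
      by_cases h : w ∈ bq a b f <;> simp [h]
    unfold sq
    rw [h1, h2]
    ring
  have hs3 : ∀ u ∈ T, ∀ c, a ≠ c ∧ b ≠ c → s3 G W a b c f u = 3 - D u -
      ∑ w : V, (if f w = c then (adj G u w : ℝ) else 0) := by
    intro u hu c hc
    have hpin : ∀ w, pin W u w = 0 := by
      intro w
      have := notMem_pin hT hu
      simp [pin, this]
    have h1 : ∑ w ∈ aq a b c f, (adj G u w : ℝ) = D u +
        ∑ w : V, (if f w = c then (adj G u w : ℝ) else 0) := by
      rw [← hBT u hu, ← sum_add_distrib]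
      unfold aq
      rw [sum_filter]
      apply sum_congr rfl
      intro w _
      by_cases h1 : f w = a
      · have h3 : ¬ f w = c := by rw [h1]; exact hc.1
        have h4 : w ∈ bq a b f := by rw [mem_bq]; exact Or.inl h1
        simp [h1, h4, hc.1]
      · by_cases h2 : f w = b
        · have h4 : w ∈ bq a b f := by rw [mem_bq]; exact Or.inr h2
          simp [h2, h4, hc.2]
        · have h4 : ¬ w ∈ bq a b f := by rw [mem_bq]; push Not; exact ⟨h1, h2⟩
          simp [h1, h2, h4]
    unfold s3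
    rw [h1]
    have h2 : ∑ w ∈ aq a b c f, (pin W u w : ℝ) = 0 := by
      apply sum_eq_zero
      intro w _
      rw [hpin w]; simp
    rw [h2]; ring
  -- the sum over the third colour
  have hsum : ∑ c, (if a ≠ c ∧ b ≠ c then ∑ u ∈ T, s3 G W a b c f u else 0) =
      ∑ u ∈ T, ((q - 2) * (3 - D u) - ∑ w : V, (if w ∈ bq a b f then 0 else (adj G u w : ℝ))) := by
    have h1 : ∀ c, (if a ≠ c ∧ b ≠ c then ∑ u ∈ T, s3 G W a b c f u else 0) =
        ∑ u ∈ T, ((if a ≠ c ∧ b ≠ c then (1 : ℝ) else 0) * (3 - D u) -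
          (if a ≠ c ∧ b ≠ c then ∑ w : V, (if f w = c then (adj G u w : ℝ) else 0) else 0)) := by
      intro c
      by_cases hc : a ≠ c ∧ b ≠ c
      · simp only [if_pos hc]
        apply sum_congr rfl
        intro u hu
        rw [hs3 u hu c hc]; ring
      · simp only [if_neg hc]
        symm
        apply sum_eq_zero
        intro u _
        ring
    rw [sum_congr rfl (fun c _ => h1 c), sum_comm]
    apply sum_congr rfl
    intro u _
    rw [sum_sub_distrib, ← sum_mul, card_third hab, sum_third (fun w => (adj G u w : ℝ)) f]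
  rw [hsum, sum_congr rfl hdeg]
  -- number of edges in `T`
  have hE : ∑ u ∈ T, D u ≤ 2 * (T.card : ℝ) - 2 := by
    have h1 : ∑ u ∈ T, ∑ w ∈ T, adj G u w ≤ ∑ u ∈ T, ∑ w ∈ T, mq G W u w := by
      apply sum_le_sum; intro u _
      apply sum_le_sum; intro w _
      unfold mq; omega
    have h2 := hT'.2.2 T (subset_refl _) hne
    have h3 := even_adj G T
    have h4 : ∑ u ∈ T, ∑ w ∈ T, adj G u w + 2 ≤ 2 * T.card := by
      obtain ⟨k, hk⟩ := h3
      omega
    have h5 : ((∑ u ∈ T, ∑ w ∈ T, adj G u w : ℕ) : ℝ) + 2 ≤ 2 * (T.card : ℝ) := by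
      exact_mod_cast h4
    have h6 : ∑ u ∈ T, D u = ((∑ u ∈ T, ∑ w ∈ T, adj G u w : ℕ) : ℝ) := by
      rw [hD]; push_cast; rfl
    rw [h6]; linarith
  have e1 : ∑ u ∈ T, ((q - 2) * (3 - D u) -
      ∑ w : V, (if w ∈ bq a b f then 0 else (adj G u w : ℝ))) =
      ∑ u ∈ T, (q - D u - ∑ w : V, (if w ∈ bq a b f then 0 else (adj G u w : ℝ))) +
        (2 * q - 6) * (T.card : ℝ) - (q - 3) * ∑ u ∈ T, D u := by
    rw [mul_sum, add_sub_assoc]
    have : (2 * q - 6) * (T.card : ℝ) = ∑ _u ∈ T, (2 * q - 6) := by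
      rw [sum_const, nsmul_eq_mul]; ring
    rw [this, ← sum_sub_distrib, ← sum_add_distrib]
    apply sum_congr rfl
    intro u _
    ring
  rw [e1]
  have h7 : (q - 3) * ∑ u ∈ T, D u ≤ (q - 3) * (2 * (T.card : ℝ) - 2) :=
    mul_le_mul_of_nonneg_left hE (by linarith)
  nlinarith

end Pool.Agent.Nest
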