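import Pool.Agent.Lib.MP_26a019_lc.Nest.QFS
import Pool.Agent.Lib.MP_26a019_lc.Nest.QCalc
import Pool.Agent.Lib.MP_26a019_lc.Nest.QAlg
import Pool.Agent.Lib.MP_26a019_lc.Nest.QSlack

set_option autoImplicit false
set_option linter.unusedSectionVars false

/-!
# The square inequality for `q` colours
-/

open Finset Classical

namespace Pool.Agent.Nest

variable {V : Type} [Fintype V] {C : Type} [Fintype C]

theorem Xq_symm (G : SimpleGraph V) (W : Finset V) (ρ : V → ℝ) (g : (V → C) → ℝ) (a b : C)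
    (f : V → C) : Xq G W ρ g a b f = Xq G W ρ g b a f := by
  unfold Xq
  by_cases h : a = b
  · subst h; rfl
  · rw [if_neg h, if_neg (fun e => h e.symm)]
    unfold oq
    rw [bq_comm a b f]
    simp only [fq_comm a b]

theorem Xq_diag (G : SimpleGraph V) (W : Finset V) (ρ : V → ℝ) (g : (V → C) → ℝ) (a : C)
    (f : V → C) : Xq G W ρ g a a f = 0 := by
  unfold Xq
  rw [if_pos rfl]

theorem aq_swap (a b c : C) (f : V → C) : aq a b c f = aq b a c f := by
  ext u
  simp only [aq, mem_filter, mem_univ, true_and]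
  tauto

theorem s3_swap (G : SimpleGraph V) (W : Finset V) (a b c : C) (f : V → C) :
    s3 G W a b c f = s3 G W b a c f := by
  funext u
  unfold s3
  rw [aq_swap a b c f]

theorem Yq_swap (G : SimpleGraph V) (W : Finset V) (ρ : V → ℝ) (g : (V → C) → ℝ) (a b c : C)
    (f : V → C) : Yq G W ρ g a b c f = Yq G W ρ g b a c f := by
  unfold Yq
  rw [bq_comm a b f, s3_swap G W a b c f]
  simp only [fq_comm a b]

theorem aq_fq (a b c : C) (T : Finset V) (f : V → C) : aq a b c (fq a b T f) = aq a b c f := by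
  ext u
  simp only [aq, mem_filter, mem_univ, true_and, fq]
  by_cases hu : u ∈ T
  · simp only [hu, if_true]
    by_cases h : f u = a ∨ f u = b
    · have h1 := swap_mem h
      constructor
      · intro _
        rcases h with h | h
        · exact Or.inl h
        · exact Or.inr (Or.inl h)
      · intro _
        rcases h1 with h | h
        · exact Or.inl h
        · exact Or.inr (Or.inl h)
    · rw [swap_of_not h]
  · simp only [hu, if_false]

theorem LQ_eq (G : SimpleGraph V) (W : Finset V) (ρ : V → ℝ) (g : (V → C) → ℝ) (f : V → C) :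
    LQ G W ρ g f = ∑ a, ∑ b, Xq G W ρ g a b f := by
  unfold LQ prs
  rw [sum_filter, ← univ_product_univ, sum_product]
  apply sum_congr rfl; intro a _
  apply sum_congr rfl; intro b _
  unfold Xq
  by_cases h : a = b
  · simp [h]
  · simp [h]

/-! ### linearity of `cv` in the multiplier -/

theorem cv_smul (K : Finset (Finset V)) (r : ℝ) (μ g : Finset V → ℝ) :
    cv K (fun S => r * μ S) g = r * cv K μ g := by
  unfold cv
  rw [← mul_div_assoc, mul_sum]
  congr 1
  apply sum_congr rfl; intro S _; ring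

theorem cv_sub (K : Finset (Finset V)) (μ ν g : Finset V → ℝ) :
    cv K (fun S => μ S - ν S) g = cv K μ g - cv K ν g := by
  unfold cv
  rw [← sub_div, ← sum_sub_distrib]
  congr 1
  apply sum_congr rfl; intro S _; ring

theorem cv_sum {ι : Type} (s : Finset ι) (K : Finset (Finset V)) (μ : ι → Finset V → ℝ)
    (g : Finset V → ℝ) : cv K (fun S => ∑ i ∈ s, μ i S) g = ∑ i ∈ s, cv K (μ i) g := by
  unfold cv
  rw [← sum_div]
  congr 1
  rw [sum_comm]
  apply sum_congr rfl; intro S _
  rw [sum_mul]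

theorem cv_ite (P : Prop) [Decidable P] (K : Finset (Finset V)) (μ g : Finset V → ℝ) :
    cv K (fun S => if P then μ S else 0) g = if P then cv K μ g else 0 := by
  by_cases h : P
  · simp only [h, if_true]
  · simp only [h, if_false]
    unfold cv
    simp

/-- `∑ X^2` as a quadratic form -/
theorem sum_Xq_sq (G : SimpleGraph V) (W : Finset V) (p : V → C) (ρ : V → ℝ)
    (g : (V → C) → ℝ) {a b : C} (hab : a ≠ b) :
    ∑ f ∈ OmQ G W p, (Xq G W ρ g a b f) ^ 2 =
      ∑ f ∈ OmQ G W p, g f * (FQ G W p a b).op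
        (fun f S => lam (mq G W) ρ (bq a b f) S * lam (mq G W) ρ (bq a b f) S) g f := by
  have hX : ∀ f, Xq G W ρ g a b f = (FQ G W p a b).op
      (fun f => lam (mq G W) ρ (bq a b f)) g f := by
    intro f
    unfold Xq
    rw [if_neg hab]
    rfl
  have h1 := op_symm (FQ G W p a b) (fun f => lam (mq G W) ρ (bq a b f))
    (mul_lam G W p a b ρ) g ((FQ G W p a b).op (fun f => lam (mq G W) ρ (bq a b f)) g)
  have h2 : ∀ f ∈ OmQ G W p, g f * (FQ G W p a b).op
        (fun f S => lam (mq G W) ρ (bq a b f) S * lam (mq G W) ρ (bq a b f) S) g f =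
      g f * (FQ G W p a b).op (fun f => lam (mq G W) ρ (bq a b f))
        ((FQ G W p a b).op (fun f => lam (mq G W) ρ (bq a b f)) g) f := by
    intro f hf
    rw [op_op (FQ G W p a b) _ _ (mul_lam G W p a b ρ) (mul_lam G W p a b ρ) g hf]
  rw [sum_congr rfl h2]
  refine Eq.trans ?_ h1.symm
  apply sum_congr rfl
  intro f _
  rw [hX f]; ring

/-- the inequality of one pair -/
theorem pair_main (hq : 3 ≤ Fintype.card C) (G : SimpleGraph V) (W : Finset V) (p : V → C)
    (hs : ∀ u, 0 < sq C G u) (g : (V → C) → ℝ) {a b : C} (hab : a ≠ b) :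
    ∑ f ∈ OmQ G W p, g f * Xq G W (sq C G) g a b f ≤
      (∑ c, if a ≠ c ∧ b ≠ c then
        1 / 2 * ∑ f ∈ OmQ G W p, g f * Yq G W (sq C G) g a b c f else 0) -
      ((Fintype.card C : ℝ) - 3) * ∑ f ∈ OmQ G W p, (Xq G W (sq C G) g a b f) ^ 2 := by
  set q : ℝ := (Fintype.card C : ℝ) with hqdef
  set ρ : V → ℝ := sq C G with hρ
  set F := FQ G W p a b with hF
  let μ : (V → C) → Finset V → ℝ := fun f S =>
    (∑ c, if a ≠ c ∧ b ≠ c then 1 / 2 * cst (mq G W) ρ (s3 G W a b c f) (bq a b f) S else 0) -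
      (q - 3) * (lam (mq G W) ρ (bq a b f) S * lam (mq G W) ρ (bq a b f) S) -
      lam (mq G W) ρ (bq a b f) S
  have hμ : Mul F μ := by
    refine ⟨?_, ?_⟩
    · intro f _ T _ S
      show μ (fq a b T f) S = μ f S
      simp only [μ]
      rw [bq_fq]
      have : ∀ c, s3 G W a b c (fq a b T f) = s3 G W a b c f := by
        intro c
        funext u
        unfold s3
        rw [aq_fq]
      simp only [this]
    · intro f _ S S' h
      have h' : ∀ T ∈ kf (mq G W) (bq a b f), chi S T = chi S' T := h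
      simp only [μ]
      rw [lam_congr h']
      simp only [cst_congr h']
  have hμ0 : ∀ f ∈ F.Om, ∀ S, 0 ≤ μ f S := by
    intro f _ S
    by_cases hA : (adm (mq G W) (bq a b f) S).Nonempty
    · have hK : km (mq G W) ρ (bq a b f) S ∈ kf (mq G W) (bq a b f) := km_mem_kf _ _ _ _
      have h1 := slack hq G W hab hK (km_nonempty hA)
      have hr : 0 < rr (mq G W) ρ (bq a b f) S := rr_pos' hs hA
      set K := km (mq G W) ρ (bq a b f) S with hKdef
      have hrr : rr (mq G W) ρ (bq a b f) S = ∑ u ∈ K, sq C G u := rfl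
      have e1 : μ f S = 1 / 2 * (lam (mq G W) ρ (bq a b f) S) ^ 2 *
          ((∑ c, if a ≠ c ∧ b ≠ c then ∑ u ∈ K, s3 G W a b c f u else 0) -
            2 * (q - 3) - ∑ u ∈ K, sq C G u) := by
        simp only [μ, cst, ← hKdef]
        have e2 : lam (mq G W) ρ (bq a b f) S =
            1 / 2 * (lam (mq G W) ρ (bq a b f) S) ^ 2 * ∑ u ∈ K, sq C G u := by
          rw [← hrr]
          unfold lam
          field_simp
        have e3 : ∑ c, (if a ≠ c ∧ b ≠ c then 1 / 2 * ((∑ u ∈ K, s3 G W a b c f u) *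
            lam (mq G W) ρ (bq a b f) S ^ 2) else 0) = 1 / 2 * lam (mq G W) ρ (bq a b f) S ^ 2 *
            ∑ c, (if a ≠ c ∧ b ≠ c then ∑ u ∈ K, s3 G W a b c f u else 0) := by
          rw [mul_sum]
          apply sum_congr rfl
          intro c _
          split_ifs
          · ring
          · ring
        rw [e3]
        linear_combination (-1 : ℝ) * e2
      rw [e1]
      apply mul_nonneg
      · positivity
      · linarith
    · have e1 : μ f S = 0 := by
        simp only [μ, cst, lam_of_not hA]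
        simp
      rw [e1]
  have h0 := op_nonneg F μ hμ hμ0 g
  have hexp : ∀ f ∈ F.Om, g f * F.op μ g f =
      (∑ c, if a ≠ c ∧ b ≠ c then 1 / 2 * (g f * Yq G W ρ g a b c f) else 0) -
      (q - 3) * (g f * F.op
        (fun f S => lam (mq G W) ρ (bq a b f) S * lam (mq G W) ρ (bq a b f) S) g f) -
      g f * Xq G W ρ g a b f := by
    intro f _
    have e1 : F.op μ g f = (∑ c, if a ≠ c ∧ b ≠ c then 1 / 2 * Yq G W ρ g a b c f else 0) -
      (q - 3) * F.op
        (fun f S => lam (mq G W) ρ (bq a b f) S * lam (mq G W) ρ (bq a b f) S) g f -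
      Xq G W ρ g a b f := by
      have hX : Xq G W ρ g a b f = cv (F.K f) (lam (mq G W) ρ (bq a b f))
          (fun T => g (F.fl T f)) := by
        unfold Xq
        rw [if_neg hab]
        rfl
      have hY : ∀ c, Yq G W ρ g a b c f = cv (F.K f)
          (cst (mq G W) ρ (s3 G W a b c f) (bq a b f)) (fun T => g (F.fl T f)) := fun _ => rfl
      unfold FS.op
      simp only [μ]
      rw [cv_sub, cv_sub, cv_sum, cv_smul, hX]
      congr 2
      apply sum_congr rfl
      intro c _
      rw [cv_ite, cv_smul, hY]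
    rw [e1, mul_sub, mul_sub, mul_sum]
    congr 2
    · apply sum_congr rfl
      intro c _
      split_ifs <;> ring
    · ring
  have hsum : ∑ f ∈ OmQ G W p, g f * F.op μ g f =
      (∑ c, if a ≠ c ∧ b ≠ c then 1 / 2 * ∑ f ∈ OmQ G W p, g f * Yq G W ρ g a b c f else 0) -
      (q - 3) * ∑ f ∈ OmQ G W p, (Xq G W ρ g a b f) ^ 2 -
      ∑ f ∈ OmQ G W p, g f * Xq G W ρ g a b f := by
    refine (sum_congr rfl hexp).trans ?_
    rw [sum_sub_distrib, sum_sub_distrib, ← mul_sum, sum_Xq_sq G W p ρ g hab, sum_comm]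
    congr 2
    apply sum_congr rfl
    intro c _
    split_ifs
    · rw [mul_sum]; rfl
    · simp
  have h0' : 0 ≤ ∑ f ∈ OmQ G W p, g f * F.op μ g f := h0
  rw [hsum] at h0'
  linarith

/-- The square inequality, from the triples and the disjoint pairs. -/
theorem sq_main_of (hq : 3 ≤ Fintype.card C) (G : SimpleGraph V) (W : Finset V) (p : V → C)
    (hs : ∀ u, 0 < sq C G u) (g : (V → C) → ℝ)
    (htri : ∀ a b c : C, a ≠ b → a ≠ c → b ≠ c →
      1 / 2 * ∑ f ∈ OmQ G W p, g f * (Yq G W (sq C G) g a b c f + Yq G W (sq C G) g a c b f +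
          Yq G W (sq C G) g b c a f) ≤
      ∑ f ∈ OmQ G W p, (Xq G W (sq C G) g a b f + Xq G W (sq C G) g a c f +
          Xq G W (sq C G) g b c f) ^ 2)
    (hdisj : ∀ a b c d : C, a ≠ c → a ≠ d → b ≠ c → b ≠ d →
      0 ≤ ∑ f ∈ OmQ G W p, Xq G W (sq C G) g a b f * Xq G W (sq C G) g c d f) :
    ∑ f ∈ OmQ G W p, g f * (1 / 2 * LQ G W (sq C G) g f) ≤
      ∑ f ∈ OmQ G W p, (1 / 2 * LQ G W (sq C G) g f) ^ 2 := by
  set q : ℝ := (Fintype.card C : ℝ) with hqdef
  set X := Xq G W (sq C G) g with hX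
  set Y := Yq G W (sq C G) g with hY
  set Om := OmQ G W p with hOm
  -- pull the sum over states through the colour sums
  have pull3 : ∀ Φ : C → C → C → (V → C) → ℝ, ∑ f ∈ Om, sum3 (fun a b c => Φ a b c f) =
      sum3 (fun a b c => ∑ f ∈ Om, Φ a b c f) := by
    intro Φ
    unfold sum3
    rw [sum_comm]; apply sum_congr rfl; intro a _
    rw [sum_comm]; apply sum_congr rfl; intro b _
    rw [sum_comm]; apply sum_congr rfl; intro c _
    split_ifs <;> simp
  have pull4 : ∀ Φ : C → C → C → C → (V → C) → ℝ, ∑ f ∈ Om, sum4 (fun a b c d => Φ a b c d f) =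
      sum4 (fun a b c d => ∑ f ∈ Om, Φ a b c d f) := by
    intro Φ
    unfold sum4
    rw [sum_comm]; apply sum_congr rfl; intro a _
    rw [sum_comm]; apply sum_congr rfl; intro b _
    rw [sum_comm]; apply sum_congr rfl; intro c _
    rw [sum_comm]; apply sum_congr rfl; intro d _
    split_ifs <;> simp
  have h1 : ∑ f ∈ Om, (1 / 2 * LQ G W (sq C G) g f) ^ 2 =
      1 / 6 * sum3 (fun a b c => ∑ f ∈ Om, (X a b f + X a c f + X b c f) ^ 2)
        - 1 / 2 * (q - 3) * (∑ a, ∑ b, ∑ f ∈ Om, (X a b f) ^ 2)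
        + 1 / 4 * sum4 (fun a b c d => ∑ f ∈ Om, X a b f * X c d f) := by
    rw [← pull3, ← pull4]
    have e' : ∑ a, ∑ b, ∑ f ∈ Om, (X a b f) ^ 2 = ∑ f ∈ Om, ∑ a, ∑ b, (X a b f) ^ 2 := by
      rw [sum_comm]
      rw [sum_congr rfl (fun b _ => sum_comm)]
      rw [sum_comm]
      apply sum_congr rfl
      intro f _
      rw [sum_comm]
    rw [e', mul_sum Om _ (1 / 6 : ℝ), mul_sum Om _ (1 / 2 * (q - 3)), mul_sum Om _ (1 / 4 : ℝ),
      ← sum_sub_distrib, ← sum_add_distrib]
    apply sum_congr rfl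
    intro f _
    rw [LQ_eq]
    exact red_identity (fun a b => X a b f) (fun a b => Xq_symm G W _ g a b f)
      (fun a => Xq_diag G W _ g a f)
  have h4 : 0 ≤ sum4 (fun a b c d => ∑ f ∈ Om, X a b f * X c d f) :=
    sum4_nonneg _ (fun a b c d h1 h2 h3 h4 => hdisj a b c d h1 h2 h3 h4)
  set D : C → C → C → ℝ := fun a b c => 1 / 2 * ∑ f ∈ Om, g f * Y a b c f with hD
  have h3 : 3 * ∑ a, ∑ b, (if a ≠ b then (∑ c, if a ≠ c ∧ b ≠ c then D a b c else 0) else 0) ≤
      sum3 (fun a b c => ∑ f ∈ Om, (X a b f + X a c f + X b c f) ^ 2) := by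
    have hDs : ∀ a b c, D a b c = D b a c := by
      intro a b c
      simp only [hD]
      have : ∀ f, Y a b c f = Y b a c f := fun f => Yq_swap G W _ g a b c f
      simp only [this]
    have h3a := sum3_rot D hDs
    rw [← h3a]
    apply sum3_mono
    intro a b c hab hac hbc
    have := htri a b c hab hac hbc
    refine le_trans (le_of_eq ?_) this
    simp only [hD]
    rw [← mul_add, ← mul_add, ← sum_add_distrib, ← sum_add_distrib]
    congr 1
    apply sum_congr rfl
    intro f _
    ring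
  have h5 : ∑ f ∈ Om, g f * (1 / 2 * LQ G W (sq C G) g f) =
      1 / 2 * ∑ a, ∑ b, (if a ≠ b then ∑ f ∈ Om, g f * X a b f else 0) := by
    have e1 : ∀ a b, (if a ≠ b then ∑ f ∈ Om, g f * X a b f else 0) =
        ∑ f ∈ Om, g f * X a b f := by
      intro a b
      by_cases h : a = b
      · subst h
        rw [if_neg (by simp)]
        symm
        apply sum_eq_zero
        intro f _
        rw [hX, Xq_diag, mul_zero]
      · rw [if_pos h]
    simp only [e1]
    have e' : ∑ a, ∑ b, ∑ f ∈ Om, g f * X a b f = ∑ f ∈ Om, ∑ a, ∑ b, g f * X a b f := by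
      rw [sum_comm]
      rw [sum_congr rfl (fun b _ => sum_comm)]
      rw [sum_comm]
      apply sum_congr rfl
      intro f _
      rw [sum_comm]
    rw [e', mul_sum]
    apply sum_congr rfl
    intro f _
    rw [LQ_eq]
    simp only [← mul_sum]
    ring
  rw [h1, h5]
  have h6 : ∑ a, ∑ b, (if a ≠ b then ∑ f ∈ Om, g f * X a b f else 0) ≤
      ∑ a, ∑ b, (if a ≠ b then (∑ c, if a ≠ c ∧ b ≠ c then D a b c else 0) else 0) -
        (q - 3) * ∑ a, ∑ b, ∑ f ∈ Om, (X a b f) ^ 2 := by
    rw [mul_sum, ← sum_sub_distrib]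
    apply sum_le_sum; intro a _
    rw [mul_sum, ← sum_sub_distrib]
    apply sum_le_sum; intro b _
    by_cases hab : a ≠ b
    · rw [if_pos hab, if_pos hab]
      exact pair_main hq G W p hs g hab
    · rw [if_neg hab, if_neg hab]
      push Not at hab
      subst hab
      have : ∑ f ∈ Om, (X a a f) ^ 2 = 0 := by
        apply sum_eq_zero
        intro f _
        rw [hX, Xq_diag]
        ring
      rw [this]; simp
  nlinarith [h3, h4, h6]

end Pool.Agent.Nest
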