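import Pool.Agent.Lib.MP_26a019_lc.Nest.QSq

set_option autoImplicit false
set_option linter.unusedSectionVars false

/-!
# Two colours, no edges
-/

open Finset Classical

namespace Pool.Agent.Nest

variable {V : Type} [Fintype V] {C : Type} [Fintype C]

/-- one pair of colours, when there are two colours and no edges -/
theorem pair_two (hq : Fintype.card C = 2) (G : SimpleGraph V) (hG : ∀ u w, ¬ G.Adj u w)
    (W : Finset V) (p : V → C) (g : (V → C) → ℝ) {a b : C} (hab : a ≠ b) :
    ∑ f ∈ OmQ G W p, g f * Xq G W (sq C G) g a b f ≤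
      ∑ f ∈ OmQ G W p, (Xq G W (sq C G) g a b f) ^ 2 := by
  have hsq : ∀ u, sq C G u = 2 := by
    intro u
    have h1 : univ.filter (fun w => G.Adj u w) = ∅ := by
      rw [filter_eq_empty_iff]
      intro w _
      exact hG u w
    unfold sq
    rw [h1, hq]
    simp
  set F := FQ G W p a b with hF
  let μ : (V → C) → Finset V → ℝ := fun f S =>
    lam (mq G W) (sq C G) (bq a b f) S * lam (mq G W) (sq C G) (bq a b f) S -
      lam (mq G W) (sq C G) (bq a b f) S
  have hμ : Mul F μ :=
    mul_of_bq G W p a b (fun B S => lam (mq G W) (sq C G) B S * lam (mq G W) (sq C G) B S -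
      lam (mq G W) (sq C G) B S) (fun _ _ _ h => by rw [lam_congr h])
  have hμ0 : ∀ f ∈ F.Om, ∀ S, 0 ≤ μ f S := by
    intro f _ S
    by_cases hA : (adm (mq G W) (bq a b f) S).Nonempty
    · have hspec := km_spec (ρ := sq C G) hA
      have hK := mem_adm.mp hspec.1
      set K := km (mq G W) (sq C G) (bq a b f) S with hKdef
      have hne : (S ∩ K).Nonempty := by
        rw [← card_pos]
        rcases hK.2 with ⟨k, hk⟩
        omega
      obtain ⟨v, hv⟩ := hne
      rw [mem_inter] at hv
      have hvW : v ∉ W := notMem_pin hK.1 hv.2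
      have hsing : {v} ∈ kf (mq G W) (bq a b f) := by
        rw [mem_kf]
        refine ⟨singleton_subset_iff.mpr (kf_sub hK.1 hv.2), ?_, ?_⟩
        · intro u hu w _ hw
          rw [mem_singleton] at hu hw
          subst hu
          have : ¬ u = w := fun h => hw h.symm
          simp [mq, adj, pin, hG, this]
        · intro U hU hne'
          have hUv : U = {v} := by
            rcases subset_singleton_iff.mp hU with h | h
            · exact absurd h hne'.ne_empty
            · exact h
          rw [hUv]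
          simp [mq, adj, pin, hvW]
      have hadm : {v} ∈ adm (mq G W) (bq a b f) S := by
        rw [mem_adm]
        refine ⟨hsing, ?_⟩
        rw [inter_singleton_of_mem hv.1, card_singleton]
        exact odd_one
      have h1 := hspec.2 {v} hadm
      rw [sum_singleton, hsq v] at h1
      have hr : 0 < rr (mq G W) (sq C G) (bq a b f) S :=
        rr_pos' (fun u => by rw [hsq u]; norm_num) hA
      have hr2 : rr (mq G W) (sq C G) (bq a b f) S ≤ 2 := h1
      have hl : 1 ≤ lam (mq G W) (sq C G) (bq a b f) S := by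
        unfold lam
        rw [le_div_iff₀ hr]
        linarith
      show 0 ≤ lam (mq G W) (sq C G) (bq a b f) S * lam (mq G W) (sq C G) (bq a b f) S -
        lam (mq G W) (sq C G) (bq a b f) S
      nlinarith
    · show 0 ≤ lam (mq G W) (sq C G) (bq a b f) S * lam (mq G W) (sq C G) (bq a b f) S -
        lam (mq G W) (sq C G) (bq a b f) S
      rw [lam_of_not hA]; simp
  have h0 := op_nonneg F μ hμ hμ0 g
  have hexp : ∀ f ∈ F.Om, g f * F.op μ g f =
      g f * F.op (fun f S => lam (mq G W) (sq C G) (bq a b f) S *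
        lam (mq G W) (sq C G) (bq a b f) S) g f - g f * Xq G W (sq C G) g a b f := by
    intro f _
    have hX : Xq G W (sq C G) g a b f = cv (F.K f) (lam (mq G W) (sq C G) (bq a b f))
          (fun T => g (F.fl T f)) := by
        unfold Xq
        rw [if_neg hab]
        rfl
    unfold FS.op
    simp only [μ]
    rw [cv_sub, hX]
    ring
  have h1 : ∑ f ∈ F.Om, g f * F.op μ g f =
      ∑ f ∈ OmQ G W p, (Xq G W (sq C G) g a b f) ^ 2 -
        ∑ f ∈ OmQ G W p, g f * Xq G W (sq C G) g a b f := by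
    refine (sum_congr rfl hexp).trans ?_
    rw [sum_sub_distrib, sum_Xq_sq G W p (sq C G) g hab]
    rfl
  rw [h1] at h0
  linarith

/-- The square inequality for two colours. -/
theorem sq_two (hq : Fintype.card C = 2) (G : SimpleGraph V) (hG : ∀ u w, ¬ G.Adj u w)
    (W : Finset V) (p : V → C) (g : (V → C) → ℝ)
    (hdisj : ∀ a b c d : C, a ≠ c → a ≠ d → b ≠ c → b ≠ d →
      0 ≤ ∑ f ∈ OmQ G W p, Xq G W (sq C G) g a b f * Xq G W (sq C G) g c d f) :
    ∑ f ∈ OmQ G W p, g f * (1 / 2 * LQ G W (sq C G) g f) ≤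
      ∑ f ∈ OmQ G W p, (1 / 2 * LQ G W (sq C G) g f) ^ 2 := by
  set X := Xq G W (sq C G) g with hX
  set Om := OmQ G W p with hOm
  have pull4 : ∀ Φ : C → C → C → C → (V → C) → ℝ, ∑ f ∈ Om, sum4 (fun a b c d => Φ a b c d f) =
      sum4 (fun a b c d => ∑ f ∈ Om, Φ a b c d f) := by
    intro Φ
    unfold sum4
    rw [sum_comm]; apply sum_congr rfl; intro a _
    rw [sum_comm]; apply sum_congr rfl; intro b _
    rw [sum_comm]; apply sum_congr rfl; intro c _
    rw [sum_comm]; apply sum_congr rfl; intro d _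
    split_ifs <;> simp
  have hcomm : ∀ Φ : C → C → (V → C) → ℝ, ∑ a, ∑ b, ∑ f ∈ Om, Φ a b f =
      ∑ f ∈ Om, ∑ a, ∑ b, Φ a b f := by
    intro Φ
    rw [sum_comm]
    rw [sum_congr rfl (fun b _ => sum_comm)]
    rw [sum_comm]
    apply sum_congr rfl
    intro f _
    rw [sum_comm]
  have h4 : 0 ≤ sum4 (fun a b c d => ∑ f ∈ Om, X a b f * X c d f) :=
    sum4_nonneg _ (fun a b c d h1 h2 h3 h4 => hdisj a b c d h1 h2 h3 h4)
  rw [← pull4] at h4
  have h1 : 1 / 2 * ∑ a, ∑ b, ∑ f ∈ Om, (X a b f) ^ 2 +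
      1 / 4 * ∑ f ∈ Om, sum4 (fun a b c d => X a b f * X c d f) ≤
      ∑ f ∈ Om, (1 / 2 * LQ G W (sq C G) g f) ^ 2 := by
    rw [hcomm, mul_sum Om _ (1 / 2 : ℝ), mul_sum Om _ (1 / 4 : ℝ), ← sum_add_distrib]
    apply sum_le_sum
    intro f _
    rw [LQ_eq]
    have h2 := red_identity (fun a b => X a b f) (fun a b => Xq_symm G W _ g a b f)
      (fun a => Xq_diag G W _ g a f)
    have h3 : 0 ≤ sum3 (fun a b c => (X a b f + X a c f + X b c f) ^ 2) :=
      sum3_nonneg _ (fun a b c _ _ _ => sq_nonneg _)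
    rw [h2, hq]
    push_cast
    nlinarith [h3]
  have h5 : ∑ f ∈ Om, g f * (1 / 2 * LQ G W (sq C G) g f) =
      1 / 2 * ∑ a, ∑ b, ∑ f ∈ Om, g f * X a b f := by
    rw [hcomm, mul_sum]
    apply sum_congr rfl
    intro f _
    rw [LQ_eq]
    simp only [← mul_sum]
    ring
  have h6 : ∑ a, ∑ b, ∑ f ∈ Om, g f * X a b f ≤ ∑ a, ∑ b, ∑ f ∈ Om, (X a b f) ^ 2 := by
    apply sum_le_sum; intro a _
    apply sum_le_sum; intro b _
    by_cases hab : a = b
    · subst hab
      have e1 : ∑ f ∈ Om, g f * X a a f = 0 := by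
        apply sum_eq_zero
        intro f _
        rw [hX, Xq_diag, mul_zero]
      rw [e1]
      exact sum_nonneg fun f _ => sq_nonneg _
    · exact pair_two hq G hG W p g hab
  rw [h5]
  linarith

end Pool.Agent.Nest
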