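import Pool.Agent.Lib.MP_26a019_lc.Nest.QTri
import Pool.Agent.Lib.MP_26a019_lc.Nest.QDisj
import Pool.Agent.Lib.MP_26a019_lc.Nest.QKer
import Pool.Agent.Lib.MP_26a019_lc.Nest.QSq
import Pool.Agent.Lib.MP_26a019_lc.Nest.QTwo
import Pool.Agent.Lib.MP_26a019_lc.Nest.QGap
import Pool.Agent.Lib.MP_26a019_lc.Nest.QSILoc
import Pool.Agent.Lib.MP_26a019_lc.Nest.QSICnt
import Pool.Agent.Lib.MP_26a019_lc.Mix.MDefs

set_option autoImplicit false
set_option linter.unusedSectionVars false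

/-!
# Spectral independence from the three colour theorem
-/

open Finset Classical

namespace Pool.Agent.Nest

variable {V : Type} [Fintype V] {C : Type} [Fintype C]

theorem cv_add_fun (K : Finset (Finset V)) (μ g h : Finset V → ℝ) :
    cv K μ (fun T => g T + h T) = cv K μ g + cv K μ h := by
  unfold cv
  rw [← add_div, ← sum_add_distrib]
  congr 1
  apply sum_congr rfl; intro S _
  rw [← mul_add, ← sum_add_distrib]
  congr 1
  apply sum_congr rfl; intro T _; ring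

theorem cv_smul_fun (K : Finset (Finset V)) (r : ℝ) (μ g : Finset V → ℝ) :
    cv K μ (fun T => r * g T) = r * cv K μ g := by
  unfold cv
  rw [← mul_div_assoc, mul_sum]
  congr 1
  apply sum_congr rfl; intro S _
  have : ∑ T ∈ K, chi S T * (r * g T) = r * ∑ T ∈ K, chi S T * g T := by
    rw [mul_sum]
    apply sum_congr rfl; intro T _; ring
  rw [this]; ring

/-- the generator as a linear map -/
noncomputable def LL (G : SimpleGraph V) (W : Finset V) (ρ : V → ℝ) :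
    ((V → C) → ℝ) →ₗ[ℝ] ((V → C) → ℝ) where
  toFun := fun g f => 1 / 2 * LQ G W ρ g f
  map_add' := by
    intro g h
    funext f
    simp only [Pi.add_apply]
    unfold LQ oq
    rw [← mul_add, ← sum_add_distrib]
    congr 1
    apply sum_congr rfl
    intro x _
    exact cv_add_fun _ _ _ _
  map_smul' := by
    intro r g
    funext f
    unfold LQ oq
    simp only [Pi.smul_apply, smul_eq_mul, RingHom.id_apply]
    have : ∀ x ∈ prs C, cv (kf (mq G W) (bq x.1 x.2 f)) (lam (mq G W) ρ (bq x.1 x.2 f))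
        (fun T => r * g (fq x.1 x.2 T f)) =
        r * cv (kf (mq G W) (bq x.1 x.2 f)) (lam (mq G W) ρ (bq x.1 x.2 f))
        (fun T => g (fq x.1 x.2 T f)) := fun x _ => cv_smul_fun _ _ _ _
    rw [sum_congr rfl this, ← mul_sum]
    ring

theorem LL_apply (G : SimpleGraph V) (W : Finset V) (ρ : V → ℝ) (g : (V → C) → ℝ) (f : V → C) :
    LL G W ρ g f = 1 / 2 * LQ G W ρ g f := rfl

/-- the bilinear form of the generator, pair by pair -/
theorem form_eq (G : SimpleGraph V) (W : Finset V) (p : V → C) (ρ : V → ℝ)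
    (φ ψ : (V → C) → ℝ) :
    ∑ f ∈ OmQ G W p, φ f * LL G W ρ ψ f =
      1 / 2 * ∑ x ∈ prs C, ∑ f ∈ OmQ G W p,
        φ f * oq (mq G W) x.1 x.2 (lam (mq G W) ρ) ψ f := by
  rw [sum_comm, mul_sum]
  apply sum_congr rfl
  intro f _
  rw [LL_apply]
  unfold LQ
  rw [← mul_sum]
  ring

theorem LL_symm (G : SimpleGraph V) (W : Finset V) (p : V → C) (ρ : V → ℝ)
    (φ ψ : (V → C) → ℝ) :
    ∑ f ∈ OmQ G W p, φ f * LL G W ρ ψ f = ∑ f ∈ OmQ G W p, LL G W ρ φ f * ψ f := by
  have h1 : ∑ f ∈ OmQ G W p, LL G W ρ φ f * ψ f = ∑ f ∈ OmQ G W p, ψ f * LL G W ρ φ f :=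
    sum_congr rfl (fun f _ => mul_comm _ _)
  rw [h1, form_eq, form_eq]
  congr 1
  apply sum_congr rfl
  intro x _
  have h2 := op_symm (FQ G W p x.1 x.2) (fun f => lam (mq G W) ρ (bq x.1 x.2 f))
    (mul_lam G W p x.1 x.2 ρ) φ ψ
  refine Eq.trans h2 ?_
  exact sum_congr rfl (fun f _ => mul_comm _ _)

theorem LL_nonneg (G : SimpleGraph V) (W : Finset V) (p : V → C) (ρ : V → ℝ)
    (hρ : ∀ u, 0 < ρ u) (φ : (V → C) → ℝ) :
    0 ≤ ∑ f ∈ OmQ G W p, φ f * LL G W ρ φ f := by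
  rw [form_eq]
  apply mul_nonneg (by norm_num)
  apply sum_nonneg
  intro x _
  exact op_nonneg (FQ G W p x.1 x.2) (fun f => lam (mq G W) ρ (bq x.1 x.2 f))
    (mul_lam G W p x.1 x.2 ρ) (fun f _ S => lam_nonneg hρ _ _) φ

theorem LL_one (G : SimpleGraph V) (W : Finset V) (ρ : V → ℝ) (f : V → C) :
    LL G W ρ (fun _ => 1) f = 0 := by
  rw [LL_apply]
  have : LQ G W ρ (fun _ => (1 : ℝ)) f = 0 := by
    unfold LQ
    apply sum_eq_zero
    intro x _
    unfold oq cv
    rw [div_eq_zero_iff]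
    left
    apply sum_eq_zero
    intro S _
    by_cases hA : (adm (mq G W) (bq x.1 x.2 f) S).Nonempty
    · have h1 := sum_chi_fam (kf (mq G W) (bq x.1 x.2 f)) (empty_mem_kf _ _)
        (fun T hT T' hT' => symmDiff_mem_kf (mq_gm G W) hT hT') S ∅
      rw [if_neg] at h1
      · have h2 : ∑ T ∈ kf (mq G W) (bq x.1 x.2 f), chi S T * 1 = 0 := by
          rw [← h1]
          apply sum_congr rfl
          intro T _
          rw [chi_empty_left]
        rw [h2, mul_zero]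
      · intro h
        obtain ⟨T, hT⟩ := hA
        rw [mem_adm] at hT
        have h3 := h T hT.1
        rw [chi_empty_left] at h3
        have h4 := (chi_eq_neg_one_iff S T).mpr hT.2
        rw [h4] at h3
        norm_num at h3
    · rw [lam_of_not hA, zero_mul]
  rw [this, mul_zero]

theorem om_eq (G : SimpleGraph V) (W : Finset V) (p : V → C) :
    Kempe.Om G W p = OmQ G W p := by
  ext f
  simp [Kempe.Om, OmQ, Kempe.Proper]

/-- the variance of additive functions -/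
theorem sum_sq_le (core : Core V) (Δ : ℕ) (hq : Δ + 2 ≤ Fintype.card C) (G : SimpleGraph V)
    (hΔ : ∀ v, (univ.filter (fun u => G.Adj v u)).card ≤ Δ) (W : Finset V) (p : V → C)
    (h : V → C → ℝ) (t : ℝ) (tv : V → ℝ)
    (ht : ∑ f ∈ OmQ G W p, (∑ v ∈ Wᶜ, h v (f v) - t) = 0) :
    ∑ f ∈ OmQ G W p, (∑ v ∈ Wᶜ, h v (f v) - t) ^ 2 ≤
      ((Fintype.card C : ℝ) - 1) * ∑ v ∈ Wᶜ, ∑ f ∈ OmQ G W p, (h v (f v) - tv v) ^ 2 := by
  have hs2 : ∀ u, 2 ≤ sq C G u := by
    intro u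
    unfold sq
    have h1 := hΔ u
    have h2 : ((univ.filter (fun w => G.Adj u w)).card : ℝ) + 2 ≤ (Fintype.card C : ℝ) := by
      exact_mod_cast (by omega : (univ.filter (fun w => G.Adj u w)).card + 2 ≤ Fintype.card C)
    linarith
  have hs : ∀ u, 0 < sq C G u := fun u => lt_of_lt_of_le (by norm_num) (hs2 u)
  set G0 : (V → C) → ℝ := fun f => ∑ v ∈ Wᶜ, h v (f v) - t with hG0
  have hdisj : ∀ (g : (V → C) → ℝ) (a b c d : C), a ≠ c → a ≠ d → b ≠ c → b ≠ d →
      0 ≤ ∑ f ∈ OmQ G W p, Xq G W (sq C G) g a b f * Xq G W (sq C G) g c d f :=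
    fun g a b c d h1 h2 h3 h4 => disj_nonneg G W p (sq C G) hs g a b c d h1 h2 h3 h4
  have hsq : ∀ φ : (V → C) → ℝ, ∑ f ∈ OmQ G W p, φ f * LL G W (sq C G) φ f ≤
      ∑ f ∈ OmQ G W p, (LL G W (sq C G) φ f) ^ 2 := by
    intro φ
    simp only [LL_apply]
    by_cases hq3 : 3 ≤ Fintype.card C
    · exact sq_main_of hq3 G W p hs φ
        (fun a b c hab hac hbc => tri core G W p (sq C G) hs φ a b c hab hac hbc) (hdisj φ)
    · have hq2 : Fintype.card C = 2 := by omega
      have hΔ0 : Δ = 0 := by omega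
      have hG : ∀ u w, ¬ G.Adj u w := by
        intro u w huw
        have h1 := hΔ u
        rw [hΔ0, Nat.le_zero, card_eq_zero, filter_eq_empty_iff] at h1
        exact h1 (mem_univ w) huw
      exact sq_two hq2 G hG W p φ (hdisj φ)
  have hgap := gap_of_sq (OmQ G W p) (LL G W (sq C G)) (LL_symm G W p (sq C G))
    (LL_nonneg G W p (sq C G) hs) hsq
    (by
      intro φ hφ
      apply ker_const Δ hq G hΔ W p (sq C G) hs φ
      intro f hf
      have := hφ f hf
      rw [LL_apply] at this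
      linarith)
    (fun f _ => LL_one G W (sq C G) f) G0 ht
  refine le_trans hgap ?_
  rw [form_eq]
  have h1 : ∀ x ∈ prs C, ∑ f ∈ OmQ G W p,
      G0 f * oq (mq G W) x.1 x.2 (lam (mq G W) (sq C G)) G0 f ≤
      1 / 4 * ∑ f ∈ OmQ G W p, ∑ v : V,
        if (∃ T ∈ kf (mq G W) (bq x.1 x.2 f), v ∈ T) then
          (h v (Equiv.swap x.1 x.2 (f v)) - h v (f v)) ^ 2 else 0 := by
    intro x hx
    have hx' : x.1 ≠ x.2 := by
      unfold prs at hx
      rw [mem_filter] at hx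
      exact hx.2
    exact si_local G W p (sq C G) hs2 h t x.1 x.2 hx' G0 (fun f => rfl)
  calc 1 / 2 * ∑ x ∈ prs C, ∑ f ∈ OmQ G W p,
        G0 f * oq (mq G W) x.1 x.2 (lam (mq G W) (sq C G)) G0 f
      ≤ 1 / 2 * ∑ x ∈ prs C, 1 / 4 * ∑ f ∈ OmQ G W p, ∑ v : V,
        (if (∃ T ∈ kf (mq G W) (bq x.1 x.2 f), v ∈ T) then
          (h v (Equiv.swap x.1 x.2 (f v)) - h v (f v)) ^ 2 else 0) :=
        mul_le_mul_of_nonneg_left (sum_le_sum h1) (by norm_num)
    _ = ∑ v : V, (1 / 2 * ∑ x ∈ prs C, (1 / 4 * ∑ f ∈ OmQ G W p,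
        if (∃ T ∈ kf (mq G W) (bq x.1 x.2 f), v ∈ T) then
          (h v (Equiv.swap x.1 x.2 (f v)) - h v (f v)) ^ 2 else 0)) := by
        have hex : ∀ Φ : V → (C × C) → (V → C) → ℝ,
            1 / 2 * ∑ x ∈ prs C, 1 / 4 * ∑ f ∈ OmQ G W p, ∑ v : V, Φ v x f =
            ∑ v : V, (1 / 2 * ∑ x ∈ prs C, (1 / 4 * ∑ f ∈ OmQ G W p, Φ v x f)) := by
          intro Φ
          symm
          rw [← mul_sum]
          congr 1
          rw [sum_comm]
          apply sum_congr rfl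
          intro x _
          rw [← mul_sum]
          congr 1
          rw [sum_comm]
        exact hex _
    _ = ∑ v ∈ Wᶜ, (1 / 2 * ∑ x ∈ prs C, (1 / 4 * ∑ f ∈ OmQ G W p,
        if (∃ T ∈ kf (mq G W) (bq x.1 x.2 f), v ∈ T) then
          (h v (Equiv.swap x.1 x.2 (f v)) - h v (f v)) ^ 2 else 0)) := by
        symm
        apply sum_subset (subset_univ _)
        intro v _ hv
        rw [mem_compl, not_not] at hv
        rw [mul_eq_zero]
        right
        apply sum_eq_zero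
        intro x _
        rw [mul_eq_zero]
        right
        apply sum_eq_zero
        intro f _
        rw [if_neg]
        rintro ⟨T, hT, hvT⟩
        exact notMem_pin hT hvT hv
    _ ≤ ∑ v ∈ Wᶜ, ((Fintype.card C : ℝ) - 1) * ∑ f ∈ OmQ G W p, (h v (f v) - tv v) ^ 2 :=
        sum_le_sum (fun v _ => si_count G W p (h v) (tv v) v)
    _ = _ := by rw [← mul_sum]

/-- **Spectral independence** for all pinnings, from the three colour theorem. -/
theorem H_of_core (core : Core V) (Δ : ℕ) (hq : Δ + 2 ≤ Fintype.card C) (G : SimpleGraph V)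
    (hΔ : ∀ v, (univ.filter (fun u => G.Adj v u)).card ≤ Δ) (W : Finset V) (p : V → C)
    (h : V → C → ℝ) :
    KempeMix.vr (Kempe.Om G W p) (fun f => ∑ v ∈ Wᶜ, h v (f v)) ≤
      ((Fintype.card C - 1 : ℕ) : ℝ) * ∑ v ∈ Wᶜ,
        KempeMix.vr (Kempe.Om G W p) (fun f => h v (f v)) := by
  rw [om_eq]
  rcases (OmQ G W p).eq_empty_or_nonempty with hE | hE
  · rw [hE]
    unfold KempeMix.vr KempeMix.ev
    simp
  have hc : (0 : ℝ) < ((OmQ G W p).card : ℝ) := by exact_mod_cast hE.card_pos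
  have hcast : ((Fintype.card C - 1 : ℕ) : ℝ) = (Fintype.card C : ℝ) - 1 := by
    rw [Nat.cast_sub (by omega)]; simp
  rw [hcast]
  have key := sum_sq_le core Δ hq G hΔ W p h
    (KempeMix.ev (OmQ G W p) (fun f => ∑ v ∈ Wᶜ, h v (f v)))
    (fun v => KempeMix.ev (OmQ G W p) (fun f => h v (f v)))
    (by
      unfold KempeMix.ev
      rw [sum_sub_distrib, sum_const, nsmul_eq_mul, mul_div_cancel₀ _ hc.ne', sub_self])
  unfold KempeMix.vr
  have e1 : KempeMix.ev (OmQ G W p) (fun f => (∑ v ∈ Wᶜ, h v (f v) -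
      KempeMix.ev (OmQ G W p) (fun f => ∑ v ∈ Wᶜ, h v (f v))) ^ 2) =
      (∑ f ∈ OmQ G W p, (∑ v ∈ Wᶜ, h v (f v) -
        KempeMix.ev (OmQ G W p) (fun f => ∑ v ∈ Wᶜ, h v (f v))) ^ 2) /
        ((OmQ G W p).card : ℝ) := rfl
  have e2 : ∀ v, KempeMix.ev (OmQ G W p) (fun f => (h v (f v) -
      KempeMix.ev (OmQ G W p) (fun f => h v (f v))) ^ 2) =
      (∑ f ∈ OmQ G W p, (h v (f v) - KempeMix.ev (OmQ G W p) (fun f => h v (f v))) ^ 2) /
        ((OmQ G W p).card : ℝ) := fun v => rfl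
  simp only [e1, e2]
  rw [← sum_div, mul_div_assoc', div_le_div_iff_of_pos_right hc]
  exact key

end Pool.Agent.Nest
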