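import Pool.Agent.Lib.MP_26a019_lc.Nest.QFS

set_option autoImplicit false

/-!
# The three colour theorem on the sector of a triple of colours
-/

set_option linter.unusedSectionVars false

open Finset Classical

namespace Pool.Agent.Nest

variable {V : Type} [Fintype V] {C : Type} [Fintype C]

namespace Tri

/-- the three colours -/
noncomputable def e3 (a b c : C) (z : ZMod 3) : C := if z = 0 then a else if z = 1 then b else c

/-- the number of a colour -/
noncomputable def d3 (a b : C) (x : C) : ZMod 3 := if x = a then 0 else if x = b then 1 else 2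

theorem z3_cases (z : ZMod 3) : z = 0 ∨ z = 1 ∨ z = 2 := by
  revert z; decide

theorem z3_ne (x z : ZMod 3) : (x = z + 1 ∨ x = z + 2) ↔ x ≠ z := by
  revert x z; decide

theorem z3_a (z : ZMod 3) : -z - (z + 1) = z + 2 := by
  revert z; decide

theorem z3_b (z : ZMod 3) : -z - (z + 2) = z + 1 := by
  revert z; decide

theorem e3_0 (a b c : C) : e3 a b c 0 = a := by simp [e3]

theorem e3_1 (a b c : C) : e3 a b c 1 = b := by
  have h : ¬ ((1 : ZMod 3) = 0) := by decide
  simp [e3, h]

theorem e3_2 (a b c : C) : e3 a b c 2 = c := by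
  have h : ¬ ((2 : ZMod 3) = 0) := by decide
  have h' : ¬ ((2 : ZMod 3) = 1) := by decide
  simp [e3, h, h']

theorem e3_mem (a b c : C) (z : ZMod 3) : e3 a b c z = a ∨ e3 a b c z = b ∨ e3 a b c z = c := by
  rcases z3_cases z with h | h | h <;> subst h
  · exact Or.inl (e3_0 a b c)
  · exact Or.inr (Or.inl (e3_1 a b c))
  · exact Or.inr (Or.inr (e3_2 a b c))

theorem d3_e3 {a b c : C} (hab : a ≠ b) (hac : a ≠ c) (hbc : b ≠ c) (z : ZMod 3) :
    d3 a b (e3 a b c z) = z := by
  rcases z3_cases z with h | h | h <;> subst h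
  · rw [e3_0]; simp [d3]
  · rw [e3_1]; simp [d3, hab.symm]
  · rw [e3_2]; simp [d3, hac.symm, hbc.symm]

theorem e3_d3 {a b c x : C} (h : x = a ∨ x = b ∨ x = c) : e3 a b c (d3 a b x) = x := by
  unfold d3
  split_ifs with h1 h2
  · rw [e3_0, h1]
  · rw [e3_1, h2]
  · rw [e3_2]
    rcases h with h | h | h
    · exact absurd h h1
    · exact absurd h h2
    · exact h.symm

theorem e3_inj {a b c : C} (hab : a ≠ b) (hac : a ≠ c) (hbc : b ≠ c) {x y : ZMod 3} :
    e3 a b c x = e3 a b c y ↔ x = y := by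
  constructor
  · intro h
    have h2 := congrArg (d3 a b) h
    rwa [d3_e3 hab hac hbc, d3_e3 hab hac hbc] at h2
  · intro h
    rw [h]

theorem mem_aq {a b c : C} {f : V → C} {u : V} :
    u ∈ aq a b c f ↔ f u = a ∨ f u = b ∨ f u = c := by
  simp [aq]

/-- the colouring belonging to a state of the three colour instance -/
noncomputable def phi (a b c : C) (f0 : V → C) (h : V → ZMod 3) : V → C :=
  fun v => if v ∈ aq a b c f0 then e3 a b c (h v) else f0 v

/-- the state belonging to a colouring -/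
noncomputable def psi (a b c : C) (f0 : V → C) (f : V → C) : V → ZMod 3 :=
  fun v => if v ∈ aq a b c f0 then d3 a b (f v) else 0

theorem aq_phi (a b c : C) (f0 : V → C) (h : V → ZMod 3) :
    aq a b c (phi a b c f0 h) = aq a b c f0 := by
  ext u
  by_cases hu : u ∈ aq a b c f0
  · simp only [hu, iff_true]
    rw [mem_aq]
    simp only [phi, hu, if_true]
    exact e3_mem a b c (h u)
  · simp only [hu, iff_false]
    rw [mem_aq]
    simp only [phi, hu, if_false]
    rwa [mem_aq] at hu

theorem bz_eq {a b c : C} (hab : a ≠ b) (hac : a ≠ c) (hbc : b ≠ c) (f0 : V → C) (z : ZMod 3)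
    (h : V → ZMod 3) :
    bz (aq a b c f0) z h = bq (e3 a b c (z + 1)) (e3 a b c (z + 2)) (phi a b c f0 h) := by
  ext u
  rw [mem_bq, bz, mem_filter]
  by_cases hu : u ∈ aq a b c f0
  · simp only [phi, hu, if_true, true_and, e3_inj hab hac hbc]
    exact (z3_ne (h u) z).symm
  · simp only [phi, hu, if_false, false_and, false_iff]
    intro h2
    apply hu
    rw [mem_aq]
    rcases h2 with h2 | h2
    · rw [h2]; exact e3_mem a b c _
    · rw [h2]; exact e3_mem a b c _

theorem fz_eq {a b c : C} (f0 : V → C) (z : ZMod 3)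
    (h : V → ZMod 3) {T : Finset V} (hT : T ⊆ bz (aq a b c f0) z h) :
    phi a b c f0 (fz z T h) =
      fq (e3 a b c (z + 1)) (e3 a b c (z + 2)) T (phi a b c f0 h) := by
  funext u
  by_cases huT : u ∈ T
  · have h1 := hT huT
    rw [bz, mem_filter] at h1
    obtain ⟨hu, hz⟩ := h1
    simp only [phi, fz, fq, hu, huT, if_true]
    rcases (z3_ne (h u) z).2 hz with h2 | h2
    · rw [h2, z3_a, Equiv.swap_apply_left]
    · rw [h2, z3_b, Equiv.swap_apply_right]
  · simp only [phi, fz, fq, huT, if_false]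

/-- the function transported to the three colour instance -/
noncomputable def gp (G : SimpleGraph V) (W : Finset V) (p : V → C) (a b c : C) (f0 : V → C)
    (g : (V → C) → ℝ) (h : V → ZMod 3) : ℝ :=
  if phi a b c f0 h ∈ OmQ G W p then g (phi a b c f0 h) else 0

theorem cv_congr {K : Finset (Finset V)} {μ : Finset V → ℝ} {g g' : Finset V → ℝ}
    (h : ∀ T ∈ K, g T = g' T) : cv K μ g = cv K μ g' := by
  unfold cv
  congr 1
  refine sum_congr rfl fun S _ => ?_
  congr 1
  exact sum_congr rfl fun T hT => by rw [h T hT]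

theorem cv_zero {K : Finset (Finset V)} {μ : Finset V → ℝ} {g : Finset V → ℝ}
    (h : ∀ T ∈ K, g T = 0) : cv K μ g = 0 := by
  unfold cv
  rw [sum_eq_zero fun S _ => ?_, zero_div]
  rw [sum_eq_zero fun T hT => by rw [h T hT, mul_zero], mul_zero]

section

variable {a b c : C} (hab : a ≠ b) (hac : a ≠ c) (hbc : b ≠ c) (G : SimpleGraph V)
  (W : Finset V) (p : V → C) (f0 : V → C) (g : (V → C) → ℝ)

include hab hac hbc

theorem op_eq (z : ZMod 3) (μ : Finset V → Finset V → ℝ) {h : V → ZMod 3}
    (hh : phi a b c f0 h ∈ OmQ G W p) :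
    op (mq G W) (aq a b c f0) z μ (gp G W p a b c f0 g) h =
      oq (mq G W) (e3 a b c (z + 1)) (e3 a b c (z + 2)) μ g (phi a b c f0 h) := by
  unfold op oq
  rw [bz_eq hab hac hbc]
  refine cv_congr fun T hT => ?_
  have hsub : T ⊆ bz (aq a b c f0) z h := by
    rw [bz_eq hab hac hbc]
    exact (mem_kf.mp hT).1
  unfold gp
  rw [fz_eq f0 z h hsub, if_pos (fq_mem hh hT)]

theorem op_zero (z : ZMod 3) (μ : Finset V → Finset V → ℝ) {h : V → ZMod 3}
    (hh : phi a b c f0 h ∉ OmQ G W p) :
    op (mq G W) (aq a b c f0) z μ (gp G W p a b c f0 g) h = 0 := by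
  unfold op
  refine cv_zero fun T hT => ?_
  have hsub : T ⊆ bz (aq a b c f0) z h := (mem_kf.mp hT).1
  rw [bz_eq hab hac hbc] at hT
  unfold gp
  rw [fz_eq f0 z h hsub, if_neg]
  intro hcon
  apply hh
  have h1 : T ∈ kf (mq G W) (bq (e3 a b c (z + 1)) (e3 a b c (z + 2))
      (fq (e3 a b c (z + 1)) (e3 a b c (z + 2)) T (phi a b c f0 h))) := by
    rw [bq_fq]; exact hT
  have h2 := fq_mem hcon h1
  rw [fq_fq, symmDiff_self] at h2
  rwa [show (⊥ : Finset V) = ∅ from rfl, fq_empty] at h2

end

theorem oq_comm (m : V → V → ℕ) (c d : C) (μ : Finset V → Finset V → ℝ) (g : (V → C) → ℝ)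
    (f : V → C) : oq m c d μ g f = oq m d c μ g f := by
  unfold oq
  rw [bq_comm]
  exact cv_congr fun T _ => by rw [fq_comm]

/-- the instance -/
noncomputable def ins (G : SimpleGraph V) (W : Finset V) (a b c : C) (f0 : V → C) : Ins V :=
  ⟨aq a b c f0, adj G, pin W⟩

theorem ins_ok (G : SimpleGraph V) (W : Finset V) (a b c : C) (f0 : V → C) :
    (ins G W a b c f0).Ok where
  asym u w := by
    show adj G u w = adj G w u
    unfold adj; simp [G.adj_comm u w]
  bsym u w := by
    show pin W u w = pin W w u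
    unfold pin
    by_cases h : u = w
    · subst h; rfl
    · have h' : ¬ w = u := fun e => h e.symm
      simp [h, h']
  aloop u := by
    show adj G u u = 0
    simp [adj]
  bloop u := by
    show Even (pin W u u)
    unfold pin
    split_ifs
    · exact even_two
    · exact Even.zero

theorem ins_m (G : SimpleGraph V) (W : Finset V) (a b c : C) (f0 : V → C) :
    (ins G W a b c f0).m = mq G W := rfl

theorem aq_swap (a b c : C) (f : V → C) : aq a c b f = aq a b c f := by
  ext u; simp only [mem_aq]; tauto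

theorem aq_rot (a b c : C) (f : V → C) : aq b c a f = aq a b c f := by
  ext u; simp only [mem_aq]; tauto

theorem s_eq (G : SimpleGraph V) (W : Finset V) (a b c : C) (f0 : V → C) (h : V → ZMod 3) :
    (ins G W a b c f0).s = s3 G W a b c (phi a b c f0 h) := by
  funext u
  unfold Ins.s s3
  rw [aq_phi]
  rfl

theorem s3_swap (G : SimpleGraph V) (W : Finset V) (a b c : C) (f : V → C) :
    s3 G W a c b f = s3 G W a b c f := by
  funext u
  unfold s3
  rw [aq_swap]

theorem s3_rot (G : SimpleGraph V) (W : Finset V) (a b c : C) (f : V → C) :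
    s3 G W b c a f = s3 G W a b c f := by
  funext u
  unfold s3
  rw [aq_rot]

theorem sum_z3 (F : ZMod 3 → ℝ) : ∑ z, F z = F 0 + F 1 + F 2 := Fin.sum_univ_three F

/-- the local term -/
noncomputable def D (G : SimpleGraph V) (W : Finset V) (ρ : V → ℝ) (g : (V → C) → ℝ)
    (a b c : C) (f : V → C) : ℝ :=
  (Xq G W ρ g a b f + Xq G W ρ g a c f + Xq G W ρ g b c f) ^ 2 -
    1 / 2 * (g f * (Yq G W ρ g a b c f + Yq G W ρ g a c b f + Yq G W ρ g b c a f))

theorem term_eq {a b c : C} (hab : a ≠ b) (hac : a ≠ c) (hbc : b ≠ c) (G : SimpleGraph V)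
    (W : Finset V) (p : V → C) (f0 : V → C) (g : (V → C) → ℝ) (ρ : V → ℝ) {h : V → ZMod 3}
    (hh : phi a b c f0 h ∈ OmQ G W p) :
    ((∑ z, op (ins G W a b c f0).m (ins G W a b c f0).A z (lam (ins G W a b c f0).m ρ)
        (gp G W p a b c f0 g) h) ^ 2 -
      1 / 2 * ∑ z, gp G W p a b c f0 g h * op (ins G W a b c f0).m (ins G W a b c f0).A z
        (cst (ins G W a b c f0).m ρ (ins G W a b c f0).s) (gp G W p a b c f0 g) h) =
      D G W ρ g a b c (phi a b c f0 h) := by
  have key : ∀ (z : ZMod 3) (μ : Finset V → Finset V → ℝ),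
      op (ins G W a b c f0).m (ins G W a b c f0).A z μ (gp G W p a b c f0 g) h =
      oq (mq G W) (e3 a b c (z + 1)) (e3 a b c (z + 2)) μ g (phi a b c f0 h) :=
    fun z μ => op_eq hab hac hbc G W p f0 g z μ hh
  have i01 : (0 : ZMod 3) + 1 = 1 := by decide
  have i02 : (0 : ZMod 3) + 2 = 2 := by decide
  have i11 : (1 : ZMod 3) + 1 = 2 := by decide
  have i12 : (1 : ZMod 3) + 2 = 0 := by decide
  have i21 : (2 : ZMod 3) + 1 = 0 := by decide
  have i22 : (2 : ZMod 3) + 2 = 1 := by decide
  have hg : gp G W p a b c f0 g h = g (phi a b c f0 h) := by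
    unfold gp; rw [if_pos hh]
  rw [sum_z3, sum_z3]
  simp only [key]
  rw [i01, i02, i11, i12, i21, i22, e3_0, e3_1, e3_2, hg, s_eq G W a b c f0 h, ins_m]
  unfold D
  have x1 : Xq G W ρ g a b (phi a b c f0 h) =
      oq (mq G W) a b (lam (mq G W) ρ) g (phi a b c f0 h) := by
    unfold Xq; rw [if_neg hab]
  have x2 : Xq G W ρ g a c (phi a b c f0 h) =
      oq (mq G W) c a (lam (mq G W) ρ) g (phi a b c f0 h) := by
    unfold Xq; rw [if_neg hac, oq_comm]
  have x3 : Xq G W ρ g b c (phi a b c f0 h) =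
      oq (mq G W) b c (lam (mq G W) ρ) g (phi a b c f0 h) := by
    unfold Xq; rw [if_neg hbc]
  have y1 : Yq G W ρ g a b c (phi a b c f0 h) =
      oq (mq G W) a b (cst (mq G W) ρ (s3 G W a b c (phi a b c f0 h))) g
        (phi a b c f0 h) := rfl
  have y2 : Yq G W ρ g a c b (phi a b c f0 h) =
      oq (mq G W) c a (cst (mq G W) ρ (s3 G W a b c (phi a b c f0 h))) g
        (phi a b c f0 h) := by
    rw [oq_comm, ← s3_swap]
    rfl
  have y3 : Yq G W ρ g b c a (phi a b c f0 h) =
      oq (mq G W) b c (cst (mq G W) ρ (s3 G W a b c (phi a b c f0 h))) g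
        (phi a b c f0 h) := by
    rw [← s3_rot]
    rfl
  rw [x1, x2, x3, y1, y2, y3]
  ring

theorem term_zero {a b c : C} (hab : a ≠ b) (hac : a ≠ c) (hbc : b ≠ c) (G : SimpleGraph V)
    (W : Finset V) (p : V → C) (f0 : V → C) (g : (V → C) → ℝ) (ρ : V → ℝ) {h : V → ZMod 3}
    (hh : phi a b c f0 h ∉ OmQ G W p) :
    ((∑ z, op (ins G W a b c f0).m (ins G W a b c f0).A z (lam (ins G W a b c f0).m ρ)
        (gp G W p a b c f0 g) h) ^ 2 -
      1 / 2 * ∑ z, gp G W p a b c f0 g h * op (ins G W a b c f0).m (ins G W a b c f0).A z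
        (cst (ins G W a b c f0).m ρ (ins G W a b c f0).s) (gp G W p a b c f0 g) h) = 0 := by
  have key : ∀ (z : ZMod 3) (μ : Finset V → Finset V → ℝ),
      op (ins G W a b c f0).m (ins G W a b c f0).A z μ (gp G W p a b c f0 g) h = 0 :=
    fun z μ => op_zero hab hac hbc G W p f0 g z μ hh
  simp only [key]
  simp

/-- the key of a colouring: its restriction to the other colours -/
noncomputable def ky (a b c : C) (f : V → C) : V → Option C :=
  fun v => if f v = a ∨ f v = b ∨ f v = c then none else some (f v)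

theorem ky_aq {a b c : C} {f f0 : V → C} (h : ky a b c f = ky a b c f0) :
    aq a b c f = aq a b c f0 := by
  ext u
  have hu := congrFun h u
  unfold ky at hu
  rw [mem_aq, mem_aq]
  by_cases h1 : f u = a ∨ f u = b ∨ f u = c <;>
    by_cases h2 : f0 u = a ∨ f0 u = b ∨ f0 u = c
  · simp only [h1, h2]
  · simp only [h1, h2, if_true, if_false] at hu
    exact absurd hu (by simp)
  · simp only [h1, h2, if_true, if_false] at hu
    exact absurd hu (by simp)
  · simp only [h1, h2]

theorem ky_off {a b c : C} {f f0 : V → C} (h : ky a b c f = ky a b c f0) {u : V}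
    (hu : u ∉ aq a b c f0) : f u = f0 u := by
  have h0 : u ∉ aq a b c f := by rw [ky_aq h]; exact hu
  have hk := congrFun h u
  unfold ky at hk
  rw [mem_aq] at hu h0
  rw [if_neg hu, if_neg h0] at hk
  exact Option.some_injective _ hk

theorem ky_phi (a b c : C) (f0 : V → C) (h : V → ZMod 3) :
    ky a b c (phi a b c f0 h) = ky a b c f0 := by
  funext u
  unfold ky
  by_cases hu : u ∈ aq a b c f0
  · have h1 : u ∈ aq a b c (phi a b c f0 h) := by rw [aq_phi]; exact hu
    rw [mem_aq] at hu h1
    rw [if_pos hu, if_pos h1]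
  · have h1 : u ∉ aq a b c (phi a b c f0 h) := by rw [aq_phi]; exact hu
    have h2 : phi a b c f0 h u = f0 u := by unfold phi; rw [if_neg hu]
    rw [mem_aq] at hu h1
    rw [if_neg hu, if_neg h1, h2]

theorem phi_psi {a b c : C} {f f0 : V → C} (h : ky a b c f = ky a b c f0) :
    phi a b c f0 (psi a b c f0 f) = f := by
  funext u
  unfold phi psi
  by_cases hu : u ∈ aq a b c f0
  · simp only [hu, if_true]
    rw [← ky_aq h, mem_aq] at hu
    exact e3_d3 hu
  · simp only [hu, if_false]
    exact (ky_off h hu).symm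

theorem psi_phi {a b c : C} (hab : a ≠ b) (hac : a ≠ c) (hbc : b ≠ c) {f0 : V → C}
    {h : V → ZMod 3} (hh : ∀ u, u ∉ aq a b c f0 → h u = 0) :
    psi a b c f0 (phi a b c f0 h) = h := by
  funext u
  unfold phi psi
  by_cases hu : u ∈ aq a b c f0
  · simp only [hu, if_true]
    exact d3_e3 hab hac hbc _
  · simp only [hu, if_false]
    exact (hh u hu).symm

theorem psi_mem {a b c : C} {G : SimpleGraph V} {W : Finset V} {p : V → C} {f f0 : V → C}
    (h : ky a b c f = ky a b c f0) (hf : f ∈ OmQ G W p) :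
    psi a b c f0 f ∈ (ins G W a b c f0).Om := by
  unfold Ins.Om
  rw [mem_filter]
  refine ⟨mem_univ _, ?_, ?_⟩
  · intro u hu
    have hu' : u ∉ aq a b c f0 := hu
    unfold psi
    rw [if_neg hu']
  · intro u hu w hw
    have hu' : u ∈ aq a b c f0 := hu
    have hw' : w ∈ aq a b c f0 := hw
    refine ⟨fun h1 => ?_, fun h1 => ?_⟩
    · have hadj : G.Adj u w := by
        by_contra hcon
        apply h1
        show adj G u w = 0
        unfold adj
        rw [if_neg hcon]
      unfold psi
      rw [if_pos hu', if_pos hw']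
      intro heq
      rw [← ky_aq h, mem_aq] at hu' hw'
      have h2 : f u = f w := by
        rw [← e3_d3 hu', ← e3_d3 hw', heq]
      unfold OmQ at hf
      rw [mem_filter] at hf
      exact hf.2.1 u w hadj h2
    · have huw : u = w := by
        by_contra hcon
        apply h1
        show pin W u w = 0
        unfold pin
        rw [if_neg (fun h2 => hcon h2.1)]
      rw [huw]

end Tri

open Tri in
/-- The three colour theorem on the sector of the colours `a`, `b`, `c`. -/
theorem tri (core : Core V) (G : SimpleGraph V) (W : Finset V) (p : V → C) (ρ : V → ℝ)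
    (hρ : ∀ u, 0 < ρ u) (g : (V → C) → ℝ) (a b c : C) (hab : a ≠ b) (hac : a ≠ c) (hbc : b ≠ c) :
    1 / 2 * ∑ f ∈ OmQ G W p,
        g f * (Yq G W ρ g a b c f + Yq G W ρ g a c b f + Yq G W ρ g b c a f) ≤
      ∑ f ∈ OmQ G W p, (Xq G W ρ g a b f + Xq G W ρ g a c f + Xq G W ρ g b c f) ^ 2 := by
  have hmain : 0 ≤ ∑ f ∈ OmQ G W p, D G W ρ g a b c f := by
    rw [← sum_fiberwise (OmQ G W p) (ky a b c) (D G W ρ g a b c)]
    refine sum_nonneg fun k _ => ?_
    rcases ((OmQ G W p).filter fun f => ky a b c f = k).eq_empty_or_nonempty with h0 | ⟨f0, hf0⟩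
    · rw [h0, sum_empty]
    · rw [mem_filter] at hf0
      obtain ⟨-, rfl⟩ := hf0
      have h1 := core (ins G W a b c f0) (ins_ok G W a b c f0) ρ hρ (gp G W p a b c f0 g)
      have h2 : Q3 (ins G W a b c f0) ρ (gp G W p a b c f0 g) =
          ∑ f ∈ (OmQ G W p).filter (fun f => ky a b c f = ky a b c f0), D G W ρ g a b c f := by
        unfold Q3
        rw [← sum_filter_add_sum_filter_not (ins G W a b c f0).Om
          (fun h => phi a b c f0 h ∈ OmQ G W p)]
        rw [sum_congr rfl (g := fun h => D G W ρ g a b c (phi a b c f0 h)) (fun h hh =>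
          term_eq hab hac hbc G W p f0 g ρ (mem_filter.mp hh).2),
          sum_eq_zero (s := (ins G W a b c f0).Om.filter (fun h => ¬ phi a b c f0 h ∈ OmQ G W p))
            (fun h hh => term_zero hab hac hbc G W p f0 g ρ (mem_filter.mp hh).2), add_zero]
        refine sum_nbij' (phi a b c f0) (psi a b c f0) ?_ ?_ ?_ ?_ ?_
        · intro h hh
          rw [mem_filter] at hh ⊢
          exact ⟨hh.2, ky_phi a b c f0 h⟩
        · intro f hf
          rw [mem_filter] at hf ⊢
          refine ⟨psi_mem hf.2 hf.1, ?_⟩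
          rw [phi_psi hf.2]
          exact hf.1
        · intro h hh
          rw [mem_filter] at hh
          refine psi_phi hab hac hbc fun u hu => ?_
          have h3 := hh.1
          unfold Ins.Om at h3
          rw [mem_filter] at h3
          exact h3.2.1 u hu
        · intro f hf
          rw [mem_filter] at hf
          exact phi_psi hf.2
        · intro h _
          rfl
      rw [← h2]
      exact h1
  have hexp : ∑ f ∈ OmQ G W p, D G W ρ g a b c f =
      ∑ f ∈ OmQ G W p, (Xq G W ρ g a b f + Xq G W ρ g a c f + Xq G W ρ g b c f) ^ 2 -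
      1 / 2 * ∑ f ∈ OmQ G W p,
        g f * (Yq G W ρ g a b c f + Yq G W ρ g a c b f + Yq G W ρ g b c a f) := by
    unfold D
    rw [sum_sub_distrib, mul_sum]
  linarith

end Pool.Agent.Nest
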