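import Pool.Agent.Lib.MP_26a019_lc.Nest.RayF

set_option autoImplicit false

/-!
# The ray argument without genericity

The end point of the ray is made generic by perturbing the slack `s`, not the resistance `ρ`: the
slack is lowered by `ε` at all vertices different from `v`.
-/

open Finset Classical

namespace Pool.Agent.Nest

open RayF

variable {V : Type} [Fintype V] {X Z : Type}

/-- `κ` is a choice of minimisers of the resistance `ρ` for the family `F` of flip systems. -/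
structure ArgMin (F : Z → FS V X) (Om : Finset X) (ρ : V → ℝ)
    (κ : Z → X → Finset V → Finset V) : Prop where
  mem : ∀ z, ∀ f ∈ Om, ∀ S, (∃ T ∈ (F z).K f, Odd (S ∩ T).card) →
      κ z f S ∈ (F z).K f ∧ Odd (S ∩ κ z f S).card ∧
        ∀ T ∈ (F z).K f, Odd (S ∩ T).card → ∑ u ∈ κ z f S, ρ u ≤ ∑ u ∈ T, ρ u
  none : ∀ z, ∀ f ∈ Om, ∀ S, (¬ ∃ T ∈ (F z).K f, Odd (S ∩ T).card) → κ z f S = ∅
  inv : ∀ z, ∀ f ∈ Om, ∀ T ∈ (F z).K f, ∀ S, κ z ((F z).fl T f) S = κ z f S

/-- The inequality at a point `ρs` of the face `ρs v = 0`, for the choice `κs`. -/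
def FaceIneq [Fintype Z] (F : Z → FS V X) (Om : Finset X) (s ρs : V → ℝ) (v : V)
    (κs : Z → X → Finset V → Finset V) : Prop :=
  ∀ h η : X → ℝ,
    (∀ z, ∀ f ∈ Om, {v} ∈ (F z).K f → h ((F z).fl {v} f) = h f) →
    (∀ w : X → ℝ, (∀ z, ∀ f ∈ Om, {v} ∈ (F z).K f → w ((F z).fl {v} f) = w f) →
      ∑ f ∈ Om, η f * w f = 0) →
    ∃ θ : Z → X → ℝ, (∀ z, ∀ f ∈ Om, {v} ∉ (F z).K f → θ z f = 0) ∧
      (∀ z, ∀ f ∈ Om, {v} ∈ (F z).K f → θ z ((F z).fl {v} f) = - θ z f) ∧
      (∀ f ∈ Om, ∑ z, θ z f = η f) ∧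
      1 / 2 * ∑ f ∈ Om, ∑ z, (h f * (F z).op (fun f S =>
          (∑ u ∈ κs z f S, s u) * (2 / ∑ u ∈ κs z f S, ρs u) ^ 2) h f + s v * θ z f ^ 2) ≤
        ∑ f ∈ Om, (∑ z, (F z).op (fun f S => 2 / ∑ u ∈ κs z f S, ρs u) h f + η f) ^ 2

/-- the slack form for the slack `t` and the choice `κ` -/
noncomputable def slackForm [Fintype Z] (F : Z → FS V X) (Om : Finset X) (ρ t : V → ℝ)
    (κ : Z → X → Finset V → Finset V) (g : X → ℝ) : ℝ :=
  ∑ f ∈ Om, ∑ z, g f * (F z).op (fun f S =>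
    (∑ u ∈ κ z f S, t u) * (2 / ∑ u ∈ κ z f S, ρ u) ^ 2) g f

theorem slackForm_eq [Fintype Z] (F : Z → FS V X) (Om : Finset X) (hOm : ∀ z, (F z).Om = Om)
    (ρ t : V → ℝ) (κ : Z → X → Finset V → Finset V)
    (hκ : ∀ z, ∀ f ∈ Om, ∀ T ∈ (F z).K f, ∀ S, κ z ((F z).fl T f) S = κ z f S) (g : X → ℝ) :
    slackForm F Om ρ t κ g = ∑ z, ∑ S : Finset V, ∑ f ∈ Om,
      nu (F z) f * (((∑ u ∈ κ z f S, t u) * (2 / ∑ u ∈ κ z f S, ρ u) ^ 2)
        * (tr (F z) S g f) ^ 2) := by
  unfold slackForm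
  rw [sum_comm]
  refine sum_congr rfl fun z _ => ?_
  have h := sum_op (F z) (fun f S => (∑ u ∈ κ z f S, t u) * (2 / ∑ u ∈ κ z f S, ρ u) ^ 2)
    (by
      intro f hf T hT S
      rw [hκ z f (by rw [← hOm z]; exact hf) T hT S]) g
  rw [hOm z] at h
  exact h

theorem slackForm_mono [Fintype Z] (F : Z → FS V X) (Om : Finset X) (hOm : ∀ z, (F z).Om = Om)
    (ρ t t' : V → ℝ) (κ : Z → X → Finset V → Finset V)
    (hκ : ∀ z, ∀ f ∈ Om, ∀ T ∈ (F z).K f, ∀ S, κ z ((F z).fl T f) S = κ z f S)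
    (ht : ∀ z, ∀ f ∈ Om, ∀ S, ∀ u ∈ κ z f S, t u ≤ t' u) (g : X → ℝ) :
    slackForm F Om ρ t κ g ≤ slackForm F Om ρ t' κ g := by
  rw [slackForm_eq F Om hOm ρ t κ hκ, slackForm_eq F Om hOm ρ t' κ hκ]
  refine sum_le_sum fun z _ => sum_le_sum fun S _ => sum_le_sum fun f hf => ?_
  have h0 : 0 < nu (F z) f := nu_pos (F z) (by rw [hOm z]; exact hf)
  refine mul_le_mul_of_nonneg_left ?_ h0.le
  refine mul_le_mul_of_nonneg_right ?_ (sq_nonneg _)
  refine mul_le_mul_of_nonneg_right ?_ (sq_nonneg _)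
  exact sum_le_sum fun u hu => ht z f hf S u hu

/-- the slack form is linear in the slack -/
theorem slackForm_sub [Fintype Z] (F : Z → FS V X) (Om : Finset X) (hOm : ∀ z, (F z).Om = Om)
    (ρ t t' : V → ℝ) (ε : ℝ) (κ : Z → X → Finset V → Finset V)
    (hκ : ∀ z, ∀ f ∈ Om, ∀ T ∈ (F z).K f, ∀ S, κ z ((F z).fl T f) S = κ z f S) (g : X → ℝ) :
    slackForm F Om ρ (fun u => t u - ε * t' u) κ g =
      slackForm F Om ρ t κ g - ε * slackForm F Om ρ t' κ g := by
  rw [slackForm_eq F Om hOm ρ t κ hκ, slackForm_eq F Om hOm ρ t' κ hκ,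
    slackForm_eq F Om hOm ρ _ κ hκ, mul_sum, ← sum_sub_distrib]
  refine sum_congr rfl fun z _ => ?_
  rw [mul_sum, ← sum_sub_distrib]
  refine sum_congr rfl fun S _ => ?_
  rw [mul_sum, ← sum_sub_distrib]
  refine sum_congr rfl fun f _ => ?_
  rw [sum_sub_distrib, ← mul_sum]
  ring

/-- **The ray argument.** If the face inequality holds at all points where exactly one resistance
vanishes, at a vertex of positive slack, then the inequality holds for all positive resistances and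
all choices of minimisers. -/
theorem ray_all [Fintype X] [Fintype Z] (F : Z → FS V X) (Om : Finset X)
    (hOm : ∀ z, (F z).Om = Om) (A : Finset V)
    (hA : ∀ z, ∀ f ∈ Om, ∀ T ∈ (F z).K f, T ⊆ A) (s : V → ℝ)
    (face : ∀ v ∈ A, 0 < s v → ∀ ρs : V → ℝ, ρs v = 0 → (∀ u ∈ A, u ≠ v → 0 < ρs u) →
      ∃ κs, ArgMin F Om ρs κs ∧ FaceIneq F Om s ρs v κs)
    (ρ : V → ℝ) (hρ : ∀ u ∈ A, 0 < ρ u) (κ : Z → X → Finset V → Finset V)
    (hκ : ArgMin F Om ρ κ) (g : X → ℝ) :
    1 / 2 * slackForm F Om ρ s κ g ≤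
      ∑ f ∈ Om, (∑ z, (F z).op (fun f S => 2 / ∑ u ∈ κ z f S, ρ u) g f) ^ 2 := by
  have hκA : ∀ z, ∀ f ∈ Om, ∀ S, κ z f S ⊆ A := by
    intro z f hf S
    by_cases h : ∃ T ∈ (F z).K f, Odd (S ∩ T).card
    · exact hA z f hf _ (hκ.mem z f hf S h).1
    · rw [hκ.none z f hf S h]
      exact empty_subset _
  by_cases hs : ∃ u ∈ A, 0 < s u
  · -- the vertex which reaches zero first
    obtain ⟨v, hv, hmax⟩ := exists_max_image (A.filter (fun u => 0 < s u)) (fun u => s u / ρ u)
      (by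
        obtain ⟨u, hu, h⟩ := hs
        exact ⟨u, mem_filter.mpr ⟨hu, h⟩⟩)
    rw [mem_filter] at hv
    obtain ⟨hvA, hsv⟩ := hv
    have hρv := hρ v hvA
    set τ : ℝ := ρ v / s v with hτd
    have hτ : 0 < τ := div_pos hρv hsv
    have hτs : τ * s v = ρ v := by rw [hτd]; field_simp
    set o : V → ℝ := fun u => if u = v then 0 else 1 with ho
    -- the perturbed inequality
    have key : ∀ ε : ℝ, 0 < ε → 1 / 2 * slackForm F Om ρ (fun u => s u - ε * o u) κ g ≤
        ∑ f ∈ Om, (∑ z, (F z).op (fun f S => 2 / ∑ u ∈ κ z f S, ρ u) g f) ^ 2 := by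
      intro ε hε
      set s' : V → ℝ := fun u => s u - ε * o u with hs'
      have hs'v : s' v = s v := by simp [hs', ho]
      have hs'le : ∀ u, s' u ≤ s u := by
        intro u
        simp only [hs', ho]
        split_ifs <;> linarith
      set ρs : V → ℝ := fun u => ρ u - τ * s' u with hρs
      have hρsv : ρs v = 0 := by
        simp only [hρs]
        rw [hs'v, hτs, sub_self]
      have hρspos : ∀ u ∈ A, u ≠ v → 0 < ρs u := by
        intro u hu huv
        have h1 : s' u = s u - ε := by simp [hs', ho, huv]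
        simp only [hρs]
        rw [h1]
        have h2 : 0 < τ * ε := mul_pos hτ hε
        by_cases h3 : 0 < s u
        · have h4 := hmax u (mem_filter.mpr ⟨hu, h3⟩)
          have h5 := hρ u hu
          have h6 : s u * ρ v ≤ s v * ρ u := by
            rw [div_le_div_iff₀ h5 hρv] at h4
            exact h4
          have h7 : τ * s u ≤ ρ u := by
            rw [hτd, div_mul_eq_mul_div, div_le_iff₀ hsv]
            linarith
          nlinarith
        · have h5 := hρ u hu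
          have h7 : τ * s u ≤ 0 := mul_nonpos_of_nonneg_of_nonpos hτ.le (not_lt.mp h3)
          nlinarith
      obtain ⟨κs, hκs, hface⟩ := face v hvA hsv ρs hρsv hρspos
      have hsum : ∀ T : Finset V, T ⊆ A → T ≠ ∅ → 0 < ∑ u ∈ T, ρ u := by
        intro T hT hne
        exact sum_pos (fun u hu => hρ u (hT hu)) (nonempty_iff_ne_empty.mpr hne)
      have hsums : ∀ T : Finset V, T ⊆ A → T ≠ ∅ → T ≠ {v} → 0 < ∑ u ∈ T, ρs u := by
        intro T hT hne hnv
        have h1 : ∃ u ∈ T, u ≠ v := by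
          by_contra hcon
          push Not at hcon
          apply hnv
          rw [eq_singleton_iff_nonempty_unique_mem]
          exact ⟨nonempty_iff_ne_empty.mpr hne, hcon⟩
        obtain ⟨u, hu, huv⟩ := h1
        refine sum_pos' (fun w hw => ?_) ⟨u, hu, hρspos u (hT hu) huv⟩
        by_cases hwv : w = v
        · rw [hwv, hρsv]
        · exact (hρspos w (hT hw) hwv).le
      have main := ray_v F Om hOm ρ ρs s' τ hτ (by intro u; simp only [hρs]; ring) v hρsv
        (fun z f hf T hT hne => hsum T (hA z f hf T hT) hne)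
        (fun z f hf T hT hne hnv => hsums T (hA z f hf T hT) hne hnv)
        κ κs hκ.mem hκ.none hκ.inv hκs.mem hκs.none hκs.inv
        (by
          intro h η h1 h2
          obtain ⟨θ, t1, t2, t3, t4⟩ := hface h η h1 h2
          refine ⟨θ, t1, t2, t3, le_trans ?_ t4⟩
          have hm := slackForm_mono F Om hOm ρs s' s κs hκs.inv (fun z f hf S u _ => hs'le u) h
          unfold slackForm at hm
          simp only [sum_add_distrib]
          rw [hs'v]
          linarith)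
        g
      exact main
    -- let `ε` tend to zero
    have hlin : ∀ ε : ℝ, slackForm F Om ρ (fun u => s u - ε * o u) κ g =
        slackForm F Om ρ s κ g - ε * slackForm F Om ρ o κ g :=
      fun ε => slackForm_sub F Om hOm ρ s o ε κ hκ.inv g
    by_contra hcon
    push Not at hcon
    set R := ∑ f ∈ Om, (∑ z, (F z).op (fun f S => 2 / ∑ u ∈ κ z f S, ρ u) g f) ^ 2 with hR
    set M := slackForm F Om ρ s κ g with hM
    set c := slackForm F Om ρ o κ g with hc
    have hd : 0 < 1 / 2 * M - R := by linarith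
    set ε := (1 / 2 * M - R) / (|c| + 1) with hεd
    have hc1 : 0 < |c| + 1 := by positivity
    have hε : 0 < ε := div_pos hd hc1
    have h1 := key ε hε
    rw [hlin ε] at h1
    have h2 : ε * (|c| + 1) = 1 / 2 * M - R := by
      rw [hεd]; field_simp
    have h3 : ε * c ≤ ε * |c| := mul_le_mul_of_nonneg_left (le_abs_self c) hε.le
    nlinarith
  · -- no vertex of positive slack
    push Not at hs
    have h1 : slackForm F Om ρ s κ g ≤ slackForm F Om ρ (fun _ => 0) κ g :=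
      slackForm_mono F Om hOm ρ s (fun _ => 0) κ hκ.inv
        (fun z f hf S u hu => hs u (hκA z f hf S hu)) g
    have h2 : slackForm F Om ρ (fun _ => 0) κ g = 0 := by
      rw [slackForm_eq F Om hOm ρ _ κ hκ.inv]
      refine sum_eq_zero fun z _ => sum_eq_zero fun S _ => sum_eq_zero fun f _ => ?_
      simp
    have h3 : 0 ≤ ∑ f ∈ Om, (∑ z, (F z).op (fun f S => 2 / ∑ u ∈ κ z f S, ρ u) g f) ^ 2 :=
      sum_nonneg fun f _ => sq_nonneg _
    linarith

end Pool.Agent.Nest
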