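import Pool.Agent.Lib.MP_26a019_lc.Nest.FSys
import Pool.Agent.Lib.MP_26a019_lc.Nest.Link

set_option autoImplicit false

/-!
# The flip systems of a three colour instance
-/

open Finset Classical

namespace Pool.Agent.Nest

variable {V : Type} [Fintype V]

theorem bz_sub (A : Finset V) (z : ZMod 3) (f : V → ZMod 3) : bz A z f ⊆ A :=
  filter_subset _ _

/-- flips inside the bichromatic set do not change the bichromatic set -/
theorem bz_fz {A : Finset V} {z : ZMod 3} {f : V → ZMod 3} {T : Finset V} (hT : T ⊆ bz A z f) :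
    bz A z (fz z T f) = bz A z f := by
  have hc : ∀ c d : ZMod 3, (- c - d ≠ c ↔ d ≠ c) := by decide
  unfold bz
  ext u
  rw [mem_filter, mem_filter]
  refine and_congr_right fun _ => ?_
  unfold fz
  split_ifs
  · exact hc z (f u)
  · exact Iff.rfl

theorem fz_fz (z : ZMod 3) (T T' : Finset V) (f : V → ZMod 3) :
    fz z T' (fz z T f) = fz z (symmDiff T T') f := by
  funext u
  unfold fz
  by_cases h1 : u ∈ T <;> by_cases h2 : u ∈ T' <;> simp [h1, h2, mem_symmDiff]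

theorem fz_empty (z : ZMod 3) (f : V → ZMod 3) : fz z ∅ f = f := by
  funext u
  simp [fz]

theorem mem_Om3 {I : Ins V} {f : V → ZMod 3} : f ∈ I.Om ↔ (∀ u, u ∉ I.A → f u = 0) ∧
    ∀ u ∈ I.A, ∀ w ∈ I.A, (I.a u w ≠ 0 → f u ≠ f w) ∧ (I.b u w ≠ 0 → f u = f w) := by
  unfold Ins.Om
  rw [mem_filter]
  simp only [mem_univ, true_and]

theorem fz_mem_Om {I : Ins V} (hI : I.Ok) {z : ZMod 3} {f : V → ZMod 3} (hf : f ∈ I.Om)
    {T : Finset V} (hT : T ∈ kf I.m (bz I.A z f)) : fz z T f ∈ I.Om := by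
  have hc : ∀ c d : ZMod 3, (- c - d ≠ c ↔ d ≠ c) := by decide
  rw [mem_Om3] at hf ⊢
  obtain ⟨hf0, hf1⟩ := hf
  have hTB : ∀ u ∈ T, u ∈ I.A ∧ f u ≠ z := fun u hu => by
    have := kf_sub hT hu
    unfold bz at this
    rwa [mem_filter] at this
  have key : ∀ u ∈ I.A, ∀ w ∈ I.A, u ∈ T → w ∉ T → I.m u w ≠ 0 → f w = z := by
    intro u _ w hw huT hwT hm
    by_contra hwz
    exact hwT (kf_adj hT huT (mem_filter.2 ⟨hw, hwz⟩) hm)
  have hma : ∀ u w, I.a u w ≠ 0 → I.m u w ≠ 0 := fun u w h h' => by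
    unfold Ins.m at h'
    omega
  have hmb : ∀ u w, I.b u w ≠ 0 → I.m u w ≠ 0 := fun u w h h' => by
    unfold Ins.m at h'
    omega
  refine ⟨fun u hu => ?_, fun u hu w hw => ⟨fun ha => ?_, fun hb => ?_⟩⟩
  · unfold fz
    rw [if_neg (fun h => hu (hTB u h).1)]
    exact hf0 u hu
  · have h0 := (hf1 u hu w hw).1 ha
    have ha' : I.a w u ≠ 0 := by rw [hI.asym]; exact ha
    unfold fz
    by_cases h1 : u ∈ T <;> by_cases h2 : w ∈ T
    · rw [if_pos h1, if_pos h2]
      intro h3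
      exact h0 (sub_right_injective h3)
    · rw [if_pos h1, if_neg h2, key u hu w hw h1 h2 (hma u w ha)]
      exact (hc z (f u)).2 (hTB u h1).2
    · rw [if_neg h1, if_pos h2, key w hw u hu h2 h1 (hma w u ha')]
      exact ((hc z (f w)).2 (hTB w h2).2).symm
    · rw [if_neg h1, if_neg h2]
      exact h0
  · have h0 := (hf1 u hu w hw).2 hb
    have hb' : I.b w u ≠ 0 := by rw [hI.bsym]; exact hb
    unfold fz
    by_cases h1 : u ∈ T <;> by_cases h2 : w ∈ T
    · rw [if_pos h1, if_pos h2, h0]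
    · exact absurd (h0.trans (key u hu w hw h1 h2 (hmb u w hb))) (hTB u h1).2
    · exact absurd (h0.symm.trans (key w hw u hu h2 h1 (hmb w u hb'))) (hTB w h2).2
    · rw [if_neg h1, if_neg h2]
      exact h0

/-- the flip system of an instance for the pair of colours different from `z` -/
noncomputable def sys (I : Ins V) (hI : I.Ok) (z : ZMod 3) : FS V (V → ZMod 3) where
  Om := I.Om
  K := fun f => kf I.m (bz I.A z f)
  fl := fun T f => fz z T f
  emp := fun _ _ => empty_mem_kf _ _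
  sd := fun _ _ _ hT _ hT' => symmDiff_mem_kf hI.gm hT hT'
  fl_mem := fun _ hf _ hT => fz_mem_Om hI hf hT
  K_fl := fun _ _ _ hT => by
    show kf I.m (bz I.A z (fz z _ _)) = _
    rw [bz_fz (mem_kf.1 hT).1]
  fl_fl := fun f _ T _ T' _ => fz_fz z T T' f
  fl_emp := fun f _ => fz_empty z f

theorem op_eq (I : Ins V) (hI : I.Ok) (z : ZMod 3) (μ : Finset V → Finset V → ℝ)
    (g : (V → ZMod 3) → ℝ) (f : V → ZMod 3) :
    op I.m I.A z μ g f = (sys I hI z).op (fun f => μ (bz I.A z f)) g f := rfl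

/-- functions of `(B, S)`, `B ⊆ A`, which only depend on the restriction of the mode to
`kf m B` -/
def Gd (m : V → V → ℕ) (A : Finset V) (μ : Finset V → Finset V → ℝ) : Prop :=
  ∀ B ⊆ A, ∀ S S' : Finset V, (∀ T ∈ kf m B, chi S T = chi S' T) → μ B S = μ B S'

theorem adm_congr {m : V → V → ℕ} {B S S' : Finset V}
    (h : ∀ T ∈ kf m B, chi S T = chi S' T) : adm m B S = adm m B S' := by
  unfold adm
  ext T
  rw [mem_filter, mem_filter]
  refine and_congr_right fun hT => ?_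
  rw [← chi_eq_neg_one_iff, ← chi_eq_neg_one_iff, h T hT]

/-- `km` depends only on the family of admissible sets -/
theorem km_congr {m m' : V → V → ℕ} {ρ : V → ℝ} {B B' S S' : Finset V}
    (h : adm m B S = adm m' B' S') : km m ρ B S = km m' ρ B' S' := by
  have e : ∀ A A' : Finset (Finset V), A = A' →
      (if h : A.Nonempty then (exists_min_image A (fun T => ∑ u ∈ T, ρ u) h).choose else ∅)
      = (if h : A'.Nonempty then (exists_min_image A' (fun T => ∑ u ∈ T, ρ u) h).choose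
        else ∅) := by
    rintro A _ rfl
    rfl
  exact e _ _ h

/-- any function of `km` is good (so are `lam`, `cst`, `rr`) -/
theorem gd_km (m : V → V → ℕ) (A : Finset V) (ρ : V → ℝ) (Φ : Finset V → Finset V → ℝ) :
    Gd m A (fun B S => Φ B (km m ρ B S)) := by
  intro B _ S S' h
  show Φ B (km m ρ B S) = Φ B (km m ρ B S')
  rw [km_congr (ρ := ρ) (adm_congr h)]

theorem gd_lam (m : V → V → ℕ) (A : Finset V) (ρ : V → ℝ) : Gd m A (lam m ρ) :=
  gd_km m A ρ (fun _ T => 2 / ∑ u ∈ T, ρ u)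

theorem gd_cst (m : V → V → ℕ) (A : Finset V) (ρ s : V → ℝ) : Gd m A (cst m ρ s) :=
  gd_km m A ρ (fun _ T => (∑ u ∈ T, s u) * (2 / ∑ u ∈ T, ρ u) ^ 2)

theorem Gd.mul3 {I : Ins V} (hI : I.Ok) {μ : Finset V → Finset V → ℝ} (hμ : Gd I.m I.A μ)
    (z : ZMod 3) : Mul (sys I hI z) (fun f => μ (bz I.A z f)) := by
  refine ⟨fun f _ T hT S => ?_, fun f _ S S' h => hμ _ (bz_sub _ _ _) S S' h⟩
  show μ (bz I.A z (fz z T f)) S = μ (bz I.A z f) S
  rw [bz_fz (kf_sub hT)]

/-! The calculus for `op`. -/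

section calc3

variable {I : Ins V} (hI : I.Ok) (z : ZMod 3)

include hI

theorem op3_one (g : (V → ZMod 3) → ℝ) {f : V → ZMod 3} (hf : f ∈ I.Om) :
    op I.m I.A z (fun _ _ => 1) g f = g f :=
  (sys I hI z).op_one g hf

theorem op3_op {μ ν : Finset V → Finset V → ℝ} (hμ : Gd I.m I.A μ) (hν : Gd I.m I.A ν)
    (g : (V → ZMod 3) → ℝ) {f : V → ZMod 3} (hf : f ∈ I.Om) :
    op I.m I.A z μ (op I.m I.A z ν g) f = op I.m I.A z (fun B S => μ B S * ν B S) g f :=
  (sys I hI z).op_op (μ := fun f => μ (bz I.A z f)) (hν.mul3 hI z) g hf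

theorem op3_symm {μ : Finset V → Finset V → ℝ} (hμ : Gd I.m I.A μ) (g h : (V → ZMod 3) → ℝ) :
    ∑ f ∈ I.Om, h f * op I.m I.A z μ g f = ∑ f ∈ I.Om, g f * op I.m I.A z μ h f :=
  (sys I hI z).op_symm (hμ.mul3 hI z) h g

theorem op3_nonneg {μ : Finset V → Finset V → ℝ} (hμ : Gd I.m I.A μ)
    (h0 : ∀ B ⊆ I.A, ∀ S, 0 ≤ μ B S) (g : (V → ZMod 3) → ℝ) :
    0 ≤ ∑ f ∈ I.Om, g f * op I.m I.A z μ g f :=
  (sys I hI z).op_nonneg (hμ.mul3 hI z) (fun f _ S => h0 _ (bz_sub _ _ _) S) g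

theorem op3_congr {μ ν : Finset V → Finset V → ℝ} {g h : (V → ZMod 3) → ℝ}
    (hg : ∀ f ∈ I.Om, g f = h f) (hμ : ∀ B ⊆ I.A, ∀ S, μ B S = ν B S) {f : V → ZMod 3}
    (hf : f ∈ I.Om) : op I.m I.A z μ g f = op I.m I.A z ν h f := by
  unfold op cv
  congr 1
  refine Finset.sum_congr rfl fun S _ => ?_
  rw [hμ _ (bz_sub _ _ _) S]
  congr 1
  refine Finset.sum_congr rfl fun T hT => ?_
  show chi S T * g (fz z T f) = chi S T * h (fz z T f)
  rw [hg _ (fz_mem_Om hI hf hT)]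

end calc3

theorem op_add (m : V → V → ℕ) (A : Finset V) (z : ZMod 3) (μ : Finset V → Finset V → ℝ)
    (g h : (V → ZMod 3) → ℝ) (f : V → ZMod 3) :
    op m A z μ (fun f => g f + h f) f = op m A z μ g f + op m A z μ h f := by
  unfold op cv
  rw [← add_div, ← Finset.sum_add_distrib]
  congr 1
  refine Finset.sum_congr rfl fun S _ => ?_
  rw [← mul_add, ← Finset.sum_add_distrib]
  congr 1
  refine Finset.sum_congr rfl fun T _ => ?_
  ring

theorem op_smul (m : V → V → ℕ) (A : Finset V) (z : ZMod 3) (μ : Finset V → Finset V → ℝ)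
    (c : ℝ) (g : (V → ZMod 3) → ℝ) (f : V → ZMod 3) :
    op m A z μ (fun f => c * g f) f = c * op m A z μ g f := by
  unfold op cv
  rw [mul_div_assoc', Finset.mul_sum]
  congr 1
  refine Finset.sum_congr rfl fun S _ => ?_
  have : ∑ T ∈ kf m (bz A z f), chi S T * (c * g (fz z T f))
      = c * ∑ T ∈ kf m (bz A z f), chi S T * g (fz z T f) := by
    rw [Finset.mul_sum]
    refine Finset.sum_congr rfl fun T _ => ?_
    ring
  rw [this]
  ring

theorem op_mu_add (m : V → V → ℕ) (A : Finset V) (z : ZMod 3) (μ ν : Finset V → Finset V → ℝ)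
    (g : (V → ZMod 3) → ℝ) (f : V → ZMod 3) :
    op m A z (fun B S => μ B S + ν B S) g f = op m A z μ g f + op m A z ν g f := by
  unfold op cv
  rw [← add_div, ← Finset.sum_add_distrib]
  congr 1
  refine Finset.sum_congr rfl fun S _ => ?_
  ring

theorem op_mu_smul (m : V → V → ℕ) (A : Finset V) (z : ZMod 3) (c : ℝ)
    (μ : Finset V → Finset V → ℝ) (g : (V → ZMod 3) → ℝ) (f : V → ZMod 3) :
    op m A z (fun B S => c * μ B S) g f = c * op m A z μ g f := by
  unfold op cv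
  rw [mul_div_assoc', Finset.mul_sum]
  congr 1
  refine Finset.sum_congr rfl fun S _ => ?_
  ring

end Pool.Agent.Nest
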